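import Pool.Agent.H.MP_4c7af0_al.NF.S1a

/-! Step 2, part a (MP_4c7af0_al, number field case): explicit elements of `E(N)`. -/

namespace BoomNF

set_option linter.unusedSimpArgs false
set_option linter.unusedVariables false

open NumberField

section field

variable {F : Type*} [Field F] {A : Subring F}

/-- `dg ε ∈ E(N)` if `ε ≡ 1 mod N²`. (`dg (1 + r s) = v(-s/(1+rs)) u(r) v(s) u(-r/(1+rs))` with
`r = N`, `s = (ε - 1) / N`. Template: `Boom4c.Step2.t_mem`.) -/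
theorem t_mem {N ε : F} (hN : N ∈ A) (hN0 : N ≠ 0) (hε0 : ε ≠ 0) (hε : ε ∈ A) (hεi : ε⁻¹ ∈ A)
    (h : (ε - 1) / N ^ 2 ∈ A) : dg ε ∈ E A N := by
  obtain ⟨w, hw⟩ : ∃ w, w = (ε - 1) / N ^ 2 := ⟨_, rfl⟩
  rw [← hw] at h
  have he : ε = 1 + N * (N * w) := by
    rw [hw]
    field_simp
    ring
  have key : dg ε = v (-(N * w) * ε⁻¹) * u N * v (N * w) * u (-N * ε⁻¹) := by
    apply ext4
    · rw [dg_00 hε0]
      simp only [mul_app, u_00, u_01, u_10, u_11, v_00, v_01, v_10, v_11]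
      linear_combination he
    · rw [dg_01 hε0]
      simp only [mul_app, u_00, u_01, u_10, u_11, v_00, v_01, v_10, v_11]
      have h1 : ε * ε⁻¹ = 1 := mul_inv_cancel₀ hε0
      linear_combination N * h1 - N * ε⁻¹ * he
    · rw [dg_10 hε0]
      simp only [mul_app, u_00, u_01, u_10, u_11, v_00, v_01, v_10, v_11]
      have h1 : ε * ε⁻¹ = 1 := mul_inv_cancel₀ hε0
      linear_combination (N * w) * h1 - (N * w) * ε⁻¹ * he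
    · rw [dg_11 hε0]
      simp only [mul_app, u_00, u_01, u_10, u_11, v_00, v_01, v_10, v_11]
      have h1 : ε * ε⁻¹ = 1 := mul_inv_cancel₀ hε0
      linear_combination (1 - N * ε⁻¹ * (N * w)) * h1 - (ε⁻¹ - N * ε⁻¹ * (N * w) * ε⁻¹) * he
  rw [key]
  refine (E A N).mul_mem ((E A N).mul_mem ((E A N).mul_mem ?_ ?_) ?_) ?_
  · apply v_mem_E hN0
    have e : -(N * w) * ε⁻¹ / N = -(w * ε⁻¹) := by field_simp
    rw [e]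
    exact A.neg_mem (A.mul_mem h hεi)
  · apply u_mem_E hN0
    rw [div_self hN0]
    exact A.one_mem
  · apply v_mem_E hN0
    have e : N * w / N = w := by field_simp
    rw [e]
    exact h
  · apply u_mem_E hN0
    have e : -N * ε⁻¹ / N = -ε⁻¹ := by field_simp
    rw [e]
    exact A.neg_mem hεi

/-- upper triangular matrix with diagonal `ε, 1/ε` which fixes `-t` -/
noncomputable def s2a_P (ε t : F) : SL2 F := u (-t) * dg ε * u t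

theorem s2a_P_00 {ε : F} (h : ε ≠ 0) (t : F) : s2a_P ε t 0 0 = ε := by
  unfold s2a_P
  simp only [mul_app, u_00, u_01, u_10, u_11, dg_00 h, dg_01 h, dg_10 h, dg_11 h]
  ring

theorem s2a_P_01 {ε : F} (h : ε ≠ 0) (t : F) : s2a_P ε t 0 1 = (ε - ε⁻¹) * t := by
  unfold s2a_P
  simp only [mul_app, u_00, u_01, u_10, u_11, dg_00 h, dg_01 h, dg_10 h, dg_11 h]
  ring

theorem s2a_P_10 {ε : F} (h : ε ≠ 0) (t : F) : s2a_P ε t 1 0 = 0 := by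
  unfold s2a_P
  simp only [mul_app, u_00, u_01, u_10, u_11, dg_00 h, dg_01 h, dg_10 h, dg_11 h]
  ring

theorem s2a_P_11 {ε : F} (h : ε ≠ 0) (t : F) : s2a_P ε t 1 1 = ε⁻¹ := by
  unfold s2a_P
  simp only [mul_app, u_00, u_01, u_10, u_11, dg_00 h, dg_01 h, dg_10 h, dg_11 h]
  ring

theorem s2a_comm {ε₁ ε₂ : F} (h₁ : ε₁ ≠ 0) (h₂ : ε₂ ≠ 0) (t₁ t₂ : F) :
    s2a_P ε₁ t₁ * s2a_P ε₂ t₂ * (s2a_P ε₁ t₁)⁻¹ * (s2a_P ε₂ t₂)⁻¹ =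
      u ((ε₁ ^ 2 - 1) * (ε₂ ^ 2 - 1) * (t₂ - t₁)) := by
  have key : s2a_P ε₁ t₁ * s2a_P ε₂ t₂ =
      u ((ε₁ ^ 2 - 1) * (ε₂ ^ 2 - 1) * (t₂ - t₁)) * (s2a_P ε₂ t₂ * s2a_P ε₁ t₁) := by
    apply ext4 <;> simp only [mul_app, u_00, u_01, u_10, u_11, s2a_P_00 h₁, s2a_P_01 h₁,
      s2a_P_10 h₁, s2a_P_11 h₁, s2a_P_00 h₂, s2a_P_01 h₂, s2a_P_10 h₂, s2a_P_11 h₂] <;>
      field_simp <;> ring
  rw [key]
  group

/-- the conjugate of `τ` is `s2a_P` -/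
theorem s2a_conj {ε s : F} (hε0 : ε ≠ 0) (g : SL2 F) (hα : g 0 0 ≠ 0)
    (hs : s = (ε ^ 2 - 1) * g 1 0 / g 0 0) :
    g⁻¹ * (dg ε * v s) * g = s2a_P ε (g 0 1 / g 0 0) := by
  have hd := det_eq g
  have hδ : g 1 1 = (1 + g 0 1 * g 1 0) / g 0 0 := by
    rw [eq_div_iff hα]
    linear_combination hd
  rw [hs]
  apply ext4
  · rw [s2a_P_00 hε0]
    simp only [mul_app, inv00, inv01, inv10, inv11, v_00, v_01, v_10, v_11, dg_00 hε0, dg_01 hε0,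
      dg_10 hε0, dg_11 hε0, hδ]
    field_simp
    ring
  · rw [s2a_P_01 hε0]
    simp only [mul_app, inv00, inv01, inv10, inv11, v_00, v_01, v_10, v_11, dg_00 hε0, dg_01 hε0,
      dg_10 hε0, dg_11 hε0, hδ]
    field_simp
    ring
  · rw [s2a_P_10 hε0]
    simp only [mul_app, inv00, inv01, inv10, inv11, v_00, v_01, v_10, v_11, dg_00 hε0, dg_01 hε0,
      dg_10 hε0, dg_11 hε0, hδ]
    field_simp
    ring
  · rw [s2a_P_11 hε0]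
    simp only [mul_app, inv00, inv01, inv10, inv11, v_00, v_01, v_10, v_11, dg_00 hε0, dg_01 hε0,
      dg_10 hε0, dg_11 hε0, hδ]
    field_simp
    ring

theorem s2a_u00 (t : F) (g : SL2 F) : (u t * g) 0 0 = g 0 0 + t * g 1 0 := by
  rw [mul_app, u_00, u_01, one_mul]

theorem s2a_u01 (t : F) (g : SL2 F) : (u t * g) 0 1 = g 0 1 + t * g 1 1 := by
  rw [mul_app, u_00, u_01, one_mul]

theorem s2a_u10 (t : F) (g : SL2 F) : (u t * g) 1 0 = g 1 0 := by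
  rw [mul_app, u_10, u_11, one_mul, zero_mul, zero_add]

/-- the conjugate of `P` is in `E(N)` -/
theorem s2a_mem {N y ε : F} (hN : N ∈ A) (hN0 : N ≠ 0) (hy : y ∈ A) (hε0 : ε ≠ 0) (hε : ε ∈ A)
    (hεi : ε⁻¹ ∈ A) (h : (ε - 1) / N ^ 2 ∈ A) {g : SL2 F} (hg : g ∈ GN A N)
    (hα : g 0 0 + N * y * g 1 0 ≠ 0) (hd : (ε ^ 2 - 1) / (g 0 0 + N * y * g 1 0) ∈ A) :
    (u (N * y) * g)⁻¹ * (dg ε * v ((ε ^ 2 - 1) * g 1 0 / (g 0 0 + N * y * g 1 0))) *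
        (u (N * y) * g) = s2a_P ε ((g 0 1 + N * y * g 1 1) / (g 0 0 + N * y * g 1 0)) ∧
      g * s2a_P ε ((g 0 1 + N * y * g 1 1) / (g 0 0 + N * y * g 1 0)) * g⁻¹ ∈ E A N := by
  have e1 := s2a_conj (s := (ε ^ 2 - 1) * g 1 0 / (g 0 0 + N * y * g 1 0)) hε0 (u (N * y) * g)
    (by rw [s2a_u00]; exact hα) (by rw [s2a_u00, s2a_u10])
  rw [s2a_u00, s2a_u01] at e1
  refine ⟨e1, ?_⟩
  rw [← e1]
  have e2 : g * ((u (N * y) * g)⁻¹ * (dg ε * v ((ε ^ 2 - 1) * g 1 0 / (g 0 0 + N * y * g 1 0))) *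
      (u (N * y) * g)) * g⁻¹ =
      (u (N * y))⁻¹ * (dg ε * v ((ε ^ 2 - 1) * g 1 0 / (g 0 0 + N * y * g 1 0))) * u (N * y) := by
    group
  rw [e2]
  have hu : u (N * y) ∈ E A N := u_mem_E hN0 (by rw [mul_div_cancel_left₀ _ hN0]; exact hy)
  refine (E A N).mul_mem ((E A N).mul_mem ((E A N).inv_mem hu)
    ((E A N).mul_mem (t_mem hN hN0 hε0 hε hεi h) (v_mem_E hN0 ?_))) hu
  have e3 : (ε ^ 2 - 1) * g 1 0 / (g 0 0 + N * y * g 1 0) / N =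
      (ε ^ 2 - 1) / (g 0 0 + N * y * g 1 0) * (g 1 0 / N) := by
    field_simp
  rw [e3]
  exact A.mul_mem hd hg.2.2.2.1

/-- Let `g ∈ Γ(N)` and `α = g 0 0 + N y (g 1 0) ≠ 0` (`y ∈ A`), `ε` a unit `≡ 1 mod N²` with
`α ∣ ε² - 1`. Put `g₁ = u(N y) g` (first column `(α, γ)`, `γ = g 1 0`),
`τ = dg(ε) v((ε² - 1) γ / α) ∈ E(N)`. Then `τ (α, γ)ᵀ = ε (α, γ)ᵀ`, so `P = g₁⁻¹ τ g₁` is upper
triangular with `P 0 0 = ε`; and `g P g⁻¹ = u(-N y) τ u(N y) ∈ E(N)`. The upper right entry of `P` is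
`(ε⁻¹ - ε) δ'`-like: see the second statement. -/
theorem exists_P {N y ε : F} (hN : N ∈ A) (hN0 : N ≠ 0) (hy : y ∈ A) (hε0 : ε ≠ 0) (hε : ε ∈ A)
    (hεi : ε⁻¹ ∈ A) (h : (ε - 1) / N ^ 2 ∈ A) {g : SL2 F} (hg : g ∈ GN A N)
    (hα : g 0 0 + N * y * g 1 0 ≠ 0) (hd : (ε ^ 2 - 1) / (g 0 0 + N * y * g 1 0) ∈ A) :
    ∃ P : SL2 F, g * P * g⁻¹ ∈ E A N ∧ P 1 0 = 0 ∧ P 0 0 = ε ∧
      P = (u (N * y) * g)⁻¹ * (dg ε * v ((ε ^ 2 - 1) * g 1 0 / (g 0 0 + N * y * g 1 0))) *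
        (u (N * y) * g) := by
  obtain ⟨h1, h2⟩ := s2a_mem hN hN0 hy hε0 hε hεi h hg hα hd
  exact ⟨_, h2, s2a_P_10 hε0 _, s2a_P_00 hε0 _, h1.symm⟩

/-- `(2a)`. With `P₁, P₂` from `exists_P` for `(y₁, ε₁)`, `(y₂, ε₂)` one computes
`P₁ P₂ P₁⁻¹ P₂⁻¹ = u(-Y)`,
`Y = (ε₁² - 1) (ε₂² - 1) (α₁ - α₂) / (γ α₁ α₂)`, `γ = g 1 0`, `α_i = g 0 0 + N y_i γ`
(checked by computer; if the sign comes out differently take the inverse). -/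
theorem comm_mem {N y₁ y₂ ε₁ ε₂ : F} (hN : N ∈ A) (hN0 : N ≠ 0) (hy₁ : y₁ ∈ A) (hy₂ : y₂ ∈ A)
    (hε₁0 : ε₁ ≠ 0) (hε₁ : ε₁ ∈ A) (hε₁i : ε₁⁻¹ ∈ A) (h₁ : (ε₁ - 1) / N ^ 2 ∈ A)
    (hε₂0 : ε₂ ≠ 0) (hε₂ : ε₂ ∈ A) (hε₂i : ε₂⁻¹ ∈ A) (h₂ : (ε₂ - 1) / N ^ 2 ∈ A)
    {g : SL2 F} (hg : g ∈ GN A N) (hγ : g 1 0 ≠ 0)
    (hα₁ : g 0 0 + N * y₁ * g 1 0 ≠ 0) (hd₁ : (ε₁ ^ 2 - 1) / (g 0 0 + N * y₁ * g 1 0) ∈ A)
    (hα₂ : g 0 0 + N * y₂ * g 1 0 ≠ 0) (hd₂ : (ε₂ ^ 2 - 1) / (g 0 0 + N * y₂ * g 1 0) ∈ A) :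
    g * u ((ε₁ ^ 2 - 1) * (ε₂ ^ 2 - 1) *
      ((g 0 0 + N * y₁ * g 1 0) - (g 0 0 + N * y₂ * g 1 0)) /
      (g 1 0 * (g 0 0 + N * y₁ * g 1 0) * (g 0 0 + N * y₂ * g 1 0))) * g⁻¹ ∈ E A N := by
  obtain ⟨-, m₁⟩ := s2a_mem hN hN0 hy₁ hε₁0 hε₁ hε₁i h₁ hg hα₁ hd₁
  obtain ⟨-, m₂⟩ := s2a_mem hN hN0 hy₂ hε₂0 hε₂ hε₂i h₂ hg hα₂ hd₂
  obtain ⟨P₁, hP₁⟩ : ∃ P, P = s2a_P ε₁ ((g 0 1 + N * y₁ * g 1 1) / (g 0 0 + N * y₁ * g 1 0)) :=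
    ⟨_, rfl⟩
  obtain ⟨P₂, hP₂⟩ : ∃ P, P = s2a_P ε₂ ((g 0 1 + N * y₂ * g 1 1) / (g 0 0 + N * y₂ * g 1 0)) :=
    ⟨_, rfl⟩
  have hc : P₁ * P₂ * P₁⁻¹ * P₂⁻¹ = u ((ε₁ ^ 2 - 1) * (ε₂ ^ 2 - 1) *
      ((g 0 1 + N * y₂ * g 1 1) / (g 0 0 + N * y₂ * g 1 0) -
        (g 0 1 + N * y₁ * g 1 1) / (g 0 0 + N * y₁ * g 1 0))) := by
    rw [hP₁, hP₂]
    exact s2a_comm hε₁0 hε₂0 _ _
  rw [← hP₁] at m₁
  rw [← hP₂] at m₂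
  have hdet := det_eq g
  have e1 : (ε₁ ^ 2 - 1) * (ε₂ ^ 2 - 1) *
      ((g 0 0 + N * y₁ * g 1 0) - (g 0 0 + N * y₂ * g 1 0)) /
      (g 1 0 * (g 0 0 + N * y₁ * g 1 0) * (g 0 0 + N * y₂ * g 1 0)) =
      -((ε₁ ^ 2 - 1) * (ε₂ ^ 2 - 1) *
      ((g 0 1 + N * y₂ * g 1 1) / (g 0 0 + N * y₂ * g 1 0) -
        (g 0 1 + N * y₁ * g 1 1) / (g 0 0 + N * y₁ * g 1 0))) := by
    have e2 : (g 0 1 + N * y₂ * g 1 1) / (g 0 0 + N * y₂ * g 1 0) -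
        (g 0 1 + N * y₁ * g 1 1) / (g 0 0 + N * y₁ * g 1 0) =
        N * (y₂ - y₁) / ((g 0 0 + N * y₁ * g 1 0) * (g 0 0 + N * y₂ * g 1 0)) := by
      rw [div_sub_div _ _ hα₂ hα₁, div_eq_div_iff (mul_ne_zero hα₂ hα₁) (mul_ne_zero hα₁ hα₂)]
      linear_combination (N * (y₂ - y₁) * (g 0 0 + N * y₁ * g 1 0) *
        (g 0 0 + N * y₂ * g 1 0)) * hdet
    rw [e2]
    field_simp
    ring
  rw [e1, ← u_inv, ← hc]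
  have e3 : g * (P₁ * P₂ * P₁⁻¹ * P₂⁻¹)⁻¹ * g⁻¹ =
      ((g * P₁ * g⁻¹) * (g * P₂ * g⁻¹) * (g * P₁ * g⁻¹)⁻¹ * (g * P₂ * g⁻¹)⁻¹)⁻¹ := by
    group
  rw [e3]
  exact (E A N).inv_mem ((E A N).mul_mem ((E A N).mul_mem ((E A N).mul_mem m₁ m₂)
    ((E A N).inv_mem m₁)) ((E A N).inv_mem m₂))

end field

variable {K : Type*} [Field K] [NumberField K] {A : Subring K}

/-- `(2b)`: `I_g = {x | g u(x) g⁻¹ ∈ E(N)}` is stable under a power of every unit of `A`. Proof: choose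
`y ∈ {0, 1}` with `α = g 0 0 + N y (g 1 0) ≠ 0` and (`unit_pow`) `k ≥ 1` with
`ε^k ≡ 1 mod N²`, `ε^k ≡ 1 mod α`; then `exists_P` for `ε^k` gives `P` with `P u(x) P⁻¹ = u(ε^(2k) x)`
and `g P g⁻¹ ∈ E(N)`. -/
theorem SRing.I_stable (hA : SRing A) {N : K} (hN : N ∈ A) (hN0 : N ≠ 0) {g : SL2 K}
    (hg : g ∈ GN A N) {ε : K} (hε0 : ε ≠ 0) (hε : ε ∈ A) (hεi : ε⁻¹ ∈ A) :
    ∃ l : ℕ, 0 < l ∧ ∀ x : K, g * u x * g⁻¹ ∈ E A N →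
      g * u (ε ^ l * x) * g⁻¹ ∈ E A N ∧ g * u ((ε ^ l)⁻¹ * x) * g⁻¹ ∈ E A N := by
  obtain ⟨y, hy, hα⟩ : ∃ y ∈ A, g 0 0 + N * y * g 1 0 ≠ 0 := by
    by_cases h0 : g 0 0 = 0
    · refine ⟨1, A.one_mem, ?_⟩
      have hd := det_eq g
      rw [h0, zero_mul, zero_sub] at hd
      have h1 : g 1 0 ≠ 0 := by
        intro h
        rw [h, mul_zero, neg_zero] at hd
        exact zero_ne_one hd
      rw [h0, zero_add, mul_one]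
      exact mul_ne_zero hN0 h1
    · exact ⟨0, A.zero_mem, by rwa [mul_zero, zero_mul, add_zero]⟩
  have hαA : g 0 0 + N * y * g 1 0 ∈ A :=
    A.add_mem (hg.1 0 0) (A.mul_mem (A.mul_mem hN hy) (hg.1 1 0))
  obtain ⟨α, hαdef⟩ : ∃ α, α = g 0 0 + N * y * g 1 0 := ⟨_, rfl⟩
  rw [← hαdef] at hα hαA
  have hN2 : N ^ 2 ∈ A := A.pow_mem hN 2
  have hN20 : N ^ 2 ≠ 0 := pow_ne_zero 2 hN0
  obtain ⟨k, hk, hk1⟩ := hA.unit_pow hε0 hε hεi (A.mul_mem hN2 hαA) (mul_ne_zero hN20 hα)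
  have hη0 : ε ^ k ≠ 0 := pow_ne_zero k hε0
  have hη : ε ^ k ∈ A := A.pow_mem hε k
  have hηi : (ε ^ k)⁻¹ ∈ A := by
    rw [← inv_pow]
    exact A.pow_mem hεi k
  have h1 : (ε ^ k - 1) / N ^ 2 ∈ A := by
    have e : (ε ^ k - 1) / N ^ 2 = (ε ^ k - 1) / (N ^ 2 * α) * α := by field_simp
    rw [e]
    exact A.mul_mem hk1 hαA
  have h2 : ((ε ^ k) ^ 2 - 1) / α ∈ A := by
    have e : ((ε ^ k) ^ 2 - 1) / α = (ε ^ k - 1) / (N ^ 2 * α) * N ^ 2 * (ε ^ k + 1) := by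
      field_simp
      ring
    rw [e]
    exact A.mul_mem (A.mul_mem hk1 hN2) (A.add_mem hη A.one_mem)
  rw [hαdef] at hα h2
  obtain ⟨-, hm⟩ := s2a_mem hN hN0 hy hη0 hη hηi h1 hg hα h2
  obtain ⟨P, hP⟩ : ∃ P, P = s2a_P (ε ^ k) ((g 0 1 + N * y * g 1 1) / (g 0 0 + N * y * g 1 0)) :=
    ⟨_, rfl⟩
  rw [← hP] at hm
  have hc : ∀ x : K, P * u x = u (ε ^ (2 * k) * x) * P := by
    intro x
    have e : ε ^ (2 * k) = (ε ^ k) ^ 2 := by rw [← pow_mul, mul_comm]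
    rw [e, hP]
    apply ext4 <;> simp only [mul_app, u_00, u_01, u_10, u_11, s2a_P_00 hη0, s2a_P_01 hη0,
      s2a_P_10 hη0, s2a_P_11 hη0] <;> field_simp <;> ring
  refine ⟨2 * k, by omega, fun x hx => ⟨?_, ?_⟩⟩
  · have e : g * u (ε ^ (2 * k) * x) * g⁻¹ =
        (g * P * g⁻¹) * (g * u x * g⁻¹) * (g * P * g⁻¹)⁻¹ := by
      have e1 : u (ε ^ (2 * k) * x) = P * u x * P⁻¹ := by rw [hc]; group
      rw [e1]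
      group
    rw [e]
    exact (E A N).mul_mem ((E A N).mul_mem hm hx) ((E A N).inv_mem hm)
  · have e : g * u ((ε ^ (2 * k))⁻¹ * x) * g⁻¹ =
        (g * P * g⁻¹)⁻¹ * (g * u x * g⁻¹) * (g * P * g⁻¹) := by
      have e1 := hc ((ε ^ (2 * k))⁻¹ * x)
      rw [mul_inv_cancel_left₀ (pow_ne_zero _ hε0)] at e1
      have e2 : u ((ε ^ (2 * k))⁻¹ * x) = P⁻¹ * u x * P := by
        rw [mul_assoc, ← e1]
        group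
      rw [e2]
      group
    rw [e]
    exact (E A N).mul_mem ((E A N).mul_mem ((E A N).inv_mem hm) hx) hm

end BoomNF
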