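import Pool.Agent.H.MP_4c7af0_al.NF.S2b

/-! Step 2, part c1: STAR for every prime (MP_4c7af0_al, number field case). -/

namespace BoomNF

open NumberField

variable {K : Type*} [Field K] [NumberField K] {A : Subring K}

omit [NumberField K] in
/-- powers of `e` minus one are in `A` -/
theorem s2c1_pow_mem {e : K} (he : e ∈ A) (k : ℕ) : e ^ k - 1 ∈ A :=
  A.sub_mem (A.pow_mem he k) A.one_mem

omit [NumberField K] in
/-- the statement about `τ` -/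
theorem s2c1_tau {e : K} (he0 : e ≠ 0) (he : e ∈ A) (hei : e⁻¹ ∈ A) {h N K₀ o W m : ℕ} {P : K}
    (hP : P ≠ 0) (heo : (e ^ o - 1) / P ∈ A) (hoW : o ∣ W) (hg : Nat.gcd m W ∣ h * N ^ 2) :
    ∃ x ∈ A, ∃ y ∈ A, e ^ (2 * K₀ * h * N ^ 2) - 1 = (e ^ (2 * K₀ * m) - 1) * x + P * y := by
  have h1 : Nat.gcd (2 * K₀ * m) o ∣ 2 * K₀ * h * N ^ 2 := by
    have h2 : Nat.gcd (2 * K₀ * m) o ∣ Nat.gcd (2 * K₀) o * Nat.gcd m o := by
      have h3 := Nat.gcd_mul_right_dvd_mul_gcd o (2 * K₀) m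
      rw [Nat.gcd_comm (2 * K₀ * m) o, Nat.gcd_comm (2 * K₀) o, Nat.gcd_comm m o]
      exact h3
    have h4 : Nat.gcd m o ∣ h * N ^ 2 := (Nat.gcd_dvd_gcd_of_dvd_right m hoW).trans hg
    have h5 : 2 * K₀ * h * N ^ 2 = (2 * K₀) * (h * N ^ 2) := by ring
    rw [h5]
    exact h2.trans (mul_dvd_mul (Nat.gcd_dvd_left _ _) h4)
  obtain ⟨x, hx, y, hy, hxy⟩ := tau_mem he0 he hei h1
  refine ⟨x, hx, (e ^ o - 1) / P * y, A.mul_mem heo hy, ?_⟩
  rw [hxy]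
  field_simp

/-- STAR for every prime: there are `b` and `κ` independent of `g`, `ν`;
`τ = e^(2 K₀ h N²) - 1 ∈ κ A + p^r A`. Proof: `o ≥ 1` with `e^o ≡ 1 mod p^r` (`unit_pow`), `u'` from
`exists_z` with `R = N`, `W = p o`; `w = p N² o`, `j = 1`; `star_gen` (every prime dividing `w p`
divides `W N`, so `u'` is prime to `w p` by `z_props`; `p ∣ w`, so `u' + w` is prime to `p`). `τ`:
`gcd(2 K₀ (u'^h - 1), o) ∣ 2 K₀ gcd(u'^h - 1, o) ∣ 2 K₀ h N²` by `z_props`; `tau_mem`. -/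
theorem SRing.star (hA : SRing A) {e : K} (hE : InfUnit A e) {h : ℕ} (hF : FrobH A h) {N : ℕ}
    (hN : 0 < N) (hhN : (h + 1).factorial ∣ N) {K₀ : ℕ} (hK₀ : 0 < K₀)
    (hK : (e ^ K₀ - 1) / (N : K) ^ 2 ∈ A) {p : ℕ} (hp : p.Prime) {r : ℕ} (hr : 0 < r) :
    ∃ b : ℕ, ∃ κ ∈ A, (∃ x ∈ A, ∃ y ∈ A, e ^ (2 * K₀ * h * N ^ 2) - 1 = κ * x + (p : K) ^ r * y) ∧
      ∀ g ∈ GN A ((N : K) ^ 2), ∀ ν ∈ A, Cop A ν (p : K) →
      ∃ Y ∈ A, g * u Y * g⁻¹ ∈ E A (N : K) ∧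
        (ν * Y - (p : K) ^ b * κ ^ 2) / (p : K) ^ (b + r) ∈ A := by
  have hp0 : (p : K) ≠ 0 := by exact_mod_cast hp.ne_zero
  have hpr0 : (p : K) ^ r ≠ 0 := pow_ne_zero r hp0
  obtain ⟨o, ho, heo⟩ := hA.unit_pow hE.ne hE.mem hE.inv_mem
    (α := (p : K) ^ r) (A.pow_mem (natCast_mem A p) r) hpr0
  have hW : 0 < p * o := Nat.mul_pos hp.pos ho
  obtain ⟨z, hz0, hz1, hz2⟩ := exists_z hN hF.pos hhN hW
  obtain ⟨hz3, hz4⟩ := z_props hN hF.pos hhN hW hz0 hz1 hz2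
  have hcN : Nat.Coprime z N := Nat.Coprime.coprime_mul_left_right hz3
  have hcpo : Nat.Coprime z (p * o) := Nat.Coprime.coprime_mul_right_right hz3
  have hcp : Nat.Coprime z p := Nat.Coprime.coprime_mul_right_right hcpo
  have hco : Nat.Coprime z o := Nat.Coprime.coprime_mul_left_right hcpo
  have huN : (N : ℤ) ^ 2 ∣ (z : ℤ) - 1 := by
    have h1 : (N : ℤ) ^ 2 ∣ (z : ℤ) - 1 - (N : ℤ) ^ 2 :=
      (pow_dvd_pow (N : ℤ) (by norm_num : 2 ≤ 3)).trans hz1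
    have h2 := dvd_add h1 (dvd_refl ((N : ℤ) ^ 2))
    rwa [sub_add_cancel] at h2
  set w : ℕ := p * N ^ 2 * o with hw
  have hw0 : 0 < w := Nat.mul_pos (Nat.mul_pos hp.pos (pow_pos hN 2)) ho
  have huw : Nat.Coprime z (w * p) := by
    refine Nat.Coprime.mul_right (Nat.Coprime.mul_right (Nat.Coprime.mul_right hcp ?_) hco) hcp
    exact Nat.Coprime.pow_right 2 hcN
  have hj' : Nat.Coprime (z + 1 * w) p := by
    have h1 : z + 1 * w = z + p * (N ^ 2 * o) := by rw [hw]; ring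
    rw [h1]
    exact (Nat.coprime_add_mul_left_left z p _).2 hcp
  refine ⟨padicValNat p w - padicValNat p N, e ^ (2 * K₀ * (z ^ h - 1)) - 1,
    s2c1_pow_mem hE.mem _, ?_, ?_⟩
  · exact s2c1_tau hE.ne hE.mem hE.inv_mem hpr0 heo (Dvd.intro_left p rfl) hz4
  · intro g hg ν hν hνp
    exact hA.star_gen hE hF hN hK₀ hK hp hr ho hw0 (Dvd.intro_left _ rfl)
      ⟨p * o, by rw [hw]; ring⟩ heo hz0 huN huw (Nat.coprime_one_left p) hj' hg hν hνp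

/-- STAR₀ for large primes: `b = 0`, `r = 1`. Proof: `o = p^h - 1` (`e^o ≡ 1 mod p` by `FrobH.unit`;
`o` is prime to `p`), `w = N² o` prime to `p` (`p > N`), `u'` from `exists_z` with `R = N`, `W = p o`;
`j ∈ {1, 2}` such that `u' + j w` is prime to `p` (`p ≥ 3`); `star_gen` with `r = 1`:
`v_p(w) = 0 = v_p(N)`. `τ` as in `star`. -/
theorem SRing.star₀ (hA : SRing A) {e : K} (hE : InfUnit A e) {h : ℕ} (hF : FrobH A h) {N : ℕ}
    (hN : 0 < N) (hhN : (h + 1).factorial ∣ N) {K₀ : ℕ} (hK₀ : 0 < K₀)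
    (hK : (e ^ K₀ - 1) / (N : K) ^ 2 ∈ A) :
    ∃ B : ℕ, ∀ p : ℕ, p.Prime → B < p → ∃ κ ∈ A,
      (∃ x ∈ A, ∃ y ∈ A, e ^ (2 * K₀ * h * N ^ 2) - 1 = κ * x + (p : K) * y) ∧
      ∀ g ∈ GN A ((N : K) ^ 2), ∀ ν ∈ A, Cop A ν (p : K) →
      ∃ Y ∈ A, g * u Y * g⁻¹ ∈ E A (N : K) ∧ (ν * Y - κ ^ 2) / (p : K) ∈ A := by
  obtain ⟨B₁, hB₁⟩ := hF.unit hE.ne hE.mem hE.inv_mem
  refine ⟨max B₁ (max N 2), fun p hp hBp => ?_⟩
  have hpB₁ : B₁ < p := lt_of_le_of_lt (le_max_left _ _) hBp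
  have hpN : N < p := lt_of_le_of_lt ((le_max_left _ _).trans (le_max_right _ _)) hBp
  have hp2 : 2 < p := lt_of_le_of_lt ((le_max_right _ _).trans (le_max_right _ _)) hBp
  have hp0 : (p : K) ≠ 0 := by exact_mod_cast hp.ne_zero
  set o : ℕ := p ^ h - 1 with hodef
  have hph : p ≤ p ^ h := Nat.le_self_pow hF.pos.ne' p
  have ho : 0 < o := by omega
  have hop : Nat.Coprime o p := by
    rw [Nat.coprime_comm, Nat.Prime.coprime_iff_not_dvd hp]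
    intro hdiv
    have h1 : p ∣ p ^ h := dvd_pow_self p hF.pos.ne'
    have h2 : p ^ h = o + 1 := by omega
    rw [h2] at h1
    have h3 := (Nat.dvd_add_right hdiv).1 h1
    exact hp.one_lt.ne' (Nat.dvd_one.1 h3)
  have hNp : Nat.Coprime N p := by
    rw [Nat.coprime_comm, Nat.Prime.coprime_iff_not_dvd hp]
    intro hdiv
    exact absurd (Nat.le_of_dvd hN hdiv) (not_le.2 hpN)
  have heo : (e ^ o - 1) / (p : K) ^ 1 ∈ A := by
    rw [pow_one]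
    exact hB₁ p hp hpB₁
  have hW : 0 < p * o := Nat.mul_pos hp.pos ho
  obtain ⟨z, hz0, hz1, hz2⟩ := exists_z hN hF.pos hhN hW
  obtain ⟨hz3, hz4⟩ := z_props hN hF.pos hhN hW hz0 hz1 hz2
  have hcN : Nat.Coprime z N := Nat.Coprime.coprime_mul_left_right hz3
  have hcpo : Nat.Coprime z (p * o) := Nat.Coprime.coprime_mul_right_right hz3
  have hcp : Nat.Coprime z p := Nat.Coprime.coprime_mul_right_right hcpo
  have hco : Nat.Coprime z o := Nat.Coprime.coprime_mul_left_right hcpo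
  have huN : (N : ℤ) ^ 2 ∣ (z : ℤ) - 1 := by
    have h1 : (N : ℤ) ^ 2 ∣ (z : ℤ) - 1 - (N : ℤ) ^ 2 :=
      (pow_dvd_pow (N : ℤ) (by norm_num : 2 ≤ 3)).trans hz1
    have h2 := dvd_add h1 (dvd_refl ((N : ℤ) ^ 2))
    rwa [sub_add_cancel] at h2
  set w : ℕ := N ^ 2 * o with hw
  have hw0 : 0 < w := Nat.mul_pos (pow_pos hN 2) ho
  have hwp : Nat.Coprime w p := Nat.Coprime.mul_left (Nat.Coprime.pow_left 2 hNp) hop
  have huw : Nat.Coprime z (w * p) :=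
    Nat.Coprime.mul_right (Nat.Coprime.mul_right (Nat.Coprime.pow_right 2 hcN) hco) hcp
  obtain ⟨j, hj, hj'⟩ : ∃ j : ℕ, Nat.Coprime j p ∧ Nat.Coprime (z + j * w) p := by
    by_cases h1 : Nat.Coprime (z + 1 * w) p
    · exact ⟨1, Nat.coprime_one_left p, h1⟩
    · refine ⟨2, ?_, ?_⟩
      · rw [Nat.coprime_comm, Nat.Prime.coprime_iff_not_dvd hp]
        intro hdiv
        exact absurd (Nat.le_of_dvd (by norm_num) hdiv) (not_le.2 hp2)
      · by_contra h2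
        rw [Nat.coprime_comm, Nat.Prime.coprime_iff_not_dvd hp, not_not] at h1 h2
        have h3 : z + 2 * w = (z + 1 * w) + w := by ring
        rw [h3] at h2
        have h4 := (Nat.dvd_add_right h1).1 h2
        exact (Nat.Prime.coprime_iff_not_dvd hp).1 (Nat.coprime_comm.1 hwp) h4
  refine ⟨e ^ (2 * K₀ * (z ^ h - 1)) - 1, s2c1_pow_mem hE.mem _, ?_, ?_⟩
  · have h1 := s2c1_tau (K₀ := K₀) (h := h) (N := N) hE.ne hE.mem hE.inv_mem
      (pow_ne_zero 1 hp0) heo (Dvd.intro_left p rfl) hz4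
    rwa [pow_one] at h1
  · intro g hg ν hν hνp
    obtain ⟨Y, hY, hY1, hY2⟩ := hA.star_gen hE hF hN hK₀ hK hp one_pos ho hw0
      (Dvd.intro_left _ rfl) (Dvd.intro _ rfl) heo hz0 huN huw hj hj' hg hν hνp
    refine ⟨Y, hY, hY1, ?_⟩
    have hvw : padicValNat p w = 0 := padicValNat.eq_zero_of_not_dvd
      ((Nat.Prime.coprime_iff_not_dvd hp).1 (Nat.coprime_comm.1 hwp))
    rw [hvw, Nat.zero_sub, pow_zero, one_mul, zero_add, pow_one] at hY2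
    exact hY2

end BoomNF
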