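import Pool.Agent.H.MP_4c7af0_al.NF.Rng1

/-! Step 2, part d1: two general lemmas (MP_4c7af0_al, number field case). -/

namespace BoomNF

open NumberField

variable {K : Type*} [Field K] [NumberField K] {A : Subring K}

omit [NumberField K] in
theorem s2d1_sum {ι : Type*} [Fintype ι] (f : ι → 𝓞 K) :
    ((∑ j, f j : 𝓞 K) : K) = ∑ j, (f j : K) := map_sum (algebraMap (𝓞 K) K) f _

omit [NumberField K] in
theorem s2d1_zsmul (m : ℤ) (z : 𝓞 K) : ((m • z : 𝓞 K) : K) = (m : K) * (z : K) := by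
  have h := map_zsmul (algebraMap (𝓞 K) K) m z
  exact h.trans (zsmul_eq_mul _ _)

omit [NumberField K] in
theorem s2d1_ne {y : 𝓞 K} (hy : y ≠ 0) : (y : K) ≠ 0 := by
  intro h
  exact hy (RingOfIntegers.coe_eq_zero_iff.mp h)

omit [NumberField K] in
theorem s2d1_pow_mul (y z : 𝓞 K) (n : ℕ) : ((y ^ n * z : 𝓞 K) : K) = (y : K) ^ n * (z : K) := by
  have h := map_mul (algebraMap (𝓞 K) K) (y ^ n) z
  rw [map_pow] at h
  exact h

/-- an integer divisible by all powers of a prime is `0` -/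
theorem s2d1_zero {p : ℕ} (hp : p.Prime) {m : ℤ} (h : ∀ k : ℕ, (p : ℤ) ^ k ∣ m) : m = 0 := by
  by_contra hm
  have h1 := h m.natAbs
  have h2 : p ^ m.natAbs ∣ m.natAbs := by
    have := Int.natAbs_dvd_natAbs.mpr h1
    rwa [Int.natAbs_pow, Int.natAbs_natCast] at this
  have h3 := Nat.le_of_dvd (Int.natAbs_pos.mpr hm) h2
  have h4 : m.natAbs < p ^ m.natAbs := Nat.lt_pow_self hp.one_lt
  omega

/-- descent: a family congruent to a `ℤ`-basis of `O_K` mod `p A` is independent -/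
theorem s2d1_indep {ι : Type*} [Fintype ι] (b : Module.Basis ι ℤ (𝓞 K)) {p : ℕ} (hp : p.Prime)
    (hd : ∀ z : 𝓞 K, (z : K) / p ∈ A → ∃ z' : 𝓞 K, z = p * z') (v : ι → K)
    (hv : ∀ j, ((b j : K) - v j) / (p : K) ∈ A) : LinearIndependent ℤ v := by
  classical
  have hp0 : (p : K) ≠ 0 := by exact_mod_cast hp.ne_zero
  have step : ∀ m : ι → ℤ, ∑ j, m j • v j = 0 → ∀ j, (p : ℤ) ∣ m j := by
    intro m hm j
    have h1 : ((∑ j, m j • b j : 𝓞 K) : K) / p ∈ A := by
      have e : ((∑ j, m j • b j : 𝓞 K) : K) / p = ∑ j, (m j : K) * (((b j : K) - v j) / p) := by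
        have e1 : ((∑ j, m j • b j : 𝓞 K) : K) = ∑ j, (m j : K) * (b j : K) := by
          rw [s2d1_sum]
          exact Finset.sum_congr rfl fun j _ => s2d1_zsmul _ _
        have e2 : ∑ j, (m j : K) * v j = 0 := by
          rw [← hm]
          exact Finset.sum_congr rfl fun j _ => (zsmul_eq_mul _ _).symm
        rw [e1]
        have e3 : ∑ j, (m j : K) * (((b j : K) - v j) / p) =
            (∑ j, (m j : K) * (b j : K) - ∑ j, (m j : K) * v j) / p := by
          rw [← Finset.sum_sub_distrib, Finset.sum_div]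
          exact Finset.sum_congr rfl fun j _ => by ring
        rw [e3, e2, sub_zero]
      rw [e]
      exact A.sum_mem fun j _ => A.mul_mem (intCast_mem A _) (hv j)
    obtain ⟨z', hz'⟩ := hd _ h1
    have h2 : b.repr (∑ j, m j • b j) j = m j := by
      rw [b.repr_sum_self]
    rw [← h2, hz']
    have h3 : ((p : ℕ) : 𝓞 K) * z' = (p : ℤ) • z' := by
      rw [zsmul_eq_mul]
      push_cast
      rfl
    rw [h3, map_zsmul]
    exact ⟨b.repr z' j, by simp⟩
  have all : ∀ k : ℕ, ∀ m : ι → ℤ, ∑ j, m j • v j = 0 → ∀ j, (p : ℤ) ^ k ∣ m j := by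
    intro k
    induction k with
    | zero => intro m _ j; simp
    | succ k ih =>
      intro m hm j
      choose m' hm' using step m hm
      have h1 : ∑ j, m' j • v j = 0 := by
        have h2 : (p : K) * ∑ j, m' j • v j = 0 := by
          rw [← hm, Finset.mul_sum]
          refine Finset.sum_congr rfl fun j _ => ?_
          rw [zsmul_eq_mul, hm' j, zsmul_eq_mul]
          push_cast
          ring
        exact (mul_eq_zero.mp h2).resolve_left hp0
      rw [hm' j, pow_succ, mul_comm]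
      exact mul_dvd_mul_left _ (ih m' h1 j)
  rw [Fintype.linearIndependent_iff]
  exact fun m hm j => s2d1_zero hp fun k => all k m hm j

/-- linear algebra: if `I ⊆ K` is an additive subgroup such that for some large prime `p` (prime to
`y`, see `int_dvd`) every `x ∈ O_K` is congruent to an element of `I` mod `p A`, and `I ⊆ A` is stable
under multiplication by `y^(-l)` for some `l ≥ 1`, where `A = O_K[1/y]`, then `k A ⊆ I` for some
`k ≥ 1`. Proof: let `x₁, …, x_n` be a `ℤ`-basis of `O_K` and `i_j ∈ I`, `i_j ≡ x_j mod p A`. They are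
linearly independent over `ℚ`: if `∑ m_j i_j = 0` with integers `m_j` then `∑ m_j x_j ∈ p A ∩ O_K =
p O_K`, so `p ∣ m_j` for all `j`; by descent all `m_j = 0`. So the `i_j` are a `ℚ`-basis of `K` and
`k O_K ⊆ ∑ ℤ i_j ⊆ I` for some `k ≥ 1`. For `x ∈ A`, `y^(l m) x ∈ O_K` for large `m`, so
`k y^(l m) x ∈ I` and `k x ∈ I`. -/
theorem SRing.full_of_mod (hA : SRing A) (I : AddSubgroup K) (hI : ∀ i ∈ I, i ∈ A)
    (hst : ∀ ε : K, ε ≠ 0 → ε ∈ A → ε⁻¹ ∈ A → ∃ l : ℕ, 0 < l ∧ ∀ x ∈ I, (ε ^ l)⁻¹ * x ∈ I)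
    (hmod : ∃ B : ℕ, ∀ p : ℕ, p.Prime → B < p → ∀ x ∈ A, ∃ i ∈ I, (x - i) / (p : K) ∈ A) :
    ∃ k : ℕ, 0 < k ∧ ∀ x ∈ A, (k : K) * x ∈ I := by
  classical
  have _ := hI
  obtain ⟨B, hB⟩ := hmod
  obtain ⟨B1, hB1⟩ := hA.int_dvd
  obtain ⟨p, hpB, hp⟩ := Nat.exists_infinite_primes (B + B1 + 1)
  let b := NumberField.RingOfIntegers.basis K
  choose v hvI hv using fun j => hB p hp (by omega) (b j : K) (hA.int_mem (b j))
  have hind := s2d1_indep (A := A) b hp (hB1 p hp (by omega)) v hv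
  have hindQ : LinearIndependent ℚ v := (LinearIndependent.iff_fractionRing ℤ ℚ).mp hind
  have hcard : Fintype.card (Module.Free.ChooseBasisIndex ℤ (𝓞 K)) = Module.finrank ℚ K := by
    rw [← NumberField.RingOfIntegers.rank K, Module.finrank_eq_card_chooseBasisIndex]
  have hne : Nonempty (Module.Free.ChooseBasisIndex ℤ (𝓞 K)) := by
    rw [← Fintype.card_pos_iff, hcard]
    exact Module.finrank_pos
  let c := basisOfLinearIndependentOfCardEqFinrank hindQ hcard
  have hc : ∀ j, c j = v j := fun j => by simp [c]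
  -- common denominator of the coordinates of `x`
  have hden : ∀ x : K, ∃ k : ℕ, 0 < k ∧ (k : K) * x ∈ I := by
    intro x
    refine ⟨∏ j, (c.repr x j).den, Finset.prod_pos fun j _ => (c.repr x j).pos, ?_⟩
    have hx : ∑ j, c.repr x j • v j = x := by
      conv_rhs => rw [← c.sum_repr x]
      exact Finset.sum_congr rfl fun j _ => by rw [hc]
    have h1 : ((∏ j, (c.repr x j).den : ℕ) : K) * x =
        ∑ j, ((c.repr x j).num * ∏ i ∈ Finset.univ.erase j, ((c.repr x i).den : ℤ)) • v j := by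
      have h0 : ((∏ j, (c.repr x j).den : ℕ) : K) * x =
          ((∏ j, (c.repr x j).den : ℕ) : K) * ∑ j, c.repr x j • v j := by rw [hx]
      rw [h0, Finset.mul_sum]
      refine Finset.sum_congr rfl fun j _ => ?_
      rw [← Finset.mul_prod_erase _ _ (Finset.mem_univ j), zsmul_eq_mul, Algebra.smul_def]
      have h2 : ((c.repr x j).den : K) * algebraMap ℚ K (c.repr x j) = ((c.repr x j).num : K) := by
        have h3 : ((c.repr x j).den : ℚ) * (c.repr x j) = ((c.repr x j).num : ℚ) :=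
          Rat.den_mul_eq_num _
        have h4 := congrArg (algebraMap ℚ K) h3
        rw [map_mul, map_natCast, map_intCast] at h4
        exact h4
      push_cast
      linear_combination (∏ i ∈ Finset.univ.erase j, ((c.repr x i).den : K)) * v j * h2
    rw [h1]
    exact I.sum_mem fun j _ => I.zsmul_mem (hvI j) _
  choose d hd0 hd using fun j => hden (b j : K)
  have hO : ∀ z : 𝓞 K, ((∏ j, d j : ℕ) : K) * z ∈ I := by
    intro z
    have hz : (z : K) = ∑ j, ((b.repr z j : ℤ) : K) * (b j : K) := by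
      conv_lhs => rw [← b.sum_repr z]
      rw [s2d1_sum]
      exact Finset.sum_congr rfl fun j _ => s2d1_zsmul _ _
    have h1 : ((∏ j, d j : ℕ) : K) * z =
        ∑ j, (b.repr z j * ∏ i ∈ Finset.univ.erase j, (d i : ℤ)) • ((d j : K) * (b j : K)) := by
      rw [hz, Finset.mul_sum]
      refine Finset.sum_congr rfl fun j _ => ?_
      rw [← Finset.mul_prod_erase _ _ (Finset.mem_univ j), zsmul_eq_mul]
      push_cast
      ring
    rw [h1]
    exact I.sum_mem fun j _ => I.zsmul_mem (hd j) _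
  refine ⟨∏ j, d j, Finset.prod_pos fun j _ => hd0 j, fun x hx => ?_⟩
  obtain ⟨y, hy0, hy⟩ := hA.ex
  have hyK : (y : K) ≠ 0 := s2d1_ne hy0
  obtain ⟨l, hl, hlI⟩ := hst (y : K) hyK (hA.int_mem y) ((hy _).2 ⟨1, 1, by
    rw [pow_one, inv_mul_cancel₀ hyK]; simp⟩)
  obtain ⟨k, z, hz⟩ := (hy x).1 hx
  have hiter : ∀ n : ℕ, ∀ w ∈ I, ((y : K) ^ (l * n))⁻¹ * w ∈ I := by
    intro n
    induction n with
    | zero => intro w hw; simpa using hw
    | succ n ih =>
      intro w hw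
      have h1 := hlI _ (ih w hw)
      have h2 : ((y : K) ^ (l * (n + 1)))⁻¹ * w = ((y : K) ^ l)⁻¹ * (((y : K) ^ (l * n))⁻¹ * w) := by
        rw [mul_add, pow_add, mul_one, mul_inv]
        ring
      rw [h2]
      exact h1
  have h1 := hiter k _ (hO (y ^ (l * k - k) * z))
  have h2 : ((y : K) ^ (l * k))⁻¹ * (((∏ j, d j : ℕ) : K) * ((y ^ (l * k - k) * z : 𝓞 K) : K)) =
      ((∏ j, d j : ℕ) : K) * x := by
    have h3 : (y : K) ^ (l * k) = (y : K) ^ (l * k - k) * (y : K) ^ k := by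
      rw [← pow_add, Nat.sub_add_cancel (Nat.le_mul_of_pos_left k hl)]
    have h4 : (y : K) ^ k ≠ 0 := pow_ne_zero _ hyK
    have h5 : (y : K) ^ (l * k - k) ≠ 0 := pow_ne_zero _ hyK
    rw [s2d1_pow_mul, h3, ← hz]
    field_simp
  rw [h2] at h1
  exact h1

/-- local to global: if `vp : ℕ → ℕ` vanishes for `p > B`, `I` is an additive subgroup, `k A ⊆ I` for
some `k ≥ 1` and for every prime `p` every `x ∈ A` satisfies `p^(vp p) x ∈ I + p^(vp p + 1) A`, then
`c₀ A ⊆ I` with `c₀ = ∏_{p ≤ B prime} p^(vp p)`. Proof: `c₀ A ⊆ I + p c₀ A` for every prime `p`, so by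
induction on the number of prime factors `c₀ A ⊆ I + j c₀ A` for every `j ≥ 1`; take `j = k`. -/
theorem loc_glob {vp : ℕ → ℕ} {B : ℕ} (hB : ∀ p, B < p → vp p = 0) (I : AddSubgroup K)
    (hk : ∃ k : ℕ, 0 < k ∧ ∀ x ∈ A, (k : K) * x ∈ I)
    (hloc : ∀ p : ℕ, p.Prime → ∀ x ∈ A, ∃ i ∈ I,
      ((p : K) ^ (vp p) * x - i) / (p : K) ^ (vp p + 1) ∈ A) :
    ∀ x ∈ A, ((∏ p ∈ (Finset.range (B + 1)).filter Nat.Prime, p ^ (vp p) : ℕ) : K) * x ∈ I := by
  classical
  set c0 : ℕ := ∏ p ∈ (Finset.range (B + 1)).filter Nat.Prime, p ^ (vp p) with hc0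
  have hc0pos : 0 < c0 := Finset.prod_pos fun p hp => by
    have := (Finset.mem_filter.mp hp).2.pos
    positivity
  have hc0K : (c0 : K) ≠ 0 := by exact_mod_cast hc0pos.ne'
  have hdvd : ∀ p : ℕ, p.Prime → p ^ vp p ∣ c0 := by
    intro p hp
    by_cases h : B < p
    · rw [hB p h, pow_zero]
      exact one_dvd _
    · exact Finset.dvd_prod_of_mem (fun p => p ^ vp p)
        (Finset.mem_filter.mpr ⟨Finset.mem_range.mpr (by omega), hp⟩)
  have hprime : ∀ p : ℕ, p.Prime → ∀ x ∈ A, ∃ i ∈ I, ∃ a ∈ A, (c0 : K) * x = i + p * (c0 * a) := by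
    intro p hp x hx
    have hp0 : (p : K) ≠ 0 := by exact_mod_cast hp.ne_zero
    obtain ⟨c', hc'⟩ := hdvd p hp
    obtain ⟨i, hi, ha⟩ := hloc p hp x hx
    refine ⟨(c' : K) * i, ?_, _, ha, ?_⟩
    · have := I.nsmul_mem hi c'
      rwa [nsmul_eq_mul] at this
    · have h1 : (c0 : K) = (p : K) ^ vp p * c' := by exact_mod_cast congrArg (Nat.cast : ℕ → K) hc'
      have h2 : (p : K) ^ vp p ≠ 0 := pow_ne_zero _ hp0
      rw [h1, pow_succ]
      field_simp
      ring
  have hall : ∀ j : ℕ, 0 < j → ∀ x ∈ A, ∃ i ∈ I, ∃ a ∈ A, (c0 : K) * x = i + j * (c0 * a) := by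
    intro j
    induction j using Nat.recOnMul with
    | zero => intro h; exact absurd h (lt_irrefl 0)
    | one => intro _ x hx; exact ⟨0, I.zero_mem, x, hx, by simp⟩
    | prime p hp => intro _ x hx; exact hprime p hp x hx
    | mul m n hm hn =>
      intro h x hx
      have hm0 : 0 < m := Nat.pos_of_ne_zero fun h0 => by simp [h0] at h
      have hn0 : 0 < n := Nat.pos_of_ne_zero fun h0 => by simp [h0] at h
      obtain ⟨i1, hi1, a1, ha1, e1⟩ := hm hm0 x hx
      obtain ⟨i2, hi2, a2, ha2, e2⟩ := hn hn0 a1 ha1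
      refine ⟨i1 + m * i2, I.add_mem hi1 ?_, a2, ha2, ?_⟩
      · have := I.nsmul_mem hi2 m
        rwa [nsmul_eq_mul] at this
      · rw [e1, e2]
        push_cast
        ring
  intro x hx
  obtain ⟨k, hk0, hkI⟩ := hk
  obtain ⟨i, hi, a, ha, e⟩ := hall k hk0 x hx
  rw [e]
  exact I.add_mem hi (hkI _ (A.mul_mem (natCast_mem A _) ha))

end BoomNF
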