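import Pool.Agent.H.MP_4c7af0_al.NF.S2c
import Pool.Agent.H.MP_4c7af0_al.NF.S2d1

/-! Step 2, part d (MP_4c7af0_al, number field case): end of step 2. -/

namespace BoomNF

open NumberField

variable {K : Type*} [Field K] [NumberField K] {A : Subring K}

/-- the subgroup `I_g` -/
def s2d_I (A : Subring K) (N : K) (g : SL2 K) : AddSubgroup K where
  carrier := {x | x ∈ A ∧ g * u x * g⁻¹ ∈ E A N}
  add_mem' := by
    rintro a b ⟨ha, ha'⟩ ⟨hb, hb'⟩
    refine ⟨A.add_mem ha hb, ?_⟩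
    have h : g * u (a + b) * g⁻¹ = (g * u a * g⁻¹) * (g * u b * g⁻¹) := by
      rw [← u_mul]; group
    rw [h]
    exact (E A N).mul_mem ha' hb'
  zero_mem' := by
    refine ⟨A.zero_mem, ?_⟩
    rw [u_zero]
    simp [(E A N).one_mem]
  neg_mem' := by
    rintro a ⟨ha, ha'⟩
    refine ⟨A.neg_mem ha, ?_⟩
    have h : g * u (-a) * g⁻¹ = (g * u a * g⁻¹)⁻¹ := by
      rw [← u_inv]; group
    rw [h]
    exact (E A N).inv_mem ha'

theorem s2d_mem {N : K} {g : SL2 K} {x : K} :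
    x ∈ s2d_I A N g ↔ x ∈ A ∧ g * u x * g⁻¹ ∈ E A N := Iff.rfl

/-- Step 2. (`loc_p`, `loc_large`, `full_of_mod`, `loc_glob` for `I = I_g`; `c₀` does not depend on
`g`.) -/
theorem SRing.step2 (hA : SRing A) {e : K} (hE : InfUnit A e) {h : ℕ} (hF : FrobH A h) {N : ℕ}
    (hN : 0 < N) (hhN : (h + 1).factorial ∣ N) :
    ∃ c₀ : ℕ, 0 < c₀ ∧ ∀ g ∈ GN A ((N : K) ^ 2), ∀ x ∈ A,
      g * u ((c₀ : K) * x) * g⁻¹ ∈ E A (N : K) := by
  classical
  obtain ⟨B, hB⟩ := hA.loc_large hE hF hN hhN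
  have hp : ∀ p : ℕ, ∃ vp : ℕ, p.Prime → ∀ g ∈ GN A ((N : K) ^ 2), ∀ x ∈ A, ∃ i ∈ A,
      g * u i * g⁻¹ ∈ E A (N : K) ∧ ((p : K) ^ vp * x - i) / (p : K) ^ (vp + 1) ∈ A := by
    intro p
    by_cases hpp : p.Prime
    · obtain ⟨vp, hvp⟩ := hA.loc_p hE hF hN hhN hpp
      exact ⟨vp, fun _ => hvp⟩
    · exact ⟨0, fun h => absurd h hpp⟩
  choose w hw using hp
  set vp : ℕ → ℕ := fun p => if B < p then 0 else w p with hvp
  have hvp0 : ∀ p, B < p → vp p = 0 := by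
    intro p hpB
    simp only [hvp, if_pos hpB]
  have hNK : (N : K) ≠ 0 := Nat.cast_ne_zero.2 hN.ne'
  have hNA : (N : K) ∈ A := natCast_mem A N
  refine ⟨∏ p ∈ (Finset.range (B + 1)).filter Nat.Prime, p ^ (vp p), ?_, ?_⟩
  · refine Finset.prod_pos fun p hpm => ?_
    exact pow_pos (Finset.mem_filter.1 hpm).2.pos _
  · intro g hg x hx
    have hgN : g ∈ GN A (N : K) := by
      refine GN_mono hNK (pow_ne_zero 2 hNK) ?_ hg
      have : (N : K) ^ 2 / N = N := by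
        field_simp
      rw [this]
      exact hNA
    have hfull : ∃ k : ℕ, 0 < k ∧ ∀ x ∈ A, (k : K) * x ∈ s2d_I A (N : K) g := by
      refine hA.full_of_mod (s2d_I A (N : K) g) (fun i hi => hi.1) ?_ ?_
      · intro ε hε0 hε hεi
        obtain ⟨l, hl, hst⟩ := hA.I_stable hNA hNK hgN hε0 hε hεi
        refine ⟨l, hl, fun x hx => ⟨?_, (hst x hx.2).2⟩⟩
        refine A.mul_mem ?_ hx.1
        rw [← inv_pow]
        exact A.pow_mem hεi l
      · refine ⟨B, fun p hpp hpB x hx => ?_⟩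
        obtain ⟨i, hi, h1, h2⟩ := hB p hpp hpB g hg x hx
        exact ⟨i, ⟨hi, h1⟩, h2⟩
    have hloc : ∀ p : ℕ, p.Prime → ∀ x ∈ A, ∃ i ∈ s2d_I A (N : K) g,
        ((p : K) ^ (vp p) * x - i) / (p : K) ^ (vp p + 1) ∈ A := by
      intro p hpp x hx
      by_cases hpB : B < p
      · obtain ⟨i, hi, h1, h2⟩ := hB p hpp hpB g hg x hx
        refine ⟨i, ⟨hi, h1⟩, ?_⟩
        rw [hvp0 p hpB, pow_zero, one_mul, zero_add, pow_one]
        exact h2
      · obtain ⟨i, hi, h1, h2⟩ := hw p hpp g hg x hx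
        refine ⟨i, ⟨hi, h1⟩, ?_⟩
        have : vp p = w p := by simp only [hvp, if_neg hpB]
        rw [this]
        exact h2
    exact (loc_glob hvp0 (s2d_I A (N : K) g) hfull hloc x hx).2

end BoomNF
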