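import Pool.Agent.H.MP_4c7af0_al.NF.Rng4

/-! Step 3, part a (MP_4c7af0_al, number field case). -/

namespace BoomNF

open NumberField

variable {K : Type*} [Field K] [NumberField K] {A : Subring K}

/-- an element of trace 2 is conjugate in `SL₂(F)` to some `u(x)` -/
theorem unip_form {F : Type*} [Field F] {g : SL2 F} (h : g 0 0 + g 1 1 = 2) :
    ∃ s : SL2 F, ∃ x : F, g = s * u x * s⁻¹ := by
  have hd := det_eq g
  by_cases hc : g 1 0 = 0
  · have h1 : (g 0 0 - 1) ^ 2 = 0 := by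
      rw [hc] at hd
      linear_combination g 0 0 * h - hd
    have h2 : g 0 0 = 1 := by
      have := pow_eq_zero_iff (two_ne_zero) |>.1 h1
      linear_combination this
    refine ⟨1, g 0 1, ?_⟩
    rw [one_mul, inv_one, mul_one]
    apply ext4
    · rw [u_00, h2]
    · rw [u_01]
    · rw [u_10, hc]
    · rw [u_11]
      linear_combination h - h2
  · refine ⟨mk4 ((g 0 0 - 1) / g 1 0) (-1) 1 0 (by ring), -g 1 0, ?_⟩
    rw [conj_u, mk4_00, mk4_10]
    apply ext4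
    · rw [U_00]
      field_simp
      ring
    · rw [U_01]
      field_simp
      linear_combination g 0 0 * h - hd
    · rw [U_10]
      ring
    · rw [U_11]
      field_simp
      linear_combination h

/-- Subgroup generated by the `Γ(N²)`-conjugates of `u(c₀ A)`. -/
def Rg (A : Subring K) (N c₀ : K) : Subgroup (SL2 K) :=
  Subgroup.closure {h | ∃ g ∈ GN A (N ^ 2), ∃ x ∈ A, h = g * u (c₀ * x) * g⁻¹}

/-- `Rg` is normalised by `Γ(N²)` (template `Boom4c.Rg_conj` in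
`Pool/Agent/H/MP_4c7af0_al/Final.lean`). -/
theorem Rg_conj {N c₀ : K} {γ δ : SL2 K} (hγ : γ ∈ GN A (N ^ 2)) (hδ : δ ∈ Rg A N c₀) :
    γ * δ * γ⁻¹ ∈ Rg A N c₀ := by
  induction hδ using Subgroup.closure_induction with
  | mem x hx =>
    obtain ⟨g, hg, x, hx, rfl⟩ := hx
    apply Subgroup.subset_closure
    exact ⟨γ * g, (GN A (N ^ 2)).mul_mem hγ hg, x, hx, by group⟩
  | one => simp
  | mul x y _ _ hx hy =>
    have : γ * (x * y) * γ⁻¹ = (γ * x * γ⁻¹) * (γ * y * γ⁻¹) := by group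
    rw [this]; exact (Rg A N c₀).mul_mem hx hy
  | inv x _ hx =>
    have : γ * x⁻¹ * γ⁻¹ = (γ * x * γ⁻¹)⁻¹ := by group
    rw [this]; exact (Rg A N c₀).inv_mem hx

/-- `Rg` is a non-central subgroup of `SL₂(A)` with recurrence (templates `Rg_le`, `Rg_rec`,
`Rg_nonCentral` in the same file; `exists_pow_mem` and `GN_relIndex`). -/
theorem SRing.Rg_props (hA : SRing A) {N c₀ : K} (hN : N ∈ A) (hN0 : N ≠ 0) (hc : c₀ ∈ A)
    (hc0 : c₀ ≠ 0) : Rg A N c₀ ≤ G A ∧ Rec (G A) (Rg A N c₀) ∧ NonCentral (Rg A N c₀) := by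
  refine ⟨?_, ?_, ?_⟩
  · rw [Rg, Subgroup.closure_le]
    rintro h ⟨g, hg, x, hx, rfl⟩
    have hg' := GN_le hg
    exact (G A).mul_mem ((G A).mul_mem hg' (u_mem_G (A.mul_mem hc hx))) ((G A).inv_mem hg')
  · intro γ hγ δ hδ n₀
    obtain ⟨j, hj, hjK⟩ := exists_pow_mem
      (hA.GN_relIndex (A.pow_mem hN 2) (pow_ne_zero 2 hN0)) hγ
    refine ⟨j * n₀, Nat.le_mul_of_pos_left n₀ hj, ?_⟩
    rw [pow_mul]
    exact Rg_conj ((GN A (N ^ 2)).pow_mem hjK n₀) hδ
  · refine ⟨u c₀, ?_, ?_⟩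
    · apply Subgroup.subset_closure
      exact ⟨1, (GN A (N ^ 2)).one_mem, 1, A.one_mem, by simp⟩
    · rintro ⟨h, -, -⟩
      rw [u_01] at h
      exact hc0 h

end BoomNF
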