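import Pool.Agent.H.MP_4c7af0_al.NF.S1c
import Pool.Agent.H.MP_4c7af0_al.NF.S2d
import Pool.Agent.H.MP_4c7af0_al.NF.Cusp
import Pool.Agent.H.MP_4c7af0_al.NF.S3a

/-! Step 3 (MP_4c7af0_al, number field case): `D` contains all unipotents of a congruence subgroup. -/

namespace BoomNF

open NumberField

variable {K : Type*} [Field K] [NumberField K] {A : Subring K}

theorem s3_nat {F : Type*} [Field F] {A : Subring F} (n : ℕ) : (n : F) ∈ A := natCast_mem A n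

theorem s3_conj_tri {F : Type*} [Field F] {b : SL2 F} (hb : b 1 0 = 0) (x : F) :
    b * u x * b⁻¹ = u ((b 0 0) ^ 2 * x) := by
  rw [conj_u, hb]
  apply ext4
  · rw [U_00, u_00]; ring
  · rw [U_01, u_01]
  · rw [U_10, u_10]; ring
  · rw [U_11, u_11]; ring

theorem s3_div {F : Type*} [Field F] {A : Subring F} {t : SL2 F} {ξ c N : F} {m : ℕ}
    (hc : c ≠ 0) (hN : N ≠ 0) (hdiv : N = c * (m : F)) (hg : t * u ξ * t⁻¹ ∈ GN A N) :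
    t * u (ξ / c) * t⁻¹ ∈ G A := by
  have hm : (m : F) ≠ 0 := by
    intro h
    rw [h, mul_zero] at hdiv
    exact hN hdiv
  rw [conj_u] at hg ⊢
  obtain ⟨-, h0, h1, h2, h3⟩ := hg
  rw [U_00] at h0
  rw [U_01] at h1
  rw [U_10] at h2
  rw [U_11] at h3
  apply mem_G4
  · rw [U_00]
    have e : 1 - t 0 0 * t 1 0 * (ξ / c) = 1 + (m : F) * ((1 - t 0 0 * t 1 0 * ξ - 1) / N) := by
      rw [hdiv]; field_simp; ring
    rw [e]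
    exact A.add_mem A.one_mem (A.mul_mem (s3_nat m) h0)
  · rw [U_01]
    have e : t 0 0 ^ 2 * (ξ / c) = (m : F) * (t 0 0 ^ 2 * ξ / N) := by
      rw [hdiv]; field_simp
    rw [e]
    exact A.mul_mem (s3_nat m) h1
  · rw [U_10]
    have e : -(t 1 0 ^ 2 * (ξ / c)) = (m : F) * (-(t 1 0 ^ 2 * ξ) / N) := by
      rw [hdiv]; field_simp
    rw [e]
    exact A.mul_mem (s3_nat m) h2
  · rw [U_11]
    have e : 1 + t 0 0 * t 1 0 * (ξ / c) = 1 + (m : F) * ((1 + t 0 0 * t 1 0 * ξ - 1) / N) := by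
      rw [hdiv]; field_simp; ring
    rw [e]
    exact A.add_mem A.one_mem (A.mul_mem (s3_nat m) h3)

/-- If `R ≤ SL₂(A)` is normalised by `Γ(L)` and for every `s ∈ SL₂(K)` there is `N_s ≥ 1` with
`s u(x) s⁻¹ ∈ SL₂(A) ⇒ s u(N_s x) s⁻¹ ∈ R`, then `E*(M N) ≤ R` for some `N ≥ 1`. Proof: `S` from
`SRing.cusps`, `N = ∏_{σ ∈ S} N_σ`. Let `g ∈ Γ(M N)` have trace 2; `g = s u(ξ) s⁻¹` (`unip_form`),
`s = h σ b`, so `g = (h σ) u(ξ') (h σ)⁻¹`. Put `ξ'' = ξ' / N_σ`; `(h σ) u(ξ'') (h σ)⁻¹ =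
1 + (g - 1) / N_σ` has entries in `A` (`conj_u`), so `σ u(ξ'') σ⁻¹ ∈ SL₂(A)` (`h ∈ SL₂(A)`),
`σ u(ξ') σ⁻¹ ∈ R`, and conjugating by `h ∈ Γ(L)`: `g ∈ R`. -/
theorem SRing.Es_le_of (hA : SRing A) {L : K} (hL : L ∈ A) (hL0 : L ≠ 0) {R : Subgroup (SL2 K)}
    (hR : ∀ γ ∈ GN A L, ∀ δ ∈ R, γ * δ * γ⁻¹ ∈ R)
    (hs : ∀ s : SL2 K, ∃ N : ℕ, 0 < N ∧ ∀ x : K, s * u x * s⁻¹ ∈ G A →
      s * u ((N : K) * x) * s⁻¹ ∈ R) {M : ℕ} (hM : 0 < M) :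
    ∃ N : ℕ, 0 < N ∧ M ∣ N ∧ Es A (N : K) ≤ R := by
  classical
  obtain ⟨S, hS⟩ := hA.cusps hL hL0
  choose c hc0 hc using hs
  have hpos : 0 < ∏ σ ∈ S, c σ := Finset.prod_pos fun σ _ => hc0 σ
  refine ⟨M * ∏ σ ∈ S, c σ, Nat.mul_pos hM hpos, Nat.dvd_mul_right _ _, ?_⟩
  rw [Es, Subgroup.closure_le]
  rintro g ⟨hg, htr⟩
  obtain ⟨s, x, rfl⟩ := unip_form htr
  obtain ⟨σ, hσ, h, hh, b, hb, rfl⟩ := hS s
  set t : SL2 K := h * σ with ht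
  set ξ : K := (b 0 0) ^ 2 * x with hξ
  have e1 : t * b * u x * (t * b)⁻¹ = t * u ξ * t⁻¹ := by
    have e2 := s3_conj_tri hb x
    calc t * b * u x * (t * b)⁻¹ = t * (b * u x * b⁻¹) * t⁻¹ := by group
      _ = t * u ξ * t⁻¹ := by rw [e2]
  rw [e1] at hg ⊢
  have hcσ : (c σ : K) ≠ 0 := Nat.cast_ne_zero.2 (hc0 σ).ne'
  have hN0 : ((M * ∏ σ ∈ S, c σ : ℕ) : K) ≠ 0 := Nat.cast_ne_zero.2 (Nat.mul_pos hM hpos).ne'
  have hdiv : ((M * ∏ σ ∈ S, c σ : ℕ) : K) = (c σ : K) * ((M * ∏ τ ∈ S.erase σ, c τ : ℕ) : K) := by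
    rw [← Finset.mul_prod_erase _ _ hσ]
    push_cast
    ring
  have hG : t * u (ξ / c σ) * t⁻¹ ∈ G A := s3_div hcσ hN0 hdiv hg
  have hG' : σ * u (ξ / c σ) * σ⁻¹ ∈ G A := by
    have hh' := GN_le hh
    have e3 : σ * u (ξ / c σ) * σ⁻¹ = h⁻¹ * (t * u (ξ / c σ) * t⁻¹) * h := by
      rw [ht]; group
    rw [e3]
    exact (G A).mul_mem ((G A).mul_mem ((G A).inv_mem hh') hG) hh'
  have h4 := hc σ _ hG'
  have e4 : (c σ : K) * (ξ / c σ) = ξ := by field_simp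
  rw [e4] at h4
  have h5 := hR h hh _ h4
  have e5 : h * (σ * u ξ * σ⁻¹) * h⁻¹ = t * u ξ * t⁻¹ := by rw [ht]; group
  rw [e5] at h5
  exact h5

/-- Step 3. By `step1` for `s = 1` and `s = wy`: `E A N₁ ≤ D` for some `N₁` with `(h + 1)! ∣ N₁`
(`h` from `SRing.frob`). `step2` gives `c₀` with `Rg A N₁ c₀ ≤ E A N₁ ≤ D`; `Rg_props` and `step1` for
`Rg`; `Es_le_of`. -/
theorem SRing.step3 (hA : SRing A) {e : K} (hE : InfUnit A e) {D : Subgroup (SL2 K)}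
    (hD : D ≤ G A) (hrec : Rec (G A) D) (hnc : NonCentral D) {M : ℕ} (hM : 0 < M) :
    ∃ N : ℕ, 0 < N ∧ M ∣ N ∧ Es A (N : K) ≤ D := by
  obtain ⟨c₁, hc₁, h₁⟩ := hA.step1 hE hD hrec hnc 1
  obtain ⟨c₂, hc₂, h₂⟩ := hA.step1 hE hD hrec hnc wy
  obtain ⟨h, hF⟩ := hA.frob
  set N₁ : ℕ := (h + 1).factorial * (c₁ * c₂) with hN₁
  have hN₁pos : 0 < N₁ := Nat.mul_pos (Nat.factorial_pos _) (Nat.mul_pos hc₁ hc₂)
  have hED : E A (N₁ : K) ≤ D := by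
    rw [E, Subgroup.closure_le]
    rintro g (⟨x, hx, rfl⟩ | ⟨x, hx, rfl⟩)
    · have h3 := h₁ (((h + 1).factorial * c₂ : ℕ) * x) (by
        rw [one_mul, inv_one, mul_one]
        exact u_mem_G (A.mul_mem (s3_nat _) hx))
      have e1 : (c₁ : K) * (((h + 1).factorial * c₂ : ℕ) * x) = (N₁ : K) * x := by
        rw [hN₁]; push_cast; ring
      rw [e1, one_mul, inv_one, mul_one] at h3
      exact h3
    · have h3 := h₂ (-(((h + 1).factorial * c₁ : ℕ) * x)) (by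
        rw [wy_conj_u, neg_neg]
        exact v_mem_G (A.mul_mem (s3_nat _) hx))
      have e1 : (c₂ : K) * (-(((h + 1).factorial * c₁ : ℕ) * x)) = -((N₁ : K) * x) := by
        rw [hN₁]; push_cast; ring
      rw [e1, wy_conj_u, neg_neg] at h3
      exact h3
  obtain ⟨c₀, hc₀, h4⟩ := hA.step2 hE hF hN₁pos (Nat.dvd_mul_right _ _)
  have hRE : Rg A (N₁ : K) (c₀ : K) ≤ E A (N₁ : K) := by
    rw [Rg, Subgroup.closure_le]
    rintro g ⟨γ, hγ, x, hx, rfl⟩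
    exact h4 γ hγ x hx
  have hN₁0 : (N₁ : K) ≠ 0 := Nat.cast_ne_zero.2 hN₁pos.ne'
  have hc₀0 : (c₀ : K) ≠ 0 := Nat.cast_ne_zero.2 hc₀.ne'
  obtain ⟨hRG, hRrec, hRnc⟩ := hA.Rg_props (s3_nat N₁) hN₁0 (s3_nat c₀) hc₀0
  obtain ⟨N, hN, hMN, h5⟩ := hA.Es_le_of (A.pow_mem (s3_nat N₁) 2) (pow_ne_zero 2 hN₁0)
    (fun γ hγ δ hδ => Rg_conj hγ hδ) (fun s => hA.step1 hE hRG hRrec hRnc s) hM
  exact ⟨N, hN, hMN, h5.trans (hRE.trans hED)⟩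

end BoomNF
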