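import Pool.Agent.H.MP_4c7af0_al.NF.Rng2

/-! Step 4, part b of the paper (MP_4c7af0_al, number field case): `Γ(N) = Γ(L) E*(N)`. -/

namespace BoomNF

open NumberField

set_option linter.unusedSimpArgs false

section field

variable {F : Type*} [Field F] {A : Subring F}

/-- Let `x ∈ Γ(N)`, `N ∣ L`, with upper left entry `a` and `a a' ≡ 1 mod L` (`a' ∈ A`). Then
`v(-c a') x u(-b a') ≡ diag(a, a') mod L`. -/
theorem red_diag {N L : F} (hN : N ∈ A) (hN0 : N ≠ 0) (hL : L ∈ A) (hL0 : L ≠ 0)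
    (hNL : L / N ∈ A) {x : SL2 F} (hx : x ∈ GN A N) {a' : F} (ha' : a' ∈ A)
    (h : (x 0 0 * a' - 1) / L ∈ A) :
    let z := v (-(x 1 0 * a')) * x * u (-(x 0 1 * a'))
    (z 0 0 - x 0 0) / L ∈ A ∧ z 0 1 / L ∈ A ∧ z 1 0 / L ∈ A ∧ (z 1 1 - a') / L ∈ A := by
  intro z
  have hG := GN_le hx
  have hdet := det_eq x
  have e00 : z 0 0 - x 0 0 = 0 := by
    simp only [z, mul_app, v_00, v_01, v_10, v_11, u_00, u_01, u_10, u_11]; ring
  have e01 : z 0 1 / L = -(x 0 1) * ((x 0 0 * a' - 1) / L) := by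
    simp only [z, mul_app, v_00, v_01, v_10, v_11, u_00, u_01, u_10, u_11]; ring
  have e10 : z 1 0 / L = -(x 1 0) * ((x 0 0 * a' - 1) / L) := by
    simp only [z, mul_app, v_00, v_01, v_10, v_11, u_00, u_01, u_10, u_11]; ring
  have e11 : (z 1 1 - a') / L = (x 0 1 * x 1 0 * a' - x 1 1) * ((x 0 0 * a' - 1) / L) := by
    simp only [z, mul_app, v_00, v_01, v_10, v_11, u_00, u_01, u_10, u_11]
    linear_combination (a' / L) * hdet
  refine ⟨?_, ?_, ?_, ?_⟩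
  · rw [e00, zero_div]; exact A.zero_mem
  · rw [e01]; exact A.mul_mem (A.neg_mem (hG _ _)) h
  · rw [e10]; exact A.mul_mem (A.neg_mem (hG _ _)) h
  · rw [e11]
    exact A.mul_mem (A.sub_mem (A.mul_mem (A.mul_mem (hG _ _) (hG _ _)) ha') (hG _ _)) h

/-- `diag(a, a') ≡ v(1 - a') (v(-1) u(a - 1) v(1)) u(-(a - 1) a') mod L` if `a a' ≡ 1 mod L`. -/
theorem diag_elem {L : F} (hL : L ∈ A) (hL0 : L ≠ 0) {a a' : F} (ha : a ∈ A) (ha' : a' ∈ A)
    (h : (a * a' - 1) / L ∈ A) :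
    let z := v (1 - a') * (v (-1) * u (a - 1) * v 1) * u (-((a - 1) * a'))
    (z 0 0 - a) / L ∈ A ∧ z 0 1 / L ∈ A ∧ z 1 0 / L ∈ A ∧ (z 1 1 - a') / L ∈ A := by
  intro z
  have e00 : z 0 0 - a = 0 := by
    simp only [z, mul_app, v_00, v_01, v_10, v_11, u_00, u_01, u_10, u_11]; ring
  have e01 : z 0 1 / L = -(a - 1) * ((a * a' - 1) / L) := by
    simp only [z, mul_app, v_00, v_01, v_10, v_11, u_00, u_01, u_10, u_11]; ring
  have e10 : z 1 0 / L = -((a * a' - 1) / L) := by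
    simp only [z, mul_app, v_00, v_01, v_10, v_11, u_00, u_01, u_10, u_11]; ring
  have e11 : (z 1 1 - a') / L = (-1 + (a - 1) * a') * ((a * a' - 1) / L) := by
    simp only [z, mul_app, v_00, v_01, v_10, v_11, u_00, u_01, u_10, u_11]
    ring
  refine ⟨?_, ?_, ?_, ?_⟩
  · rw [e00, zero_div]; exact A.zero_mem
  · rw [e01]; exact A.mul_mem (A.neg_mem (A.sub_mem ha A.one_mem)) h
  · rw [e10]; exact A.neg_mem h
  · rw [e11]
    exact A.mul_mem (A.add_mem (A.neg_mem A.one_mem) (A.mul_mem (A.sub_mem ha A.one_mem) ha')) h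

/-- the element in `diag_elem` lies in `E*(N)` if `a ≡ 1`, `a' ≡ 1 mod N` -/
theorem s4a_diag_mem {N : F} (hN : N ∈ A) (hN0 : N ≠ 0) {a a' : F} (ha' : a' ∈ A)
    (ha1 : (a - 1) / N ∈ A) (ha1' : (1 - a') / N ∈ A) :
    v (1 - a') * (v (-1) * u (a - 1) * v 1) * u (-((a - 1) * a')) ∈ Es A N := by
  refine (Es A N).mul_mem ((Es A N).mul_mem (v_mem_Es hN hN0 ha1') ?_) ?_
  · have h := Es_conj (v_mem_G (A.neg_mem A.one_mem)) (u_mem_Es hN hN0 ha1)
    rwa [v_inv, neg_neg] at h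
  · apply u_mem_Es hN hN0
    have : (-((a - 1) * a')) / N = -((a - 1) / N * a') := by ring
    rw [this]; exact A.neg_mem (A.mul_mem ha1 ha')

end field

variable {K : Type*} [Field K] [NumberField K] {A : Subring K}

/-- `(4b)`. Proof: by `coprime_lift` for `(a, b N)` (coprime: `det = 1` and `a ≡ 1 mod N`) multiply `x`
on the right by some `v(N t)` so that `a` becomes coprime to `L`; let `a a' ≡ 1 mod L`, so
`a' ≡ 1 mod N`. By `red_diag` and `diag_elem`, `x` is congruent mod `L` to a product of elements of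
`E*(N)`; use `inv_mul_mem_GN` and the normality of `E*(N)`, `Γ(L)`. -/
theorem SRing.deep (hA : SRing A) {N L : K} (hN : N ∈ A) (hN0 : N ≠ 0) (hL : L ∈ A) (hL0 : L ≠ 0)
    (hNL : L / N ∈ A) {x : SL2 K} (hx : x ∈ GN A N) :
    ∃ x₁ ∈ GN A L, ∃ ε ∈ Es A N, x = x₁ * ε := by
  have hG := GN_le hx
  have hdet := det_eq x
  -- coprimality of `(a, b N)`
  have hcop : Cop A (x 0 0) (x 0 1 * N) := by
    apply Cop.mul_right (hG 0 0) (hG 0 1) hN
    · exact ⟨x 1 1, hG 1 1, -(x 1 0), A.neg_mem (hG 1 0), by linear_combination hdet⟩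
    · refine ⟨1, A.one_mem, -((x 0 0 - 1) / N), A.neg_mem hx.2.1, ?_⟩
      field_simp
      ring
  obtain ⟨t, ht, -, hcL⟩ := hA.coprime_lift (hG 0 0) (A.mul_mem (hG 0 1) hN) hL hL0 hcop
  have hNt : N * t / N ∈ A := by rw [mul_div_cancel_left₀ _ hN0]; exact ht
  obtain ⟨x', hx'⟩ : ∃ x' : SL2 K, x' = x * v (N * t) := ⟨_, rfl⟩
  have hx'N : x' ∈ GN A N := hx' ▸ (GN A N).mul_mem hx (v_mem_GN hN hN0 hNt)
  have h00 : x' 0 0 = x 0 0 + x 0 1 * N * t := by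
    rw [hx', mul_app]; simp; ring
  rw [← h00] at hcL
  obtain ⟨a', ha', y', hy', hay⟩ := hcL
  have hL1 : (x' 0 0 * a' - 1) / L ∈ A := by
    have : (x' 0 0 * a' - 1) / L = -y' := by
      rw [div_eq_iff hL0]; linear_combination hay
    rw [this]; exact A.neg_mem hy'
  have ha1 : (x' 0 0 - 1) / N ∈ A := hx'N.2.1
  have ha1' : (1 - a') / N ∈ A := by
    have : (1 - a') / N = (x' 0 0 - 1) / N * a' - (x' 0 0 * a' - 1) / L * (L / N) := by
      rw [div_mul_div_cancel₀ hL0]; ring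
    rw [this]
    exact A.sub_mem (A.mul_mem ha1 ha') (A.mul_mem hL1 hNL)
  obtain ⟨r0, r1, r2, r3⟩ := red_diag hN hN0 hL hL0 hNL hx'N ha' hL1
  obtain ⟨d0, d1, d2, d3⟩ := diag_elem hL hL0 (GN_le hx'N 0 0) ha' hL1
  have hDE := s4a_diag_mem hN hN0 ha' ha1 ha1'
  set z := v (-(x' 1 0 * a')) * x' * u (-(x' 0 1 * a')) with hz
  set D := v (1 - a') * (v (-1) * u (x' 0 0 - 1) * v 1) * u (-((x' 0 0 - 1) * a')) with hD
  have hv : v (-(x' 1 0 * a')) ∈ Es A N := by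
    apply v_mem_Es hN hN0
    have : -(x' 1 0 * a') / N = -(x' 1 0 / N * a') := by ring
    rw [this]; exact A.neg_mem (A.mul_mem hx'N.2.2.2.1 ha')
  have hu : u (-(x' 0 1 * a')) ∈ Es A N := by
    apply u_mem_Es hN hN0
    have : -(x' 0 1 * a') / N = -(x' 0 1 / N * a') := by ring
    rw [this]; exact A.neg_mem (A.mul_mem hx'N.2.2.1 ha')
  have hvt : v (N * t) ∈ Es A N := v_mem_Es hN hN0 hNt
  have hzG : z ∈ G A := (G A).mul_mem ((G A).mul_mem (GN_le (Es_le_GN hv)) (GN_le hx'N))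
    (GN_le (Es_le_GN hu))
  have hDG : D ∈ G A := GN_le (Es_le_GN hDE)
  have hfin : D⁻¹ * z ∈ GN A L := by
    apply inv_mul_mem_GN hDG hzG
    intro i j
    fin_cases i <;> fin_cases j
    · change (z 0 0 - D 0 0) / L ∈ A
      have : (z 0 0 - D 0 0) / L = (z 0 0 - x' 0 0) / L - (D 0 0 - x' 0 0) / L := by ring
      rw [this]; exact A.sub_mem r0 d0
    · change (z 0 1 - D 0 1) / L ∈ A
      have : (z 0 1 - D 0 1) / L = z 0 1 / L - D 0 1 / L := by ring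
      rw [this]; exact A.sub_mem r1 d1
    · change (z 1 0 - D 1 0) / L ∈ A
      have : (z 1 0 - D 1 0) / L = z 1 0 / L - D 1 0 / L := by ring
      rw [this]; exact A.sub_mem r2 d2
    · change (z 1 1 - D 1 1) / L ∈ A
      have : (z 1 1 - D 1 1) / L = (z 1 1 - a') / L - (D 1 1 - a') / L := by ring
      rw [this]; exact A.sub_mem r3 d3
  -- `x = v⁻¹ z u⁻¹ v(Nt)⁻¹`, `z = D w`, `w ∈ Γ(L)`
  set w := D⁻¹ * z with hw
  set V := v (-(x' 1 0 * a')) with hV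
  set U' := u (-(x' 0 1 * a')) with hU'
  have hxe : x = (V⁻¹ * D) * w * U'⁻¹ * (v (N * t))⁻¹ := by
    rw [hw, hz, hx']; group
  have hVD : V⁻¹ * D ∈ Es A N := (Es A N).mul_mem ((Es A N).inv_mem hv) hDE
  refine ⟨(V⁻¹ * D) * w * (V⁻¹ * D)⁻¹, GN_conj (GN_le (Es_le_GN hVD)) hfin,
    (V⁻¹ * D) * U'⁻¹ * (v (N * t))⁻¹,
    (Es A N).mul_mem ((Es A N).mul_mem hVD ((Es A N).inv_mem hu)) ((Es A N).inv_mem hvt), ?_⟩
  conv_lhs => rw [hxe]
  group

end BoomNF
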