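import Mathlib

/-! `F mod q` divides `X^(q^(n!)) - X` (MP_4c7af0_al, number field case). -/

namespace BoomNF

/-- A separable polynomial over `𝔽_q` of degree `n` divides `X^(q^(n!)) - X`. -/
theorem frob1_dvd {q : ℕ} [Fact q.Prime] {f : Polynomial (ZMod q)} (hf : f ≠ 0)
    (hs : f.Separable) :
    f ∣ Polynomial.X ^ (q ^ (f.natDegree.factorial)) - Polynomial.X := by
  classical
  have hrad : IsRadical f := (isRadical_iff_squarefree_of_ne_zero hf).2 hs.squarefree
  set g : Polynomial (ZMod q) :=
    Polynomial.X ^ (q ^ (f.natDegree.factorial)) - Polynomial.X with hg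
  have h1 : ∀ π ∈ UniqueFactorizationMonoid.normalizedFactors f, π ∣ g := by
    intro π hπ
    have hirr := UniqueFactorizationMonoid.irreducible_of_normalized_factor π hπ
    have hdvd := UniqueFactorizationMonoid.dvd_of_mem_normalizedFactors hπ
    have hdeg : π.natDegree ≤ f.natDegree := Polynomial.natDegree_le_of_dvd hdvd hf
    have h2 : π.natDegree ∣ f.natDegree.factorial :=
      Nat.dvd_factorial hirr.natDegree_pos hdeg
    have h3 := hirr.natDegree_dvd_iff_dvd_X_pow_card_pow_sub_X.1 h2
    rwa [Nat.card_zmod] at h3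
  have h2 : (UniqueFactorizationMonoid.normalizedFactors f).prod ∣
      g ^ (Multiset.card (UniqueFactorizationMonoid.normalizedFactors f)) := by
    have h3 := Multiset.prod_dvd_prod_of_dvd
      (S := UniqueFactorizationMonoid.normalizedFactors f) (fun π => π) (fun _ => g) h1
    rwa [Multiset.map_id', Multiset.map_const', Multiset.prod_replicate] at h3
  have h3 : f ∣ g ^ (Multiset.card (UniqueFactorizationMonoid.normalizedFactors f)) :=
    (UniqueFactorizationMonoid.prod_normalizedFactors hf).symm.dvd.trans h2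
  exact hrad _ _ h3

/-- Clearing denominators in a Bezout identity. -/
theorem frob1_bezout (F : Polynomial ℤ)
    (hirr : Irreducible (F.map (Int.castRingHom ℚ))) : ∃ (M : ℤ) (a b : Polynomial ℤ), M ≠ 0 ∧
    a * F + b * Polynomial.derivative F = Polynomial.C M := by
  obtain ⟨a, b, hab⟩ := hirr.separable
  obtain ⟨m, hm1, hm⟩ := IsLocalization.integerNormalization_spec (nonZeroDivisors ℤ) a
  obtain ⟨l, hl1, hl⟩ := IsLocalization.integerNormalization_spec (nonZeroDivisors ℤ) b
  set a' := IsLocalization.integerNormalization (nonZeroDivisors ℤ) a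
  set b' := IsLocalization.integerNormalization (nonZeroDivisors ℤ) b
  have hm0 : m ≠ 0 := nonZeroDivisors.ne_zero hm1
  have hl0 : l ≠ 0 := nonZeroDivisors.ne_zero hl1
  refine ⟨m * l, Polynomial.C (l : ℤ) * a', Polynomial.C (m : ℤ) * b', mul_ne_zero hm0 hl0, ?_⟩
  apply Polynomial.map_injective (Int.castRingHom ℚ) Int.cast_injective
  have hm' : a'.map (Int.castRingHom ℚ) = Polynomial.C ((m : ℤ) : ℚ) * a := by
    have h := hm
    rw [algebraMap_int_eq] at h
    rw [h, zsmul_eq_mul]
    simp
  have hl' : b'.map (Int.castRingHom ℚ) = Polynomial.C ((l : ℤ) : ℚ) * b := by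
    have h := hl
    rw [algebraMap_int_eq] at h
    rw [h, zsmul_eq_mul]
    simp
  rw [Polynomial.map_add, Polynomial.map_mul, Polynomial.map_mul, Polynomial.map_mul,
    Polynomial.map_mul, hm', hl', Polynomial.map_C, Polynomial.map_C, Polynomial.map_C,
    ← Polynomial.derivative_map]
  simp only [eq_intCast, Int.cast_mul, Polynomial.C_mul]
  linear_combination (Polynomial.C ((m : ℤ) : ℚ) * Polynomial.C ((l : ℤ) : ℚ)) * hab

/-- For `F ∈ ℤ[X]` monic and irreducible over `ℚ` of degree `n` and all large primes `q`: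
`F mod q` divides `X^(q^(n!)) - X` in `𝔽_q[X]`. Proof: `F` is separable over `ℚ`, so
`a F + b F' = M` with `a, b ∈ ℤ[X]`, `M ≥ 1`; for `q ∤ M` the polynomial `F mod q` is separable, hence
squarefree. Each monic irreducible factor `π` of degree `d ≤ n` divides `X^(q^d) - X`
(`𝔽_q[X]/π` is a field with `q^d` elements), so divides `X^(q^(n!)) - X` as `d ∣ n!`. -/
theorem poly_frob (F : Polynomial ℤ) (hF : F.Monic)
    (hirr : Irreducible (F.map (Int.castRingHom ℚ))) : ∃ B : ℕ, ∀ q : ℕ, q.Prime → B < q →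
    F.map (Int.castRingHom (ZMod q)) ∣
      Polynomial.X ^ (q ^ (F.natDegree.factorial)) - Polynomial.X := by
  obtain ⟨M, a, b, hM, hab⟩ := frob1_bezout F hirr
  refine ⟨M.natAbs, fun q hq hBq => ?_⟩
  have : Fact q.Prime := ⟨hq⟩
  have hMq : ((M : ℤ) : ZMod q) ≠ 0 := by
    rw [Ne, ZMod.intCast_zmod_eq_zero_iff_dvd]
    intro h
    have h2 : q ∣ M.natAbs := Int.natCast_dvd.1 h
    exact absurd (Nat.le_of_dvd (Int.natAbs_pos.2 hM) h2) (not_le.2 hBq)
  have hmon : (F.map (Int.castRingHom (ZMod q))).Monic := hF.map _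
  have hsep : (F.map (Int.castRingHom (ZMod q))).Separable := by
    have h1 := congrArg (Polynomial.map (Int.castRingHom (ZMod q))) hab
    rw [Polynomial.map_add, Polynomial.map_mul, Polynomial.map_mul, Polynomial.map_C,
      ← Polynomial.derivative_map, eq_intCast] at h1
    refine ⟨Polynomial.C (((M : ℤ) : ZMod q)⁻¹) * a.map (Int.castRingHom (ZMod q)),
      Polynomial.C (((M : ℤ) : ZMod q)⁻¹) * b.map (Int.castRingHom (ZMod q)), ?_⟩
    rw [mul_assoc, mul_assoc, ← mul_add, h1, ← Polynomial.C_mul, inv_mul_cancel₀ hMq,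
      Polynomial.C_1]
  have h2 := frob1_dvd hmon.ne_zero hsep
  rwa [hF.natDegree_map] at h2

end BoomNF
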