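import Pool.Agent.H.MP_4c7af0_al.NF.Rng1
import Pool.Agent.H.MP_4c7af0_al.NF.Frob1

/-! Frobenius on `A / q A` (MP_4c7af0_al, number field case). -/

namespace BoomNF

open NumberField

theorem frob_poly {q : ℕ} (F : Polynomial ℤ) (a : ℕ)
    (h : F.map (Int.castRingHom (ZMod q)) ∣ Polynomial.X ^ (q ^ a) - Polynomial.X)
    {R : Type*} [CommRing R] (w : R) (hw : Polynomial.aeval w F = 0) :
    (q : R) ∣ w ^ (q ^ a) - w := by
  obtain ⟨H', hH'⟩ := h
  obtain ⟨H, rfl⟩ := Polynomial.map_surjective (Int.castRingHom (ZMod q))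
    (ZMod.ringHom_surjective _) H'
  have hP : (Polynomial.X ^ (q ^ a) - Polynomial.X - F * H : Polynomial ℤ).map
      (Int.castRingHom (ZMod q)) = 0 := by
    rw [Polynomial.map_sub, Polynomial.map_sub, Polynomial.map_pow, Polynomial.map_X,
      Polynomial.map_mul, hH', sub_self]
  have hC : Polynomial.C (q : ℤ) ∣ (Polynomial.X ^ (q ^ a) - Polynomial.X - F * H) := by
    rw [Polynomial.C_dvd_iff_dvd_coeff]
    intro i
    have h1 := congrArg (fun P => P.coeff i) hP
    simp only [Polynomial.coeff_map, Polynomial.coeff_zero] at h1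
    exact (ZMod.intCast_zmod_eq_zero_iff_dvd _ q).1 h1
  obtain ⟨E, hE⟩ := hC
  refine ⟨Polynomial.aeval w E, ?_⟩
  have h2 := congrArg (Polynomial.aeval w) hE
  simp only [map_sub, map_pow, Polynomial.aeval_X, map_mul, hw, zero_mul, sub_zero] at h2
  rw [h2]
  simp

theorem frob_iter {R : Type*} [CommRing R] {q : ℕ} {w : R} {a b : ℕ}
    (h : (q : R) ∣ w ^ (q ^ a) - w) (hab : a ∣ b) : (q : R) ∣ w ^ (q ^ b) - w := by
  obtain ⟨c, rfl⟩ := hab
  induction c with
  | zero => simp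
  | succ c ih =>
    have h1 : w ^ (q ^ (a * (c + 1))) = (w ^ (q ^ (a * c))) ^ (q ^ a) := by
      rw [← pow_mul, ← pow_add]
      congr 2
    have h2 : w ^ (q ^ (a * (c + 1))) - w =
        ((w ^ (q ^ (a * c))) ^ (q ^ a) - w ^ (q ^ a)) + (w ^ (q ^ a) - w) := by
      rw [h1]; ring
    rw [h2]
    exact dvd_add (ih.trans (sub_dvd_pow_sub_pow _ _ _)) h

theorem frob_span {R : Type*} [CommRing R] {q : ℕ} (hq : q.Prime) (hq2 : q ≠ 2) (h : ℕ)
    {ι : Type*} (b : ι → R) (hb : Submodule.span ℤ (Set.range b) = ⊤)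
    (hbi : ∀ i, (q : R) ∣ b i ^ (q ^ h) - b i) (z : R) : (q : R) ∣ z ^ (q ^ h) - z := by
  let V : AddSubgroup R :=
    { carrier := {z | (q : R) ∣ z ^ (q ^ h) - z}
      add_mem' := by
        intro x y hx hy
        obtain ⟨r, hr⟩ := exists_add_pow_prime_pow_eq hq x y h
        have e : (x + y) ^ (q ^ h) - (x + y) =
            (x ^ (q ^ h) - x) + (y ^ (q ^ h) - y) + q * (x * y * r) := by rw [hr]; ring
        show (q : R) ∣ (x + y) ^ (q ^ h) - (x + y)
        rw [e]
        exact dvd_add (dvd_add hx hy) (dvd_mul_right _ _)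
      zero_mem' := by
        show (q : R) ∣ 0 ^ (q ^ h) - 0
        rw [zero_pow (pow_ne_zero _ hq.ne_zero), sub_zero]
        exact dvd_zero _
      neg_mem' := by
        intro x hx
        show (q : R) ∣ (-x) ^ (q ^ h) - (-x)
        have hodd : Odd (q ^ h) := (hq.odd_of_ne_two hq2).pow
        have e : (-x) ^ (q ^ h) - (-x) = -(x ^ (q ^ h) - x) := by
          rw [hodd.neg_pow]; ring
        rw [e]
        exact (dvd_neg).2 hx }
  have hz : z ∈ Submodule.span ℤ (Set.range b) := by rw [hb]; trivial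
  have hV : z ∈ V := by
    refine Submodule.span_induction (p := fun x _ => x ∈ V) ?_ ?_ ?_ ?_ hz
    · rintro _ ⟨i, rfl⟩
      exact hbi i
    · exact V.zero_mem
    · exact fun _ _ _ _ hx hy => V.add_mem hx hy
    · exact fun c _ _ hx => V.zsmul_mem hx c
  exact hV

variable {K : Type*} [Field K] [NumberField K] {A : Subring K}

/-- The Frobenius congruence in `O_K`. -/
theorem frob_int (K : Type*) [Field K] [NumberField K] :
    ∃ B : ℕ, ∀ q : ℕ, q.Prime → B < q → ∀ z : 𝓞 K,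
      (q : 𝓞 K) ∣ z ^ (q ^ (Module.finrank ℚ K).factorial) - z := by
  classical
  set b := RingOfIntegers.basis K with hb
  have h1 : ∀ i, ∃ B : ℕ, ∀ q : ℕ, q.Prime → B < q →
      (q : 𝓞 K) ∣ b i ^ (q ^ (Module.finrank ℚ K).factorial) - b i := by
    intro i
    have hint : IsIntegral ℤ (b i) := RingOfIntegers.isIntegral (b i)
    have hint' : IsIntegral ℤ ((b i : 𝓞 K) : K) := RingOfIntegers.isIntegral_coe (b i)
    have e1 : minpoly ℤ ((b i : 𝓞 K) : K) = minpoly ℤ (b i) :=
      minpoly.algebraMap_eq RingOfIntegers.coe_injective (b i)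
    have e2 : minpoly ℚ ((b i : 𝓞 K) : K) = (minpoly ℤ (b i)).map (Int.castRingHom ℚ) := by
      rw [minpoly.isIntegrallyClosed_eq_field_fractions' ℚ hint', e1]
      rfl
    have hintQ : IsIntegral ℚ ((b i : 𝓞 K) : K) := hint'.tower_top
    have hirr : Irreducible ((minpoly ℤ (b i)).map (Int.castRingHom ℚ)) := by
      rw [← e2]
      exact minpoly.irreducible hintQ
    obtain ⟨B, hB⟩ := poly_frob (minpoly ℤ (b i)) (minpoly.monic hint) hirr
    refine ⟨B, fun q hq hBq => ?_⟩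
    refine frob_iter (frob_poly _ _ (hB q hq hBq) (b i) (minpoly.aeval ℤ (b i))) ?_
    refine Nat.factorial_dvd_factorial ?_
    have e3 : (minpoly ℤ (b i)).natDegree = (minpoly ℚ ((b i : 𝓞 K) : K)).natDegree := by
      rw [e2, (minpoly.monic hint).natDegree_map]
    rw [e3]
    exact minpoly.natDegree_le _
  choose B hB using h1
  refine ⟨max 2 (Finset.univ.sup B), fun q hq hBq z => ?_⟩
  refine frob_span hq ?_ _ b b.span_eq (fun i => hB i q hq ?_) z
  · exact (lt_of_le_of_lt (le_max_left _ _) hBq).ne'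
  · exact lt_of_le_of_lt ((Finset.le_sup (Finset.mem_univ i)).trans (le_max_right _ _)) hBq

/-- `x^(q^h) ≡ x mod q A` for all `x ∈ A` and all large primes `q` -/
structure FrobH (A : Subring K) (h : ℕ) : Prop where
  pos : 0 < h
  fr : ∃ B : ℕ, ∀ q : ℕ, q.Prime → B < q → ∀ x ∈ A, (x ^ (q ^ h) - x) / (q : K) ∈ A

/-- Let `θ ∈ O_K` be a primitive element with minimal polynomial `F` over `ℤ`, `h = n!`,
`D O_K ⊆ ℤ[θ]`. For large `q` the element `D` is invertible mod `q`, the ring `R = A / q A` is finite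
and the image of `O_K → R` is everything (`exists_int_rep`), so every element of `R` is a polynomial
in the image of `θ` with integer coefficients (`D⁻¹ mod q` is an integer). The `q`-power map is a ring
homomorphism of `R`, and `θ^(q^h) = θ` in `R` by `poly_frob`. So `x^(q^h) = x` in `R` for all `x`. -/
theorem SRing.frob (hA : SRing A) : ∃ h : ℕ, FrobH A h := by
  obtain ⟨B, hB⟩ := frob_int K
  refine ⟨(Module.finrank ℚ K).factorial, Nat.factorial_pos _, B, fun q hq hBq x hx => ?_⟩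
  obtain ⟨z, hz⟩ := hA.exists_int_rep hq.pos hx
  obtain ⟨w, hw⟩ := hB q hq hBq z
  have hq0 : (q : K) ≠ 0 := Nat.cast_ne_zero.2 hq.ne_zero
  have hzA : (z : K) ∈ A := hA.int_mem z
  have hw' : (z : K) ^ (q ^ (Module.finrank ℚ K).factorial) - z = q * w := by
    have := congrArg (fun t : 𝓞 K => (t : K)) hw
    push_cast at this
    exact this
  set N := q ^ (Module.finrank ℚ K).factorial
  have hS : (∑ i ∈ Finset.range N, x ^ i * (z : K) ^ (N - 1 - i)) ∈ A :=
    A.sum_mem (fun i _ => A.mul_mem (A.pow_mem hx _) (A.pow_mem hzA _))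
  have e : (x ^ N - x) / (q : K) = (∑ i ∈ Finset.range N, x ^ i * (z : K) ^ (N - 1 - i)) *
      ((x - z) / q) + w - (x - z) / q := by
    have h1 := Commute.geom_sum₂_mul (Commute.all x (z : K)) N
    have h2 : x ^ N - x = (x ^ N - (z : K) ^ N) + ((z : K) ^ N - z) - (x - z) := by ring
    rw [h2, ← h1, hw']
    field_simp
  rw [e]
  exact A.sub_mem (A.add_mem (A.mul_mem hS hz) (hA.int_mem w)) hz

/-- consequence for units: `e^(q^h - 1) ≡ 1 mod q` -/
theorem FrobH.unit {h : ℕ} (hF : FrobH A h) {e : K} (he0 : e ≠ 0) (he : e ∈ A) (hei : e⁻¹ ∈ A) :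
    ∃ B : ℕ, ∀ q : ℕ, q.Prime → B < q → (e ^ (q ^ h - 1) - 1) / (q : K) ∈ A := by
  obtain ⟨B, hB⟩ := hF.fr
  refine ⟨B, fun q hq hBq => ?_⟩
  have h1 := A.mul_mem hei (hB q hq hBq e he)
  have hN : 0 < q ^ h := Nat.pow_pos hq.pos
  have e1 : e⁻¹ * ((e ^ (q ^ h) - e) / (q : K)) = (e ^ (q ^ h - 1) - 1) / (q : K) := by
    have h2 : e ^ (q ^ h) = e * e ^ (q ^ h - 1) := by
      rw [← pow_succ', Nat.sub_add_cancel hN]
    rw [h2]
    field_simp
  rwa [e1] at h1

end BoomNF
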