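import Pool.Agent.H.MP_4c7af0_al.NF.Rng1

/-! Good elements, part 2a (MP_4c7af0_al, number field case). -/

namespace BoomNF

open NumberField

variable {K : Type*} [Field K] [NumberField K] {A : Subring K}

/-- Coprimality with all prime divisors gives coprimality. -/
private theorem good2a_cop_of_primes {x : K} (hx : x ∈ A) :
    ∀ D : ℕ, 0 < D → (∀ p : ℕ, p.Prime → p ∣ D → Cop A x p) → Cop A x (D : K) := by
  intro D
  induction D using induction_on_primes with
  | zero => intro h; exact absurd h (lt_irrefl _)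
  | one =>
    intro _ _
    exact ⟨0, A.zero_mem, 1, A.one_mem, by simp⟩
  | prime_mul p a hp ih =>
    intro h0 h
    have ha0 : 0 < a := Nat.pos_of_ne_zero (fun h => by rw [h, mul_zero] at h0; exact lt_irrefl _ h0)
    have h1 := ih ha0 (fun q hq hqa => h q hq (Dvd.dvd.mul_left hqa p))
    have h2 := h p hp (dvd_mul_right p a)
    rw [Nat.cast_mul]
    exact Cop.mul_right hx (natCast_mem A p) (natCast_mem A a) h2 h1

/-- The Chinese remainder theorem. -/
private theorem good2a_crt {a b : K} (hb : b ∈ A)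
    (hP : ∀ p : ℕ, p.Prime → ∃ t : ℤ, Cop A (a + b * t) p) :
    ∀ D : ℕ, 0 < D → ∃ t : ℤ, ∀ p : ℕ, p.Prime → p ∣ D → Cop A (a + b * t) p := by
  intro D
  induction D using induction_on_primes with
  | zero => intro h; exact absurd h (lt_irrefl _)
  | one =>
    intro _
    refine ⟨0, fun p hp h => absurd (Nat.dvd_one.1 h) hp.ne_one⟩
  | prime_mul q D hq ih =>
    intro h0
    have hD0 : 0 < D := Nat.pos_of_ne_zero (fun h => by rw [h, mul_zero] at h0; exact lt_irrefl _ h0)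
    obtain ⟨t, ht⟩ := ih hD0
    by_cases hqD : q ∣ D
    · refine ⟨t, fun p hp h => ?_⟩
      rcases (Nat.Prime.dvd_mul hp).1 h with h1 | h1
      · exact ht p hp (h1.trans hqD)
      · exact ht p hp h1
    · obtain ⟨s, hs⟩ := hP q hq
      have hcop : IsCoprime (D : ℤ) (q : ℤ) := by
        rw [Nat.isCoprime_iff_coprime]
        exact ((Nat.Prime.coprime_iff_not_dvd hq).2 hqD).symm
      obtain ⟨u, v, huv⟩ := hcop
      -- `t + D u (s - t) = s - q v (s - t)`
      refine ⟨t + D * (u * (s - t)), fun p hp h => ?_⟩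
      have h1 : p = q ∨ p ∣ D := by
        rcases (Nat.Prime.dvd_mul hp).1 h with h1 | h1
        · exact Or.inl ((Nat.prime_dvd_prime_iff_eq hp hq).1 h1)
        · exact Or.inr h1
      rcases h1 with h1 | ⟨e, he⟩
      · subst h1
        have h2 := Cop.add_mul (t := b * ((-(v * (s - t)) : ℤ) : K))
          (A.mul_mem hb (intCast_mem A _)) hs
        have e1 : t + D * (u * (s - t)) = s + p * (-(v * (s - t))) := by
          linear_combination (s - t) * huv
        rw [e1]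
        have e2 : a + b * ((s + (p : ℤ) * (-(v * (s - t))) : ℤ) : K) =
            a + b * (s : K) + (p : K) * (b * ((-(v * (s - t)) : ℤ) : K)) := by
          push_cast
          ring
        rw [e2]
        exact h2
      · have h2 := Cop.add_mul (t := b * (((e : ℤ) * (u * (s - t)) : ℤ) : K))
          (A.mul_mem hb (intCast_mem A _)) (ht p hp ⟨e, he⟩)
        have e2 : a + b * ((t + (D : ℤ) * (u * (s - t)) : ℤ) : K) =
            a + b * (t : K) + (p : K) * (b * (((e : ℤ) * (u * (s - t)) : ℤ) : K)) := by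
          rw [he]
          push_cast
          ring
        rw [e2]
        exact h2

/-- Proof: by the Chinese remainder theorem in `ℤ` over the primes `p ∣ D`: for `p ≤ ν` we want
`t ≡ 0 mod p`; for `p > ν` the pigeonhole property gives `0 ≤ t_p ≤ ν` with `a + b t_p` coprime to
`p`, and we want `t ≡ t_p mod p`. Then `a + b t` is coprime to each prime `p ∣ D`, so to `D`. The
solutions are a residue class, so infinitely many, and `a + b t = 0` for at most one `t`. -/
theorem choose_t {a b : K} (ha : a ∈ A) (hb : b ∈ A) (hb0 : b ≠ 0) (hab : Cop A a b) {ν : ℕ}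
    (hν : ∀ p : ℕ, p.Prime → ν < p → ∀ a ∈ A, ∀ b ∈ A,
      (∃ x ∈ A, ∃ y ∈ A, ∃ z ∈ A, a * x + b * y + p * z = 1) →
      ∃ t : ℕ, t ≤ ν ∧ Cop A (a + b * t) p)
    (haν : ∀ p : ℕ, p.Prime → p ≤ ν → Cop A a p) {D : ℕ} (hD : 0 < D) :
    ∃ t : ℤ, a + b * t ≠ 0 ∧ Cop A (a + b * t) D := by
  obtain ⟨t, ht⟩ := good2a_crt (A := A) (a := a) (b := b) hb (fun p hp => by
    rcases Nat.lt_or_ge ν p with h | h
    · obtain ⟨x, hx, y, hy, e⟩ := hab
      obtain ⟨t, -, ht⟩ := hν p hp h a ha b hb ⟨x, hx, y, hy, 0, A.zero_mem, by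
        rw [mul_zero, add_zero]; exact e⟩
      exact ⟨t, by rw [Int.cast_natCast]; exact ht⟩
    · exact ⟨0, by rw [Int.cast_zero, mul_zero, add_zero]; exact haν p hp h⟩) D hD
  have hmem : ∀ t : ℤ, a + b * t ∈ A := fun t => A.add_mem ha (A.mul_mem hb (intCast_mem A t))
  have h1 := good2a_cop_of_primes (hmem t) D hD ht
  by_cases h0 : a + b * (t : K) = 0
  · refine ⟨t + D, ?_, ?_⟩
    · have : a + b * ((t + D : ℤ) : K) = b * D := by
        push_cast
        linear_combination h0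
      rw [this]
      exact mul_ne_zero hb0 (by exact_mod_cast hD.ne')
    · have h2 := Cop.add_mul (t := b) hb h1
      have : a + b * ((t + D : ℤ) : K) = a + b * (t : K) + (D : K) * b := by
        push_cast
        ring
      rw [this]
      exact h2
  · exact ⟨t, h0, h1⟩

/-- An integer that is invertible modulo `c` has an integer inverse modulo `c`. -/
private theorem good2a_inv (hA : SRing A) {c : K} (hc0 : c ≠ 0) (z : ℤ) {w : K} (hw : w ∈ A)
    (h : ((z : K) * w - 1) / c ∈ A) : ∃ z' : ℤ, ((z : K) * z' - 1) / c ∈ A := by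
  obtain ⟨n, hn, hnc⟩ := hA.dvd_nat hc0
  have : NeZero n := ⟨hn.ne'⟩
  obtain ⟨i, j, hij, e⟩ : ∃ i j : ℕ, i < j ∧ (z : ZMod n) ^ i = (z : ZMod n) ^ j := by
    obtain ⟨i, j, hij, e⟩ := Finite.exists_ne_map_eq_of_infinite (fun i : ℕ => (z : ZMod n) ^ i)
    rcases Nat.lt_or_gt_of_ne hij with h1 | h1
    · exact ⟨i, j, h1, e⟩
    · exact ⟨j, i, h1, e.symm⟩
  obtain ⟨l, rfl⟩ : ∃ l, j = i + (l + 1) := ⟨j - i - 1, by omega⟩
  have h1 : (n : ℤ) ∣ z ^ (i + (l + 1)) - z ^ i := by
    rw [← ZMod.intCast_zmod_eq_zero_iff_dvd, Int.cast_sub, Int.cast_pow, Int.cast_pow, ← e,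
      sub_self]
  obtain ⟨q, hq⟩ := h1
  have hzA : (z : K) ∈ A := intCast_mem A z
  have hpow : ∀ i : ℕ, (((z : K) * w) ^ i - 1) / c ∈ A := by
    intro i
    induction i with
    | zero => simp [A.zero_mem]
    | succ i ih =>
      have : (((z : K) * w) ^ (i + 1) - 1) / c =
          (((z : K) * w) ^ i - 1) / c * ((z : K) * w) + ((z : K) * w - 1) / c := by
        rw [pow_succ]
        ring
      rw [this]
      exact A.add_mem (A.mul_mem ih (A.mul_mem hzA hw)) h
  refine ⟨z ^ l, ?_⟩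
  have hq' : (z : K) ^ (i + (l + 1)) - (z : K) ^ i = n * q := by
    exact_mod_cast congrArg (Int.cast (R := K)) hq
  have : ((z : K) * ((z ^ l : ℤ) : K) - 1) / c = w ^ i * q * (n / c) -
      (((z : K) * w) ^ i - 1) / c * ((z : K) * (z : K) ^ l - 1) := by
    push_cast
    field_simp
    rw [pow_add, pow_succ] at hq'
    rw [mul_pow]
    linear_combination w ^ i * hq'
  rw [this]
  exact A.sub_mem (A.mul_mem (A.mul_mem (A.pow_mem hw i) (intCast_mem A q)) hnc)
    (A.mul_mem (hpow i) (A.sub_mem (A.mul_mem hzA (A.pow_mem hzA l)) A.one_mem))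

/-- The inverse modulo `c` of an element congruent to an integer is congruent to an integer. -/
private theorem good2a_inv' (hA : SRing A) {c : K} (hc0 : c ≠ 0) {x w : K}
    (hw : w ∈ A) (z : ℤ) (hz : (x - z) / c ∈ A) (h : (x * w - 1) / c ∈ A) :
    ∃ z' : ℤ, (w - z') / c ∈ A := by
  have h1 : ((z : K) * w - 1) / c ∈ A := by
    have : ((z : K) * w - 1) / c = (x * w - 1) / c - w * ((x - z) / c) := by ring
    rw [this]
    exact A.sub_mem h (A.mul_mem hw hz)
  obtain ⟨z', h2⟩ := good2a_inv hA hc0 z hw h1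
  refine ⟨z', ?_⟩
  have : (w - z') / c = (z' : K) * (((z : K) * w - 1) / c) - w * (((z : K) * z' - 1) / c) := by
    ring
  rw [this]
  exact A.sub_mem (A.mul_mem (intCast_mem A z') h1) (A.mul_mem hw h2)

/-- Proof: let `Z'` be the image of `ℤ` in the finite ring `C = A / c A`. An element of a finite
subring which is a unit of `C` has its inverse in the subring (it is a power). `D` is a unit of `C`,
so `D⁻¹ ∈ Z'` and every `x ∈ O_K` is `≡ b^k z` with `z ∈ Z'`. For `x = 1`: `b^k z₁ = 1`, so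
`b^k = z₁⁻¹ ∈ Z'`; hence `O_K` maps into `Z'`. Finally `y ∈ O_K` is a unit of `C`, so `y⁻¹ ∈ Z'` and
`A = O_K[1/y]` maps into `Z'`. -/
theorem SRing.onto_of (hA : SRing A) {b c : K} (hb : b ∈ A) (hc : c ∈ A) (hc0 : c ≠ 0) {D : ℕ}
    (hDc : Cop A (D : K) c) {k : ℕ}
    (h : ∀ x : 𝓞 K, ∃ z : ℤ, ((D : K) * (x : K) - b ^ k * (z : K)) / c ∈ A) : Onto A c := by
  -- `D` has an integer inverse
  obtain ⟨x₀, hx₀, y₀, hy₀, e₀⟩ := hDc
  obtain ⟨d, hd⟩ := good2a_inv hA hc0 (D : ℤ) hx₀ (by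
    have : (((D : ℤ) : K) * x₀ - 1) / c = -y₀ := by
      rw [Int.cast_natCast]
      field_simp
      linear_combination e₀
    rw [this]
    exact A.neg_mem hy₀)
  rw [Int.cast_natCast] at hd
  have hbk : b ^ k ∈ A := A.pow_mem hb k
  have h1 : ∀ x : 𝓞 K, ∃ z : ℤ, ((x : K) - b ^ k * z) / c ∈ A := by
    intro x
    obtain ⟨z, hz⟩ := h x
    refine ⟨z * d, ?_⟩
    have : ((x : K) - b ^ k * ((z * d : ℤ) : K)) / c =
        (d : K) * (((D : K) * (x : K) - b ^ k * (z : K)) / c) - x * (((D : K) * d - 1) / c) := by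
      push_cast
      ring
    rw [this]
    exact A.sub_mem (A.mul_mem (intCast_mem A d) hz) (A.mul_mem (hA.int_mem x) hd)
  obtain ⟨z₁, hz₁⟩ := h1 1
  -- `b ^ k` is congruent to an integer
  obtain ⟨e, he⟩ : ∃ e : ℤ, (b ^ k - e) / c ∈ A := by
    refine good2a_inv' hA hc0 (x := (z₁ : K)) hbk z₁ (by rw [sub_self, zero_div]; exact A.zero_mem)
      ?_
    have : ((z₁ : K) * b ^ k - 1) / c = -((((1 : 𝓞 K) : K) - b ^ k * z₁) / c) := by
      rw [show ((1 : 𝓞 K) : K) = 1 from rfl]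
      ring
    rw [this]
    exact A.neg_mem hz₁
  have h2 : ∀ x : 𝓞 K, ∃ z : ℤ, ((x : K) - z) / c ∈ A := by
    intro x
    obtain ⟨z, hz⟩ := h1 x
    refine ⟨e * z, ?_⟩
    have : ((x : K) - ((e * z : ℤ) : K)) / c =
        ((x : K) - b ^ k * z) / c + z * ((b ^ k - e) / c) := by
      push_cast
      ring
    rw [this]
    exact A.add_mem hz (A.mul_mem (intCast_mem A z) he)
  obtain ⟨y, hy0, hy⟩ := hA.ex
  have hyK : (y : K) ≠ 0 := by
    simpa using hy0
  intro x hx
  obtain ⟨j, z, hz⟩ := (hy x).1 hx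
  have hyi : ((y : K))⁻¹ ∈ A := (hy _).2 ⟨1, 1, by
    rw [pow_one, inv_mul_cancel₀ hyK]; rfl⟩
  have hyj : ((y : K))⁻¹ ^ j ∈ A := A.pow_mem hyi j
  obtain ⟨r, hr⟩ := h2 (y ^ j)
  obtain ⟨f, hf⟩ := good2a_inv' hA hc0 (x := ((y ^ j : 𝓞 K) : K)) hyj r hr (by
    have : (((y ^ j : 𝓞 K) : K) * ((y : K))⁻¹ ^ j - 1) / c = 0 := by
      rw [show ((y ^ j : 𝓞 K) : K) = (y : K) ^ j from by push_cast; rfl, ← mul_pow,
        mul_inv_cancel₀ hyK, one_pow, sub_self, zero_div]
    rw [this]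
    exact A.zero_mem)
  obtain ⟨g, hg⟩ := h2 z
  refine ⟨g * f, ?_⟩
  have hx' : x = z * ((y : K))⁻¹ ^ j := by
    rw [← hz, mul_assoc, ← mul_pow, mul_inv_cancel₀ hyK, one_pow, mul_one]
  have : (x - ((g * f : ℤ) : K)) / c =
      ((y : K))⁻¹ ^ j * (((z : K) - g) / c) + g * ((((y : K))⁻¹ ^ j - f) / c) := by
    rw [hx']
    push_cast
    ring
  rw [this]
  exact A.add_mem (A.mul_mem hyj hg) (A.mul_mem (intCast_mem A g) hf)

end BoomNF
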