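import Pool.Agent.H.MP_4c7af0_al.NF.Rng1

/-! `A / M A` is semi-local: lifting unimodular pairs (MP_4c7af0_al, number field case). -/

namespace BoomNF

open NumberField

/-- Some positive power of an element of a finite monoid is idempotent. -/
theorem rng2_idem {Q : Type*} [Monoid Q] [Finite Q] (a : Q) :
    ∃ n : ℕ, 0 < n ∧ a ^ n * a ^ n = a ^ n := by
  obtain ⟨i, j, hij, h⟩ := Finite.exists_ne_map_eq_of_infinite (fun n : ℕ => a ^ n)
  wlog hlt : i < j generalizing i j
  · exact this j i hij.symm h.symm (lt_of_le_of_ne (not_lt.1 hlt) hij.symm)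
  obtain ⟨p, rfl⟩ := Nat.exists_eq_add_of_lt hlt
  have h0 : a ^ i = a ^ (i + p + 1) := h
  have h1 : ∀ m, i ≤ m → a ^ (m + (p + 1)) = a ^ m := by
    intro m hm
    obtain ⟨c, rfl⟩ := Nat.exists_eq_add_of_le hm
    have e : i + c + (p + 1) = (i + p + 1) + c := by ring
    rw [e, pow_add a (i + p + 1) c, ← h0, ← pow_add]
  have h2 : ∀ k m, i ≤ m → a ^ (m + k * (p + 1)) = a ^ m := by
    intro k
    induction k with
    | zero => intro m _; simp
    | succ k ih =>
      intro m hm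
      have e : m + (k + 1) * (p + 1) = (m + k * (p + 1)) + (p + 1) := by ring
      rw [e, h1 _ (by omega), ih m hm]
  refine ⟨(i + 1) * (p + 1), by positivity, ?_⟩
  rw [← pow_add]
  exact h2 (i + 1) _ (by nlinarith)

/-- Finite commutative rings have stable range one. -/
theorem rng2_sr {Q : Type*} [CommRing Q] [Finite Q] (a b x y : Q) (h : a * x + b * y = 1) :
    ∃ t w : Q, (a + b * t) * w = 1 := by
  obtain ⟨n, hn, he⟩ := rng2_idem a
  obtain ⟨m, rfl⟩ : ∃ m, n = m + 1 := ⟨n - 1, by omega⟩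
  set e : Q := a ^ (m + 1) with hedef
  have hN : IsNilpotent ((1 - e) * a * (1 - x)) := by
    refine ⟨m + 1, ?_⟩
    rw [mul_pow, mul_pow, ← hedef]
    have h1 : (1 - e) ^ (m + 1) * e = 0 := by
      rw [pow_succ, mul_assoc]
      have h2 : (1 - e) * e = 0 := by
        rw [sub_mul, one_mul, he, sub_self]
      rw [h2, mul_zero]
    rw [h1, zero_mul]
  obtain ⟨u, hu⟩ : IsUnit (1 + (1 - e) * a * (1 - x)) := hN.isUnit_one_add
  refine ⟨(1 - e) * y, e * a ^ m + (1 - e) * (↑u⁻¹ : Q), ?_⟩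
  have hw : (1 + (1 - e) * a * (1 - x)) * (↑u⁻¹ : Q) = 1 := by rw [← hu, Units.mul_inv]
  have ha : a ^ m * a = e := by rw [hedef, pow_succ]
  have key : ∀ (e c w V : Q), e * e = e → c * a = e → V * w = 1 →
      V = 1 + (1 - e) * a * (1 - x) → (a + b * ((1 - e) * y)) * (e * c + (1 - e) * w) = 1 := by
    intro e c w V he ha hw hV
    have h1 : a + b * ((1 - e) * y) = e * a + (1 - e) * V := by
      rw [hV]
      linear_combination (1 - e) * h - a * (1 - x) * he
    rw [h1]
    linear_combination e ^ 2 * ha + (e + 2 - (a * w + V * c)) * he + (1 - e) ^ 2 * hw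
  exact key e (a ^ m) _ _ he ha hw rfl

variable {K : Type*} [Field K] [NumberField K] {A : Subring K}

/-- If `a, b` generate the unit ideal of `A` and `M ≠ 0` then there is `t` with `a + b t` nonzero
and coprime to `M`. Proof: `A / M A` is finite (`finite_quot`), so only finitely many maximal ideals
`P` of the ring `↥A` contain `M`; by the Chinese remainder theorem choose `t` with `t ∈ P` if `a ∉ P`
and `t - 1 ∈ P` if `a ∈ P` (then `b ∉ P`); so `a + b t ∉ P` for all these `P`, i.e. `a + b t` is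
coprime to `M`. If `a + b t = 0` then `M` is a unit of `A` and every `t` is allowed (take `t = 0` or
`t = 1`). -/
theorem SRing.coprime_lift (hA : SRing A) {a b M : K} (ha : a ∈ A) (hb : b ∈ A) (hM : M ∈ A)
    (hM0 : M ≠ 0) (hab : Cop A a b) : ∃ t ∈ A, a + b * t ≠ 0 ∧ Cop A (a + b * t) M := by
  obtain ⟨x, hx, y, hy, e⟩ := hab
  obtain ⟨T, hT, hT'⟩ := hA.finite_quot hM hM0
  let I : Ideal A := Ideal.span {⟨M, hM⟩}
  have hI : ∀ (r s : A), ((r : K) - s) / M ∈ A → Ideal.Quotient.mk I r = Ideal.Quotient.mk I s := by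
    intro r s h
    rw [Ideal.Quotient.eq, Ideal.mem_span_singleton']
    refine ⟨⟨_, h⟩, Subtype.ext ?_⟩
    change ((r : K) - s) / M * M = (r : K) - s
    field_simp
  have hfin : Finite (A ⧸ I) := by
    refine Finite.of_surjective (fun t : T => Ideal.Quotient.mk I ⟨t.1, hT _ t.2⟩) ?_
    intro q
    obtain ⟨r, rfl⟩ := Ideal.Quotient.mk_surjective q
    obtain ⟨t, ht, h⟩ := hT' r.1 r.2
    exact ⟨⟨t, ht⟩, (hI r ⟨t, hT _ ht⟩ h).symm⟩
  have h1 : Ideal.Quotient.mk I ⟨a, ha⟩ * Ideal.Quotient.mk I ⟨x, hx⟩ +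
      Ideal.Quotient.mk I ⟨b, hb⟩ * Ideal.Quotient.mk I ⟨y, hy⟩ = 1 := by
    rw [← map_mul, ← map_mul, ← map_add, ← map_one (Ideal.Quotient.mk I)]
    congr 1
    exact Subtype.ext e
  obtain ⟨t, w, htw⟩ := rng2_sr _ _ _ _ h1
  obtain ⟨t, rfl⟩ := Ideal.Quotient.mk_surjective t
  obtain ⟨w, rfl⟩ := Ideal.Quotient.mk_surjective w
  have hcop : Cop A (a + b * t) M := by
    rw [← map_mul, ← map_add, ← map_mul, ← map_one (Ideal.Quotient.mk I), Ideal.Quotient.eq,
      Ideal.mem_span_singleton'] at htw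
    obtain ⟨z, hz⟩ := htw
    have hz' : (z : K) * M = (a + b * t) * w - 1 := congrArg Subtype.val hz
    refine ⟨w, w.2, -z, A.neg_mem z.2, ?_⟩
    linear_combination - hz'
  by_cases h0 : a + b * t = 0
  · obtain ⟨p, hp, q, hq, hpq⟩ := hcop
    rw [h0, zero_mul, zero_add] at hpq
    by_cases ha0 : a = 0
    · refine ⟨1, A.one_mem, ?_, 0, A.zero_mem, q, hq, by rw [mul_zero, zero_add, hpq]⟩
      intro hb0
      rw [ha0, mul_one, zero_add] at hb0
      rw [ha0, hb0, zero_mul, zero_mul, add_zero] at e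
      exact zero_ne_one e
    · refine ⟨0, A.zero_mem, by rwa [mul_zero, add_zero], 0, A.zero_mem, q, hq,
        by rw [mul_zero, zero_add, hpq]⟩
  · exact ⟨t, t.2, h0, hcop⟩

end BoomNF
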