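import Pool.Agent.H.MP_4c7af0_al.NF.Rng1

/-! Maximal ideals of `A` over a rational prime (MP_4c7af0_al, number field case). -/

namespace BoomNF

open NumberField

variable {K : Type*} [Field K] [NumberField K] {A : Subring K}

/-- the inclusion of `O_K` in `A` -/
noncomputable def rng3_inc (hA : SRing A) : 𝓞 K →+* A :=
  RingHom.codRestrict (algebraMap (𝓞 K) K) A hA.int_mem

theorem rng3_inc_coe (hA : SRing A) (z : 𝓞 K) : ((rng3_inc hA z : A) : K) = (z : K) := rfl

theorem rng3_comap_le (hA : SRing A) {P Q : Ideal A}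
    (h : P.comap (rng3_inc hA) = Q.comap (rng3_inc hA)) : P ≤ Q := by
  obtain ⟨y, hy0, hy⟩ := hA.ex
  have hyK : (y : K) ≠ 0 := by
    intro h0
    exact hy0 (RingOfIntegers.coe_injective (by simpa using h0))
  have hi : (y : K)⁻¹ ∈ A := (hy _).2 ⟨1, 1, by simp [hyK]⟩
  intro x hx
  obtain ⟨k, z, hz⟩ := (hy (x : K)).1 x.2
  have e1 : rng3_inc hA z = x * rng3_inc hA y ^ k := by
    apply Subtype.ext
    rw [rng3_inc_coe, ← hz]
    push_cast
    rw [rng3_inc_coe]
  have h1 : z ∈ P.comap (rng3_inc hA) := by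
    rw [Ideal.mem_comap, e1]
    exact Ideal.mul_mem_right _ _ hx
  rw [h, Ideal.mem_comap, e1] at h1
  have e2 : x = x * rng3_inc hA y ^ k * (⟨(y : K)⁻¹, hi⟩ : A) ^ k := by
    apply Subtype.ext
    push_cast
    rw [rng3_inc_coe, mul_assoc, ← mul_pow, mul_inv_cancel₀ hyK, one_pow, mul_one]
  rw [e2]
  exact Ideal.mul_mem_right _ _ h1

/-- At most `[K : ℚ]` maximal ideals of `A` contain a given rational prime `p`.
Proof: `A / p A` is a quotient of `O_K / p O_K` (`exists_int_rep`), which has `p ^ [K : ℚ]` elements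
(`O_K` is a free `ℤ`-module of rank `[K : ℚ]`); for distinct maximal ideals `P₁, …, P_r` containing
`p` the map `A / p A → ∏ A / P_i` is onto (Chinese remainder theorem) and each `A / P_i` is a
nontrivial ring of characteristic `p`, so has at least `p` elements: `p ^ r ≤ p ^ [K : ℚ]`.
(Alternatively: pull back the `P_i` to distinct primes of `O_K` over `p`.) -/
theorem SRing.card_max (hA : SRing A) {p : ℕ} (hp : p.Prime) (T : Finset (Ideal A))
    (hT : ∀ P ∈ T, P.IsMaximal ∧ ((p : ℕ) : A) ∈ P) : T.card ≤ Module.finrank ℚ K := by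
  classical
  haveI : Fact p.Prime := ⟨hp⟩
  have hmax : (Ideal.span {(p : ℤ)}).IsMaximal := Int.ideal_span_isMaximal_of_prime p
  have hbot : Ideal.span {(p : ℤ)} ≠ ⊥ := by
    rw [Ne, Ideal.span_singleton_eq_bot]
    exact_mod_cast hp.ne_zero
  have hle := Ideal.card_primesOverFinset_le_finrank (R := ℤ) (𝓞 K) ℚ K hbot
  refine le_trans ?_ hle
  have hinj : Set.InjOn (fun P : Ideal A => P.comap (rng3_inc hA)) (T : Set (Ideal A)) := by
    intro P _ Q _ h
    exact le_antisymm (rng3_comap_le hA h) (rng3_comap_le hA h.symm)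
  rw [← Finset.card_image_of_injOn hinj]
  apply Finset.card_le_card
  intro Q hQ
  obtain ⟨P, hP, rfl⟩ := Finset.mem_image.1 hQ
  obtain ⟨hPm, hpP⟩ := hT P hP
  rw [IsDedekindDomain.mem_primesOverFinset_iff hbot]
  have hprime : (P.comap (rng3_inc hA)).IsPrime := Ideal.comap_isPrime _ _
  refine ⟨hprime, ⟨?_⟩⟩
  refine hmax.eq_of_le ?_ ?_
  · exact (Ideal.IsPrime.comap (algebraMap ℤ (𝓞 K))).ne_top
  · rw [Ideal.span_singleton_le_iff_mem, Ideal.under_def, Ideal.mem_comap, Ideal.mem_comap]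
    have : rng3_inc hA (algebraMap ℤ (𝓞 K) (p : ℤ)) = ((p : ℕ) : A) := by
      simp
    rw [this]
    exact hpP

/-- `(P)`. Proof: `ν = [K : ℚ]`. Suppose no `t ∈ {0, …, ν}` works: for every such `t` there is a
maximal ideal `P_t` of `A` containing `a + b t` and `p`. By `card_max` two of them agree,
`P_t = P_{t'}`, `t ≠ t'`; then `b (t - t') ∈ P_t`, and `t - t'` is prime to `p` (`|t - t'| ≤ ν < p`),
so `b ∈ P_t`, `a ∈ P_t`, and with `p ∈ P_t` we get `1 ∈ P_t`, a contradiction. -/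
theorem SRing.pigeon (hA : SRing A) : ∃ ν : ℕ, ∀ p : ℕ, p.Prime → ν < p → ∀ a ∈ A, ∀ b ∈ A,
    (∃ x ∈ A, ∃ y ∈ A, ∃ z ∈ A, a * x + b * y + p * z = 1) →
    ∃ t : ℕ, t ≤ ν ∧ Cop A (a + b * t) p := by
  classical
  refine ⟨Module.finrank ℚ K, fun p hp hνp a ha b hb ⟨x, hx, y, hy, z, hz, e⟩ => ?_⟩
  by_contra hcon
  push Not at hcon
  set ν := Module.finrank ℚ K with hν
  have key : ∀ t : ℕ, t ≤ ν → ∃ P : Ideal A, P.IsMaximal ∧
      ((⟨a, ha⟩ : A) + ⟨b, hb⟩ * (t : A)) ∈ P ∧ ((p : ℕ) : A) ∈ P := by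
    intro t ht
    have hne : Ideal.span {((⟨a, ha⟩ : A) + ⟨b, hb⟩ * (t : A)), ((p : ℕ) : A)} ≠ ⊤ := by
      intro htop
      rw [Ideal.eq_top_iff_one, Ideal.mem_span_pair] at htop
      obtain ⟨c, d, hcd⟩ := htop
      apply hcon t ht
      refine ⟨c, c.2, d, d.2, ?_⟩
      have := congrArg (fun w : A => (w : K)) hcd
      push_cast at this
      linear_combination this
    obtain ⟨P, hP, hle⟩ := Ideal.exists_le_maximal _ hne
    exact ⟨P, hP, hle (Ideal.subset_span (by simp)), hle (Ideal.subset_span (by simp))⟩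
  choose! P hPm hPa hPp using key
  have hcard : ((Finset.range (ν + 1)).image P).card < (Finset.range (ν + 1)).card := by
    have h1 := hA.card_max hp ((Finset.range (ν + 1)).image P) (by
      intro Q hQ
      obtain ⟨t, ht, rfl⟩ := Finset.mem_image.1 hQ
      have ht' : t ≤ ν := Nat.lt_succ_iff.1 (Finset.mem_range.1 ht)
      exact ⟨hPm t ht', hPp t ht'⟩)
    rw [Finset.card_range]
    omega
  obtain ⟨s, hs, t, ht, hst, hPst⟩ := Finset.exists_ne_map_eq_of_card_lt_of_maps_to hcard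
    (fun i hi => Finset.mem_image_of_mem P hi)
  have hs' : s ≤ ν := Nat.lt_succ_iff.1 (Finset.mem_range.1 hs)
  have ht' : t ≤ ν := Nat.lt_succ_iff.1 (Finset.mem_range.1 ht)
  have h1 := hPa s hs'
  have h2 := hPa t ht'
  rw [← hPst] at h2
  have h3 : (⟨b, hb⟩ : A) * ((s : A) - (t : A)) ∈ P s := by
    have := (P s).sub_mem h1 h2
    convert this using 1
    ring
  have hcop : IsCoprime ((s : ℤ) - (t : ℤ)) (p : ℤ) := by
    rw [isCoprime_comm, (Nat.prime_iff_prime_int.1 hp).coprime_iff_not_dvd]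
    intro hdvd
    have h0 : (s : ℤ) - t ≠ 0 := by
      intro h
      apply hst
      omega
    have := Int.le_of_dvd (abs_pos.2 h0) ((dvd_abs _ _).2 hdvd)
    have h4 : |(s : ℤ) - t| ≤ ν := by
      rw [abs_le]
      constructor <;> omega
    omega
  obtain ⟨u, v, huv⟩ := hcop
  have hbP : (⟨b, hb⟩ : A) ∈ P s := by
    have e1 : (⟨b, hb⟩ : A) = (⟨b, hb⟩ * ((s : A) - (t : A))) * (u : A) +
        ((p : ℕ) : A) * (⟨b, hb⟩ * (v : A)) := by
      have e2 : (u : A) * ((s : A) - (t : A)) + (v : A) * ((p : ℕ) : A) = 1 := by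
        have := congrArg (fun w : ℤ => (w : A)) huv
        push_cast at this
        exact this
      linear_combination (-(⟨b, hb⟩ : A)) * e2
    rw [e1]
    exact (P s).add_mem ((P s).mul_mem_right _ h3) ((P s).mul_mem_right _ (hPp s hs'))
  have haP : (⟨a, ha⟩ : A) ∈ P s := by
    have := (P s).sub_mem h1 ((P s).mul_mem_right (s : A) hbP)
    simpa using this
  apply (hPm s hs').ne_top
  rw [Ideal.eq_top_iff_one]
  have e3 : (1 : A) = ⟨a, ha⟩ * ⟨x, hx⟩ + ⟨b, hb⟩ * ⟨y, hy⟩ + ((p : ℕ) : A) * ⟨z, hz⟩ := by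
    apply Subtype.ext
    push_cast
    exact e.symm
  rw [e3]
  exact (P s).add_mem ((P s).add_mem ((P s).mul_mem_right _ haP) ((P s).mul_mem_right _ hbP))
    ((P s).mul_mem_right _ (hPp s hs'))

end BoomNF
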