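import Pool.Agent.H.MP_4c7af0_al.NF.Good1
import Pool.Agent.H.MP_4c7af0_al.NF.Good2a
import Pool.Agent.H.MP_4c7af0_al.NF.Rng2
import Pool.Agent.H.MP_4c7af0_al.NF.Rng3

/-! Good elements, part 2 (MP_4c7af0_al, number field case). -/

namespace BoomNF

open NumberField

variable {K : Type*} [Field K] [NumberField K] {A : Subring K}

theorem good2_cop_pow {a b : K} (ha : a ∈ A) (hb : b ∈ A) (h : Cop A a b) (j : ℕ) :
    Cop A a (b ^ j) := by
  induction j with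
  | zero => exact ⟨0, A.zero_mem, 1, A.one_mem, by simp⟩
  | succ j ih =>
    rw [pow_succ]
    exact Cop.mul_right ha (A.pow_mem hb j) hb ih h

/-- Lemma G. Proof: (i) by `coprime_lift` (with `M = ν !`) we may assume `a` coprime to `ν !`, `ν`
from `pigeon`; (ii) `exists_prim` for `x = a / b`, `M = ν !`: replace `a` by `a + b ν ! θ`, so that
`a / b` is a primitive element (`a` is still coprime to all primes `p ≤ ν` and to `b`); (iii)
`lattice` gives `D`; (iv) `choose_t` gives `t ∈ ℤ` with `c = a + b t` coprime to `D` and nonzero;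
(v) `onto_of`. -/
theorem SRing.good (hA : SRing A) {a b : K} (ha : a ∈ A) (hb : b ∈ A) (hb0 : b ≠ 0)
    (hab : Cop A a b) : ∃ t ∈ A, a + b * t ≠ 0 ∧ Onto A (a + b * t) := by
  obtain ⟨ν, hν⟩ := hA.pigeon
  obtain ⟨M, hM⟩ : ∃ M : ℕ, M = ν.factorial := ⟨_, rfl⟩
  have hMpos : 0 < M := by rw [hM]; exact Nat.factorial_pos ν
  have hM0 : (M : K) ≠ 0 := by exact_mod_cast hMpos.ne'
  have hMA : (M : K) ∈ A := natCast_mem A M
  obtain ⟨t0, ht0, -, hc0⟩ := hA.coprime_lift ha hb hMA hM0 hab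
  obtain ⟨a1, ha1⟩ : ∃ a1, a1 = a + b * t0 := ⟨_, rfl⟩
  rw [← ha1] at hc0
  have ha1A : a1 ∈ A := by rw [ha1]; exact A.add_mem ha (A.mul_mem hb ht0)
  have hab1 : Cop A a1 b := by rw [ha1]; exact Cop.add_mul ht0 hab
  obtain ⟨θ, hθ⟩ := exists_prim (a1 / b) hMpos
  have hθA : (θ : K) ∈ A := hA.int_mem θ
  obtain ⟨a2, ha2⟩ : ∃ a2, a2 = a1 + b * ((M : K) * θ) := ⟨_, rfl⟩
  have hMθ : (M : K) * θ ∈ A := A.mul_mem hMA hθA
  have ha2A : a2 ∈ A := by rw [ha2]; exact A.add_mem ha1A (A.mul_mem hb hMθ)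
  have hab2 : Cop A a2 b := by rw [ha2]; exact Cop.add_mul hMθ hab1
  have hgen : IntermediateField.adjoin ℚ {a2 / b} = ⊤ := by
    have e : a2 / b = a1 / b + (M : K) * θ := by
      rw [ha2]
      field_simp
    rw [e]
    exact hθ
  obtain ⟨D, hD, hlat⟩ := hA.lattice ha2A hb hb0 hgen
  have haν : ∀ p : ℕ, p.Prime → p ≤ ν → Cop A a2 p := by
    intro p hp hpν
    obtain ⟨m, hm⟩ : p ∣ M := by rw [hM]; exact (Nat.Prime.dvd_factorial hp).2 hpν
    have hmA : (m : K) ∈ A := natCast_mem A m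
    have h1 : Cop A a1 p := by
      rw [hm] at hc0
      push_cast at hc0
      exact Cop.of_mul_right_left hmA hc0
    have e : a2 = a1 + (p : K) * ((m : K) * θ * b) := by
      rw [ha2, hm]
      push_cast
      ring
    rw [e]
    exact Cop.add_mul (A.mul_mem (A.mul_mem hmA hθA) hb) h1
  obtain ⟨t, ht0', htD⟩ := choose_t ha2A hb hb0 hab2 hν haν hD
  have htA : (t : K) ∈ A := intCast_mem A t
  have hcA : a2 + b * t ∈ A := A.add_mem ha2A (A.mul_mem hb htA)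
  have honto := hA.onto_of hb hcA ht0' htD.symm (k := Module.finrank ℚ K - 1) (hlat t)
  have e : a2 + b * t = a + b * (t0 + (M : K) * θ + t) := by
    rw [ha2, ha1]
    ring
  rw [e] at ht0' honto
  exact ⟨t0 + (M : K) * θ + t, A.add_mem (A.add_mem ht0 hMθ) htA, ht0', honto⟩

/-- Lemma G with `c = a + b t` coprime to `M`: `coprime_lift` for `(a, b, M)`, then `good` for
`(a + b t₀, b M)`. -/
theorem SRing.good' (hA : SRing A) {a b M : K} (ha : a ∈ A) (hb : b ∈ A) (hb0 : b ≠ 0)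
    (hab : Cop A a b) (hM : M ∈ A) (hM0 : M ≠ 0) :
    ∃ t ∈ A, a + b * t ≠ 0 ∧ Onto A (a + b * t) ∧ Cop A (a + b * t) M := by
  obtain ⟨t0, ht0, -, hc0⟩ := hA.coprime_lift ha hb hM hM0 hab
  have ha1A : a + b * t0 ∈ A := A.add_mem ha (A.mul_mem hb ht0)
  have hab1 : Cop A (a + b * t0) b := Cop.add_mul ht0 hab
  have hc1 : Cop A (a + b * t0) (b * M) := Cop.mul_right ha1A hb hM hab1 hc0
  obtain ⟨t1, ht1, hne, honto⟩ := hA.good ha1A (A.mul_mem hb hM) (mul_ne_zero hb0 hM0) hc1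
  have hcop : Cop A (a + b * t0 + b * M * t1) M :=
    Cop.of_mul_right_right hb (Cop.add_mul ht1 hc1)
  have e : a + b * t0 + b * M * t1 = a + b * (t0 + M * t1) := by ring
  rw [e] at hne honto hcop
  exact ⟨t0 + M * t1, A.add_mem ht0 (A.mul_mem hM ht1), hne, honto, hcop⟩

/-- Lemma G with prescribed residue mod `p^j`: `b` is a unit mod `p^j`, so there is `t₁` with
`a + b t₁ ≡ r mod p^j`; then `a + b t₁` and `b p^j` are coprime and we use `good'` for
`(a + b t₁, b p^j)` and `M`. -/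
theorem SRing.good_res (hA : SRing A) {a b M r : K} (ha : a ∈ A) (hb : b ∈ A) (hb0 : b ≠ 0)
    (hab : Cop A a b) (hM : M ∈ A) (hM0 : M ≠ 0) {p : ℕ} (hp : p.Prime) (j : ℕ) (hr : r ∈ A)
    (hrp : Cop A r (p : K)) (hbp : Cop A b (p : K)) :
    ∃ t ∈ A, a + b * t ≠ 0 ∧ Onto A (a + b * t) ∧ Cop A (a + b * t) M ∧
      (a + b * t - r) / (p : K) ^ j ∈ A := by
  have hpA : (p : K) ∈ A := natCast_mem A p
  have hp0 : (p : K) ≠ 0 := by exact_mod_cast hp.ne_zero
  have hpj : (p : K) ^ j ≠ 0 := pow_ne_zero _ hp0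
  have hpjA : (p : K) ^ j ∈ A := A.pow_mem hpA j
  obtain ⟨x, hx, y, hy, hxy⟩ := good2_cop_pow hb hpA hbp j
  have hra : r - a ∈ A := A.sub_mem hr ha
  obtain ⟨t1, ht1⟩ : ∃ t1, t1 = x * (r - a) := ⟨_, rfl⟩
  have ht1A : t1 ∈ A := by rw [ht1]; exact A.mul_mem hx hra
  have e1 : a + b * t1 = r + (p : K) ^ j * ((a - r) * y) := by
    rw [ht1]
    linear_combination (r - a) * hxy
  have hary : (a - r) * y ∈ A := A.mul_mem (A.sub_mem ha hr) hy
  have ha1A : a + b * t1 ∈ A := A.add_mem ha (A.mul_mem hb ht1A)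
  have hc1 : Cop A (a + b * t1) b := Cop.add_mul ht1A hab
  have hc2 : Cop A (a + b * t1) ((p : K) ^ j) := by
    rw [e1]
    exact Cop.add_mul hary (good2_cop_pow hr hpA hrp j)
  have hc3 : Cop A (a + b * t1) (b * (p : K) ^ j) := Cop.mul_right ha1A hb hpjA hc1 hc2
  obtain ⟨t2, ht2, hne, honto, hcop⟩ := hA.good' ha1A (A.mul_mem hb hpjA)
    (mul_ne_zero hb0 hpj) hc3 hM hM0
  have e : a + b * t1 + b * (p : K) ^ j * t2 = a + b * (t1 + (p : K) ^ j * t2) := by ring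
  have e2 : (a + b * (t1 + (p : K) ^ j * t2) - r) / (p : K) ^ j = (a - r) * y + b * t2 := by
    rw [← e, e1]
    field_simp
    ring
  rw [e] at hne honto hcop
  refine ⟨t1 + (p : K) ^ j * t2, A.add_mem ht1A (A.mul_mem hpjA ht2), hne, honto, hcop, ?_⟩
  rw [e2]
  exact A.add_mem hary (A.mul_mem hb ht2)

end BoomNF
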