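import Pool.Agent.H.MP_4c7af0_al.NF.Rng1

/-! Integers modulo a good element (MP_4c7af0_al, number field case). -/

namespace BoomNF

open NumberField

variable {K : Type*} [Field K] [NumberField K] {A : Subring K}

/-- `c A ∩ ℤ = n ℤ` with `n ≥ 1` -/
theorem SRing.onto_gen (hA : SRing A) {c : K} (hc0 : c ≠ 0) :
    ∃ n : ℕ, 0 < n ∧ ∀ z : ℤ, (z : K) / c ∈ A ↔ (n : ℤ) ∣ z := by
  let I : Ideal ℤ :=
    { carrier := {z | (z : K) / c ∈ A}
      add_mem' := by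
        intro a b ha hb
        show ((a + b : ℤ) : K) / c ∈ A
        rw [Int.cast_add, add_div]
        exact A.add_mem ha hb
      zero_mem' := by
        show ((0 : ℤ) : K) / c ∈ A
        rw [Int.cast_zero, zero_div]
        exact A.zero_mem
      smul_mem' := by
        intro m z hz
        show ((m * z : ℤ) : K) / c ∈ A
        rw [Int.cast_mul, mul_div_assoc]
        exact A.mul_mem (intCast_mem A m) hz }
  have hI : ∀ z : ℤ, z ∈ I ↔ (z : K) / c ∈ A := fun z => Iff.rfl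
  obtain ⟨g, hg⟩ := (IsPrincipalIdealRing.principal I).principal
  have hg' : ∀ z : ℤ, (z : K) / c ∈ A ↔ g ∣ z := fun z => by
    rw [← hI, hg, Submodule.mem_span_singleton]
    constructor
    · rintro ⟨a, ha⟩
      exact ⟨a, by rw [← ha, smul_eq_mul, mul_comm]⟩
    · rintro ⟨a, ha⟩
      exact ⟨a, by rw [ha, smul_eq_mul, mul_comm]⟩
  refine ⟨g.natAbs, ?_, fun z => ?_⟩
  · rw [Int.natAbs_pos]
    rintro rfl
    obtain ⟨n, hn, hn'⟩ := hA.dvd_nat hc0
    have h1 := (hg' (n : ℤ)).1 (by rw [Int.cast_natCast]; exact hn')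
    rw [zero_dvd_iff] at h1
    omega
  · rw [hg', Int.natAbs_dvd]

/-- If `ℤ → A / c A` is onto, `c A ∩ ℤ = n ℤ` and `c` is coprime to the integer `M` then `n` is
prime to `M`. (`M x + c y = 1`, `x ≡ z mod c`, `z ∈ ℤ`, so `n ∣ M z - 1`.) -/
theorem onto_cop {c : K} (hc0 : c ≠ 0) (hO : Onto A c) {n : ℕ}
    (hn : ∀ z : ℤ, (z : K) / c ∈ A ↔ (n : ℤ) ∣ z) {M : ℤ} (h : Cop A c (M : K)) :
    IsCoprime (n : ℤ) M := by
  obtain ⟨x, hx, y, hy, e⟩ := h
  obtain ⟨z, hz⟩ := hO y hy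
  obtain ⟨q, hq⟩ := (hn (M * z - 1)).1 (by
    have h1 : (((M * z - 1 : ℤ)) : K) / c = -x - M * ((y - z) / c) := by
      push_cast
      field_simp
      linear_combination e
    rw [h1]
    exact A.sub_mem (A.neg_mem hx) (A.mul_mem (intCast_mem A M) hz))
  exact ⟨-q, z, by linarith⟩

/-- an element `a ∈ A` coprime to `c` is `≡ r mod c` with `r ∈ ℤ` prime to `n` -/
theorem onto_rep {c a : K} (ha : a ∈ A) (hc0 : c ≠ 0) (hO : Onto A c) {n : ℕ}
    (hn : ∀ z : ℤ, (z : K) / c ∈ A ↔ (n : ℤ) ∣ z) (h : Cop A a c) :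
    ∃ r : ℤ, (a - r) / c ∈ A ∧ IsCoprime r (n : ℤ) := by
  obtain ⟨r, hr⟩ := hO a ha
  obtain ⟨x, hx, y, hy, e⟩ := h
  obtain ⟨z, hz⟩ := hO x hx
  refine ⟨r, hr, ?_⟩
  obtain ⟨q, hq⟩ := (hn (r * z - 1)).1 (by
    have h1 : (((r * z - 1 : ℤ)) : K) / c = -y - a * ((x - z) / c) - z * ((a - r) / c) := by
      push_cast
      field_simp
      linear_combination e
    rw [h1]
    exact A.sub_mem (A.sub_mem (A.neg_mem hy) (A.mul_mem ha hz)) (A.mul_mem (intCast_mem A z) hr))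
  exact ⟨z, -q, by linarith⟩

end BoomNF
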