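import Pool.Agent.H.MP_4c7af0_al.NF.NT

/-! Elementary number theory, part 2 (MP_4c7af0_al, number field case): choice of primes. -/

namespace BoomNF

/-- (aux) coprimality depends only on the residue class. -/
theorem nt2_coprime_congr {x a M : ℤ} (h : M ∣ x - a) (ha : IsCoprime a M) : IsCoprime x M := by
  obtain ⟨t, ht⟩ := h
  have h1 : x = a + M * t := by linarith
  rw [h1]
  exact (IsCoprime.add_mul_left_left_iff).2 ha

/-- (aux) Chinese remainder theorem for two coprime moduli, with coprimality. -/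
theorem nt2_crt2 {M N a b : ℤ} (hMN : IsCoprime M N) (ha : IsCoprime a M) (hb : IsCoprime b N) :
    ∃ x : ℤ, M ∣ x - a ∧ N ∣ x - b ∧ IsCoprime x (M * N) := by
  obtain ⟨u, v, huv⟩ := hMN
  have h1 : M ∣ (a * (v * N) + b * (u * M)) - a := ⟨u * (b - a), by
    have : v * N = 1 - u * M := by linarith
    rw [this]
    ring⟩
  have h2 : N ∣ (a * (v * N) + b * (u * M)) - b := ⟨v * (a - b), by
    have : u * M = 1 - v * N := by linarith
    rw [this]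
    ring⟩
  exact ⟨_, h1, h2, IsCoprime.mul_right (nt2_coprime_congr h1 ha) (nt2_coprime_congr h2 hb)⟩

/-- (aux) Chinese remainder theorem for a modulus and a finite set of primes. -/
theorem nt2_crtL {M : ℕ} {a : ℤ} (ha : IsCoprime a (M : ℤ)) (ρ : ℕ → ℤ) (L : Finset ℕ)
    (hL : ∀ l ∈ L, l.Prime ∧ ¬ l ∣ M ∧ IsCoprime (ρ l) (l : ℤ)) :
    ∃ x : ℤ, (M : ℤ) ∣ x - a ∧ (∀ l ∈ L, (l : ℤ) ∣ x - ρ l) ∧
      IsCoprime x ((M * ∏ l ∈ L, l : ℕ) : ℤ) := by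
  classical
  induction L using Finset.induction_on with
  | empty => exact ⟨a, by simp, by simp, by simpa using ha⟩
  | insert l L hl ih =>
    obtain ⟨x, h1, h2, h3⟩ := ih fun l' hl' => hL l' (Finset.mem_insert_of_mem hl')
    obtain ⟨hp, hM, hρ⟩ := hL l (Finset.mem_insert_self _ _)
    have hcop : Nat.Coprime (M * ∏ l ∈ L, l) l := by
      rw [Nat.coprime_comm, Nat.Prime.coprime_iff_not_dvd hp, hp.dvd_mul, not_or]
      refine ⟨hM, fun h => ?_⟩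
      obtain ⟨l', hl', h'⟩ := (Prime.dvd_finsetProd_iff hp.prime _).1 h
      have hp' := (hL l' (Finset.mem_insert_of_mem hl')).1
      have : l = l' := (Nat.prime_dvd_prime_iff_eq hp hp').1 h'
      exact hl (this ▸ hl')
    obtain ⟨y, e1, e2, e3⟩ := nt2_crt2 (Nat.isCoprime_iff_coprime.2 hcop) h3 hρ
    have e4 : ∀ z : ℤ, z ∣ ((M * ∏ l ∈ L, l : ℕ) : ℤ) → ∀ b : ℤ, z ∣ x - b → z ∣ y - b := by
      intro z hz b hb
      have : y - b = (y - x) + (x - b) := by ring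
      rw [this]
      exact dvd_add (hz.trans e1) hb
    refine ⟨y, e4 _ (by push_cast; exact Dvd.intro _ rfl) _ h1, ?_, ?_⟩
    · intro l' hl'
      rcases Finset.mem_insert.1 hl' with h | h
      · rw [h]
        exact e2
      · refine e4 _ ?_ _ (h2 l' h)
        have : l' ∣ M * ∏ l ∈ L, l := (Finset.dvd_prod_of_mem (fun l => l) h).mul_left _
        exact_mod_cast this
    · rw [Finset.prod_insert hl]
      have e5 : ((M * (l * ∏ x ∈ L, x) : ℕ) : ℤ) = ((M * ∏ l ∈ L, l : ℕ) : ℤ) * (l : ℤ) := by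
        push_cast
        ring
      rw [e5]
      exact e3

/-- (aux) powers of congruent integers. -/
theorem nt2_pow_sub {l x y : ℤ} (h : ℕ) (hxy : l ∣ x - y) (hx : l ∣ x ^ h - 1) :
    l ∣ y ^ h - 1 := by
  have h1 : l ∣ x ^ h - y ^ h := hxy.trans (sub_dvd_pow_sub_pow x y h)
  have h2 : y ^ h - 1 = (x ^ h - 1) - (x ^ h - y ^ h) := by ring
  rw [h2]
  exact dvd_sub hx h1

/-- Choice of two primes. Let `(h + 1)! ∣ R`, `R³ ∣ m`, `z ≡ 1 + R² mod R³`, `l ∤ z^h - 1` for the primes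
`l ∣ m`, `l ∤ R`; `n` prime to `m`; `r` and `r^h - 1` prime to `n`. There are primes `q, q' > B`, both
`≡ r mod n` and `≡ z mod m`, with `gcd(q^h - 1, q'^h - 1) ∣ h R²`.
Proof: Dirichlet for `q`. By the Chinese remainder theorem and Dirichlet choose `q' ≡ r mod n`,
`q' ≡ z mod m` and `q' ≡ ρ_l mod l` (`exists_rho`) for every prime `l ∣ q^h - 1` with
`l ∤ n m` (such `l` is `> h + 1`, as all primes `≤ h + 1` divide `R`). By `pow_sub_one_eq`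
`q^h - 1 = h R² w`, `q'^h - 1 = h R² w'` with `w, w'` prime to `R`. Let `l` be a prime dividing `w` and
`w'`. Then `l ∤ R`. If `l ∣ m`: `l ∣ q^h - 1 ≡ z^h - 1 mod l`, a contradiction. If `l ∣ n`:
`l ∣ q^h - 1 ≡ r^h - 1`, a contradiction. Otherwise `q'^h ≡ ρ_l^h ≢ 1 mod l`, a contradiction. -/
theorem two_primes {R h m n : ℕ} (hR : 0 < R) (hh : 0 < h) (hhR : (h + 1).factorial ∣ R)
    (hm : 0 < m) (hRm : R ^ 3 ∣ m) (hn : 0 < n) (hnm : Nat.Coprime n m) {z : ℤ}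
    (hz : IsCoprime z (m : ℤ)) (hz1 : (R : ℤ) ^ 3 ∣ z - 1 - (R : ℤ) ^ 2)
    (hz2 : ∀ l : ℕ, l.Prime → l ∣ m → ¬ l ∣ R → ¬ (l : ℤ) ∣ z ^ h - 1) {r : ℤ}
    (hr : IsCoprime r (n : ℤ)) (hrh : IsCoprime (r ^ h - 1) (n : ℤ)) (B : ℕ) :
    ∃ q q' : ℕ, q.Prime ∧ q'.Prime ∧ B < q ∧ B < q' ∧ (n : ℤ) ∣ (q : ℤ) - r ∧
      (m : ℤ) ∣ (q : ℤ) - z ∧ (n : ℤ) ∣ (q' : ℤ) - r ∧ (m : ℤ) ∣ (q' : ℤ) - z ∧
      Nat.gcd (q ^ h - 1) (q' ^ h - 1) ∣ h * R ^ 2 := by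
  classical
  obtain ⟨c, c1, c2, c3⟩ := nt2_crt2 (Nat.isCoprime_iff_coprime.2 hnm) hr hz
  have hnm0 : n * m ≠ 0 := (Nat.mul_pos hn hm).ne'
  have c3' : IsCoprime c ((n * m : ℕ) : ℤ) := by push_cast; exact c3
  obtain ⟨q, hqB, hq, hqc⟩ := Nat.forall_exists_prime_gt_and_zmodEq B (q := n * m) (a := c)
    hnm0 c3'
  have hqc' : ((n * m : ℕ) : ℤ) ∣ (q : ℤ) - c := hqc.symm.dvd
  -- the auxiliary residues
  have hρ : ∀ l : ℕ, ∃ ρ : ℤ, l.Prime → h + 1 < l → IsCoprime ρ (l : ℤ) ∧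
      ¬ (l : ℤ) ∣ ρ ^ h - 1 := by
    intro l
    by_cases h1 : l.Prime ∧ h + 1 < l
    · obtain ⟨ρ, h2⟩ := exists_rho h1.1 hh h1.2
      exact ⟨ρ, fun _ _ => h2⟩
    · exact ⟨0, fun h2 h3 => absurd ⟨h2, h3⟩ h1⟩
  choose ρ hρ using hρ
  have hRm' : R ∣ m := (Dvd.intro_left (R ^ 2) (by ring)).trans hRm
  have hbig : ∀ l : ℕ, l.Prime → ¬ l ∣ n * m → h + 1 < l := by
    intro l hl hlm
    by_contra hcon
    push Not at hcon
    have h1 : l ∣ (h + 1).factorial := (hl.dvd_factorial).2 hcon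
    exact hlm (((h1.trans hhR).trans hRm').mul_left n)
  set L := (q ^ h - 1).primeFactors.filter fun l => ¬ l ∣ n * m with hL
  have hLp : ∀ l ∈ L, l.Prime ∧ ¬ l ∣ n * m ∧ IsCoprime (ρ l) (l : ℤ) := by
    intro l hl
    obtain ⟨h1, h2⟩ := Finset.mem_filter.1 hl
    have h3 := Nat.prime_of_mem_primeFactors h1
    exact ⟨h3, h2, (hρ l h3 (hbig l h3 h2)).1⟩
  obtain ⟨x, x1, x2, x3⟩ := nt2_crtL c3' ρ L hLp
  have hP0 : n * m * ∏ l ∈ L, l ≠ 0 := by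
    refine mul_ne_zero hnm0 (Finset.prod_ne_zero_iff.2 fun l hl => ?_)
    exact (hLp l hl).1.ne_zero
  obtain ⟨q', hqB', hq', hqc''⟩ := Nat.forall_exists_prime_gt_and_zmodEq B
    (q := n * m * ∏ l ∈ L, l) (a := x) hP0 x3
  have hqx : ((n * m * ∏ l ∈ L, l : ℕ) : ℤ) ∣ (q' : ℤ) - x := hqc''.symm.dvd
  have hqx' : ((n * m : ℕ) : ℤ) ∣ (q' : ℤ) - c := by
    have e : (q' : ℤ) - c = ((q' : ℤ) - x) + (x - c) := by ring
    rw [e]
    refine dvd_add (dvd_trans ?_ hqx) x1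
    rw [Nat.cast_mul (n * m) (∏ l ∈ L, l)]
    exact Dvd.intro _ rfl
  have hdn : ∀ p : ℕ, ((n * m : ℕ) : ℤ) ∣ (p : ℤ) - c → (n : ℤ) ∣ (p : ℤ) - r := by
    intro p hp
    have e : (p : ℤ) - r = ((p : ℤ) - c) + (c - r) := by ring
    rw [e]
    refine dvd_add (dvd_trans ?_ hp) c1
    push_cast
    exact Dvd.intro _ rfl
  have hdm : ∀ p : ℕ, ((n * m : ℕ) : ℤ) ∣ (p : ℤ) - c → (m : ℤ) ∣ (p : ℤ) - z := by
    intro p hp
    have e : (p : ℤ) - z = ((p : ℤ) - c) + (c - z) := by ring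
    rw [e]
    refine dvd_add (dvd_trans ?_ hp) c2
    push_cast
    exact Dvd.intro_left _ rfl
  refine ⟨q, q', hq, hq', hqB, hqB', hdn q hqc', hdm q hqc', hdn q' hqx', hdm q' hqx', ?_⟩
  have hhR' : h ∣ R := (Nat.dvd_factorial hh (by omega)).trans hhR
  have hR3 : (R : ℤ) ^ 3 ∣ (m : ℤ) := by exact_mod_cast hRm
  have hform : ∀ p : ℕ, ((n * m : ℕ) : ℤ) ∣ (p : ℤ) - c →
      (R : ℤ) ^ 3 ∣ (p : ℤ) - 1 - (R : ℤ) ^ 2 := by
    intro p hp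
    have e : (p : ℤ) - 1 - (R : ℤ) ^ 2 = ((p : ℤ) - z) + (z - 1 - (R : ℤ) ^ 2) := by ring
    rw [e]
    exact dvd_add (hR3.trans (hdm p hp)) hz1
  obtain ⟨w, hw, hwR⟩ := pow_sub_one_eq hR hh hhR' (hform q hqc')
  obtain ⟨w', hw', hwR'⟩ := pow_sub_one_eq hR hh hhR' (hform q' hqx')
  have hww : IsCoprime w w' := by
    rw [Int.isCoprime_iff_gcd_eq_one]
    change Nat.gcd w.natAbs w'.natAbs = 1
    refine Nat.coprime_of_dvd fun l hl h1 h2 => ?_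
    have h3 : (l : ℤ) ∣ w := Int.natCast_dvd.2 h1
    have h4 : (l : ℤ) ∣ w' := Int.natCast_dvd.2 h2
    have hlu : ¬ IsUnit (l : ℤ) := by
      rw [Int.isUnit_iff_natAbs_eq, Int.natAbs_natCast]
      exact hl.one_lt.ne'
    have hlR : ¬ l ∣ R := by
      intro h5
      exact hlu (hwR.isUnit_of_dvd' h3 (Int.natCast_dvd_natCast.2 h5))
    have h5 : (l : ℤ) ∣ (q : ℤ) ^ h - 1 := by
      rw [hw]
      exact h3.mul_left _
    have h6 : (l : ℤ) ∣ (q' : ℤ) ^ h - 1 := by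
      rw [hw']
      exact h4.mul_left _
    by_cases hlm : l ∣ m
    · exact hz2 l hl hlm hlR (nt2_pow_sub h
        ((Int.natCast_dvd_natCast.2 hlm).trans (hdm q hqc')) h5)
    by_cases hln : l ∣ n
    · have h7 := nt2_pow_sub h ((Int.natCast_dvd_natCast.2 hln).trans (hdn q hqc')) h5
      exact hlu (hrh.isUnit_of_dvd' h7 (Int.natCast_dvd_natCast.2 hln))
    have hlnm : ¬ l ∣ n * m := by
      rw [hl.dvd_mul, not_or]
      exact ⟨hln, hlm⟩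
    have hq1 : 1 < q ^ h := Nat.one_lt_pow hh.ne' hq.one_lt
    have hlq : l ∣ q ^ h - 1 := by
      have h8 : ((q ^ h - 1 : ℕ) : ℤ) = (q : ℤ) ^ h - 1 := by
        rw [Nat.cast_sub hq1.le]
        push_cast
        ring
      exact Int.natCast_dvd_natCast.1 (by rw [h8]; exact h5)
    have hlL : l ∈ L := by
      refine Finset.mem_filter.2 ⟨Nat.mem_primeFactors.2 ⟨hl, hlq, by omega⟩, hlnm⟩
    have h8 : (l : ℤ) ∣ (q' : ℤ) - ρ l := by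
      have e : (q' : ℤ) - ρ l = ((q' : ℤ) - x) + (x - ρ l) := by ring
      rw [e]
      refine dvd_add (dvd_trans ?_ hqx) (x2 l hlL)
      have : l ∣ n * m * ∏ l ∈ L, l := (Finset.dvd_prod_of_mem (fun l => l) hlL).mul_left _
      exact_mod_cast this
    exact (hρ l hl (hbig l hl hlnm)).2 (nt2_pow_sub h h8 h6)
  obtain ⟨u, v, huv⟩ := hww
  have hg1 : (Nat.gcd (q ^ h - 1) (q' ^ h - 1) : ℤ) ∣ (h : ℤ) * (R : ℤ) ^ 2 * w := by
    rw [← hw]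
    have h8 : ((q ^ h - 1 : ℕ) : ℤ) = (q : ℤ) ^ h - 1 := by
      rw [Nat.cast_sub (Nat.one_le_pow _ _ hq.pos)]
      push_cast
      ring
    rw [← h8]
    exact Int.natCast_dvd_natCast.2 (Nat.gcd_dvd_left _ _)
  have hg2 : (Nat.gcd (q ^ h - 1) (q' ^ h - 1) : ℤ) ∣ (h : ℤ) * (R : ℤ) ^ 2 * w' := by
    rw [← hw']
    have h8 : ((q' ^ h - 1 : ℕ) : ℤ) = (q' : ℤ) ^ h - 1 := by
      rw [Nat.cast_sub (Nat.one_le_pow _ _ hq'.pos)]
      push_cast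
      ring
    rw [← h8]
    exact Int.natCast_dvd_natCast.2 (Nat.gcd_dvd_right _ _)
  have hfin : (Nat.gcd (q ^ h - 1) (q' ^ h - 1) : ℤ) ∣ (h : ℤ) * (R : ℤ) ^ 2 := by
    have e : (h : ℤ) * (R : ℤ) ^ 2 = u * ((h : ℤ) * (R : ℤ) ^ 2 * w) +
        v * ((h : ℤ) * (R : ℤ) ^ 2 * w') := by
      have : u * ((h : ℤ) * (R : ℤ) ^ 2 * w) + v * ((h : ℤ) * (R : ℤ) ^ 2 * w') =
        (h : ℤ) * (R : ℤ) ^ 2 * (u * w + v * w') := by ring
      rw [this, huv, mul_one]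
    rw [e]
    exact dvd_add (hg1.mul_left _) (hg2.mul_left _)
  exact_mod_cast hfin

/-- (aux) a large prime in two residue classes. -/
theorem nt2_prime2 {n M : ℕ} (hn : 0 < n) (hM : 0 < M) (hnM : Nat.Coprime n M) {a b : ℤ}
    (ha : IsCoprime a (n : ℤ)) (hb : IsCoprime b (M : ℤ)) (B : ℕ) :
    ∃ q : ℕ, q.Prime ∧ B < q ∧ (n : ℤ) ∣ (q : ℤ) - a ∧ (M : ℤ) ∣ (q : ℤ) - b := by
  obtain ⟨c, c1, c2, c3⟩ := nt2_crt2 (Nat.isCoprime_iff_coprime.2 hnM) ha hb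
  obtain ⟨q, hqB, hq, hqc⟩ := Nat.forall_exists_prime_gt_and_zmodEq B (q := n * M) (a := c)
    (Nat.mul_pos hn hM).ne' (by push_cast; exact c3)
  have hqc' : ((n * M : ℕ) : ℤ) ∣ (q : ℤ) - c := hqc.symm.dvd
  refine ⟨q, hq, hqB, ?_, ?_⟩
  · have e : (q : ℤ) - a = ((q : ℤ) - c) + (c - a) := by ring
    rw [e]
    refine dvd_add (dvd_trans ?_ hqc') c1
    push_cast
    exact Dvd.intro _ rfl
  · have e : (q : ℤ) - b = ((q : ℤ) - c) + (c - b) := by ring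
    rw [e]
    refine dvd_add (dvd_trans ?_ hqc') c2
    push_cast
    exact Dvd.intro_left _ rfl

/-- two large primes in residue classes (Dirichlet, `Nat.forall_exists_prime_gt_and_zmodEq`) -/
theorem star_primes {n w p : ℕ} (hn : 0 < n) (hw : 0 < w) (hp : p.Prime)
    (hnw : Nat.Coprime n (w * p)) {r₀ : ℤ} (hr : IsCoprime r₀ (n : ℤ)) {u j : ℕ}
    (hu : Nat.Coprime u (w * p)) (hj : Nat.Coprime (u + j * w) p) (B : ℕ) :
    ∃ q₁ q₂ : ℕ, q₁.Prime ∧ q₂.Prime ∧ B < q₁ ∧ B < q₂ ∧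
      (n : ℤ) ∣ (q₁ : ℤ) - r₀ ∧ ((w * p : ℕ) : ℤ) ∣ (q₁ : ℤ) - u ∧
      (n : ℤ) ∣ (q₂ : ℤ) - r₀ ∧ ((w * p : ℕ) : ℤ) ∣ (q₂ : ℤ) - (u + j * w) := by
  have hwp : 0 < w * p := Nat.mul_pos hw hp.pos
  have hu1 : IsCoprime (u : ℤ) ((w * p : ℕ) : ℤ) := Nat.isCoprime_iff_coprime.2 hu
  have hj1 : Nat.Coprime (u + j * w) (w * p) := by
    refine Nat.Coprime.mul_right ?_ hj
    have h1 : Nat.Coprime u w := hu.coprime_mul_right_right
    rw [Nat.coprime_add_mul_right_left]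
    exact h1
  have hj2 : IsCoprime ((u + j * w : ℕ) : ℤ) ((w * p : ℕ) : ℤ) := Nat.isCoprime_iff_coprime.2 hj1
  obtain ⟨q₁, h1, h2, h3, h4⟩ := nt2_prime2 hn hwp hnw hr hu1 B
  obtain ⟨q₂, h5, h6, h7, h8⟩ := nt2_prime2 hn hwp hnw hr hj2 B
  refine ⟨q₁, q₂, h1, h5, h2, h6, h3, h4, h7, ?_⟩
  push_cast at h8 ⊢
  exact h8

end BoomNF
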