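import Pool.Agent.H.MP_4c7af0_al.NF.Rng1

/-! Step 1, part a (MP_4c7af0_al, number field case): hyperbolic elements of `D` fixing a cusp. -/

namespace BoomNF

set_option linter.unusedSimpArgs false

open NumberField

variable {K : Type*} [Field K] [NumberField K] {A : Subring K}

/-- `e` is a unit of `A` of infinite order -/
structure InfUnit (A : Subring K) (e : K) : Prop where
  ne : e ≠ 0
  mem : e ∈ A
  inv_mem : e⁻¹ ∈ A
  pow_ne : ∀ k : ℕ, 0 < k → e ^ k ≠ 1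

/-- `(T)`. `s diag(E, 1/E) s⁻¹ = 1 + s diag(E - 1, 1/E - 1) s⁻¹`; let `r ≥ 1` be an integer such that
`r s_{ij} (s⁻¹)_{kl} ∈ A` for all indices and choose `k` with `ε^k ≡ 1 mod r` (`unit_pow`; then also
`ε^(-k) ≡ 1 mod r`). -/
theorem SRing.tor (hA : SRing A) {ε : K} (hε0 : ε ≠ 0) (hε : ε ∈ A) (hεi : ε⁻¹ ∈ A) (s : SL2 K) :
    ∃ k : ℕ, 0 < k ∧ s * dg (ε ^ k) * s⁻¹ ∈ G A := by
  obtain ⟨n1, hn1, h1⟩ := hA.den (s 0 0 * s 1 1)
  obtain ⟨n2, hn2, h2⟩ := hA.den (s 0 1 * s 1 0)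
  obtain ⟨n3, hn3, h3⟩ := hA.den (s 0 0 * s 0 1)
  obtain ⟨n4, hn4, h4⟩ := hA.den (s 1 0 * s 1 1)
  have c1 : (n1 : K) ∈ A := natCast_mem A n1
  have c2 : (n2 : K) ∈ A := natCast_mem A n2
  have c3 : (n3 : K) ∈ A := natCast_mem A n3
  have c4 : (n4 : K) ∈ A := natCast_mem A n4
  set N : K := (n1 : K) * n2 * n3 * n4 with hN
  have hN0 : N ≠ 0 := by
    rw [hN]
    have e1 : (n1 : K) ≠ 0 := by exact_mod_cast hn1.ne'
    have e2 : (n2 : K) ≠ 0 := by exact_mod_cast hn2.ne'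
    have e3 : (n3 : K) ≠ 0 := by exact_mod_cast hn3.ne'
    have e4 : (n4 : K) ≠ 0 := by exact_mod_cast hn4.ne'
    exact mul_ne_zero (mul_ne_zero (mul_ne_zero e1 e2) e3) e4
  have hNA : N ∈ A := A.mul_mem (A.mul_mem (A.mul_mem c1 c2) c3) c4
  have d1 : N * (s 0 0 * s 1 1) ∈ A := by
    have : N * (s 0 0 * s 1 1) = n2 * n3 * n4 * (n1 * (s 0 0 * s 1 1)) := by rw [hN]; ring
    rw [this]
    exact A.mul_mem (A.mul_mem (A.mul_mem c2 c3) c4) h1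
  have d2 : N * (s 0 1 * s 1 0) ∈ A := by
    have : N * (s 0 1 * s 1 0) = n1 * n3 * n4 * (n2 * (s 0 1 * s 1 0)) := by rw [hN]; ring
    rw [this]
    exact A.mul_mem (A.mul_mem (A.mul_mem c1 c3) c4) h2
  have d3 : N * (s 0 0 * s 0 1) ∈ A := by
    have : N * (s 0 0 * s 0 1) = n1 * n2 * n4 * (n3 * (s 0 0 * s 0 1)) := by rw [hN]; ring
    rw [this]
    exact A.mul_mem (A.mul_mem (A.mul_mem c1 c2) c4) h3
  have d4 : N * (s 1 0 * s 1 1) ∈ A := by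
    have : N * (s 1 0 * s 1 1) = n1 * n2 * n3 * (n4 * (s 1 0 * s 1 1)) := by rw [hN]; ring
    rw [this]
    exact A.mul_mem (A.mul_mem (A.mul_mem c1 c2) c3) h4
  obtain ⟨k, hk, hkA⟩ := hA.unit_pow hε0 hε hεi hNA hN0
  refine ⟨k, hk, ?_⟩
  set Q : K := ε ^ k with hQ
  have hQ0 : Q ≠ 0 := pow_ne_zero k hε0
  have hQi : Q⁻¹ ∈ A := by
    rw [hQ, ← inv_pow]
    exact A.pow_mem hεi k
  have hkA' : (Q⁻¹ - 1) / N ∈ A := by
    have : (Q⁻¹ - 1) / N = -(Q⁻¹ * ((Q - 1) / N)) := by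
      field_simp
      ring
    rw [this]
    exact A.neg_mem (A.mul_mem hQi hkA)
  have hdet := det_eq s
  apply mem_G4
  · have : (s * dg Q * s⁻¹) 0 0 = 1 + N * (s 0 0 * s 1 1) * ((Q - 1) / N) -
        N * (s 0 1 * s 1 0) * ((Q⁻¹ - 1) / N) := by
      have e1 : N * (s 0 0 * s 1 1) * ((Q - 1) / N) = s 0 0 * s 1 1 * (Q - 1) := by
        field_simp
      have e2 : N * (s 0 1 * s 1 0) * ((Q⁻¹ - 1) / N) = s 0 1 * s 1 0 * (Q⁻¹ - 1) := by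
        rw [mul_comm N, mul_assoc, mul_div_cancel₀ _ hN0]
      rw [e1, e2]
      simp only [mul_app, inv00, inv10, dg_00 hQ0, dg_01 hQ0, dg_10 hQ0, dg_11 hQ0]
      linear_combination hdet
    rw [this]
    exact A.sub_mem (A.add_mem A.one_mem (A.mul_mem d1 hkA)) (A.mul_mem d2 hkA')
  · have : (s * dg Q * s⁻¹) 0 1 = N * (s 0 0 * s 0 1) * ((Q⁻¹ - 1) / N) -
        N * (s 0 0 * s 0 1) * ((Q - 1) / N) := by
      have e1 : N * (s 0 0 * s 0 1) * ((Q - 1) / N) = s 0 0 * s 0 1 * (Q - 1) := by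
        field_simp
      have e2 : N * (s 0 0 * s 0 1) * ((Q⁻¹ - 1) / N) = s 0 0 * s 0 1 * (Q⁻¹ - 1) := by
        rw [mul_comm N, mul_assoc, mul_div_cancel₀ _ hN0]
      rw [e1, e2]
      simp only [mul_app, inv01, inv11, dg_00 hQ0, dg_01 hQ0, dg_10 hQ0, dg_11 hQ0]
      ring
    rw [this]
    exact A.sub_mem (A.mul_mem d3 hkA') (A.mul_mem d3 hkA)
  · have : (s * dg Q * s⁻¹) 1 0 = N * (s 1 0 * s 1 1) * ((Q - 1) / N) -
        N * (s 1 0 * s 1 1) * ((Q⁻¹ - 1) / N) := by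
      have e1 : N * (s 1 0 * s 1 1) * ((Q - 1) / N) = s 1 0 * s 1 1 * (Q - 1) := by
        field_simp
      have e2 : N * (s 1 0 * s 1 1) * ((Q⁻¹ - 1) / N) = s 1 0 * s 1 1 * (Q⁻¹ - 1) := by
        rw [mul_comm N, mul_assoc, mul_div_cancel₀ _ hN0]
      rw [e1, e2]
      simp only [mul_app, inv00, inv10, dg_00 hQ0, dg_01 hQ0, dg_10 hQ0, dg_11 hQ0]
      ring
    rw [this]
    exact A.sub_mem (A.mul_mem d4 hkA) (A.mul_mem d4 hkA')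
  · have : (s * dg Q * s⁻¹) 1 1 = 1 + N * (s 0 0 * s 1 1) * ((Q⁻¹ - 1) / N) -
        N * (s 0 1 * s 1 0) * ((Q - 1) / N) := by
      have e1 : N * (s 0 1 * s 1 0) * ((Q - 1) / N) = s 0 1 * s 1 0 * (Q - 1) := by
        field_simp
      have e2 : N * (s 0 0 * s 1 1) * ((Q⁻¹ - 1) / N) = s 0 0 * s 1 1 * (Q⁻¹ - 1) := by
        rw [mul_comm N, mul_assoc, mul_div_cancel₀ _ hN0]
      rw [e1, e2]
      simp only [mul_app, inv01, inv11, dg_00 hQ0, dg_01 hQ0, dg_10 hQ0, dg_11 hQ0]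
      linear_combination hdet
    rw [this]
    exact A.sub_mem (A.add_mem A.one_mem (A.mul_mem d1 hkA')) (A.mul_mem d2 hkA)

/-- Step 1 (a). In coordinates `D₀ = s⁻¹ D s`, `δ₀ = s⁻¹ δ s = [[a,b],[c,d]]`, `c ≠ 0`,
`x₀ = - d / c`. By `tor` for `s u(x₀)` there is `k ≥ 1` with `s u(x₀) dg(e^k) u(-x₀) s⁻¹ ∈ SL₂(A)`.
Put `h₀ = u(x₀) dg(e^k) u(-x₀)`. Recurrence: for some `n ≥ 1`, `h₀^n δ₀ h₀^(-n) ∈ D₀`, and
`f₀ = h₀^n δ₀ h₀^(-n) δ₀⁻¹` has lower left entry `0` and upper left entry `E²`, `E = e^(k n)`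
(this computation is in `Boom4c.S1.exists_u`, file `Pool/Agent/H/MP_4c7af0_al/Step1.lean`). -/
theorem SRing.exists_hyp (hA : SRing A) {e : K} (hE : InfUnit A e) {D : Subgroup (SL2 K)}
    (hD : D ≤ G A) (hrec : Rec (G A) D) (s : SL2 K) {δ : SL2 K} (hδ : δ ∈ D)
    (hmove : (s⁻¹ * δ * s) 1 0 ≠ 0) :
    ∃ l : ℕ, 0 < l ∧ ∃ f₀ : SL2 K, s * f₀ * s⁻¹ ∈ D ∧ f₀ 1 0 = 0 ∧ f₀ 0 0 = e ^ l := by
  set δ₀ : SL2 K := s⁻¹ * δ * s with hδ₀
  set x : K := - δ₀ 1 1 / δ₀ 1 0 with hx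
  obtain ⟨k, hk, hkG⟩ := hA.tor hE.ne hE.mem hE.inv_mem (s * u x)
  obtain ⟨n, hn, hn2⟩ := hrec _ hkG δ hδ 1
  have hek : e ^ k ≠ 0 := pow_ne_zero k hE.ne
  rw [conj_pow, dg_pow hek] at hn2
  set Q : K := (e ^ k) ^ n with hQ
  have hQ0 : Q ≠ 0 := pow_ne_zero n hek
  set H : SL2 K := u x * dg Q * (u x)⁻¹ with hH
  have H00 : H 0 0 = Q := by
    rw [hH]
    simp only [mul_app, inv00, inv01, inv10, inv11, dg_00 hQ0, dg_01 hQ0, dg_10 hQ0, dg_11 hQ0,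
      u_00, u_01, u_10, u_11]
    ring
  have H01 : H 0 1 = x * (Q⁻¹ - Q) := by
    rw [hH]
    simp only [mul_app, inv00, inv01, inv10, inv11, dg_00 hQ0, dg_01 hQ0, dg_10 hQ0, dg_11 hQ0,
      u_00, u_01, u_10, u_11]
    ring
  have H10 : H 1 0 = 0 := by
    rw [hH]
    simp only [mul_app, inv00, inv01, inv10, inv11, dg_00 hQ0, dg_01 hQ0, dg_10 hQ0, dg_11 hQ0,
      u_00, u_01, u_10, u_11]
    ring
  have H11 : H 1 1 = Q⁻¹ := by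
    rw [hH]
    simp only [mul_app, inv00, inv01, inv10, inv11, dg_00 hQ0, dg_01 hQ0, dg_10 hQ0, dg_11 hQ0,
      u_00, u_01, u_10, u_11]
    ring
  have hdet := det_eq δ₀
  refine ⟨2 * (k * n), by positivity, H * δ₀ * H⁻¹ * δ₀⁻¹, ?_, ?_, ?_⟩
  · have h1 := D.mul_mem hn2 (D.inv_mem hδ)
    have h2 : s * (H * δ₀ * H⁻¹ * δ₀⁻¹) * s⁻¹ =
        s * u x * dg Q * (s * u x)⁻¹ * δ * (s * u x * dg Q * (s * u x)⁻¹)⁻¹ * δ⁻¹ := by
      rw [hH, hδ₀]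
      group
    rw [h2]
    exact h1
  · simp only [mul_app, inv00, inv01, inv10, inv11, H00, H01, H10, H11, hx]
    field_simp
    ring
  · have h3 : e ^ (2 * (k * n)) = Q ^ 2 := by
      rw [hQ]
      ring
    rw [h3]
    simp only [mul_app, inv00, inv01, inv10, inv11, H00, H01, H10, H11, hx]
    have : δ₀ 0 1 = (δ₀ 0 0 * δ₀ 1 1 - 1) / δ₀ 1 0 := by
      field_simp
      linear_combination -hdet
    rw [this]
    field_simp
    ring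

end BoomNF
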