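import Pool.Agent.H.MP_4c7af0_al.NF.Rng4

/-! Step 4, part a (MP_4c7af0_al, number field case): commutators modulo `E*(N)`. -/

namespace BoomNF

set_option linter.unusedSimpArgs false
set_option linter.unusedVariables false

theorem s4b1_zpow_conj {Q : Type*} [Group Q] {H : Subgroup Q} {t : Q}
    (ht : ∀ h ∈ H, t * h * t⁻¹ ∈ H) (ht' : ∀ h ∈ H, t⁻¹ * h * t ∈ H) (i : ℤ) :
    ∀ h ∈ H, t ^ i * h * (t ^ i)⁻¹ ∈ H := by
  induction i using Int.induction_on with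
  | zero => intro h hh; simpa using hh
  | succ n ih =>
    intro h hh
    have e : t ^ ((n : ℤ) + 1) * h * (t ^ ((n : ℤ) + 1))⁻¹
        = t ^ (n : ℤ) * (t * h * t⁻¹) * (t ^ (n : ℤ))⁻¹ := by
      rw [zpow_add, zpow_one]; group
    rw [e]; exact ih _ (ht h hh)
  | pred n ih =>
    intro h hh
    have e : t ^ (-(n : ℤ) - 1) * h * (t ^ (-(n : ℤ) - 1))⁻¹
        = t ^ (-(n : ℤ)) * (t⁻¹ * h * t) * (t ^ (-(n : ℤ)))⁻¹ := by
      rw [zpow_sub, zpow_one]; group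
    rw [e]; exact ih _ (ht' h hh)

/-- if `[t^k, x]` and `[t^l, x]` lie in a subgroup normalised by `t` and `x` and `gcd(k, l) ∣ m` then
`[t^m, x]` lies in it (the `j` with `[t^j, x] ∈ H` form a subgroup of `ℤ`). -/
theorem comm_gcd {Q : Type*} [Group Q] {H : Subgroup Q} {t x : Q}
    (ht : ∀ h ∈ H, t * h * t⁻¹ ∈ H) (ht' : ∀ h ∈ H, t⁻¹ * h * t ∈ H)
    (hx : ∀ h ∈ H, x * h * x⁻¹ ∈ H) (hx' : ∀ h ∈ H, x⁻¹ * h * x ∈ H) {k l m : ℕ}
    (hkl : Nat.gcd k l ∣ m) (h1 : t ^ k * x * (t ^ k)⁻¹ * x⁻¹ ∈ H)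
    (h2 : t ^ l * x * (t ^ l)⁻¹ * x⁻¹ ∈ H) : t ^ m * x * (t ^ m)⁻¹ * x⁻¹ ∈ H := by
  have hz := s4b1_zpow_conj ht ht'
  let C : AddSubgroup ℤ :=
    { carrier := {j | t ^ j * x * (t ^ j)⁻¹ * x⁻¹ ∈ H}
      add_mem' := by
        intro i j hi hj
        have e : t ^ (i + j) * x * (t ^ (i + j))⁻¹ * x⁻¹
            = (t ^ i * (t ^ j * x * (t ^ j)⁻¹ * x⁻¹) * (t ^ i)⁻¹) *
              (t ^ i * x * (t ^ i)⁻¹ * x⁻¹) := by
          rw [zpow_add]; group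
        change t ^ (i + j) * x * (t ^ (i + j))⁻¹ * x⁻¹ ∈ H
        rw [e]
        exact H.mul_mem (hz i _ hj) hi
      zero_mem' := by
        change t ^ (0 : ℤ) * x * (t ^ (0 : ℤ))⁻¹ * x⁻¹ ∈ H
        simp
      neg_mem' := by
        intro i hi
        have e : t ^ (-i) * x * (t ^ (-i))⁻¹ * x⁻¹
            = t ^ (-i) * (t ^ i * x * (t ^ i)⁻¹ * x⁻¹)⁻¹ * (t ^ (-i))⁻¹ := by
          group
        change t ^ (-i) * x * (t ^ (-i))⁻¹ * x⁻¹ ∈ H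
        rw [e]
        exact hz (-i) _ (H.inv_mem hi) }
  have hk : (k : ℤ) ∈ C := by
    change t ^ (k : ℤ) * x * (t ^ (k : ℤ))⁻¹ * x⁻¹ ∈ H
    rw [zpow_natCast]; exact h1
  have hl : (l : ℤ) ∈ C := by
    change t ^ (l : ℤ) * x * (t ^ (l : ℤ))⁻¹ * x⁻¹ ∈ H
    rw [zpow_natCast]; exact h2
  obtain ⟨c, hc⟩ := hkl
  have hm : (m : ℤ) ∈ C := by
    have hg := Nat.gcd_eq_gcd_ab k l
    have e : (m : ℤ) = (Nat.gcdA k l * c) • (k : ℤ) + (Nat.gcdB k l * c) • (l : ℤ) := by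
      rw [hc]; push_cast; rw [hg]; simp only [smul_eq_mul]; ring
    rw [e]
    exact C.add_mem (C.zsmul_mem hk _) (C.zsmul_mem hl _)
  have hm' : t ^ (m : ℤ) * x * (t ^ (m : ℤ))⁻¹ * x⁻¹ ∈ H := hm
  rwa [zpow_natCast] at hm'

/-- Let `y ∈ SL₂(A)` have off-diagonal entries in `N A` and `y 0 0` coprime to `N`. If
`α = y 0 0 + (y 0 1) N x ≠ 0` (`x ∈ A`) divides `e^(2k) - 1` then `[dg (e^k), y] ∈ E*(N)`. Proof:
`y' = y v(N x)` has first row `(α, b)`, `b = y 0 1`, and `[t^k, y] ∈ E*(N)` iff `[t^k, y'] ∈ E*(N)`.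
`e^(2k) = 1 + α s'`; `t^k y' t^(-k)` has first row `(α, b e^(2k))`, the first row of `y' u(b s')`, so
`t^k y' t^(-k) = v(w) y' u(b s')` with `w ∈ A`; comparing the lower left entries:
`w α ∈ N A`, and `α ≡ y 0 0` is coprime to `N`, so `w ∈ N A`. Hence
`[t^k, y'] = v(w) · y' u(b s') y'⁻¹ ∈ E*(N)`. -/
theorem diag_pow_comm {F : Type*} [Field F] {A : Subring F} {N e : F} (hN : N ∈ A) (hN0 : N ≠ 0)
    (he0 : e ≠ 0) (he : e ∈ A) (hei : e⁻¹ ∈ A) {y : SL2 F} (hy : y ∈ G A) (h01 : y 0 1 / N ∈ A)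
    (h10 : y 1 0 / N ∈ A) (h00 : Cop A (y 0 0) N) {k : ℕ} {x : F} (hx : x ∈ A)
    (h0 : y 0 0 + y 0 1 * N * x ≠ 0) (hk : (e ^ (2 * k) - 1) / (y 0 0 + y 0 1 * N * x) ∈ A) :
    dg (e ^ k) * y * (dg (e ^ k))⁻¹ * y⁻¹ ∈ Es A N := by
  have hE0 : e ^ k ≠ 0 := pow_ne_zero _ he0
  have hEA : e ^ k ∈ A := A.pow_mem he k
  have hEi : (e ^ k)⁻¹ ∈ A := by rw [← inv_pow]; exact A.pow_mem hei k
  have hE2 : e ^ (2 * k) = (e ^ k) ^ 2 := by rw [← pow_mul, mul_comm]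
  rw [hE2] at hk
  set E := e ^ k with hE
  have hNx : N * x / N ∈ A := by rw [mul_div_cancel_left₀ _ hN0]; exact hx
  have hvε : v (N * x) ∈ Es A N := v_mem_Es hN hN0 hNx
  obtain ⟨y', hy'⟩ : ∃ y' : SL2 F, y' = y * v (N * x) := ⟨_, rfl⟩
  have hy'G : y' ∈ G A := hy' ▸ (G A).mul_mem hy (v_mem_G (A.mul_mem hN hx))
  have e00 : y' 0 0 = y 0 0 + y 0 1 * N * x := by
    rw [hy']; simp only [mul_app, v_00, v_01, v_10, v_11]; ring
  have e01 : y' 0 1 = y 0 1 := by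
    rw [hy']; simp only [mul_app, v_00, v_01, v_10, v_11]; ring
  have e10 : y' 1 0 = y 1 0 + y 1 1 * N * x := by
    rw [hy']; simp only [mul_app, v_00, v_01, v_10, v_11]; ring
  rw [← e00] at h0 hk
  have h10' : y' 1 0 / N ∈ A := by
    have : y' 1 0 / N = y 1 0 / N + y 1 1 * x := by
      rw [e10]; field_simp
    rw [this]; exact A.add_mem h10 (A.mul_mem (hy _ _) hx)
  have h01' : y' 0 1 / N ∈ A := by rw [e01]; exact h01
  set α := y' 0 0 with hα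
  obtain ⟨s, hs⟩ : ∃ s : F, s = (E ^ 2 - 1) / α := ⟨_, rfl⟩
  rw [← hs] at hk
  have hsα : α * s = E ^ 2 - 1 := by rw [hs]; field_simp
  obtain ⟨w, hw⟩ : ∃ w : F, w = -(E⁻¹ * E⁻¹ * s * y' 1 0) := ⟨_, rfl⟩
  have hwN : w / N ∈ A := by
    have : w / N = -(E⁻¹ * E⁻¹ * s * (y' 1 0 / N)) := by rw [hw]; ring
    rw [this]
    exact A.neg_mem (A.mul_mem (A.mul_mem (A.mul_mem hEi hEi) hk) h10')
  have hbs : y' 0 1 * s / N ∈ A := by
    have : y' 0 1 * s / N = y' 0 1 / N * s := by ring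
    rw [this]; exact A.mul_mem h01' hk
  have hdet := det_eq y'
  have key : dg E * y' * (dg E)⁻¹ = v w * y' * u (y' 0 1 * s) := by
    have hEE : E * E⁻¹ = 1 := mul_inv_cancel₀ hE0
    apply ext4
    · simp only [mul_app, inv00, inv01, inv10, inv11, dg_00 hE0, dg_01 hE0, dg_10 hE0, dg_11 hE0,
        v_00, v_01, v_10, v_11, u_00, u_01, u_10, u_11]
      linear_combination (y' 0 0) * hEE
    · simp only [mul_app, inv00, inv01, inv10, inv11, dg_00 hE0, dg_01 hE0, dg_10 hE0, dg_11 hE0,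
        v_00, v_01, v_10, v_11, u_00, u_01, u_10, u_11]
      linear_combination (-(y' 0 1)) * hsα
    · simp only [mul_app, inv00, inv01, inv10, inv11, dg_00 hE0, dg_01 hE0, dg_10 hE0, dg_11 hE0,
        v_00, v_01, v_10, v_11, u_00, u_01, u_10, u_11]
      rw [hw]
      linear_combination (E⁻¹ * E⁻¹ * y' 1 0) * hsα + (y' 1 0 * (E * E⁻¹ + 1)) * hEE
    · simp only [mul_app, inv00, inv01, inv10, inv11, dg_00 hE0, dg_01 hE0, dg_10 hE0, dg_11 hE0,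
        v_00, v_01, v_10, v_11, u_00, u_01, u_10, u_11]
      rw [hw]
      linear_combination (y' 1 1) * hEE + (E⁻¹ * E⁻¹ * s * y' 1 0 * y' 0 1) * hsα +
        (s * y' 1 0 * y' 0 1) * (E * E⁻¹ + 1) * hEE
  have hcomm' : dg E * y' * (dg E)⁻¹ * y'⁻¹ ∈ Es A N := by
    rw [key]
    have : v w * y' * u (y' 0 1 * s) * y'⁻¹ = v w * (y' * u (y' 0 1 * s) * y'⁻¹) := by group
    rw [this]
    exact (Es A N).mul_mem (v_mem_Es hN hN0 hwN) (Es_conj hy'G (u_mem_Es hN hN0 hbs))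
  have htG : dg E ∈ G A := dg_mem_G hEA hEi
  have hyy : y = y' * (v (N * x))⁻¹ := by rw [hy']; group
  have e : dg E * y * (dg E)⁻¹ * y⁻¹ = (dg E * y' * (dg E)⁻¹ * y'⁻¹) *
      (y' * ((dg E * (v (N * x))⁻¹ * (dg E)⁻¹) * v (N * x)) * y'⁻¹) := by
    rw [hyy]; group
  rw [e]
  exact (Es A N).mul_mem hcomm' (Es_conj hy'G ((Es A N).mul_mem
    (Es_conj htG ((Es A N).inv_mem hvε)) hvε))

end BoomNF
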