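import Pool.Agent.H.MP_4c7af0_al.NF.S4a
import Pool.Agent.H.MP_4c7af0_al.NF.S4b1
import Pool.Agent.H.MP_4c7af0_al.NF.Good2
import Pool.Agent.H.MP_4c7af0_al.NF.Good3
import Pool.Agent.H.MP_4c7af0_al.NF.Frob
import Pool.Agent.H.MP_4c7af0_al.NF.NT2
import Pool.Agent.H.MP_4c7af0_al.NF.S1a

/-! Step 4, part a of the paper (MP_4c7af0_al, number field case): `[dg e, x] ∈ E*(N)`. -/

namespace BoomNF

open NumberField

section field

variable {F : Type*} [Field F] {A : Subring F}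

/-- the class of `y` modulo `E*(N)` decides whether `[t, y] ∈ E*(N)` -/
theorem s4b_transfer {N : F} {t y ε : SL2 F} (ht : t ∈ G A) (hy : y ∈ G A) (hε : ε ∈ Es A N)
    (h : t * (y * ε) * t⁻¹ * (y * ε)⁻¹ ∈ Es A N) : t * y * t⁻¹ * y⁻¹ ∈ Es A N := by
  have e : t * y * t⁻¹ * y⁻¹ = (t * (y * ε) * t⁻¹ * (y * ε)⁻¹) *
      (y * (t * ε * t⁻¹ * ε⁻¹) * y⁻¹)⁻¹ := by group
  rw [e]
  exact (Es A N).mul_mem h ((Es A N).inv_mem
    (Es_conj hy ((Es A N).mul_mem (Es_conj ht hε) ((Es A N).inv_mem hε))))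

theorem s4b_cop_div {b c w : F} (hb0 : b ≠ 0) (hc0 : c ≠ 0) (h : Cop A b c) (hb : w / b ∈ A)
    (hc : w / c ∈ A) : w / (b * c) ∈ A := by
  obtain ⟨x, hx, y, hy, e⟩ := h
  have : w / (b * c) = w / c * x + w / b * y := by
    field_simp
    linear_combination (-w) * e
  rw [this]
  exact A.add_mem (A.mul_mem hc hx) (A.mul_mem hb hy)

theorem s4b_cop_congr {a b c : F} (hb0 : b ≠ 0) (h : Cop A a b) (hac : (a - c) / b ∈ A) :
    Cop A c b := by
  obtain ⟨x, hx, y, hy, e⟩ := h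
  refine ⟨x, hx, y + (a - c) / b * x, A.add_mem hy (A.mul_mem hac hx), ?_⟩
  have : b * (y + (a - c) / b * x) = b * y + (a - c) * x := by field_simp
  rw [this]; linear_combination e

theorem s4b_pow_sub {a c b : F} (ha : a ∈ A) (hc : c ∈ A) (h : (a - c) / b ∈ A) (k : ℕ) :
    (a ^ k - c ^ k) / b ∈ A := by
  induction k with
  | zero => simp [A.zero_mem]
  | succ k ih =>
    have : (a ^ (k + 1) - c ^ (k + 1)) / b = (a ^ k - c ^ k) / b * a + c ^ k * ((a - c) / b) := by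
      ring
    rw [this]
    exact A.add_mem (A.mul_mem ih ha) (A.mul_mem (A.pow_mem hc k) h)

/-- avoiding finitely many values: `a + m j` with `j ≤ h + 1` is nonzero and not a root of unity of
order `h` for some `j` -/
theorem s4b_avoid [CharZero F] (a : F) {m : F} (hm : m ≠ 0) {h : ℕ} (hh : 0 < h) :
    ∃ j : ℕ, a + m * j ≠ 0 ∧ (a + m * j) ^ h ≠ 1 := by
  by_contra hcon
  push Not at hcon
  have hp : (Polynomial.X * (Polynomial.X ^ h - 1) : Polynomial F) ≠ 0 := by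
    apply mul_ne_zero Polynomial.X_ne_zero
    have := Polynomial.X_pow_sub_C_ne_zero hh (1 : F)
    simpa using this
  have hinj : Function.Injective (fun j : ℕ => a + m * (j : F)) := by
    intro i j hij
    simp only [add_right_inj] at hij
    have := mul_left_cancel₀ hm hij
    exact_mod_cast this
  have hinf : (Set.range (fun j : ℕ => a + m * (j : F))).Infinite :=
    Set.infinite_range_of_injective hinj
  apply hinf
  apply Set.Finite.subset (Polynomial.finite_setOfPred_isRoot hp)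
  rintro _ ⟨j, rfl⟩
  simp only [Set.mem_ofPred_eq, Polynomial.IsRoot.def, Polynomial.eval_mul, Polynomial.eval_X,
    Polynomial.eval_sub, Polynomial.eval_pow, Polynomial.eval_one, mul_eq_zero]
  by_cases h0 : a + m * (j : F) = 0
  · left; exact h0
  · right; rw [hcon j h0]; ring

end field

variable {K : Type*} [Field K] [NumberField K] {A : Subring K}

/-- the core of `diag_comm`, when the first row `(a, N b)` of `y` has a good `b` -/
theorem s4b_core (hA : SRing A) {e : K} (hE : InfUnit A e) {h : ℕ} (hF : FrobH A h) {N : ℕ}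
    (hN : 0 < N) (hRN : ((h + 1).factorial) ^ 2 ∣ N) {z : ℕ} (hz : 0 < z)
    (hz1 : (((h + 1).factorial : ℕ) : ℤ) ^ 3 ∣ (z : ℤ) - 1 - (((h + 1).factorial : ℕ) : ℤ) ^ 2)
    (hz2 : ∀ l : ℕ, l.Prime → l ∣ N → ¬ l ∣ (h + 1).factorial → ¬ l ∣ z ∧
      ¬ (l : ℤ) ∣ (z : ℤ) ^ h - 1) {y : SL2 K} (hy : y ∈ G A)
    (h00 : (y 0 0 - z) / (N : K) ^ 2 ∈ A) (h10 : y 1 0 / (N : K) ∈ A) {b : K} (hb : b ∈ A)
    (hb0 : b ≠ 0) (hyb : y 0 1 = N * b) (hO : Onto A b)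
    (hbN : Cop A b ((N : K) * (y 0 0 ^ h - 1))) (hab : Cop A (y 0 0) b) :
    dg (e ^ (h * ((h + 1).factorial) ^ 2)) * y * (dg (e ^ (h * ((h + 1).factorial) ^ 2)))⁻¹ * y⁻¹
      ∈ Es A (N : K) := by
  have hNA : (N : K) ∈ A := natCast_mem A N
  have hN0 : (N : K) ≠ 0 := by exact_mod_cast hN.ne'
  have hh := hF.pos
  set R : ℕ := (h + 1).factorial with hR
  have hR0 : 0 < R := Nat.factorial_pos _
  set a : K := y 0 0 with ha
  have haA : a ∈ A := hy _ _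
  have hahA : a ^ h - 1 ∈ A := A.sub_mem (A.pow_mem haA h) A.one_mem
  -- z is coprime to N
  have hzc := (z_props hR0 hh dvd_rfl hN hz hz1 hz2).1
  have hzN : Nat.Coprime z N := Nat.Coprime.coprime_mul_right_right hzc
  have hzN2 : Nat.Coprime z (N ^ 2) := Nat.Coprime.pow_right 2 hzN
  -- n
  obtain ⟨n, hn, hn'⟩ := hA.onto_gen hb0
  obtain ⟨r, hr, hrn⟩ := onto_rep haA hb0 hO hn' hab
  have hbN1 : Cop A b ((N : ℤ) : K) := by
    have := Cop.of_mul_right_left hahA hbN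
    push_cast; exact this
  have hnN : IsCoprime (n : ℤ) (N : ℤ) := onto_cop hb0 hO hn' hbN1
  have hbr : Cop A b (((r ^ h - 1 : ℤ)) : K) := by
    have h1 : Cop A (a ^ h - 1) b := (Cop.of_mul_right_right hNA hbN).symm
    have h2 : ((a ^ h - 1) - ((r : K) ^ h - 1)) / b ∈ A := by
      have := s4b_pow_sub haA (intCast_mem A r) hr h
      have e1 : ((a ^ h - 1) - ((r : K) ^ h - 1)) / b = (a ^ h - (r : K) ^ h) / b := by ring
      rw [e1]; exact this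
    have h3 := (s4b_cop_congr hb0 h1 h2).symm
    push_cast; exact h3
  have hnr : IsCoprime (n : ℤ) (r ^ h - 1) := onto_cop hb0 hO hn' hbr
  -- the two primes
  obtain ⟨B, hB⟩ := hF.unit hE.ne hE.mem hE.inv_mem
  have hR3 : R ^ 3 ∣ N ^ 2 := by
    have h1 : (R ^ 2) ^ 2 ∣ N ^ 2 := pow_dvd_pow_of_dvd hRN 2
    refine dvd_trans ?_ h1
    rw [← pow_mul]
    exact pow_dvd_pow _ (by norm_num)
  have hnN2 : Nat.Coprime n (N ^ 2) :=
    Nat.Coprime.pow_right 2 (Nat.isCoprime_iff_coprime.1 hnN)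
  have hzc2 : IsCoprime (z : ℤ) ((N ^ 2 : ℕ) : ℤ) := Nat.isCoprime_iff_coprime.2 hzN2
  have hz3 : ∀ l : ℕ, l.Prime → l ∣ N ^ 2 → ¬ l ∣ R → ¬ (l : ℤ) ∣ (z : ℤ) ^ h - 1 :=
    fun l hl hlN hlR => (hz2 l hl (hl.dvd_of_dvd_pow hlN) hlR).2
  obtain ⟨q, q', hq, hq', hBq, hBq', hqr, hqz, hqr', hqz', hgcd⟩ :=
    two_primes hR0 hh dvd_rfl (pow_pos hN 2) hR3 hn hnN2 hzc2 hz1 hz3 hrn hnr.symm B
  -- each prime gives a commutator
  have hkey : ∀ q : ℕ, q.Prime → B < q → (n : ℤ) ∣ (q : ℤ) - r → ((N ^ 2 : ℕ) : ℤ) ∣ (q : ℤ) - z →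
      dg (e ^ (q ^ h - 1)) * y * (dg (e ^ (q ^ h - 1)))⁻¹ * y⁻¹ ∈ Es A (N : K) := by
    intro q hq hBq hqr hqz
    have hq0 : (q : K) ≠ 0 := by exact_mod_cast hq.ne_zero
    have h1 : ((q : K) - a) / b ∈ A := by
      have h2 : (((q : ℤ) - r : ℤ) : K) / b ∈ A := (hn' _).2 hqr
      have h3 : ((q : K) - a) / b = (((q : ℤ) - r : ℤ) : K) / b - (a - r) / b := by
        push_cast; ring
      rw [h3]; exact A.sub_mem h2 hr
    have h2 : ((q : K) - a) / (N : K) ^ 2 ∈ A := by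
      obtain ⟨j, hj⟩ := hqz
      have h3 : (q : K) - z = (N : K) ^ 2 * j := by exact_mod_cast congrArg (fun x : ℤ => (x : K)) hj
      have h4 : ((q : K) - a) / (N : K) ^ 2 = (j : K) - (a - z) / (N : K) ^ 2 := by
        field_simp
        linear_combination h3
      rw [h4]; exact A.sub_mem (intCast_mem A j) h00
    have hcop2 : Cop A b ((N : K) ^ 2) := by
      rw [pow_two]
      have h3 : Cop A b (N : K) := Cop.of_mul_right_left hahA hbN
      exact Cop.mul_right hb hNA hNA h3 h3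
    have h3 := s4b_cop_div hb0 (pow_ne_zero 2 hN0) hcop2 h1 h2
    set x : K := ((q : K) - a) / (b * (N : K) ^ 2) with hx
    have hα : y 0 0 + y 0 1 * N * x = q := by
      rw [hyb, hx, ← ha]; field_simp; ring
    have haN : Cop A (y 0 0) (N : K) := by
      have h4 : Cop A (z : K) (N : K) := by
        have h5 : IsCoprime (z : ℤ) (N : ℤ) := Nat.isCoprime_iff_coprime.2 hzN
        obtain ⟨s, t, hst⟩ := h5
        refine ⟨s, intCast_mem A s, t, intCast_mem A t, ?_⟩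
        have h6 : ((s * z + t * N : ℤ) : K) = ((1 : ℤ) : K) := by rw [hst]
        push_cast at h6
        linear_combination h6
      apply s4b_cop_congr hN0 h4
      have h5 : ((z : K) - y 0 0) / N = -((N : K) * ((y 0 0 - z) / (N : K) ^ 2)) := by
        field_simp; ring
      rw [h5]; exact A.neg_mem (A.mul_mem hNA h00)
    have h01 : y 0 1 / (N : K) ∈ A := by
      rw [hyb, mul_div_cancel_left₀ _ hN0]; exact hb
    have hk : (e ^ (2 * (q ^ h - 1)) - 1) / (y 0 0 + y 0 1 * N * x) ∈ A := by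
      rw [hα]
      have h4 := hB q hq hBq
      have h5 : (e ^ (2 * (q ^ h - 1)) - 1) / (q : K) =
          (e ^ (q ^ h - 1) - 1) / (q : K) * (e ^ (q ^ h - 1) + 1) := by
        rw [two_mul, pow_add]; ring
      rw [h5]
      exact A.mul_mem h4 (A.add_mem (A.pow_mem hE.mem _) A.one_mem)
    exact diag_pow_comm hNA hN0 hE.ne hE.mem hE.inv_mem hy h01 h10 haN h3
      (by rw [hα]; exact hq0) hk
  have k1 := hkey q hq hBq hqr hqz
  have k2 := hkey q' hq' hBq' hqr' hqz'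
  rw [← dg_pow hE.ne] at k1 k2 ⊢
  have htG : dg e ∈ G A := dg_mem_G hE.mem hE.inv_mem
  refine comm_gcd (H := Es A (N : K)) ?_ ?_ ?_ ?_ hgcd k1 k2
  · intro g hg; exact Es_conj htG hg
  · intro g hg
    have := Es_conj ((G A).inv_mem htG) hg
    rwa [inv_inv] at this
  · intro g hg; exact Es_conj hy hg
  · intro g hg
    have := Es_conj ((G A).inv_mem hy) hg
    rwa [inv_inv] at this

/-- The claim in `(4a)`: `k₀ = h R²`, `R = (h + 1)!`, `R² ∣ N`. `z` is as in `exists_z` for `W = N`, i.e.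
`z ≡ 1 + R² mod R³` and `l ∤ z (z^h - 1)` for the primes `l ∣ N`, `l ∤ R`. If `y ∈ SL₂(A)` is
`≡ diag(z, z') mod N²` then `[dg (e^k₀), y] ∈ E*(N)`.
Proof: `K_y = {k ∈ ℤ : [t^k, y] ∈ E*(N)}` (`t = dg e`) is a subgroup of `ℤ` depending only on the class
of `y` mod `E*(N)`. Let `(a, N b)` be the first row, `b ∈ N A`, `a ≡ z mod N²`. Right multiplication by
some `u(N² *)` makes `b ≠ 0`, then by some `v(N² *)` makes `a ≠ 0`, `a^h ≠ 1`. Right multiplication by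
`u(N t)` replaces `b` by `b + a t`; by `good'` for `(b, a)` and `M = N (a^h - 1)`: `b ≠ 0`,
`ℤ → A / b A` onto, `b` coprime to `N` and to `a^h - 1`. `n` from `onto_gen`, `a ≡ r mod b`; `n` is prime
to `N`, `r` and `r^h - 1`. `two_primes` with `m = N²` (`R³ ∣ N²`): `q, q' ≡ r mod n`, `≡ z mod N²`. They
are `≡ a` mod `b` and mod `N²`, so of the form `a + (N b) N x`, and `q ∣ e^(q^h - 1) - 1` by
`FrobH.unit`; so by `diag_pow_comm` `q^h - 1, q'^h - 1 ∈ K_y`, and `gcd ∣ h R² = k₀`. -/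
theorem SRing.diag_comm (hA : SRing A) {e : K} (hE : InfUnit A e) {h : ℕ} (hF : FrobH A h) {N : ℕ}
    (hN : 0 < N) (hRN : ((h + 1).factorial) ^ 2 ∣ N) {z : ℕ} (hz : 0 < z)
    (hz1 : (((h + 1).factorial : ℕ) : ℤ) ^ 3 ∣ (z : ℤ) - 1 - (((h + 1).factorial : ℕ) : ℤ) ^ 2)
    (hz2 : ∀ l : ℕ, l.Prime → l ∣ N → ¬ l ∣ (h + 1).factorial → ¬ l ∣ z ∧
      ¬ (l : ℤ) ∣ (z : ℤ) ^ h - 1) {y : SL2 K} (hy : y ∈ G A)
    (h00 : (y 0 0 - z) / (N : K) ^ 2 ∈ A) (h01 : y 0 1 / (N : K) ^ 2 ∈ A)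
    (h10 : y 1 0 / (N : K) ^ 2 ∈ A) :
    dg (e ^ (h * ((h + 1).factorial) ^ 2)) * y * (dg (e ^ (h * ((h + 1).factorial) ^ 2)))⁻¹ * y⁻¹
      ∈ Es A (N : K) := by
  have hNA : (N : K) ∈ A := natCast_mem A N
  have hN0 : (N : K) ≠ 0 := by exact_mod_cast hN.ne'
  have hh := hF.pos
  have hN2A : (N : K) ^ 2 ∈ A := A.pow_mem hNA 2
  have hN20 : (N : K) ^ 2 ≠ 0 := pow_ne_zero 2 hN0
  have htG : dg (e ^ (h * ((h + 1).factorial) ^ 2)) ∈ G A := by
    apply dg_mem_G (A.pow_mem hE.mem _)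
    rw [← inv_pow]
    exact A.pow_mem hE.inv_mem _
  have hN2N : ∀ x : K, x / (N : K) ^ 2 ∈ A → x / (N : K) ∈ A := by
    intro x hx
    have : x / (N : K) = N * (x / (N : K) ^ 2) := by field_simp
    rw [this]; exact A.mul_mem hNA hx
  -- step 1: make the upper right entry nonzero
  have step1 : ∃ x : K, x / (N : K) ^ 2 ∈ A ∧ (y * u x) 0 1 ≠ 0 := by
    by_cases h0 : y 0 1 = 0
    · refine ⟨(N : K) ^ 2, by rw [div_self hN20]; exact A.one_mem, ?_⟩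
      rw [mul_app, u_01, u_11, h0]
      have hd := det_eq y
      rw [h0] at hd
      have ha : y 0 0 ≠ 0 := by
        intro h1; rw [h1] at hd; simp at hd
      simpa using mul_ne_zero ha hN20
    · refine ⟨0, by simp [A.zero_mem], ?_⟩
      rw [mul_app, u_01, u_11]
      simpa using h0
  obtain ⟨x₁, hx₁, hy₁⟩ := step1
  have hx₁A : x₁ ∈ A := by
    have : x₁ = (N : K) ^ 2 * (x₁ / (N : K) ^ 2) := by field_simp
    rw [this]; exact A.mul_mem hN2A hx₁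
  have hux : u x₁ ∈ Es A (N : K) := u_mem_Es hNA hN0 (hN2N _ hx₁)
  apply s4b_transfer htG hy hux
  set y₁ : SL2 K := y * u x₁ with hy₁def
  have hy₁G : y₁ ∈ G A := (G A).mul_mem hy (u_mem_G hx₁A)
  have a00 : (y₁ 0 0 - z) / (N : K) ^ 2 ∈ A := by
    have : y₁ 0 0 = y 0 0 := by rw [hy₁def, mul_app, u_00, u_10]; ring
    rw [this]; exact h00
  have a01 : y₁ 0 1 / (N : K) ^ 2 ∈ A := by
    have : y₁ 0 1 / (N : K) ^ 2 = y 0 0 * (x₁ / (N : K) ^ 2) + y 0 1 / (N : K) ^ 2 := by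
      rw [hy₁def, mul_app, u_01, u_11]; ring
    rw [this]; exact A.add_mem (A.mul_mem (hy _ _) hx₁) h01
  have a10 : y₁ 1 0 / (N : K) ^ 2 ∈ A := by
    have : y₁ 1 0 = y 1 0 := by rw [hy₁def, mul_app, u_00, u_10]; ring
    rw [this]; exact h10
  -- step 2: make the upper left entry good
  obtain ⟨j, hj0, hj1⟩ := s4b_avoid (y₁ 0 0) (mul_ne_zero hy₁ hN20) hh
  set x₂ : K := (N : K) ^ 2 * j with hx₂
  have hx₂A : x₂ ∈ A := A.mul_mem hN2A (natCast_mem A j)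
  have hx₂' : x₂ / (N : K) ^ 2 ∈ A := by
    rw [hx₂, mul_div_cancel_left₀ _ hN20]; exact natCast_mem A j
  have hvx : v x₂ ∈ Es A (N : K) := v_mem_Es hNA hN0 (hN2N _ hx₂')
  apply s4b_transfer htG hy₁G hvx
  set y₂ : SL2 K := y₁ * v x₂ with hy₂def
  have hy₂G : y₂ ∈ G A := (G A).mul_mem hy₁G (v_mem_G hx₂A)
  have e00 : y₂ 0 0 = y₁ 0 0 + y₁ 0 1 * (N : K) ^ 2 * j := by
    rw [hy₂def, mul_app, v_00, v_10, hx₂]; ring
  have b00 : (y₂ 0 0 - z) / (N : K) ^ 2 ∈ A := by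
    have : (y₂ 0 0 - z) / (N : K) ^ 2 = (y₁ 0 0 - z) / (N : K) ^ 2 + y₁ 0 1 * j := by
      rw [e00]; field_simp; ring
    rw [this]; exact A.add_mem a00 (A.mul_mem (hy₁G _ _) (natCast_mem A j))
  have b01 : y₂ 0 1 / (N : K) ^ 2 ∈ A := by
    have : y₂ 0 1 = y₁ 0 1 := by rw [hy₂def, mul_app, v_01, v_11]; ring
    rw [this]; exact a01
  have b10 : y₂ 1 0 / (N : K) ^ 2 ∈ A := by
    have : y₂ 1 0 / (N : K) ^ 2 = y₁ 1 0 / (N : K) ^ 2 + y₁ 1 1 * (x₂ / (N : K) ^ 2) := by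
      rw [hy₂def, mul_app, v_00, v_10]; ring
    rw [this]; exact A.add_mem a10 (A.mul_mem (hy₁G _ _) hx₂')
  rw [← e00] at hj0 hj1
  -- step 3: good b
  set a : K := y₂ 0 0 with ha
  have haA : a ∈ A := hy₂G _ _
  set b₀ : K := y₂ 0 1 / N with hb₀
  have hb₀A : b₀ ∈ A := hN2N _ b01
  have hb₀' : y₂ 0 1 = N * b₀ := by rw [hb₀]; field_simp
  have hcop : Cop A b₀ a := by
    have hd := det_eq y₂
    refine ⟨-(N * y₂ 1 0), A.neg_mem (A.mul_mem hNA (hy₂G _ _)), y₂ 1 1, hy₂G _ _, ?_⟩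
    rw [hb₀'] at hd
    linear_combination hd
  have hM : (N : K) * (a ^ h - 1) ∈ A :=
    A.mul_mem hNA (A.sub_mem (A.pow_mem haA h) A.one_mem)
  have hM0 : (N : K) * (a ^ h - 1) ≠ 0 := mul_ne_zero hN0 (sub_ne_zero.2 hj1)
  obtain ⟨t, ht, hb0, hO, hbM⟩ := hA.good' hb₀A haA hj0 hcop hM hM0
  set b : K := b₀ + a * t with hb
  have hbA : b ∈ A := A.add_mem hb₀A (A.mul_mem haA ht)
  have hutE : u (N * t) ∈ Es A (N : K) := by
    apply u_mem_Es hNA hN0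
    rw [mul_div_cancel_left₀ _ hN0]; exact ht
  apply s4b_transfer htG hy₂G hutE
  set y₃ : SL2 K := y₂ * u (N * t) with hy₃def
  have hy₃G : y₃ ∈ G A := (G A).mul_mem hy₂G (u_mem_G (A.mul_mem hNA ht))
  have f00 : y₃ 0 0 = a := by rw [hy₃def, mul_app, u_00, u_10, ha]; ring
  have f01 : y₃ 0 1 = N * b := by
    rw [hy₃def, mul_app, u_01, u_11, hb₀', hb]; ring
  have f10 : y₃ 1 0 = y₂ 1 0 := by rw [hy₃def, mul_app, u_00, u_10]; ring
  have hcop3 : Cop A (y₃ 0 0) b := by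
    rw [f00, hb]
    have h1 := hcop
    exact (Cop.add_mul ht h1).symm
  apply s4b_core hA hE hF hN hRN hz hz1 hz2 hy₃G (by rw [f00]; exact b00)
    (by rw [f10]; exact hN2N _ b10) hbA hb0 f01 hO (by rw [f00]; exact hbM) hcop3

/-- a unit `ε` of infinite order with `[dg ε, x] ∈ E*(N)` for `x ∈ Γ(N)`, `M₀ ∣ N` -/
structure TComm (A : Subring K) (M₀ : ℕ) (ε : K) : Prop extends InfUnit A ε where
  pos : 0 < M₀
  comm : ∀ N : ℕ, 0 < N → M₀ ∣ N → ∀ x ∈ GN A (N : K),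
    dg ε * x * (dg ε)⁻¹ * x⁻¹ ∈ Es A (N : K)

/-- `(4a)`: `ε = e^(h R²)`, `M₀ = R²`, `R = (h + 1)!`. Proof: by `deep` (with `L = N²`) we may assume
`x ∈ Γ(N²)`. `z` from `exists_z` (`W = N`), `z z' ≡ 1 mod N²`, `z' ∈ ℤ`,
`δ = v(1 - z') (v(-1) u(z - 1) v(1)) u(-(z - 1) z') ≡ diag(z, z') mod N²` (`diag_elem`). Both `δ` and
`x δ` are `≡ diag(z, z') mod N²`; by `diag_comm` the image of `dg ε` in `SL₂(A) / E*(N)` commutes with
the images of `δ` and `x δ`, so with that of `x`. -/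
theorem SRing.t_comm (hA : SRing A) {e : K} (hE : InfUnit A e) :
    ∃ (M₀ : ℕ) (ε : K), TComm A M₀ ε := by
  obtain ⟨h, hF⟩ := hA.frob
  have hh := hF.pos
  set R : ℕ := (h + 1).factorial with hR
  have hR0 : 0 < R := Nat.factorial_pos _
  have hm0 : 0 < h * R ^ 2 := Nat.mul_pos hh (pow_pos hR0 2)
  have hinv : (e ^ (h * R ^ 2))⁻¹ ∈ A := by
    rw [← inv_pow]; exact A.pow_mem hE.inv_mem _
  have htG : dg (e ^ (h * R ^ 2)) ∈ G A := dg_mem_G (A.pow_mem hE.mem _) hinv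
  refine ⟨R ^ 2, e ^ (h * R ^ 2), ⟨⟨pow_ne_zero _ hE.ne, A.pow_mem hE.mem _, hinv, ?_⟩,
    pow_pos hR0 2, ?_⟩⟩
  · intro k hk
    rw [← pow_mul]
    exact hE.pow_ne _ (Nat.mul_pos hm0 hk)
  · intro N hN hRN x hx
    have hNA : (N : K) ∈ A := natCast_mem A N
    have hN0 : (N : K) ≠ 0 := by exact_mod_cast hN.ne'
    have hN2A : (N : K) ^ 2 ∈ A := A.pow_mem hNA 2
    have hN20 : (N : K) ^ 2 ≠ 0 := pow_ne_zero 2 hN0
    have hLN : (N : K) ^ 2 / N ∈ A := by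
      have : (N : K) ^ 2 / N = N := by field_simp
      rw [this]; exact hNA
    obtain ⟨x₁, hx₁, ε', hε', rfl⟩ := hA.deep hNA hN0 hN2A hN20 hLN hx
    have hxG : x₁ * ε' ∈ G A := hx.1
    have hε'' : ε'⁻¹ ∈ Es A (N : K) := (Es A (N : K)).inv_mem hε'
    apply s4b_transfer htG hxG hε''
    rw [mul_inv_cancel_right]
    obtain ⟨z, hz, hz1, hz2⟩ := exists_z (R := R) (h := h) (W := N) hR0 hh dvd_rfl hN
    have hzc := (z_props hR0 hh dvd_rfl hN hz hz1 hz2).1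
    have hzN2 : Nat.Coprime z (N ^ 2) :=
      Nat.Coprime.pow_right 2 (Nat.Coprime.coprime_mul_right_right hzc)
    obtain ⟨z', t, hzt⟩ : IsCoprime (z : ℤ) ((N ^ 2 : ℕ) : ℤ) := Nat.isCoprime_iff_coprime.2 hzN2
    have hzz : ((z : K) * (z' : K) - 1) / (N : K) ^ 2 ∈ A := by
      have h6 : ((z' * z + t * (N ^ 2 : ℕ) : ℤ) : K) = ((1 : ℤ) : K) := by rw [hzt]
      push_cast at h6
      have : ((z : K) * (z' : K) - 1) / (N : K) ^ 2 = -(t : K) := by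
        rw [div_eq_iff hN20]; linear_combination h6
      rw [this]; exact A.neg_mem (intCast_mem A t)
    have hδ := diag_elem hN2A hN20 (natCast_mem A z) (intCast_mem A z') hzz
    simp only at hδ
    set δ : SL2 K := v (1 - (z' : K)) * (v (-1) * u ((z : K) - 1) * v 1) *
      u (-(((z : K) - 1) * (z' : K))) with hδdef
    have hδG : δ ∈ G A := by
      have hzA : (z : K) ∈ A := natCast_mem A z
      have hz'A : (z' : K) ∈ A := intCast_mem A z'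
      refine (G A).mul_mem ((G A).mul_mem (v_mem_G (A.sub_mem A.one_mem hz'A))
        ((G A).mul_mem ((G A).mul_mem (v_mem_G (A.neg_mem A.one_mem))
          (u_mem_G (A.sub_mem hzA A.one_mem))) (v_mem_G A.one_mem))) (u_mem_G ?_)
      exact A.neg_mem (A.mul_mem (A.sub_mem hzA A.one_mem) hz'A)
    have h1 := hA.diag_comm hE hF hN hRN hz hz1 hz2 hδG hδ.1 hδ.2.1 hδ.2.2.1
    have hxδG : x₁ * δ ∈ G A := (G A).mul_mem hx₁.1 hδG
    have h2 := hA.diag_comm hE hF hN hRN hz hz1 hz2 hxδG (by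
      have : ((x₁ * δ) 0 0 - z) / (N : K) ^ 2 = (x₁ 0 0 - 1) / (N : K) ^ 2 * δ 0 0 +
          (δ 0 0 - z) / (N : K) ^ 2 + x₁ 0 1 * (δ 1 0 / (N : K) ^ 2) := by
        rw [mul_app]; ring
      rw [this]
      exact A.add_mem (A.add_mem (A.mul_mem hx₁.2.1 (hδG _ _)) hδ.1)
        (A.mul_mem (hx₁.1 _ _) hδ.2.2.1)) (by
      have : (x₁ * δ) 0 1 / (N : K) ^ 2 = x₁ 0 0 * (δ 0 1 / (N : K) ^ 2) +
          x₁ 0 1 / (N : K) ^ 2 * δ 1 1 := by
        rw [mul_app]; ring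
      rw [this]
      exact A.add_mem (A.mul_mem (hx₁.1 _ _) hδ.2.1) (A.mul_mem hx₁.2.2.1 (hδG _ _))) (by
      have : (x₁ * δ) 1 0 / (N : K) ^ 2 = x₁ 1 0 / (N : K) ^ 2 * δ 0 0 +
          x₁ 1 1 * (δ 1 0 / (N : K) ^ 2) := by
        rw [mul_app]; ring
      rw [this]
      exact A.add_mem (A.mul_mem hx₁.2.2.2.1 (hδG _ _)) (A.mul_mem (hx₁.1 _ _) hδ.2.2.1))
    have hfin : dg (e ^ (h * R ^ 2)) * x₁ * (dg (e ^ (h * R ^ 2)))⁻¹ * x₁⁻¹ =
        (dg (e ^ (h * R ^ 2)) * (x₁ * δ) * (dg (e ^ (h * R ^ 2)))⁻¹ * (x₁ * δ)⁻¹) *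
        (x₁ * (dg (e ^ (h * R ^ 2)) * δ * (dg (e ^ (h * R ^ 2)))⁻¹ * δ⁻¹) * x₁⁻¹)⁻¹ := by
      group
    rw [hfin]
    exact (Es A (N : K)).mul_mem h2 ((Es A (N : K)).inv_mem (Es_conj hx₁.1 h1))

end BoomNF
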