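import Pool.Agent.H.MP_4c7af0_al.NF.Rng4

/-! Step 4, part c1 (MP_4c7af0_al, number field case). -/

namespace BoomNF

open NumberField

variable {K : Type*} [Field K] [NumberField K] {A : Subring K}

/-- the elements of `SL₂(K)` which commute with deep congruence subgroups modulo every `E*(N)` -/
def InH (A : Subring K) (g : SL2 K) : Prop :=
  ∀ N : ℕ, 0 < N → ∃ L : ℕ, 0 < L ∧ N ∣ L ∧ ∀ x ∈ GN A (L : K),
    g * x * g⁻¹ ∈ GN A (N : K) ∧ g * x * g⁻¹ * x⁻¹ ∈ Es A (N : K)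

theorem s4c1_nat_mem (A : Subring K) (n : ℕ) : (n : K) ∈ A := natCast_mem A n

theorem s4c1_div_nat {N L : ℕ} (hN : 0 < N) (h : N ∣ L) : (L : K) / (N : K) ∈ A := by
  obtain ⟨m, rfl⟩ := h
  have hN0 : (N : K) ≠ 0 := by exact_mod_cast hN.ne'
  rw [Nat.cast_mul, mul_div_cancel_left₀ _ hN0]
  exact natCast_mem A m

theorem s4c1_GN_mono {N L : ℕ} (hN : 0 < N) (hL : 0 < L) (h : N ∣ L) :
    GN A (L : K) ≤ GN A (N : K) :=
  GN_mono (by exact_mod_cast hN.ne') (by exact_mod_cast hL.ne') (s4c1_div_nat hN h)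

theorem s4c1_Es_mono {N L : ℕ} (hN : 0 < N) (hL : 0 < L) (h : N ∣ L) :
    Es A (L : K) ≤ Es A (N : K) :=
  Es_mono (by exact_mod_cast hN.ne') (by exact_mod_cast hL.ne') (s4c1_div_nat hN h)

theorem s4c1_den4 (hA : SRing A) (k : SL2 K) : ∃ r : ℕ, 0 < r ∧ ∀ i j, (r : K) * k i j ∈ A := by
  choose n hn hk using fun i j : Fin 2 => hA.den (k i j)
  refine ⟨n 0 0 * n 0 1 * n 1 0 * n 1 1, ?_, ?_⟩
  · exact Nat.mul_pos (Nat.mul_pos (Nat.mul_pos (hn _ _) (hn _ _)) (hn _ _)) (hn _ _)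
  · intro i j
    have h1 : ∀ m : ℕ, (m : K) ∈ A := fun m => natCast_mem A m
    fin_cases i <;> fin_cases j
    · have : ((n 0 0 * n 0 1 * n 1 0 * n 1 1 : ℕ) : K) * k 0 0 =
          ((n 0 1 * n 1 0 * n 1 1 : ℕ) : K) * ((n 0 0 : K) * k 0 0) := by push_cast; ring
      change ((n 0 0 * n 0 1 * n 1 0 * n 1 1 : ℕ) : K) * k 0 0 ∈ A
      rw [this]; exact A.mul_mem (h1 _) (hk 0 0)
    · have : ((n 0 0 * n 0 1 * n 1 0 * n 1 1 : ℕ) : K) * k 0 1 =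
          ((n 0 0 * n 1 0 * n 1 1 : ℕ) : K) * ((n 0 1 : K) * k 0 1) := by push_cast; ring
      change ((n 0 0 * n 0 1 * n 1 0 * n 1 1 : ℕ) : K) * k 0 1 ∈ A
      rw [this]; exact A.mul_mem (h1 _) (hk 0 1)
    · have : ((n 0 0 * n 0 1 * n 1 0 * n 1 1 : ℕ) : K) * k 1 0 =
          ((n 0 0 * n 0 1 * n 1 1 : ℕ) : K) * ((n 1 0 : K) * k 1 0) := by push_cast; ring
      change ((n 0 0 * n 0 1 * n 1 0 * n 1 1 : ℕ) : K) * k 1 0 ∈ A
      rw [this]; exact A.mul_mem (h1 _) (hk 1 0)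
    · have : ((n 0 0 * n 0 1 * n 1 0 * n 1 1 : ℕ) : K) * k 1 1 =
          ((n 0 0 * n 0 1 * n 1 0 : ℕ) : K) * ((n 1 1 : K) * k 1 1) := by push_cast; ring
      change ((n 0 0 * n 0 1 * n 1 0 * n 1 1 : ℕ) : K) * k 1 1 ∈ A
      rw [this]; exact A.mul_mem (h1 _) (hk 1 1)

theorem s4c1_conj_GN {k : SL2 K} {r N : ℕ} (hr : 0 < r) (hN : 0 < N)
    (hk : ∀ i j, (r : K) * k i j ∈ A) {x : SL2 K} (hx : x ∈ GN A ((r * r * N : ℕ) : K)) :
    k * x * k⁻¹ ∈ GN A (N : K) := by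
  have hr0 : (r : K) ≠ 0 := by exact_mod_cast hr.ne'
  have hN0 : (N : K) ≠ 0 := by exact_mod_cast hN.ne'
  have hd := det_eq k
  obtain ⟨-, h0, h1, h2, h3⟩ := hx
  have hm : ∀ i j i' j' : Fin 2, ∀ y ∈ A, (r : K) * k i j * ((r : K) * k i' j') * y ∈ A :=
    fun i j i' j' y hy => A.mul_mem (A.mul_mem (hk _ _) (hk _ _)) hy
  refine mem_GN' (natCast_mem A N) hN0 ?_ ?_ ?_ ?_
  · have : ((k * x * k⁻¹) 0 0 - 1) / N =
        (r : K) * k 0 0 * ((r : K) * k 1 1) * ((x 0 0 - 1) / ((r * r * N : ℕ) : K))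
        + (r : K) * k 0 1 * ((r : K) * k 1 1) * (x 1 0 / ((r * r * N : ℕ) : K))
        - (r : K) * k 0 0 * ((r : K) * k 1 0) * (x 0 1 / ((r * r * N : ℕ) : K))
        - (r : K) * k 0 1 * ((r : K) * k 1 0) * ((x 1 1 - 1) / ((r * r * N : ℕ) : K)) := by
      simp only [mul_app, inv00, inv10]
      push_cast
      field_simp
      linear_combination hd
    rw [this]
    exact A.sub_mem (A.sub_mem (A.add_mem (hm _ _ _ _ _ h0) (hm _ _ _ _ _ h2)) (hm _ _ _ _ _ h1))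
      (hm _ _ _ _ _ h3)
  · have : (k * x * k⁻¹) 0 1 / N =
        (r : K) * k 0 1 * ((r : K) * k 0 0) * ((x 1 1 - 1) / ((r * r * N : ℕ) : K))
        - (r : K) * k 0 0 * ((r : K) * k 0 1) * ((x 0 0 - 1) / ((r * r * N : ℕ) : K))
        + (r : K) * k 0 0 * ((r : K) * k 0 0) * (x 0 1 / ((r * r * N : ℕ) : K))
        - (r : K) * k 0 1 * ((r : K) * k 0 1) * (x 1 0 / ((r * r * N : ℕ) : K)) := by
      simp only [mul_app, inv01, inv11]
      push_cast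
      field_simp
      ring
    rw [this]
    exact A.sub_mem (A.add_mem (A.sub_mem (hm _ _ _ _ _ h3) (hm _ _ _ _ _ h0)) (hm _ _ _ _ _ h1))
      (hm _ _ _ _ _ h2)
  · have : (k * x * k⁻¹) 1 0 / N =
        (r : K) * k 1 0 * ((r : K) * k 1 1) * ((x 0 0 - 1) / ((r * r * N : ℕ) : K))
        - (r : K) * k 1 1 * ((r : K) * k 1 0) * ((x 1 1 - 1) / ((r * r * N : ℕ) : K))
        + (r : K) * k 1 1 * ((r : K) * k 1 1) * (x 1 0 / ((r * r * N : ℕ) : K))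
        - (r : K) * k 1 0 * ((r : K) * k 1 0) * (x 0 1 / ((r * r * N : ℕ) : K)) := by
      simp only [mul_app, inv00, inv10]
      push_cast
      field_simp
      ring
    rw [this]
    exact A.sub_mem (A.add_mem (A.sub_mem (hm _ _ _ _ _ h0) (hm _ _ _ _ _ h3)) (hm _ _ _ _ _ h2))
      (hm _ _ _ _ _ h1)
  · have : ((k * x * k⁻¹) 1 1 - 1) / N =
        (r : K) * k 1 1 * ((r : K) * k 0 0) * ((x 1 1 - 1) / ((r * r * N : ℕ) : K))
        - (r : K) * k 1 0 * ((r : K) * k 0 1) * ((x 0 0 - 1) / ((r * r * N : ℕ) : K))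
        + (r : K) * k 1 0 * ((r : K) * k 0 0) * (x 0 1 / ((r * r * N : ℕ) : K))
        - (r : K) * k 1 1 * ((r : K) * k 0 1) * (x 1 0 / ((r * r * N : ℕ) : K)) := by
      simp only [mul_app, inv01, inv11]
      push_cast
      field_simp
      linear_combination hd
    rw [this]
    exact A.sub_mem (A.add_mem (A.sub_mem (hm _ _ _ _ _ h3) (hm _ _ _ _ _ h0)) (hm _ _ _ _ _ h1))
      (hm _ _ _ _ _ h2)

/-- conjugation by `k ∈ SL₂(K)` maps `Γ(d N)` into `Γ(N)` and `E*(d N)` into `E*(N)` for a suitable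
`d ≥ 1` (`d = r²` with an integer `r ≥ 1` such that `r k` and `r k⁻¹` have entries in `A`). -/
theorem SRing.conj_level (hA : SRing A) (k : SL2 K) : ∃ d : ℕ, 0 < d ∧ ∀ N : ℕ, 0 < N →
    (∀ x ∈ GN A ((d * N : ℕ) : K), k * x * k⁻¹ ∈ GN A (N : K)) ∧
    (∀ x ∈ Es A ((d * N : ℕ) : K), k * x * k⁻¹ ∈ Es A (N : K)) := by
  obtain ⟨r, hr, hk⟩ := s4c1_den4 hA k
  refine ⟨r * r, Nat.mul_pos hr hr, fun N hN => ⟨fun x hx => s4c1_conj_GN hr hN hk hx, ?_⟩⟩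
  intro x hx
  induction hx using Subgroup.closure_induction with
  | mem x hx =>
    refine mem_Es (s4c1_conj_GN hr hN hk hx.1) ?_
    rw [trace_conj]; exact hx.2
  | one => simp
  | mul x y _ _ hx hy =>
    have : k * (x * y) * k⁻¹ = (k * x * k⁻¹) * (k * y * k⁻¹) := by group
    rw [this]; exact (Es A (N : K)).mul_mem hx hy
  | inv x _ hx =>
    have : k * x⁻¹ * k⁻¹ = (k * x * k⁻¹)⁻¹ := by group
    rw [this]; exact (Es A (N : K)).inv_mem hx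

/-- `InH` is closed under products. -/
theorem SRing.InH_mul (hA : SRing A) {g g' : SL2 K} (hg : InH A g) (hg' : InH A g') :
    InH A (g * g') := by
  intro N hN
  obtain ⟨L, hL, hNL, h⟩ := hg N hN
  obtain ⟨L', hL', hLL', h'⟩ := hg' L hL
  refine ⟨L', hL', hNL.trans hLL', fun x hx => ?_⟩
  obtain ⟨a1, a2⟩ := h' x hx
  obtain ⟨b1, b2⟩ := h _ a1
  refine ⟨?_, ?_⟩
  · have : g * g' * x * (g * g')⁻¹ = g * (g' * x * g'⁻¹) * g⁻¹ := by group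
    rw [this]; exact b1
  · have : g * g' * x * (g * g')⁻¹ * x⁻¹ =
        (g * (g' * x * g'⁻¹) * g⁻¹ * (g' * x * g'⁻¹)⁻¹) * (g' * x * g'⁻¹ * x⁻¹) := by group
    rw [this]
    exact (Es A (N : K)).mul_mem b2 (s4c1_Es_mono hN hL hNL a2)

/-- `InH` is closed under inverses. (Given `N`, take `L₁` for `g` and `N`; with `d` from `conj_level`
for `g⁻¹` and `L = d L₁`: for `x ∈ Γ(L)`, `x' = g⁻¹ x g ∈ Γ(L₁)`, so `g x' g⁻¹ x'⁻¹ = x x'⁻¹ ∈ E*(N)`, and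
`g⁻¹ x g x⁻¹ = x' x⁻¹ ∈ E*(N)`.) -/
theorem SRing.InH_inv (hA : SRing A) {g : SL2 K} (hg : InH A g) : InH A g⁻¹ := by
  intro N hN
  obtain ⟨L₁, hL₁, hNL, h⟩ := hg N hN
  obtain ⟨d, hd, hdl⟩ := hA.conj_level g⁻¹
  refine ⟨d * L₁, Nat.mul_pos hd hL₁, Dvd.dvd.mul_left hNL d, fun x hx => ?_⟩
  have h1 : g⁻¹ * x * (g⁻¹)⁻¹ ∈ GN A (L₁ : K) := (hdl L₁ hL₁).1 x hx
  obtain ⟨b1, b2⟩ := h _ h1
  refine ⟨s4c1_GN_mono hN hL₁ hNL h1, ?_⟩
  have : g⁻¹ * x * (g⁻¹)⁻¹ * x⁻¹ =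
      (g * (g⁻¹ * x * (g⁻¹)⁻¹) * g⁻¹ * (g⁻¹ * x * (g⁻¹)⁻¹)⁻¹)⁻¹ := by group
  rw [this]
  exact (Es A (N : K)).inv_mem b2

/-- `InH` is stable under conjugation by all of `SL₂(K)` (`conj_level` for `k` and `k⁻¹`). -/
theorem SRing.InH_conj (hA : SRing A) {g : SL2 K} (hg : InH A g) (k : SL2 K) :
    InH A (k * g * k⁻¹) := by
  intro N hN
  obtain ⟨d₁, hd₁, h₁⟩ := hA.conj_level k
  obtain ⟨d₂, hd₂, h₂⟩ := hA.conj_level k⁻¹
  obtain ⟨L₁, hL₁, hNL, h⟩ := hg (d₁ * N) (Nat.mul_pos hd₁ hN)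
  refine ⟨d₂ * L₁, Nat.mul_pos hd₂ hL₁,
    Dvd.dvd.mul_left ((Dvd.dvd.mul_left dvd_rfl d₁).trans hNL) d₂, fun x hx => ?_⟩
  have hy : k⁻¹ * x * (k⁻¹)⁻¹ ∈ GN A (L₁ : K) := (h₂ L₁ hL₁).1 x hx
  obtain ⟨b1, b2⟩ := h _ hy
  refine ⟨?_, ?_⟩
  · have : k * g * k⁻¹ * x * (k * g * k⁻¹)⁻¹ = k * (g * (k⁻¹ * x * (k⁻¹)⁻¹) * g⁻¹) * k⁻¹ := by group
    rw [this]; exact (h₁ N hN).1 _ b1
  · have : k * g * k⁻¹ * x * (k * g * k⁻¹)⁻¹ * x⁻¹ =
        k * (g * (k⁻¹ * x * (k⁻¹)⁻¹) * g⁻¹ * (k⁻¹ * x * (k⁻¹)⁻¹)⁻¹) * k⁻¹ := by group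
    rw [this]; exact (h₁ N hN).2 _ b2

/-- `SL₂(F)` is generated by the `u(z)`, `v(z)`. -/
theorem sl2_closure {F : Type*} [Field F] (g : SL2 F) :
    g ∈ Subgroup.closure ({h | ∃ z : F, h = u z} ∪ {h | ∃ z : F, h = v z}) := by
  have hu : ∀ z : F, u z ∈ Subgroup.closure ({h | ∃ z : F, h = u z} ∪ {h | ∃ z : F, h = v z}) :=
    fun z => Subgroup.subset_closure (Or.inl ⟨z, rfl⟩)
  have hv : ∀ z : F, v z ∈ Subgroup.closure ({h | ∃ z : F, h = u z} ∪ {h | ∃ z : F, h = v z}) :=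
    fun z => Subgroup.subset_closure (Or.inr ⟨z, rfl⟩)
  have key : ∀ g : SL2 F, g 1 0 ≠ 0 →
      g ∈ Subgroup.closure ({h | ∃ z : F, h = u z} ∪ {h | ∃ z : F, h = v z}) := by
    intro g hc
    have hd := det_eq g
    have e : g = u ((g 0 0 - 1) / g 1 0) * v (g 1 0) * u ((g 1 1 - 1) / g 1 0) := by
      apply ext4
      · simp only [mul_app, u_00, u_01, u_10, u_11, v_00, v_01, v_10, v_11]
        field_simp
        ring
      · simp only [mul_app, u_00, u_01, u_10, u_11, v_00, v_01, v_10, v_11]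
        field_simp
        linear_combination -hd
      · simp only [mul_app, u_00, u_01, u_10, u_11, v_00, v_01, v_10, v_11]
        ring
      · simp only [mul_app, u_00, u_01, u_10, u_11, v_00, v_01, v_10, v_11]
        field_simp
        ring
    rw [e]
    exact Subgroup.mul_mem _ (Subgroup.mul_mem _ (hu _) (hv _)) (hu _)
  by_cases hc : g 1 0 = 0
  · have hd := det_eq g
    have h11 : g 1 1 ≠ 0 := by
      intro h
      rw [hc, h] at hd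
      simp at hd
    have h2 : (g * v (1 : F) : SL2 F) 1 0 ≠ 0 := by
      rw [mul_app, hc, v_10]
      simpa using h11
    have h3 : g = (g * v (1 : F)) * v (-1 : F) := by
      rw [mul_assoc, v_mul, add_neg_cancel, v_zero, mul_one]
    rw [h3]
    exact Subgroup.mul_mem _ (key _ h2) (hv _)
  · exact key g hc

end BoomNF
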