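import Pool.Agent.H.MP_4c7af0_al.NF.Rng4

/-! Step 4, part e (MP_4c7af0_al, number field case): admissible pairs. -/

namespace BoomNF

/-- admissible pairs: the first rows of the elements of `Γ(N)` -/
def Adm {F : Type*} [Field F] (A : Subring F) (N : F) (a b : F) : Prop :=
  a ∈ A ∧ (a - 1) / N ∈ A ∧ b / N ∈ A ∧ Cop A a b

/-- A symbol with values in a commutative group `P`. -/
structure Sym {F : Type*} [Field F] (A : Subring F) (N : F) {P : Type*} [CommGroup P]
    (sy : F → F → P) : Prop where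
  s0 : ∀ b, b / N ∈ A → sy 1 b = 1
  s1 : ∀ a b x, Adm A N a b → x ∈ A → sy (a + b * x) b = sy a b
  s2 : ∀ a b x, Adm A N a b → x ∈ A → sy a (b + a * N * x) = sy a b
  s3 : ∀ l ∈ A, l ≠ 0 → ∃ θ : F → P, ∀ a b, Adm A N a b → Cop A a l → sy a (l ^ 2 * b) = sy a b * θ a
  surj : ∀ z : P, ∃ a b, Adm A N a b ∧ sy a b = z

section field

variable {F : Type*} [Field F] {A : Subring F}

/-- an admissible pair is the first row of an element of `Γ(N)`, whose lower left entry can be taken in
`m A` for any `m ∈ N A`, `m ≠ 0`, coprime to `a` -/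
theorem exists_row {N m : F} (hN : N ∈ A) (hN0 : N ≠ 0) (hm : m / N ∈ A) {a b : F}
    (h : Adm A N a b) (hma : Cop A a m) :
    ∃ x ∈ GN A N, x 0 0 = a ∧ x 0 1 = b ∧ ∃ z ∈ A, x 1 0 = m * z := by
  obtain ⟨ha, ha1, hbN, hab⟩ := h
  have hb : b ∈ A := by
    have e : b = N * (b / N) := by field_simp
    rw [e]; exact A.mul_mem hN hbN
  have hmA : m ∈ A := by
    have e : m = N * (m / N) := by field_simp
    rw [e]; exact A.mul_mem hN hm
  obtain ⟨p, hp, q, hq, e⟩ := Cop.mul_right ha hb hmA hab hma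
  refine ⟨mk4 a b (-(m * q)) p (by linear_combination e), ?_, rfl, rfl, -q, A.neg_mem hq, ?_⟩
  · apply mem_GN' hN hN0
    · exact ha1
    · exact hbN
    · have e1 : (mk4 a b (-(m * q)) p (by linear_combination e)) 1 0 / N = -(m / N * q) := by
        rw [mk4_10]; ring
      rw [e1]; exact A.neg_mem (A.mul_mem hm hq)
    · have e1 : ((mk4 a b (-(m * q)) p (by linear_combination e)) 1 1 - 1) / N
          = -(b * (m / N) * q) - (a - 1) / N * p := by
        rw [mk4_11]; linear_combination (1 / N) * e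
      rw [e1]
      exact A.sub_mem (A.neg_mem (A.mul_mem (A.mul_mem hb hm) hq)) (A.mul_mem ha1 hp)
  · rw [mk4_10]; ring

/-- two elements of `Γ(N)` with the same first row differ by an element of `E*(N)` -/
theorem same_row {N : F} (hN : N ∈ A) (hN0 : N ≠ 0) {x y : SL2 F} (hx : x ∈ GN A N)
    (hy : y ∈ GN A N) (h0 : x 0 0 = y 0 0) (h1 : x 0 1 = y 0 1) : x * y⁻¹ ∈ Es A N := by
  apply mem_Es ((GN A N).mul_mem hx ((GN A N).inv_mem hy))
  have dx := det_eq x
  have dy := det_eq y
  simp only [mul_app, inv00, inv01, inv10, inv11]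
  rw [h0, h1] at dx
  rw [h0, h1]
  linear_combination dx + dy

end field

end BoomNF
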