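import Pool.Agent.H.MP_4c7af0_al.NF.S4c
import Pool.Agent.H.MP_4c7af0_al.NF.P1a

/-! Step 4, part e: the homomorphism `χ` (MP_4c7af0_al, number field case). -/

namespace BoomNF

open NumberField

set_option linter.unusedSimpArgs false

section field

variable {F : Type*} [Field F] {A : Subring F}

/-- the kernel of `χ`: the `x ∈ SL₂(A)` with `x^h x⁻¹ ∈ E*(N)`, `h = dg l` -/
def p1b_S (A : Subring F) (N l : F) : Subgroup (SL2 F) where
  carrier := {x | x ∈ G A ∧ dg l * x * (dg l)⁻¹ * x⁻¹ ∈ Es A N}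
  mul_mem' := by
    rintro x y ⟨hx, hx'⟩ ⟨hy, hy'⟩
    refine ⟨(G A).mul_mem hx hy, ?_⟩
    have e : dg l * (x * y) * (dg l)⁻¹ * (x * y)⁻¹ =
        (dg l * x * (dg l)⁻¹ * x⁻¹) * (x * (dg l * y * (dg l)⁻¹ * y⁻¹) * x⁻¹) := by group
    rw [e]
    exact (Es A N).mul_mem hx' (Es_conj hx hy')
  one_mem' := by
    refine ⟨(G A).one_mem, ?_⟩
    have e : dg l * (1 : SL2 F) * (dg l)⁻¹ * (1 : SL2 F)⁻¹ = 1 := by group
    rw [e]
    exact (Es A N).one_mem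
  inv_mem' := by
    rintro x ⟨hx, hx'⟩
    refine ⟨(G A).inv_mem hx, ?_⟩
    have e : dg l * x⁻¹ * (dg l)⁻¹ * (x⁻¹)⁻¹ =
        x⁻¹ * (dg l * x * (dg l)⁻¹ * x⁻¹)⁻¹ * (x⁻¹)⁻¹ := by group
    rw [e]
    exact Es_conj ((G A).inv_mem hx) ((Es A N).inv_mem hx')

theorem p1b_mem {N l : F} {x : SL2 F} : x ∈ p1b_S A N l ↔
    x ∈ G A ∧ dg l * x * (dg l)⁻¹ * x⁻¹ ∈ Es A N := Iff.rfl

theorem p1b_of {N l : F} {x : SL2 F} (h : x ∈ G A) (h1 : dg l * x * (dg l)⁻¹ ∈ Es A N)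
    (h2 : x ∈ Es A N) : x ∈ p1b_S A N l :=
  ⟨h, (Es A N).mul_mem h1 ((Es A N).inv_mem h2)⟩

theorem p1b_u {N l : F} (hN : N ∈ A) (hN0 : N ≠ 0) (hl : l ∈ A) (hl0 : l ≠ 0) {s : F}
    (hs : s / N ∈ A) : u s ∈ p1b_S A N l := by
  have hsA : s ∈ A := by
    have : s = N * (s / N) := by field_simp
    rw [this]; exact A.mul_mem hN hs
  refine p1b_of (u_mem_G hsA) ?_ (u_mem_Es hN hN0 hs)
  rw [dg_conj_u hl0]
  apply u_mem_Es hN hN0
  rw [mul_div_assoc]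
  exact A.mul_mem (A.pow_mem hl 2) hs

theorem p1b_v {N l : F} (hN : N ∈ A) (hN0 : N ≠ 0) (hl : l ∈ A) (hl0 : l ≠ 0) {s : F}
    (hs : s / (l ^ 2 * N) ∈ A) : v s ∈ p1b_S A N l := by
  have hsN : s / N ∈ A := by
    have : s / N = l ^ 2 * (s / (l ^ 2 * N)) := by field_simp
    rw [this]; exact A.mul_mem (A.pow_mem hl 2) hs
  have hsA : s ∈ A := by
    have : s = N * (s / N) := by field_simp
    rw [this]; exact A.mul_mem hN hsN
  refine p1b_of (v_mem_G hsA) ?_ (v_mem_Es hN hN0 hsN)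
  rw [dg_conj_v hl0]
  apply v_mem_Es hN hN0
  have : (l ^ 2)⁻¹ * s / N = s / (l ^ 2 * N) := by field_simp
  rw [this]
  exact hs

theorem p1b_mid {N l : F} (hN : N ∈ A) (hN0 : N ≠ 0) (hl : l ∈ A) (hl0 : l ≠ 0) {s : F}
    (hs : s / (l ^ 2 * N) ∈ A) : v (-1) * u s * v 1 ∈ p1b_S A N l := by
  have hsN : s / N ∈ A := by
    have : s / N = l ^ 2 * (s / (l ^ 2 * N)) := by field_simp
    rw [this]; exact A.mul_mem (A.pow_mem hl 2) hs
  have hsA : s ∈ A := by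
    have : s = N * (s / N) := by field_simp
    rw [this]; exact A.mul_mem hN hsN
  have h1 : (-1 : F) ∈ A := A.neg_mem A.one_mem
  refine p1b_of ?_ ?_ ?_
  · exact (G A).mul_mem ((G A).mul_mem (v_mem_G h1) (u_mem_G hsA)) (v_mem_G A.one_mem)
  · apply mem_Es
    · apply mem_GN' hN hN0
      · simp only [mul_app, inv00, inv01, inv10, inv11, dg_00 hl0, dg_01 hl0, dg_10 hl0,
          dg_11 hl0, u_00, u_01, u_10, u_11, v_00, v_01, v_10, v_11]
        have : ((l * ((1 * 1 + 0 * 0) * 1 + (1 * s + 0 * 1) * 1) + 0 * ((-1 * 1 + 1 * 0) * 1 +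
          (-1 * s + 1 * 1) * 1)) * l⁻¹ + (l * ((1 * 1 + 0 * 0) * 0 + (1 * s + 0 * 1) * 1) + 0 *
          ((-1 * 1 + 1 * 0) * 0 + (-1 * s + 1 * 1) * 1)) * -0 - 1) / N = s / N := by
          field_simp; ring
        rw [this]; exact hsN
      · simp only [mul_app, inv00, inv01, inv10, inv11, dg_00 hl0, dg_01 hl0, dg_10 hl0,
          dg_11 hl0, u_00, u_01, u_10, u_11, v_00, v_01, v_10, v_11]
        have : ((l * ((1 * 1 + 0 * 0) * 1 + (1 * s + 0 * 1) * 1) + 0 * ((-1 * 1 + 1 * 0) * 1 +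
          (-1 * s + 1 * 1) * 1)) * -0 + (l * ((1 * 1 + 0 * 0) * 0 + (1 * s + 0 * 1) * 1) + 0 *
          ((-1 * 1 + 1 * 0) * 0 + (-1 * s + 1 * 1) * 1)) * l) / N = l ^ 2 * (s / N) := by
          field_simp; ring
        rw [this]; exact A.mul_mem (A.pow_mem hl 2) hsN
      · simp only [mul_app, inv00, inv01, inv10, inv11, dg_00 hl0, dg_01 hl0, dg_10 hl0,
          dg_11 hl0, u_00, u_01, u_10, u_11, v_00, v_01, v_10, v_11]
        have : ((0 * ((1 * 1 + 0 * 0) * 1 + (1 * s + 0 * 1) * 1) + l⁻¹ * ((-1 * 1 + 1 * 0) * 1 +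
          (-1 * s + 1 * 1) * 1)) * l⁻¹ + (0 * ((1 * 1 + 0 * 0) * 0 + (1 * s + 0 * 1) * 1) + l⁻¹ *
          ((-1 * 1 + 1 * 0) * 0 + (-1 * s + 1 * 1) * 1)) * -0) / N = -(s / (l ^ 2 * N)) := by
          field_simp; ring
        rw [this]; exact A.neg_mem hs
      · simp only [mul_app, inv00, inv01, inv10, inv11, dg_00 hl0, dg_01 hl0, dg_10 hl0,
          dg_11 hl0, u_00, u_01, u_10, u_11, v_00, v_01, v_10, v_11]
        have : ((0 * ((1 * 1 + 0 * 0) * 1 + (1 * s + 0 * 1) * 1) + l⁻¹ * ((-1 * 1 + 1 * 0) * 1 +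
          (-1 * s + 1 * 1) * 1)) * -0 + (0 * ((1 * 1 + 0 * 0) * 0 + (1 * s + 0 * 1) * 1) + l⁻¹ *
          ((-1 * 1 + 1 * 0) * 0 + (-1 * s + 1 * 1) * 1)) * l - 1) / N = -(s / N) := by
          field_simp; ring
        rw [this]; exact A.neg_mem hsN
    · rw [trace_conj]
      simp only [mul_app, u_00, u_01, u_10, u_11, v_00, v_01, v_10, v_11]
      ring
  · apply mem_Es
    · apply mem_GN' hN hN0
      · simp only [mul_app, u_00, u_01, u_10, u_11, v_00, v_01, v_10, v_11]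
        have : ((1 * 1 + 0 * 0) * 1 + (1 * s + 0 * 1) * 1 - 1) / N = s / N := by ring
        rw [this]; exact hsN
      · simp only [mul_app, u_00, u_01, u_10, u_11, v_00, v_01, v_10, v_11]
        have : ((1 * 1 + 0 * 0) * 0 + (1 * s + 0 * 1) * 1) / N = s / N := by ring
        rw [this]; exact hsN
      · simp only [mul_app, u_00, u_01, u_10, u_11, v_00, v_01, v_10, v_11]
        have : ((-1 * 1 + 1 * 0) * 1 + (-1 * s + 1 * 1) * 1) / N = -(s / N) := by ring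
        rw [this]; exact A.neg_mem hsN
      · simp only [mul_app, u_00, u_01, u_10, u_11, v_00, v_01, v_10, v_11]
        have : ((-1 * 1 + 1 * 0) * 0 + (-1 * s + 1 * 1) * 1 - 1) / N = -(s / N) := by ring
        rw [this]; exact A.neg_mem hsN
    · simp only [mul_app, u_00, u_01, u_10, u_11, v_00, v_01, v_10, v_11]
      ring

end field

variable {K : Type*} [Field K] [NumberField K] {A : Subring K}

/-- if `w ∈ Γ(N)`, `w 1 0 ∈ l² N A` and `w 0 0 ≡ 1 mod l² N` then `w` is in the kernel of `χ` -/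
theorem p1b_ker (hA : SRing A) {M₀ : ℕ} {ε : K} (hT : TComm A M₀ ε) {N : ℕ} (hN : 0 < N)
    {l : K} (hl : l ∈ A) (hl0 : l ≠ 0) {w : SL2 K} (hw : w ∈ GN A (N : K))
    (hc : w 1 0 / (l ^ 2 * N) ∈ A) (h00 : (w 0 0 - 1) / (l ^ 2 * N) ∈ A) :
    w ∈ p1b_S A (N : K) l := by
  have hNA : (N : K) ∈ A := natCast_mem A N
  have hN0 : (N : K) ≠ 0 := by exact_mod_cast hN.ne'
  have hm0 : l ^ 2 * (N : K) ≠ 0 := mul_ne_zero (pow_ne_zero 2 hl0) hN0
  have hmA : l ^ 2 * (N : K) ∈ A := A.mul_mem (A.pow_mem hl 2) hNA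
  obtain ⟨L₁, hL₁, hNL₁, hL₁'⟩ := hA.InH_all hT (dg l) N hN
  obtain ⟨n, hn, hn'⟩ := hA.dvd_nat hm0
  set L : K := ((L₁ * n : ℕ) : K) with hLdef
  have hL0 : L ≠ 0 := by
    rw [hLdef]; exact_mod_cast (Nat.mul_pos hL₁ hn).ne'
  have hLA : L ∈ A := natCast_mem A _
  have hL₁0 : (L₁ : K) ≠ 0 := by exact_mod_cast hL₁.ne'
  have hLm : L / (l ^ 2 * N) ∈ A := by
    have : L / (l ^ 2 * N) = (L₁ : K) * ((n : K) / (l ^ 2 * N)) := by
      rw [hLdef]; push_cast; ring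
    rw [this]; exact A.mul_mem (natCast_mem A _) hn'
  have hLL₁ : L / L₁ ∈ A := by
    have : L / L₁ = (n : K) := by
      rw [hLdef]; push_cast; field_simp
    rw [this]; exact natCast_mem A _
  have hLN : L / N ∈ A := by
    obtain ⟨j, rfl⟩ := hNL₁
    have : L / N = ((j * n : ℕ) : K) := by
      rw [hLdef]; push_cast; field_simp
    rw [this]; exact natCast_mem A _
  have hGL : ∀ x ∈ GN A L, x ∈ p1b_S A (N : K) l := fun x hx =>
    ⟨hx.1, (hL₁' x (GN_mono hL₁0 hL0 hLL₁ hx)).2⟩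
  have hwG : w ∈ G A := hw.1
  have hd := det_eq w
  obtain ⟨t, ht, hat0, hcop⟩ := hA.coprime_lift (a := w 0 0) (b := w 0 1 * (l ^ 2 * N)) (M := L)
    (hwG _ _) (A.mul_mem (hwG _ _) hmA) hLA hL0 (by
      refine ⟨w 1 1, hwG _ _, -(w 1 0 / (l ^ 2 * N)), A.neg_mem hc, ?_⟩
      have : w 0 1 * (l ^ 2 * N) * -(w 1 0 / (l ^ 2 * N)) = -(w 0 1 * w 1 0) := by
        field_simp
      rw [this]; linear_combination hd)
  set s : K := l ^ 2 * N * t with hs
  have hsm : s / (l ^ 2 * N) ∈ A := by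
    have : s / (l ^ 2 * N) = t := by rw [hs]; field_simp
    rw [this]; exact ht
  have hvs : v s ∈ p1b_S A (N : K) l := p1b_v hNA hN0 hl hl0 hsm
  set w₁ : SL2 K := w * v s with hw₁
  suffices hmain : w₁ ∈ p1b_S A (N : K) l by
    have : w = w₁ * (v s)⁻¹ := by rw [hw₁]; group
    rw [this]
    exact (p1b_S A (N : K) l).mul_mem hmain ((p1b_S A (N : K) l).inv_mem hvs)
  have e00 : w₁ 0 0 = w 0 0 + w 0 1 * (l ^ 2 * N) * t := by
    rw [hw₁, mul_app, v_00, v_10, hs]; ring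
  have e01 : w₁ 0 1 = w 0 1 := by
    rw [hw₁, mul_app, v_01, v_11]; ring
  have e10 : w₁ 1 0 = w 1 0 + w 1 1 * s := by
    rw [hw₁, mul_app, v_00, v_10]; ring
  have hsN : s / N ∈ A := by
    have : s / N = l ^ 2 * (s / (l ^ 2 * N)) := by field_simp
    rw [this]; exact A.mul_mem (A.pow_mem hl 2) hsm
  have hw₁N : w₁ ∈ GN A (N : K) := (GN A (N : K)).mul_mem hw (v_mem_GN hNA hN0 hsN)
  set a : K := w₁ 0 0 with ha
  have haA : a ∈ A := hw₁N.1 _ _
  have hcopa : Cop A a L := by rw [e00]; exact hcop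
  obtain ⟨a', ha', y', hy', hay⟩ := hcopa
  have haa' : (a * a' - 1) / L ∈ A := by
    have : (a * a' - 1) / L = -y' := by
      rw [div_eq_iff hL0]; linear_combination hay
    rw [this]; exact A.neg_mem hy'
  have ham : (a - 1) / (l ^ 2 * N) ∈ A := by
    have : (a - 1) / (l ^ 2 * N) = (w 0 0 - 1) / (l ^ 2 * N) + w 0 1 * t := by
      rw [e00]; field_simp; ring
    rw [this]; exact A.add_mem h00 (A.mul_mem (hwG _ _) ht)
  have ham' : (1 - a') / (l ^ 2 * N) ∈ A := by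
    have : (1 - a') / (l ^ 2 * N) = (a - 1) / (l ^ 2 * N) * a' -
        (a * a' - 1) / L * (L / (l ^ 2 * N)) := by
      field_simp; ring
    rw [this]; exact A.sub_mem (A.mul_mem ham ha') (A.mul_mem haa' hLm)
  have hz := red_diag hNA hN0 hLA hL0 hLN hw₁N ha' haa'
  have hz' := diag_elem hLA hL0 haA ha' haa'
  simp only at hz hz'
  set z : SL2 K := v (-(w₁ 1 0 * a')) * w₁ * u (-(w₁ 0 1 * a')) with hzdef
  set z' : SL2 K := v (1 - a') * (v (-1) * u (a - 1) * v 1) * u (-((a - 1) * a')) with hzdef'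
  -- membership of the factors
  have hv1 : v (-(w₁ 1 0 * a')) ∈ p1b_S A (N : K) l := by
    apply p1b_v hNA hN0 hl hl0
    have : -(w₁ 1 0 * a') / (l ^ 2 * N) = -((w 1 0 / (l ^ 2 * N) + w 1 1 * t) * a') := by
      rw [e10, hs]; field_simp
    rw [this]
    exact A.neg_mem (A.mul_mem (A.add_mem hc (A.mul_mem (hwG _ _) ht)) ha')
  have hu1 : u (-(w₁ 0 1 * a')) ∈ p1b_S A (N : K) l := by
    apply p1b_u hNA hN0 hl hl0
    have : -(w₁ 0 1 * a') / N = -(w₁ 0 1 / N * a') := by ring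
    rw [this]
    exact A.neg_mem (A.mul_mem hw₁N.2.2.1 ha')
  have hv2 : v (1 - a') ∈ p1b_S A (N : K) l := p1b_v hNA hN0 hl hl0 ham'
  have hmid : v (-1) * u (a - 1) * v 1 ∈ p1b_S A (N : K) l := p1b_mid hNA hN0 hl hl0 ham
  have hu2 : u (-((a - 1) * a')) ∈ p1b_S A (N : K) l := by
    apply p1b_u hNA hN0 hl hl0
    have : -((a - 1) * a') / N = -(l ^ 2 * ((a - 1) / (l ^ 2 * N)) * a') := by
      field_simp
    rw [this]
    exact A.neg_mem (A.mul_mem (A.mul_mem (A.pow_mem hl 2) ham) ha')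
  have hz'S : z' ∈ p1b_S A (N : K) l :=
    (p1b_S A (N : K) l).mul_mem ((p1b_S A (N : K) l).mul_mem hv2 hmid) hu2
  have hz'G : z' ∈ G A := hz'S.1
  have hzG : z ∈ G A := (G A).mul_mem ((G A).mul_mem hv1.1 hw₁N.1) hu1.1
  have hzz : z'⁻¹ * z ∈ GN A L := by
    apply inv_mul_mem_GN hz'G hzG
    intro i j
    fin_cases i <;> fin_cases j
    · change (z 0 0 - z' 0 0) / L ∈ A
      have : (z 0 0 - z' 0 0) / L = (z 0 0 - a) / L - (z' 0 0 - a) / L := by ring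
      rw [this]; exact A.sub_mem hz.1 hz'.1
    · change (z 0 1 - z' 0 1) / L ∈ A
      rw [sub_div]; exact A.sub_mem hz.2.1 hz'.2.1
    · change (z 1 0 - z' 1 0) / L ∈ A
      rw [sub_div]; exact A.sub_mem hz.2.2.1 hz'.2.2.1
    · change (z 1 1 - z' 1 1) / L ∈ A
      have : (z 1 1 - z' 1 1) / L = (z 1 1 - a') / L - (z' 1 1 - a') / L := by ring
      rw [this]; exact A.sub_mem hz.2.2.2 hz'.2.2.2
  have hzS : z ∈ p1b_S A (N : K) l := by
    have : z = z' * (z'⁻¹ * z) := by group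
    rw [this]
    exact (p1b_S A (N : K) l).mul_mem hz'S (hGL _ hzz)
  have hfin : w₁ = (v (-(w₁ 1 0 * a')))⁻¹ * z * (u (-(w₁ 0 1 * a')))⁻¹ := by
    rw [hzdef]; group
  rw [hfin]
  exact (p1b_S A (N : K) l).mul_mem ((p1b_S A (N : K) l).mul_mem
    ((p1b_S A (N : K) l).inv_mem hv1) hzS) ((p1b_S A (N : K) l).inv_mem hu1)

/-- `(s3)` on the level of matrices. For `l ∈ A`, `l ≠ 0`, there is a function `χ` on pairs such that
for `x ∈ Γ(N)` with `x 1 0 ∈ l² N A` the class of `x^h x⁻¹` modulo `E*(N)`, where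
`x^h = dg(l) x dg(l)⁻¹ = [[a, l² b], [c / l², d]] ∈ Γ(N)`, only depends on `x 0 0`:
if `x, x' ∈ Γ(N)`, `x 1 0, x' 1 0 ∈ l² N A` and `x 0 0 = x' 0 0` then
`(x^h x⁻¹) (x'^h x'⁻¹)⁻¹ ∈ E*(N)`.
Proof: all classes are taken in `P = Γ(N) / E*(N)`, commutative by `central`. `χ(x) = [x^h] [x]⁻¹` is a
homomorphism on `G_l = {x ∈ Γ(N) : x 1 0 ∈ l² N A}`. It is trivial on `Γ(L)` for some `L` with
`l² N ∣ L` (`InH_all` for `g = dg l`), on `u(N A)` and on `v(l² N A)`. So it suffices: if `x ∈ G_l`,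
`x 0 0 ≡ 1 mod l² N` then `χ(x) = 1` (apply this to `x' x⁻¹`, which is congruent to an upper triangular
matrix mod `l² N`, so its upper left entry is `≡ 1`). Multiply `x` on the right by `v(l² N t)` to make
`x 0 0` coprime to `L` (`coprime_lift` for `(x 0 0, x 0 1 l² N)`), `a a' ≡ 1 mod L`; by `red_diag` and
`diag_elem`, `x` is congruent mod `L` to a product of elements of `u(N A)`, `v(l² N A)` and
`v(-1) u(a - 1) v(1)`; the latter is a unipotent element of `Γ(l² N)` and so is in the kernel of `χ`: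
both it and its `h`-conjugate are unipotents of `Γ(N)`. -/
theorem SRing.chi (hA : SRing A) {M₀ : ℕ} {ε : K} (hT : TComm A M₀ ε) {N : ℕ} (hN : 0 < N)
    {l : K} (hl : l ∈ A) (hl0 : l ≠ 0) {x x' : SL2 K} (hx : x ∈ GN A (N : K))
    (hx' : x' ∈ GN A (N : K)) (hc : x 1 0 / (l ^ 2 * N) ∈ A) (hc' : x' 1 0 / (l ^ 2 * N) ∈ A)
    (h00 : x 0 0 = x' 0 0) :
    (dg l * x * (dg l)⁻¹ * x⁻¹) * (dg l * x' * (dg l)⁻¹ * x'⁻¹)⁻¹ ∈ Es A (N : K) := by
  have hNA : (N : K) ∈ A := natCast_mem A N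
  have hN0 : (N : K) ≠ 0 := by exact_mod_cast hN.ne'
  have hd := det_eq x
  have hd' := det_eq x'
  set w : SL2 K := x * x'⁻¹ with hwdef
  have hw : w ∈ GN A (N : K) := (GN A (N : K)).mul_mem hx ((GN A (N : K)).inv_mem hx')
  have hwS : w ∈ p1b_S A (N : K) l := by
    apply p1b_ker hA hT hN hl hl0 hw
    · have : w 1 0 / (l ^ 2 * N) = x 1 0 / (l ^ 2 * N) * x' 1 1 -
          x 1 1 * (x' 1 0 / (l ^ 2 * N)) := by
        rw [hwdef, mul_app, inv00, inv10]; ring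
      rw [this]
      exact A.sub_mem (A.mul_mem hc (hx'.1 _ _)) (A.mul_mem (hx.1 _ _) hc')
    · have : (w 0 0 - 1) / (l ^ 2 * N) = (x' 0 1 - x 0 1) * (x' 1 0 / (l ^ 2 * N)) := by
        rw [hwdef, mul_app, inv00, inv10, h00]
        linear_combination (1 / (l ^ 2 * N)) * hd'
      rw [this]
      exact A.mul_mem (A.sub_mem (hx'.1 _ _) (hx.1 _ _)) hc'
  -- q = x'^h x'⁻¹ ∈ Γ(N)
  have hl2N : x' 1 0 / l ^ 2 / N ∈ A := by
    rw [div_div]; exact hc'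
  have hq1 : dg l * x' * (dg l)⁻¹ ∈ GN A (N : K) := by
    apply mem_GN' hNA hN0
    · have : ((dg l * x' * (dg l)⁻¹) 0 0 - 1) / (N : K) = (x' 0 0 - 1) / N := by
        simp only [mul_app, inv00, inv01, inv10, inv11, dg_00 hl0, dg_01 hl0, dg_10 hl0,
          dg_11 hl0]
        field_simp; ring
      rw [this]; exact hx'.2.1
    · have : (dg l * x' * (dg l)⁻¹) 0 1 / (N : K) = l ^ 2 * (x' 0 1 / N) := by
        simp only [mul_app, inv00, inv01, inv10, inv11, dg_00 hl0, dg_01 hl0, dg_10 hl0,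
          dg_11 hl0]
        field_simp; ring
      rw [this]; exact A.mul_mem (A.pow_mem hl 2) hx'.2.2.1
    · have : (dg l * x' * (dg l)⁻¹) 1 0 / (N : K) = x' 1 0 / (l ^ 2 * N) := by
        simp only [mul_app, inv00, inv01, inv10, inv11, dg_00 hl0, dg_01 hl0, dg_10 hl0,
          dg_11 hl0]
        field_simp; ring
      rw [this]; exact hc'
    · have : ((dg l * x' * (dg l)⁻¹) 1 1 - 1) / (N : K) = (x' 1 1 - 1) / N := by
        simp only [mul_app, inv00, inv01, inv10, inv11, dg_00 hl0, dg_01 hl0, dg_10 hl0,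
          dg_11 hl0]
        field_simp; ring
      rw [this]; exact hx'.2.2.2.2
  have hq : dg l * x' * (dg l)⁻¹ * x'⁻¹ ∈ GN A (N : K) :=
    (GN A (N : K)).mul_mem hq1 ((GN A (N : K)).inv_mem hx')
  have hcen := hA.central hT hN hw.1 hq
  have hfin : (dg l * x * (dg l)⁻¹ * x⁻¹) * (dg l * x' * (dg l)⁻¹ * x'⁻¹)⁻¹ =
      (dg l * w * (dg l)⁻¹ * w⁻¹) * (w * (dg l * x' * (dg l)⁻¹ * x'⁻¹) * w⁻¹ *
        (dg l * x' * (dg l)⁻¹ * x'⁻¹)⁻¹) := by
    rw [hwdef]; group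
  rw [hfin]
  exact (Es A (N : K)).mul_mem hwS.2 hcen

end BoomNF
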