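import Pool.Agent.H.MP_4c7af0_al.NF.P1b

/-! Step 4, part e of the paper (MP_4c7af0_al, number field case): the symbol `s(a, b)`. -/

namespace BoomNF

set_option linter.unusedSimpArgs false
set_option linter.style.haveILetI false

open NumberField

variable {K : Type*} [Field K] [NumberField K] {A : Subring K}

section quot

variable {F : Type*} [Field F]

theorem p1_normal (A : Subring F) (N : F) : ((Es A N).subgroupOf (GN A N)).Normal := by
  constructor
  rintro ⟨x, hx⟩ hxE ⟨g, hg⟩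
  rw [Subgroup.mem_subgroupOf] at hxE ⊢
  exact Es_conj hg.1 hxE

/-- the quotient `P = Γ(N) / E*(N)` -/
abbrev P1Q (A : Subring F) (N : F) : Type _ := (GN A N) ⧸ ((Es A N).subgroupOf (GN A N))

/-- the class of an element -/
def p1_mk (A : Subring F) (N : F) (x : SL2 F) (hx : x ∈ GN A N) : P1Q A N :=
  QuotientGroup.mk (⟨x, hx⟩ : GN A N)

theorem p1_mk_eq {A : Subring F} {N : F} {x y : SL2 F} (hx : x ∈ GN A N) (hy : y ∈ GN A N)
    (h : x * y⁻¹ ∈ Es A N) : p1_mk A N x hx = p1_mk A N y hy := by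
  rw [p1_mk, p1_mk, QuotientGroup.eq, Subgroup.mem_subgroupOf]
  have e : (((⟨x, hx⟩ : GN A N)⁻¹ * ⟨y, hy⟩ : GN A N) : SL2 F) = x⁻¹ * (x * y⁻¹)⁻¹ * (x⁻¹)⁻¹ := by
    push_cast
    group
  rw [e]
  exact Es_conj ((G A).inv_mem hx.1) ((Es A N).inv_mem h)

open Classical in
/-- the class of an element of `Γ(N)` with first row `(a, b)` -/
noncomputable def p1_sy (A : Subring F) (N : F) (a b : F) : P1Q A N :=
  if h : ∃ x ∈ GN A N, x 0 0 = a ∧ x 0 1 = b then
    p1_mk A N (Classical.choose h) (Classical.choose_spec h).1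
  else p1_mk A N 1 (GN A N).one_mem

theorem p1_sy_eq {A : Subring F} {N : F} (hN : N ∈ A) (hN0 : N ≠ 0) {x : SL2 F} (hx : x ∈ GN A N)
    {a b : F} (h0 : x 0 0 = a) (h1 : x 0 1 = b) : p1_sy A N a b = p1_mk A N x hx := by
  have h : ∃ x ∈ GN A N, x 0 0 = a ∧ x 0 1 = b := ⟨x, hx, h0, h1⟩
  rw [p1_sy, dif_pos h]
  have hs := Classical.choose_spec h
  refine p1_mk_eq _ _ (same_row hN hN0 hs.1 hx ?_ ?_)
  · rw [hs.2.1, h0]
  · rw [hs.2.2, h1]

theorem p1_adm {A : Subring F} {N : F} {x : SL2 F} (hx : x ∈ GN A N) :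
    Adm A N (x 0 0) (x 0 1) := by
  refine ⟨hx.1 0 0, hx.2.1, hx.2.2.1, x 1 1, hx.1 1 1, - x 1 0, A.neg_mem (hx.1 1 0), ?_⟩
  have := det_eq x
  linear_combination this

theorem p1_cop {A : Subring F} {N a b : F} (hN : N ∈ A) (hN0 : N ≠ 0) (h : Adm A N a b)
    {l : F} (hl : l ∈ A) (hal : Cop A a l) : Cop A a (l ^ 2 * N) := by
  have haN : Cop A a N := by
    refine ⟨1, A.one_mem, -((a - 1) / N), A.neg_mem h.2.1, ?_⟩
    field_simp
    ring
  have h2 : Cop A a (l * l) := hal.mul_right h.1 hl hl hal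
  rw [pow_two]
  exact h2.mul_right h.1 (A.mul_mem hl hl) hN haN

theorem p1_conj {A : Subring F} {N : F} (hN : N ∈ A) (hN0 : N ≠ 0) {l : F} (hl : l ∈ A)
    (hl0 : l ≠ 0) {x : SL2 F} (hx : x ∈ GN A N) (hc : x 1 0 / (l ^ 2 * N) ∈ A) :
    (dg l * x * (dg l)⁻¹ ∈ GN A N) ∧ (dg l * x * (dg l)⁻¹) 0 0 = x 0 0 ∧
      (dg l * x * (dg l)⁻¹) 0 1 = l ^ 2 * x 0 1 := by
  have e0 : (dg l * x * (dg l)⁻¹) 0 0 = x 0 0 := by
    simp only [mul_app, inv00, inv01, inv10, inv11, dg_00 hl0, dg_01 hl0, dg_10 hl0, dg_11 hl0]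
    field_simp
    ring
  have e1 : (dg l * x * (dg l)⁻¹) 0 1 = l ^ 2 * x 0 1 := by
    simp only [mul_app, inv00, inv01, inv10, inv11, dg_00 hl0, dg_01 hl0, dg_10 hl0, dg_11 hl0]
    ring
  have e2 : (dg l * x * (dg l)⁻¹) 1 0 = x 1 0 / l ^ 2 := by
    simp only [mul_app, inv00, inv01, inv10, inv11, dg_00 hl0, dg_01 hl0, dg_10 hl0, dg_11 hl0]
    field_simp
    ring
  have e3 : (dg l * x * (dg l)⁻¹) 1 1 = x 1 1 := by
    simp only [mul_app, inv00, inv01, inv10, inv11, dg_00 hl0, dg_01 hl0, dg_10 hl0, dg_11 hl0]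
    field_simp
    ring
  refine ⟨?_, e0, e1⟩
  apply mem_GN' hN hN0
  · rw [e0]; exact hx.2.1
  · rw [e1, mul_div_assoc]; exact A.mul_mem (A.pow_mem hl 2) hx.2.2.1
  · rw [e2, div_div]; exact hc
  · rw [e3]; exact hx.2.2.2.2

end quot

/-- the group `P = Γ(N) / E*(N)` is commutative -/
@[reducible] noncomputable def p1_comm (hA : SRing A) {M₀ : ℕ} {ε : K} (hT : TComm A M₀ ε) {N : ℕ}
    (hN : 0 < N) : CommGroup (P1Q A (N : K)) :=
  letI := p1_normal A (N : K)
  { (inferInstance : Group (P1Q A (N : K))) with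
    mul_comm := by
      intro a b
      induction a using QuotientGroup.induction_on with
      | H x =>
        induction b using QuotientGroup.induction_on with
        | H y =>
          rw [← QuotientGroup.mk_mul, ← QuotientGroup.mk_mul, QuotientGroup.eq,
            Subgroup.mem_subgroupOf]
          have h := hA.central hT hN (g := (y : SL2 K)⁻¹) ((G A).inv_mem y.2.1)
            (x := (x : SL2 K)⁻¹) ((GN A (N : K)).inv_mem x.2)
          push_cast
          have e : ((x : SL2 K) * y)⁻¹ * (y * x) =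
              (y : SL2 K)⁻¹ * (x : SL2 K)⁻¹ * ((y : SL2 K)⁻¹)⁻¹ * ((x : SL2 K)⁻¹)⁻¹ := by group
          rw [e]; exact h }

universe u in
/-- The symbol. `P = Γ(N) / E*(N)` (commutative by `central`; `Γ(N)` and `E*(N)` are normal subgroups
of `SL₂(A)`), `sy a b` = class of an element of `Γ(N)` with first row `(a, b)`. `s1`: conjugation by
`v(x)` (`central`); `s2`: right multiplication by `u(N x)`; `s3`: `exists_row` with `m = l² N` and
`chi`; `θ a` = class of `x^h x⁻¹` for any such `x`. Finiteness of `P` gives that `E*(N)` has finite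
index in `Γ(N)`. -/
theorem SRing.exists_sym {K : Type u} [Field K] [NumberField K] {A : Subring K} (hA : SRing A)
    {M₀ : ℕ} {ε : K} (hT : TComm A M₀ ε) {N : ℕ} (hN : 0 < N) :
    ∃ (P : Type u) (_ : CommGroup P) (sy : K → K → P), Sym A (N : K) sy ∧
      (Finite P → (Es A (N : K)).relIndex (GN A (N : K)) ≠ 0) := by
  letI := p1_normal A (N : K)
  have hNA : (N : K) ∈ A := natCast_mem A N
  have hN0 : (N : K) ≠ 0 := by exact_mod_cast hN.ne'
  have hone : (1 : SL2 K) ∈ GN A (N : K) := (GN A (N : K)).one_mem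
  have mk_mul : ∀ (x y : SL2 K) (hx : x ∈ GN A (N : K)) (hy : y ∈ GN A (N : K)),
      p1_mk A (N : K) (x * y) ((GN A (N : K)).mul_mem hx hy)
        = p1_mk A (N : K) x hx * p1_mk A (N : K) y hy := by
    intro x y hx hy
    rfl
  letI inst := p1_comm hA hT hN
  refine ⟨P1Q A (N : K), inst, p1_sy A (N : K), ?_, ?_⟩
  refine Sym.mk ?_ ?_ ?_ ?_ ?_
  · -- s0
    intro b hb
    rw [p1_sy_eq hNA hN0 (u_mem_GN hNA hN0 hb) (u_00 b) (u_01 b)]
    change _ = p1_mk A (N : K) 1 hone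
    apply p1_mk_eq
    rw [inv_one, mul_one]
    exact u_mem_Es hNA hN0 hb
  · -- s1
    intro a b x h hx
    obtain ⟨y, hy, h0, h1, -⟩ := exists_row hNA hN0 (m := (N : K)) (by rw [div_self hN0]; exact A.one_mem)
      h (by
        have := p1_cop hNA hN0 h A.one_mem ⟨0, A.zero_mem, 1, A.one_mem, by ring⟩
        simpa using this)
    have hv : (v x)⁻¹ ∈ G A := (G A).inv_mem (v_mem_G hx)
    have hy' : (v x)⁻¹ * y * ((v x)⁻¹)⁻¹ ∈ GN A (N : K) := GN_conj hv hy
    rw [p1_sy_eq hNA hN0 hy h0 h1]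
    rw [p1_sy_eq hNA hN0 hy' (a := a + b * x) (b := b)]
    · exact p1_mk_eq _ _ (hA.central hT hN hv hy)
    · rw [inv_inv, v_inv]
      simp only [mul_app, v_00, v_01, v_10, v_11, h0, h1]
      ring
    · rw [inv_inv, v_inv]
      simp only [mul_app, v_00, v_01, v_10, v_11, h0, h1]
      ring
  · -- s2
    intro a b x h hx
    obtain ⟨y, hy, h0, h1, -⟩ := exists_row hNA hN0 (m := (N : K)) (by rw [div_self hN0]; exact A.one_mem)
      h (by
        have := p1_cop hNA hN0 h A.one_mem ⟨0, A.zero_mem, 1, A.one_mem, by ring⟩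
        simpa using this)
    have hxN : (N : K) * x / N ∈ A := by rw [mul_div_cancel_left₀ _ hN0]; exact hx
    have hu : u ((N : K) * x) ∈ GN A (N : K) := u_mem_GN hNA hN0 hxN
    have hy' : y * u ((N : K) * x) ∈ GN A (N : K) := (GN A (N : K)).mul_mem hy hu
    rw [p1_sy_eq hNA hN0 hy h0 h1]
    rw [p1_sy_eq hNA hN0 hy' (a := a) (b := b + a * N * x)]
    · apply p1_mk_eq
      exact Es_conj hy.1 (u_mem_Es hNA hN0 hxN)
    · simp only [mul_app, u_00, u_01, u_10, u_11, h0, h1]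
      ring
    · simp only [mul_app, u_00, u_01, u_10, u_11, h0, h1]
      ring
  · -- s3
    intro l hl hl0
    classical
    let θ : K → P1Q A (N : K) := fun a =>
      if h : ∃ x, ∃ hx : x ∈ GN A (N : K), ∃ hc : x 1 0 / (l ^ 2 * N) ∈ A, x 0 0 = a then
        p1_mk A (N : K) (dg l * Classical.choose h * (dg l)⁻¹ * (Classical.choose h)⁻¹)
          ((GN A (N : K)).mul_mem (p1_conj hNA hN0 hl hl0 (Classical.choose_spec h).choose
            (Classical.choose_spec h).choose_spec.choose).1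
              ((GN A (N : K)).inv_mem (Classical.choose_spec h).choose))
      else p1_mk A (N : K) 1 hone
    refine ⟨θ, ?_⟩
    intro a b hab hal
    have hm : (l ^ 2 * N : K) / N ∈ A := by
      rw [mul_div_cancel_right₀ _ hN0]; exact A.pow_mem hl 2
    obtain ⟨y, hy, h0, h1, z, hz, hyz⟩ := exists_row hNA hN0 (m := (l ^ 2 * N : K)) hm hab
      (p1_cop hNA hN0 hab hl hal)
    have hmne : (l ^ 2 * N : K) ≠ 0 := mul_ne_zero (pow_ne_zero 2 hl0) hN0
    have hc : y 1 0 / (l ^ 2 * N) ∈ A := by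
      rw [hyz, mul_div_cancel_left₀ _ hmne]; exact hz
    obtain ⟨hcy, c0, c1⟩ := p1_conj hNA hN0 hl hl0 hy hc
    have hex : ∃ x, ∃ hx : x ∈ GN A (N : K), ∃ hc : x 1 0 / (l ^ 2 * N) ∈ A, x 0 0 = a :=
      ⟨y, hy, hc, h0⟩
    have hθ : θ a = p1_mk A (N : K) (dg l * y * (dg l)⁻¹ * y⁻¹)
        ((GN A (N : K)).mul_mem hcy ((GN A (N : K)).inv_mem hy)) := by
      simp only [θ]
      rw [dif_pos hex]
      apply p1_mk_eq
      exact hA.chi hT hN hl hl0 (Classical.choose_spec hex).choose hy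
        (Classical.choose_spec hex).choose_spec.choose hc
        ((Classical.choose_spec hex).choose_spec.choose_spec.trans h0.symm)
    rw [p1_sy_eq hNA hN0 hy h0 h1, p1_sy_eq hNA hN0 hcy (a := a) (b := l ^ 2 * b) (c0.trans h0)
      (by rw [c1, h1]), hθ]
    letI := p1_comm hA hT hN
    rw [mul_comm]
    change _ = p1_mk A (N : K) _ _ * p1_mk A (N : K) _ _
    rw [← mk_mul]
    congr 1
    group
  · -- surj
    intro z
    induction z using QuotientGroup.induction_on with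
    | H x =>
      refine ⟨(x : SL2 K) 0 0, (x : SL2 K) 0 1, p1_adm x.2, ?_⟩
      exact p1_sy_eq hNA hN0 x.2 rfl rfl
  · intro hfin
    rw [Subgroup.relIndex]
    exact (Subgroup.finiteIndex_of_finite_quotient (H := (Es A (N : K)).subgroupOf
      (GN A (N : K)))).index_ne_zero

end BoomNF
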