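import Mathlib

/-! Finite abelian groups (MP_4c7af0_al, number field case). -/

namespace BoomNF

/-- the `k`-torsion of a finite abelian group has as many elements as the quotient by the `k`-th
powers -/
theorem p2b_card {B : Type*} [CommGroup B] [Finite B] (k : ℕ) :
    Nat.card (B ⧸ (powMonoidHom k : B →* B).range) = Nat.card {b : B // b ^ k = 1} := by
  have h1 : Nat.card (B ⧸ (powMonoidHom k : B →* B).range) *
      Nat.card (powMonoidHom k : B →* B).range = Nat.card B :=
    (Subgroup.card_eq_card_quotient_mul_card_subgroup _).symm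
  have h2 : Nat.card (B ⧸ (powMonoidHom k : B →* B).ker) *
      Nat.card (powMonoidHom k : B →* B).ker = Nat.card B :=
    (Subgroup.card_eq_card_quotient_mul_card_subgroup _).symm
  have h3 : Nat.card (B ⧸ (powMonoidHom k : B →* B).ker) =
      Nat.card (powMonoidHom k : B →* B).range :=
    Nat.card_congr (QuotientGroup.quotientKerEquivRange (powMonoidHom k : B →* B)).toEquiv
  have h4 : Nat.card (powMonoidHom k : B →* B).ker = Nat.card {b : B // b ^ k = 1} := by
    refine Nat.card_congr (Equiv.subtypeEquivRight fun b => ?_)
    rw [MonoidHom.mem_ker]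
    rfl
  have h5 : 0 < Nat.card (powMonoidHom k : B →* B).range := Nat.card_pos
  rw [← h4]
  rw [h3, mul_comm] at h2
  exact Nat.eq_of_mul_eq_mul_right h5 (h1.trans h2.symm)

/-- finite abelian groups: the `k`-torsion of a quotient of a finite abelian group `B` has at most as
many elements as the `k`-torsion of `B` (`|C[k]| = |C / k C| ≤ |B / k B| = |B[k]|`) -/
theorem card_tors_quot {B C : Type*} [CommGroup B] [CommGroup C] [Finite B] (φ : B →* C)
    (hφ : Function.Surjective φ) (k : ℕ) :
    Nat.card {c : C // c ^ k = 1} ≤ Nat.card {b : B // b ^ k = 1} := by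
  have : Finite C := Finite.of_surjective φ hφ
  rw [← p2b_card (B := C) k, ← p2b_card (B := B) k]
  have hle : (powMonoidHom k : B →* B).range ≤ ((powMonoidHom k : C →* C).range).comap φ := by
    rintro _ ⟨b, rfl⟩
    refine ⟨φ b, ?_⟩
    simp
  refine Nat.card_le_card_of_surjective
    (QuotientGroup.map (powMonoidHom k : B →* B).range (powMonoidHom k : C →* C).range φ hle) ?_
  intro c
  induction c using QuotientGroup.induction_on with
  | H c =>
    obtain ⟨b, rfl⟩ := hφ c
    exact ⟨(b : B ⧸ (powMonoidHom k : B →* B).range), rfl⟩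

/-- in a finite abelian group the squares have index `|B[2]|` -/
theorem card_quot_sq {B : Type*} [CommGroup B] [Finite B] :
    Nat.card (B ⧸ (powMonoidHom 2 : B →* B).range) = Nat.card {b : B // b ^ 2 = 1} :=
  p2b_card 2

end BoomNF
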