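import Pool.Agent.H.MP_4c7af0_al.NF.Fin

/-! Groups commensurable up to finite kernels with `SL₂(A)` (MP_4c7af0_al, number field case). -/

namespace BoomNF

open NumberField
open scoped Pointwise

theorem abs_finite_of_ker {G₁ G₂ : Type*} [Group G₁] [Group G₂] (f : G₁ →* G₂)
    (h : Finite f.ker) (h' : Finite f.range) : Finite G₁ := by
  have e := QuotientGroup.quotientKerEquivRange f
  have : Finite (G₁ ⧸ f.ker) := Finite.of_equiv _ e.symm.toEquiv
  exact Finite.of_subgroup_quotient f.ker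

theorem abs_relIndex_sup {Γ : Type*} [Group Γ] (D N : Subgroup Γ) [N.Normal] (hN : Finite N) :
    D.relIndex (D ⊔ N) ≠ 0 := by
  have hfin : Finite ((D ⊔ N : Subgroup Γ) ⧸ D.subgroupOf (D ⊔ N)) := by
    have hsurj : Function.Surjective (fun n : N =>
        (QuotientGroup.mk (⟨(n : Γ), (le_sup_right : N ≤ D ⊔ N) n.2⟩ : (D ⊔ N : Subgroup Γ)) :
          (D ⊔ N : Subgroup Γ) ⧸ D.subgroupOf (D ⊔ N))) := by
      intro q
      obtain ⟨⟨x, hx⟩, rfl⟩ := QuotientGroup.mk_surjective q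
      have hx' : x ∈ (N ⊔ D : Subgroup Γ) := by rwa [sup_comm]
      have hx'' : x ∈ ((N : Set Γ) * (D : Set Γ)) := by
        rw [← Subgroup.normal_mul]; exact hx'
      obtain ⟨n, hn, d, hd, rfl⟩ := hx''
      refine ⟨⟨n, hn⟩, ?_⟩
      apply QuotientGroup.eq.2
      rw [Subgroup.mem_subgroupOf]
      change n⁻¹ * (n * d) ∈ D
      rw [inv_mul_cancel_left]; exact hd
    exact Finite.of_surjective _ hsurj
  rw [Subgroup.relIndex]
  exact Subgroup.index_ne_zero_of_finite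

variable {K : Type*} [Field K] [NumberField K] {A : Subring K}

theorem abs_pm_one {δ : SL2 K} (h01 : δ 0 1 = 0) (h10 : δ 1 0 = 0) (h00 : δ 0 0 = δ 1 1) :
    δ = 1 ∨ δ = -1 := by
  have hd := det_eq δ
  rw [h01, ← h00] at hd
  have : (δ 0 0 - 1) * (δ 0 0 + 1) = 0 := by linear_combination hd
  rcases mul_eq_zero.1 this with h | h
  · left
    apply ext4
    · rw [one_app, if_pos rfl]; linear_combination h
    · rw [one_app, if_neg (by decide)]; exact h01
    · rw [one_app, if_neg (by decide)]; exact h10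
    · rw [one_app, if_pos rfl, ← h00]; linear_combination h
  · right
    have e : ∀ i j : Fin 2, (-1 : SL2 K) i j = - ((1 : SL2 K) i j) := by
      intro i j; simp
    apply ext4
    · rw [e, one_app, if_pos rfl]; linear_combination h
    · rw [e, one_app, if_neg (by decide)]; simpa using h01
    · rw [e, one_app, if_neg (by decide)]; simpa using h10
    · rw [e, one_app, if_pos rfl, ← h00]; linear_combination h

/-- a finite subgroup with recurrence under a group commensurable with `SL₂(A)` is in `{1, -1}` -/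
theorem abs_central {Γ' D₁ : Subgroup (SL2 K)} (h₂ : Γ'.relIndex (G A) ≠ 0) (hfin : Finite D₁)
    (hrec : ∀ γ ∈ Γ', ∀ δ ∈ D₁, ∀ n₀ : ℕ, ∃ n ≥ n₀, γ ^ n * δ * (γ ^ n)⁻¹ ∈ D₁) :
    ∀ δ ∈ D₁, δ = 1 ∨ δ = -1 := by
  have hcomm : ∀ γ ∈ Γ', ∀ δ ∈ D₁, ∃ k : ℕ, 0 < k ∧ γ ^ k * δ = δ * γ ^ k := by
    intro γ hγ δ hδ
    have hinf : Set.Infinite {n : ℕ | γ ^ n * δ * (γ ^ n)⁻¹ ∈ D₁} := by
      apply Set.infinite_of_forall_exists_gt
      intro n₀
      obtain ⟨n, hn, h⟩ := hrec γ hγ δ hδ (n₀ + 1)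
      exact ⟨n, h, by omega⟩
    have := hinf.to_subtype
    obtain ⟨x, y, hxy, hf⟩ := Finite.exists_ne_map_eq_of_infinite
      (fun n : {n : ℕ | γ ^ n * δ * (γ ^ n)⁻¹ ∈ D₁} =>
        (⟨γ ^ (n : ℕ) * δ * (γ ^ (n : ℕ))⁻¹, n.2⟩ : D₁))
    have hf' : γ ^ (x : ℕ) * δ * (γ ^ (x : ℕ))⁻¹ = γ ^ (y : ℕ) * δ * (γ ^ (y : ℕ))⁻¹ :=
      congrArg (fun z : D₁ => (z : SL2 K)) hf
    have aux : ∀ a b : ℕ, a < b → γ ^ a * δ * (γ ^ a)⁻¹ = γ ^ b * δ * (γ ^ b)⁻¹ →
        ∃ k : ℕ, 0 < k ∧ γ ^ k * δ = δ * γ ^ k := by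
      intro a b hab h
      refine ⟨b - a, by omega, ?_⟩
      have hb : γ ^ b = γ ^ a * γ ^ (b - a) := by rw [← pow_add]; congr 1; omega
      rw [hb] at h
      have h8 : (γ ^ a)⁻¹ * (γ ^ a * δ * (γ ^ a)⁻¹) * (γ ^ a * γ ^ (b - a))
          = (γ ^ a)⁻¹ * (γ ^ a * γ ^ (b - a) * δ * (γ ^ a * γ ^ (b - a))⁻¹) *
            (γ ^ a * γ ^ (b - a)) := by
        rw [h]
      have h9 : (γ ^ a)⁻¹ * (γ ^ a * δ * (γ ^ a)⁻¹) * (γ ^ a * γ ^ (b - a)) = δ * γ ^ (b - a) := by
        group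
      have h10 : (γ ^ a)⁻¹ * (γ ^ a * γ ^ (b - a) * δ * (γ ^ a * γ ^ (b - a))⁻¹) *
          (γ ^ a * γ ^ (b - a)) = γ ^ (b - a) * δ := by group
      rw [h9, h10] at h8
      exact h8.symm
    rcases lt_or_gt_of_ne (fun h => hxy (Subtype.ext h) : (x : ℕ) ≠ y) with h | h
    · exact aux _ _ h hf'
    · exact aux _ _ h hf'.symm
  obtain ⟨j₁, hj₁, hu⟩ := exists_pow_mem h₂ (u_mem_G (A := A) A.one_mem)
  obtain ⟨j₂, hj₂, hv⟩ := exists_pow_mem h₂ (v_mem_G (A := A) A.one_mem)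
  intro δ hδ₁
  obtain ⟨k₁, hk₁, hc₁⟩ := hcomm _ hu _ hδ₁
  obtain ⟨k₂, hk₂, hc₂⟩ := hcomm _ hv _ hδ₁
  rw [← pow_mul, u_pow, mul_one] at hc₁
  rw [← pow_mul, v_pow, mul_one] at hc₂
  have hj : ((j₁ * k₁ : ℕ) : K) ≠ 0 := by
    have : 0 < j₁ * k₁ := Nat.mul_pos hj₁ hk₁
    exact_mod_cast this.ne'
  have hj' : ((j₂ * k₂ : ℕ) : K) ≠ 0 := by
    have : 0 < j₂ * k₂ := Nat.mul_pos hj₂ hk₂
    exact_mod_cast this.ne'
  have e1 := congrArg (fun z : SL2 K => z 0 0) hc₁
  have e2 := congrArg (fun z : SL2 K => z 0 0) hc₂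
  have e3 := congrArg (fun z : SL2 K => z 0 1) hc₁
  simp only [mul_app, u_00, u_01, u_10, u_11, v_00, v_01, v_10, v_11] at e1 e2 e3
  have h10 : δ 1 0 = 0 := by
    have : ((j₁ * k₁ : ℕ) : K) * δ 1 0 = 0 := by linear_combination e1
    exact (mul_eq_zero.1 this).resolve_left hj
  have h01 : δ 0 1 = 0 := by
    have : ((j₂ * k₂ : ℕ) : K) * δ 0 1 = 0 := by linear_combination -e2
    exact (mul_eq_zero.1 this).resolve_left hj'
  have h00 : δ 0 0 = δ 1 1 := by
    have : ((j₁ * k₁ : ℕ) : K) * (δ 0 0 - δ 1 1) = 0 := by linear_combination -e3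
    have := (mul_eq_zero.1 this).resolve_left hj
    exact sub_eq_zero.1 this
  exact abs_pm_one h01 h10 h00

/-- Let `Γ` be a group, `H ≤ Γ` a subgroup of finite index and `φ : H → SL₂(K)` a homomorphism with
finite kernel and image commensurable with `SL₂(A)`. Every boomerang subgroup `D` of `Γ` has finite
index or is finite with `φ(D ∩ H) ⊆ {1, -1}`. -/
theorem SRing.main_abs (hA : SRing A) {e : K} (hE : InfUnit A e) {Γ : Type*} [Group Γ]
    (H : Subgroup Γ) (hH : H.FiniteIndex) (φ : H →* SL2 K) (hφ : Finite φ.ker)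
    (h₁ : (G A).relIndex φ.range ≠ 0) (h₂ : φ.range.relIndex (G A) ≠ 0) (D : Subgroup Γ)
    (hD : Boom4c.IsBoomerang D) :
    D.FiniteIndex ∨ (Finite D ∧ ∀ h : H, (h : Γ) ∈ D → φ h = 1 ∨ φ h = -1) := by
  classical
  set D' : Subgroup H := D.subgroupOf H with hD'
  set D₁ : Subgroup (SL2 K) := D'.map φ with hD₁
  have hD₁r : D₁ ≤ φ.range := by
    rw [hD₁]; exact Subgroup.map_le_range φ D'
  have hrec₁ : ∀ γ ∈ φ.range, ∀ δ ∈ D₁, ∀ n₀ : ℕ, ∃ n ≥ n₀, γ ^ n * δ * (γ ^ n)⁻¹ ∈ D₁ := by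
    rintro γ ⟨h, hh⟩ δ ⟨d, hd, hdδ⟩ n₀
    have hd' : (d : Γ) ∈ D := by
      have := hd
      rwa [hD', SetLike.mem_coe, Subgroup.mem_subgroupOf] at this
    obtain ⟨n, hn, hmem⟩ := hD.rec (h : Γ) hd' n₀
    refine ⟨n, hn, h ^ n * d * (h ^ n)⁻¹, ?_, ?_⟩
    · rw [hD', SetLike.mem_coe, Subgroup.mem_subgroupOf]
      simpa using hmem
    · rw [map_mul, map_mul, map_inv, map_pow, hh, hdδ]
  have hrec₂ : Rec (G A) (D₁ ⊓ G A) := by
    intro γ hγ δ hδ n₀
    obtain ⟨j, hj, hjr⟩ := exists_pow_mem h₂ hγ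
    obtain ⟨n, hn, hmem⟩ := hrec₁ _ hjr δ hδ.1 n₀
    refine ⟨j * n, hn.le.trans (Nat.le_mul_of_pos_left n hj), ?_⟩
    rw [pow_mul]
    exact ⟨hmem, (G A).mul_mem ((G A).mul_mem ((G A).pow_mem ((G A).pow_mem hγ _) _) hδ.2)
      ((G A).inv_mem ((G A).pow_mem ((G A).pow_mem hγ _) _))⟩
  by_cases hnc : NonCentral (D₁ ⊓ G A)
  · left
    have h3 := hA.main_G hE inf_le_right hrec₂ hnc
    have h4 : (D₁ ⊓ G A).relIndex φ.range ≠ 0 := Subgroup.relIndex_ne_zero_trans h3 h₁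
    have h5 : D₁.relIndex φ.range ≠ 0 := by
      intro h0
      exact h4 (Nat.eq_zero_of_zero_dvd (h0 ▸ Subgroup.relIndex_dvd_of_le_left _ inf_le_left))
    have h6 : (D₁.comap φ).index ≠ 0 := by rw [Subgroup.index_comap]; exact h5
    rw [hD₁, Subgroup.comap_map_eq] at h6
    have h7 : D'.relIndex (D' ⊔ φ.ker) ≠ 0 := abs_relIndex_sup D' φ.ker hφ
    have h8 : D'.index ≠ 0 := by
      have := Subgroup.relIndex_mul_index (H := D') (K := D' ⊔ φ.ker) le_sup_left
      rw [← this]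
      exact Nat.mul_ne_zero h7 h6
    have h9 : (D ⊓ H).index ≠ 0 := by
      have e1 : (D ⊓ H).relIndex H = D'.index := by
        rw [Subgroup.inf_relIndex_right]; rfl
      have e2 := Subgroup.relIndex_mul_index (H := D ⊓ H) (K := H) inf_le_right
      rw [← e2, e1]
      exact Nat.mul_ne_zero h8 hH.index_ne_zero
    refine ⟨?_⟩
    intro h0
    exact h9 (Nat.eq_zero_of_zero_dvd (h0 ▸ Subgroup.index_dvd_of_le inf_le_left))
  · right
    have hpm : ∀ δ ∈ D₁ ⊓ G A, δ = 1 ∨ δ = -1 := by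
      intro δ hδ
      by_contra hcon
      apply hnc
      refine ⟨δ, hδ, ?_⟩
      rintro ⟨h01, h10, h00⟩
      exact hcon (abs_pm_one h01 h10 h00)
    have hfinD₁ : Finite D₁ := by
      have h7 : (G A).relIndex D₁ ≠ 0 := fun h => h₁ (Subgroup.relIndex_eq_zero_of_le_right hD₁r h)
      have hfi : ((G A).subgroupOf D₁).FiniteIndex := ⟨h7⟩
      have hsub : Finite ((G A).subgroupOf D₁) := by
        have hfin2 : Set.Finite ({1, -1} : Set (SL2 K)) := by simp
        have := hfin2.to_subtype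
        refine Finite.of_injective (fun x : (G A).subgroupOf D₁ =>
          (⟨((x : D₁) : SL2 K), ?_⟩ : ({1, -1} : Set (SL2 K)))) ?_
        · have := hpm ((x : D₁) : SL2 K) ⟨(x : D₁).2, x.2⟩
          simpa using this
        · intro x y hxy
          apply Subtype.ext
          apply Subtype.ext
          exact congrArg (fun z : ({1, -1} : Set (SL2 K)) => (z : SL2 K)) hxy
      exact Finite.of_subgroup_quotient ((G A).subgroupOf D₁)
    -- `D'` is finite
    have hfinD' : Finite D' := by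
      apply abs_finite_of_ker (φ.comp D'.subtype)
      · refine Finite.of_injective (fun x : (φ.comp D'.subtype).ker =>
          (⟨((x : D') : H), ?_⟩ : φ.ker)) ?_
        · rw [MonoidHom.mem_ker]
          have := x.2
          rw [MonoidHom.mem_ker] at this
          exact this
        · intro x y hxy
          apply Subtype.ext
          apply Subtype.ext
          exact congrArg (fun z : φ.ker => (z : H)) hxy
      · have hr : (φ.comp D'.subtype).range = D₁ := by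
          rw [MonoidHom.range_comp, hD₁, Subgroup.range_subtype]
        rw [hr]; exact hfinD₁
    have hsub : Finite (H.subgroupOf D) := by
      refine Finite.of_injective (fun x : H.subgroupOf D =>
        (⟨⟨((x : D) : Γ), ?_⟩, ?_⟩ : D')) ?_
      · have := x.2
        rwa [Subgroup.mem_subgroupOf] at this
      · rw [hD', Subgroup.mem_subgroupOf]; exact (x : D).2
      · intro x y hxy
        apply Subtype.ext
        apply Subtype.ext
        have := congrArg (fun z : D' => ((z : H) : Γ)) hxy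
        exact this
    have hfi : (H.subgroupOf D).FiniteIndex := inferInstance
    refine ⟨Finite.of_subgroup_quotient (H.subgroupOf D), ?_⟩
    intro h hh
    apply abs_central h₂ hfinD₁ hrec₁
    exact ⟨h, by rw [hD', SetLike.mem_coe, Subgroup.mem_subgroupOf]; exact hh, rfl⟩

end BoomNF
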