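import Mathlib

/-! Matrices over a field `F` with entries in a subring `A` (MP_4c7af0_al, number field case). -/

namespace BoomNF

open Matrix

set_option linter.unusedSimpArgs false

/-- `SL₂(F)` -/
abbrev SL2 (F : Type*) [Field F] := Matrix.SpecialLinearGroup (Fin 2) F

variable {F : Type*} [Field F]

theorem mul_app (a b : SL2 F) (i j : Fin 2) : (a * b) i j = a i 0 * b 0 j + a i 1 * b 1 j := by
  simp [Matrix.mul_apply]

theorem one_app (i j : Fin 2) : (1 : SL2 F) i j = if i = j then 1 else 0 := by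
  simp [Matrix.one_apply]

theorem inv00 (a : SL2 F) : (a⁻¹) 0 0 = a 1 1 := by
  simp [Matrix.adjugate_fin_two]

theorem inv01 (a : SL2 F) : (a⁻¹) 0 1 = - a 0 1 := by
  simp [Matrix.adjugate_fin_two]

theorem inv10 (a : SL2 F) : (a⁻¹) 1 0 = - a 1 0 := by
  simp [Matrix.adjugate_fin_two]

theorem inv11 (a : SL2 F) : (a⁻¹) 1 1 = a 0 0 := by
  simp [Matrix.adjugate_fin_two]

theorem det_eq (a : SL2 F) : a 0 0 * a 1 1 - a 0 1 * a 1 0 = 1 := by
  have := a.2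
  rwa [Matrix.det_fin_two] at this

theorem ext4 {a b : SL2 F} (h00 : a 0 0 = b 0 0) (h01 : a 0 1 = b 0 1) (h10 : a 1 0 = b 1 0)
    (h11 : a 1 1 = b 1 1) : a = b := by
  ext i j
  fin_cases i <;> fin_cases j
  · exact h00
  · exact h01
  · exact h10
  · exact h11

/-- build an element of `SL₂(F)` from its entries -/
def mk4 (a b c d : F) (h : a * d - b * c = 1) : SL2 F :=
  ⟨!![a, b; c, d], by rw [Matrix.det_fin_two]; simpa using h⟩

@[simp] theorem mk4_00 (a b c d : F) (h) : mk4 a b c d h 0 0 = a := rfl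
@[simp] theorem mk4_01 (a b c d : F) (h) : mk4 a b c d h 0 1 = b := rfl
@[simp] theorem mk4_10 (a b c d : F) (h) : mk4 a b c d h 1 0 = c := rfl
@[simp] theorem mk4_11 (a b c d : F) (h) : mk4 a b c d h 1 1 = d := rfl

/-- upper unipotent -/
def u (x : F) : SL2 F := mk4 1 x 0 1 (by ring)

/-- lower unipotent -/
def v (x : F) : SL2 F := mk4 1 0 x 1 (by ring)

@[simp] theorem u_00 (x : F) : u x 0 0 = 1 := rfl
@[simp] theorem u_01 (x : F) : u x 0 1 = x := rfl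
@[simp] theorem u_10 (x : F) : u x 1 0 = 0 := rfl
@[simp] theorem u_11 (x : F) : u x 1 1 = 1 := rfl
@[simp] theorem v_00 (x : F) : v x 0 0 = 1 := rfl
@[simp] theorem v_01 (x : F) : v x 0 1 = 0 := rfl
@[simp] theorem v_10 (x : F) : v x 1 0 = x := rfl
@[simp] theorem v_11 (x : F) : v x 1 1 = 1 := rfl

open Classical in
/-- diagonal matrix `diag(e, 1/e)`; for `e = 0` it is `1` (junk). -/
noncomputable def dg (e : F) : SL2 F :=
  if h : e = 0 then 1 else mk4 e 0 0 e⁻¹ (by rw [mul_inv_cancel₀ h]; ring)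

theorem dg_00 {e : F} (h : e ≠ 0) : dg e 0 0 = e := by simp [dg, h]
theorem dg_01 {e : F} (h : e ≠ 0) : dg e 0 1 = 0 := by simp [dg, h]
theorem dg_10 {e : F} (h : e ≠ 0) : dg e 1 0 = 0 := by simp [dg, h]
theorem dg_11 {e : F} (h : e ≠ 0) : dg e 1 1 = e⁻¹ := by simp [dg, h]

/-- `G A = SL₂(A)`. -/
def G (A : Subring F) : Subgroup (SL2 F) where
  carrier := {g | ∀ i j, g i j ∈ A}
  mul_mem' := by
    intro a b ha hb i j
    rw [mul_app]
    exact A.add_mem (A.mul_mem (ha _ _) (hb _ _)) (A.mul_mem (ha _ _) (hb _ _))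
  one_mem' := by
    intro i j
    rw [one_app]
    split_ifs
    · exact A.one_mem
    · exact A.zero_mem
  inv_mem' := by
    intro a ha i j
    fin_cases i <;> fin_cases j
    · change (a⁻¹) 0 0 ∈ A
      rw [inv00]; exact ha _ _
    · change (a⁻¹) 0 1 ∈ A
      rw [inv01]; exact A.neg_mem (ha _ _)
    · change (a⁻¹) 1 0 ∈ A
      rw [inv10]; exact A.neg_mem (ha _ _)
    · change (a⁻¹) 1 1 ∈ A
      rw [inv11]; exact ha _ _

variable {A : Subring F}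

theorem mem_G {g : SL2 F} : g ∈ G A ↔ ∀ i j, g i j ∈ A := Iff.rfl

theorem mem_G4 {g : SL2 F} (h00 : g 0 0 ∈ A) (h01 : g 0 1 ∈ A) (h10 : g 1 0 ∈ A)
    (h11 : g 1 1 ∈ A) : g ∈ G A := by
  intro i j
  fin_cases i <;> fin_cases j
  · exact h00
  · exact h01
  · exact h10
  · exact h11

/-- principal congruence subgroup: `g = 1 + N X` with `X` a matrix over `A` (to be used for
`N ∈ A`, `N ≠ 0`; divisibility by `N` in `A` is expressed by division in `F`). Outside of this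
range the definition is completed by the condition `g ∈ SL₂(A)`. -/
def GN (A : Subring F) (N : F) : Subgroup (SL2 F) where
  carrier := {g | g ∈ G A ∧ ((g 0 0 - 1) / N ∈ A ∧ g 0 1 / N ∈ A ∧ g 1 0 / N ∈ A ∧
    (g 1 1 - 1) / N ∈ A)}
  mul_mem' := by
    rintro a b ⟨ha, a0, a1, a2, a3⟩ ⟨hb, b0, b1, b2, b3⟩
    refine ⟨(G A).mul_mem ha hb, ?_⟩
    refine ⟨?_, ?_, ?_, ?_⟩
    · have : ((a * b) 0 0 - 1) / N = (a 0 0 - 1) / N * b 0 0
          + (b 0 0 - 1) / N + a 0 1 / N * b 1 0 := by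
        rw [mul_app]; ring
      rw [this]
      exact A.add_mem (A.add_mem (A.mul_mem a0 (hb _ _)) b0) (A.mul_mem a1 (hb _ _))
    · have : (a * b) 0 1 / N = (a 0 0 - 1) / N * b 0 1 + b 0 1 / N
          + a 0 1 / N * b 1 1 := by
        rw [mul_app]; ring
      rw [this]
      exact A.add_mem (A.add_mem (A.mul_mem a0 (hb _ _)) b1) (A.mul_mem a1 (hb _ _))
    · have : (a * b) 1 0 / N = a 1 0 / N * b 0 0
          + (a 1 1 - 1) / N * b 1 0 + b 1 0 / N := by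
        rw [mul_app]; ring
      rw [this]
      exact A.add_mem (A.add_mem (A.mul_mem a2 (hb _ _)) (A.mul_mem a3 (hb _ _))) b2
    · have : ((a * b) 1 1 - 1) / N = a 1 0 / N * b 0 1 +
          (a 1 1 - 1) / N * b 1 1 + (b 1 1 - 1) / N := by
        rw [mul_app]; ring
      rw [this]
      exact A.add_mem (A.add_mem (A.mul_mem a2 (hb _ _)) (A.mul_mem a3 (hb _ _))) b3
  one_mem' := by
    refine ⟨(G A).one_mem, ?_, ?_, ?_, ?_⟩ <;> simp [A.zero_mem]
  inv_mem' := by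
    rintro a ⟨ha, a0, a1, a2, a3⟩
    refine ⟨(G A).inv_mem ha, ?_, ?_, ?_, ?_⟩
    · rw [inv00]; exact a3
    · rw [inv01, neg_div]; exact A.neg_mem a1
    · rw [inv10, neg_div]; exact A.neg_mem a2
    · rw [inv11]; exact a0

theorem mem_GN {N : F} {g : SL2 F} : g ∈ GN A N ↔ g ∈ G A ∧ ((g 0 0 - 1) / N ∈ A ∧
    g 0 1 / N ∈ A ∧ g 1 0 / N ∈ A ∧ (g 1 1 - 1) / N ∈ A) := Iff.rfl

theorem GN_le {N : F} : GN A N ≤ G A := fun _ h => h.1

/-- for `N ∈ A`, `N ≠ 0` membership in `Γ(N)` only needs the four divisibilities -/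
theorem mem_GN' {N : F} (hN : N ∈ A) (hN0 : N ≠ 0) {g : SL2 F} (h0 : (g 0 0 - 1) / N ∈ A)
    (h1 : g 0 1 / N ∈ A) (h2 : g 1 0 / N ∈ A) (h3 : (g 1 1 - 1) / N ∈ A) : g ∈ GN A N := by
  refine ⟨?_, h0, h1, h2, h3⟩
  apply mem_G4
  · have : g 0 0 = N * ((g 0 0 - 1) / N) + 1 := by field_simp; ring
    rw [this]; exact A.add_mem (A.mul_mem hN h0) A.one_mem
  · have : g 0 1 = N * (g 0 1 / N) := by field_simp
    rw [this]; exact A.mul_mem hN h1
  · have : g 1 0 = N * (g 1 0 / N) := by field_simp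
    rw [this]; exact A.mul_mem hN h2
  · have : g 1 1 = N * ((g 1 1 - 1) / N) + 1 := by field_simp; ring
    rw [this]; exact A.add_mem (A.mul_mem hN h3) A.one_mem

/-- `Γ(N') ≤ Γ(N)` if `N ∣ N'` -/
theorem GN_mono {N N' : F} (hN0 : N ≠ 0) (hN' : N' ≠ 0) (h : N' / N ∈ A) : GN A N' ≤ GN A N := by
  rintro g ⟨hg, h0, h1, h2, h3⟩
  have key : ∀ x : F, x / N' ∈ A → x / N ∈ A := by
    intro x hx
    have : x / N = x / N' * (N' / N) := by field_simp
    rw [this]; exact A.mul_mem hx h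
  exact ⟨hg, key _ h0, key _ h1, key _ h2, key _ h3⟩

/-- If all entries of `a, b ∈ SL₂(A)` are congruent mod `N` then `a⁻¹ b ∈ Γ(N)`. -/
theorem inv_mul_mem_GN {N : F} {a b : SL2 F} (ha : a ∈ G A) (hb : b ∈ G A)
    (hab : ∀ i j, (b i j - a i j) / N ∈ A) : a⁻¹ * b ∈ GN A N := by
  have hd := det_eq a
  refine ⟨(G A).mul_mem ((G A).inv_mem ha) hb, ?_, ?_, ?_, ?_⟩
  · have : ((a⁻¹ * b) 0 0 - 1) / N = a 1 1 * ((b 0 0 - a 0 0) / N) + (- a 0 1) * ((b 1 0 - a 1 0) / N) := by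
      rw [mul_app, inv00, inv01]; linear_combination (1 / N) * hd
    rw [this]
    exact A.add_mem (A.mul_mem (ha _ _) (hab _ _)) (A.mul_mem (A.neg_mem (ha _ _)) (hab _ _))
  · have : ((a⁻¹ * b) 0 1) / N = a 1 1 * ((b 0 1 - a 0 1) / N) + (- a 0 1) * ((b 1 1 - a 1 1) / N) := by
      rw [mul_app, inv00, inv01]; ring
    rw [this]
    exact A.add_mem (A.mul_mem (ha _ _) (hab _ _)) (A.mul_mem (A.neg_mem (ha _ _)) (hab _ _))
  · have : ((a⁻¹ * b) 1 0) / N = (-a 1 0) * ((b 0 0 - a 0 0) / N) + (a 0 0) * ((b 1 0 - a 1 0) / N) := by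
      rw [mul_app, inv10, inv11]; ring
    rw [this]
    exact A.add_mem (A.mul_mem (A.neg_mem (ha _ _)) (hab _ _)) (A.mul_mem (ha _ _) (hab _ _))
  · have : ((a⁻¹ * b) 1 1 - 1) / N = (-a 1 0) * ((b 0 1 - a 0 1) / N) + (a 0 0) * ((b 1 1 - a 1 1) / N) := by
      rw [mul_app, inv10, inv11]; linear_combination (1 / N) * hd
    rw [this]
    exact A.add_mem (A.mul_mem (A.neg_mem (ha _ _)) (hab _ _)) (A.mul_mem (ha _ _) (hab _ _))

/-- `Γ(N)` is normalised by `SL₂(A)`. -/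
theorem GN_conj {N : F} {g h : SL2 F} (hg : g ∈ G A) (hh : h ∈ GN A N) :
    g * h * g⁻¹ ∈ GN A N := by
  have e : g * h * g⁻¹ = (g⁻¹)⁻¹ * (h * g⁻¹) := by group
  rw [e]
  have hgi : g⁻¹ ∈ G A := (G A).inv_mem hg
  obtain ⟨hG, h0, h1, h2, h3⟩ := hh
  apply inv_mul_mem_GN hgi ((G A).mul_mem hG hgi)
  intro i j
  rw [mul_app]
  fin_cases i
  · have : ((h : SL2 F) 0 0 * (g⁻¹ : SL2 F) 0 j + (h : SL2 F) 0 1 * (g⁻¹ : SL2 F) 1 j - (g⁻¹ : SL2 F) 0 j) / N
        = (h 0 0 - 1) / N * (g⁻¹ : SL2 F) 0 j + h 0 1 / N * (g⁻¹ : SL2 F) 1 j := by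
      ring
    change ((h : SL2 F) 0 0 * (g⁻¹ : SL2 F) 0 j + (h : SL2 F) 0 1 * (g⁻¹ : SL2 F) 1 j - (g⁻¹ : SL2 F) 0 j) / N ∈ A
    rw [this]
    exact A.add_mem (A.mul_mem h0 (hgi _ _)) (A.mul_mem h1 (hgi _ _))
  · have : ((h : SL2 F) 1 0 * (g⁻¹ : SL2 F) 0 j + (h : SL2 F) 1 1 * (g⁻¹ : SL2 F) 1 j - (g⁻¹ : SL2 F) 1 j) / N
        = h 1 0 / N * (g⁻¹ : SL2 F) 0 j + (h 1 1 - 1) / N * (g⁻¹ : SL2 F) 1 j := by
      ring
    change ((h : SL2 F) 1 0 * (g⁻¹ : SL2 F) 0 j + (h : SL2 F) 1 1 * (g⁻¹ : SL2 F) 1 j - (g⁻¹ : SL2 F) 1 j) / N ∈ A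
    rw [this]
    exact A.add_mem (A.mul_mem h2 (hgi _ _)) (A.mul_mem h3 (hgi _ _))

theorem u_mul (x y : F) : u x * u y = u (x + y) := by
  apply ext4 <;> simp only [mul_app, u_00, u_01, u_10, u_11] <;> ring

theorem v_mul (x y : F) : v x * v y = v (x + y) := by
  apply ext4 <;> simp only [mul_app, v_00, v_01, v_10, v_11] <;> ring

theorem u_zero : u (0 : F) = 1 := by
  apply ext4 <;> simp

theorem v_zero : v (0 : F) = 1 := by
  apply ext4 <;> simp

theorem u_inv (x : F) : (u x)⁻¹ = u (-x) := by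
  rw [inv_eq_iff_mul_eq_one, u_mul, add_neg_cancel, u_zero]

theorem v_inv (x : F) : (v x)⁻¹ = v (-x) := by
  rw [inv_eq_iff_mul_eq_one, v_mul, add_neg_cancel, v_zero]

theorem u_pow (x : F) (n : ℕ) : (u x) ^ n = u (n * x) := by
  induction n with
  | zero => simp [u_zero]
  | succ n ih => rw [pow_succ, ih, u_mul]; congr 1; push_cast; ring

theorem v_pow (x : F) (n : ℕ) : (v x) ^ n = v (n * x) := by
  induction n with
  | zero => simp [v_zero]
  | succ n ih => rw [pow_succ, ih, v_mul]; congr 1; push_cast; ring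

theorem u_zpow (x : F) (n : ℤ) : (u x) ^ n = u (n * x) := by
  rcases n with n | n
  · rw [Int.ofNat_eq_natCast, zpow_natCast, u_pow]; push_cast; rfl
  · rw [zpow_negSucc, u_pow, u_inv]; congr 1; push_cast; ring

theorem v_zpow (x : F) (n : ℤ) : (v x) ^ n = v (n * x) := by
  rcases n with n | n
  · rw [Int.ofNat_eq_natCast, zpow_natCast, v_pow]; push_cast; rfl
  · rw [zpow_negSucc, v_pow, v_inv]; congr 1; push_cast; ring

theorem u_mem_G {x : F} (hx : x ∈ A) : u x ∈ G A := by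
  apply mem_G4 <;> simp [hx, A.zero_mem, A.one_mem]

theorem v_mem_G {x : F} (hx : x ∈ A) : v x ∈ G A := by
  apply mem_G4 <;> simp [hx, A.zero_mem, A.one_mem]

theorem dg_mem_G {e : F} (he : e ∈ A) (he' : e⁻¹ ∈ A) : dg e ∈ G A := by
  by_cases h : e = 0
  · rw [dg, dif_pos h]; exact (G A).one_mem
  · apply mem_G4
    · rw [dg_00 h]; exact he
    · rw [dg_01 h]; exact A.zero_mem
    · rw [dg_10 h]; exact A.zero_mem
    · rw [dg_11 h]; exact he'

theorem u_mem_GN {N : F} (hN : N ∈ A) (hN0 : N ≠ 0) {x : F} (hx : x / N ∈ A) : u x ∈ GN A N := by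
  apply mem_GN' hN hN0 <;> simp [hx, A.zero_mem]

theorem v_mem_GN {N : F} (hN : N ∈ A) (hN0 : N ≠ 0) {x : F} (hx : x / N ∈ A) : v x ∈ GN A N := by
  apply mem_GN' hN hN0 <;> simp [hx, A.zero_mem]

theorem dg_mul {e f : F} (he : e ≠ 0) (hf : f ≠ 0) : dg e * dg f = dg (e * f) := by
  have hef : e * f ≠ 0 := mul_ne_zero he hf
  apply ext4 <;> simp only [mul_app, dg_00 he, dg_01 he, dg_10 he, dg_11 he, dg_00 hf, dg_01 hf,
    dg_10 hf, dg_11 hf, dg_00 hef, dg_01 hef, dg_10 hef, dg_11 hef] <;> field_simp <;> ring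

theorem dg_one : dg (1 : F) = 1 := by
  apply ext4 <;> simp [dg_00, dg_01, dg_10, dg_11]

theorem dg_inv {e : F} (he : e ≠ 0) : (dg e)⁻¹ = dg e⁻¹ := by
  rw [inv_eq_iff_mul_eq_one, dg_mul he (inv_ne_zero he), mul_inv_cancel₀ he, dg_one]

theorem dg_pow {e : F} (he : e ≠ 0) (k : ℕ) : dg e ^ k = dg (e ^ k) := by
  induction k with
  | zero => simp [dg_one]
  | succ k ih => rw [pow_succ, ih, dg_mul (pow_ne_zero _ he) he, pow_succ]

theorem dg_conj_u {e : F} (he : e ≠ 0) (x : F) : dg e * u x * (dg e)⁻¹ = u (e ^ 2 * x) := by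
  apply ext4 <;> simp only [mul_app, inv00, inv01, inv10, inv11, dg_00 he, dg_01 he, dg_10 he,
    dg_11 he, u_00, u_01, u_10, u_11] <;> field_simp <;> ring

theorem dg_conj_v {e : F} (he : e ≠ 0) (x : F) : dg e * v x * (dg e)⁻¹ = v ((e ^ 2)⁻¹ * x) := by
  apply ext4 <;> simp only [mul_app, inv00, inv01, inv10, inv11, dg_00 he, dg_01 he, dg_10 he,
    dg_11 he, v_00, v_01, v_10, v_11] <;> field_simp <;> ring

/-- the Weyl element -/
def wy : SL2 F := mk4 0 (-1) 1 0 (by ring)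

@[simp] theorem wy_00 : (wy : SL2 F) 0 0 = 0 := rfl
@[simp] theorem wy_01 : (wy : SL2 F) 0 1 = -1 := rfl
@[simp] theorem wy_10 : (wy : SL2 F) 1 0 = 1 := rfl
@[simp] theorem wy_11 : (wy : SL2 F) 1 1 = 0 := rfl

theorem wy_mem_G : (wy : SL2 F) ∈ G A := by
  apply mem_G4 <;> simp [A.zero_mem, A.one_mem, A.neg_mem]

theorem wy_conj_u (x : F) : wy * u x * wy⁻¹ = v (-x) := by
  apply ext4 <;> simp only [mul_app, inv00, inv01, inv10, inv11, wy_00, wy_01, wy_10, wy_11, u_00,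
    u_01, u_10, u_11, v_00, v_01, v_10, v_11] <;> ring

theorem wy_eq : (wy : SL2 F) = u (-1) * v 1 * u (-1) := by
  apply ext4 <;> simp only [mul_app, wy_00, wy_01, wy_10, wy_11, u_00,
    u_01, u_10, u_11, v_00, v_01, v_10, v_11] <;> ring

theorem dg_eq {e : F} (he : e ≠ 0) :
    dg e = u e * v (-e⁻¹) * u e * (u (-1) * v 1 * u (-1)) := by
  apply ext4 <;> simp only [mul_app, dg_00 he, dg_01 he, dg_10 he, dg_11 he, u_00,
    u_01, u_10, u_11, v_00, v_01, v_10, v_11] <;> field_simp <;> ring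

/-- `E(N) = ⟨u(N x), v(N x) : x ∈ A⟩`. -/
def E (A : Subring F) (N : F) : Subgroup (SL2 F) :=
  Subgroup.closure ({h | ∃ x ∈ A, h = u (N * x)} ∪ {h | ∃ x ∈ A, h = v (N * x)})

theorem u_mem_E {N x : F} (hN : N ≠ 0) (h : x / N ∈ A) : u x ∈ E A N := by
  apply Subgroup.subset_closure
  left
  refine ⟨x / N, h, ?_⟩
  congr 1
  field_simp

theorem v_mem_E {N x : F} (hN : N ≠ 0) (h : x / N ∈ A) : v x ∈ E A N := by
  apply Subgroup.subset_closure
  right
  refine ⟨x / N, h, ?_⟩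
  congr 1
  field_simp

/-- `E*(N)`: the subgroup generated by all unipotent (trace 2) elements of `Γ(N)`. -/
def Es (A : Subring F) (N : F) : Subgroup (SL2 F) :=
  Subgroup.closure {g | g ∈ GN A N ∧ g 0 0 + g 1 1 = 2}

theorem Es_le_GN {N : F} : Es A N ≤ GN A N := by
  rw [Es, Subgroup.closure_le]
  exact fun g hg => hg.1

theorem mem_Es {N : F} {g : SL2 F} (hg : g ∈ GN A N) (h : g 0 0 + g 1 1 = 2) : g ∈ Es A N :=
  Subgroup.subset_closure ⟨hg, h⟩

theorem Es_mono {N N' : F} (hN0 : N ≠ 0) (hN' : N' ≠ 0) (h : N' / N ∈ A) : Es A N' ≤ Es A N := by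
  rw [Es, Subgroup.closure_le]
  exact fun g hg => mem_Es (GN_mono hN0 hN' h hg.1) hg.2

theorem trace_conj (g h : SL2 F) : (g * h * g⁻¹) 0 0 + (g * h * g⁻¹) 1 1 = h 0 0 + h 1 1 := by
  have hd := det_eq g
  simp only [mul_app, inv00, inv01, inv10, inv11]
  linear_combination (h 0 0 + h 1 1) * hd

/-- `E*(N)` is normalised by `SL₂(A)`. -/
theorem Es_conj {N : F} {g h : SL2 F} (hg : g ∈ G A) (hh : h ∈ Es A N) : g * h * g⁻¹ ∈ Es A N := by
  induction hh using Subgroup.closure_induction with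
  | mem x hx =>
    refine mem_Es (GN_conj hg hx.1) ?_
    rw [trace_conj]; exact hx.2
  | one => simp
  | mul x y _ _ hx hy =>
    have : g * (x * y) * g⁻¹ = (g * x * g⁻¹) * (g * y * g⁻¹) := by group
    rw [this]; exact (Es A N).mul_mem hx hy
  | inv x _ hx =>
    have : g * x⁻¹ * g⁻¹ = (g * x * g⁻¹)⁻¹ := by group
    rw [this]; exact (Es A N).inv_mem hx

theorem u_mem_Es {N : F} (hN : N ∈ A) (hN0 : N ≠ 0) {x : F} (hx : x / N ∈ A) : u x ∈ Es A N :=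
  mem_Es (u_mem_GN hN hN0 hx) (by simp; norm_num)

theorem v_mem_Es {N : F} (hN : N ∈ A) (hN0 : N ≠ 0) {x : F} (hx : x / N ∈ A) : v x ∈ Es A N :=
  mem_Es (v_mem_GN hN hN0 hx) (by simp; norm_num)

theorem E_le_Es {N : F} (hN : N ∈ A) (hN0 : N ≠ 0) : E A N ≤ Es A N := by
  rw [E, Subgroup.closure_le]
  rintro h (⟨x, hx, rfl⟩ | ⟨x, hx, rfl⟩)
  · exact u_mem_Es hN hN0 (by rw [mul_div_cancel_left₀ _ hN0]; exact hx)
  · exact v_mem_Es hN hN0 (by rw [mul_div_cancel_left₀ _ hN0]; exact hx)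

/-- `g u(x) g⁻¹` for `g` with first column `(a,c)`. -/
def U (a c x : F) : SL2 F :=
  mk4 (1 - a * c * x) (a ^ 2 * x) (-(c ^ 2 * x)) (1 + a * c * x) (by ring)

@[simp] theorem U_00 (a c x : F) : U a c x 0 0 = 1 - a * c * x := rfl
@[simp] theorem U_01 (a c x : F) : U a c x 0 1 = a ^ 2 * x := rfl
@[simp] theorem U_10 (a c x : F) : U a c x 1 0 = -(c ^ 2 * x) := rfl
@[simp] theorem U_11 (a c x : F) : U a c x 1 1 = 1 + a * c * x := rfl

theorem conj_u (g : SL2 F) (x : F) : g * u x * g⁻¹ = U (g 0 0) (g 1 0) x := by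
  have hd := det_eq g
  apply ext4
  · simp only [mul_app, inv00, inv01, inv10, inv11, u_00, u_01, u_10, u_11, U_00]
    linear_combination hd
  · simp only [mul_app, inv00, inv01, inv10, inv11, u_00, u_01, u_10, u_11, U_01]
    ring
  · simp only [mul_app, inv00, inv01, inv10, inv11, u_00, u_01, u_10, u_11, U_10]
    ring
  · simp only [mul_app, inv00, inv01, inv10, inv11, u_00, u_01, u_10, u_11, U_11]
    linear_combination hd

/-- weak recurrence of `D` under conjugation by elements of `Γ`. -/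
def Rec (Γ D : Subgroup (SL2 F)) : Prop :=
  ∀ γ ∈ Γ, ∀ δ ∈ D, ∀ n₀ : ℕ, ∃ n ≥ n₀, γ ^ n * δ * (γ ^ n)⁻¹ ∈ D

/-- `D` has an element that is not a scalar matrix (`±1`). -/
def NonCentral (D : Subgroup (SL2 F)) : Prop :=
  ∃ δ ∈ D, ¬ (δ 0 1 = 0 ∧ δ 1 0 = 0 ∧ δ 0 0 = δ 1 1)

theorem central_comm {δ : SL2 F} (h : δ 0 1 = 0 ∧ δ 1 0 = 0 ∧ δ 0 0 = δ 1 1) (g : SL2 F) :
    g * δ = δ * g := by
  obtain ⟨h1, h2, h3⟩ := h
  apply ext4 <;> simp only [mul_app, h1, h2, h3] <;> ring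

/-- `a` and `b` generate the unit ideal of `A` -/
def Cop (A : Subring F) (a b : F) : Prop := ∃ x ∈ A, ∃ y ∈ A, a * x + b * y = 1

theorem Cop.symm {a b : F} (h : Cop A a b) : Cop A b a := by
  obtain ⟨x, hx, y, hy, e⟩ := h
  exact ⟨y, hy, x, hx, by rw [add_comm]; exact e⟩

theorem Cop.mul_right {a b c : F} (ha : a ∈ A) (hb : b ∈ A) (hc : c ∈ A) (h : Cop A a b)
    (h' : Cop A a c) : Cop A a (b * c) := by
  obtain ⟨x, hx, y, hy, e⟩ := h
  obtain ⟨x', hx', y', hy', e'⟩ := h'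
  refine ⟨a * x * x' + x * c * y' + b * y * x', ?_, y * y', A.mul_mem hy hy', ?_⟩
  · exact A.add_mem (A.add_mem (A.mul_mem (A.mul_mem ha hx) hx') (A.mul_mem (A.mul_mem hx hc) hy'))
      (A.mul_mem (A.mul_mem hb hy) hx')
  · linear_combination (a * x' + c * y') * e + e'

theorem Cop.of_mul_right_left {a b c : F} (hc : c ∈ A) (h : Cop A a (b * c)) : Cop A a b := by
  obtain ⟨x, hx, y, hy, e⟩ := h
  exact ⟨x, hx, c * y, A.mul_mem hc hy, by rw [← e]; ring⟩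

theorem Cop.of_mul_right_right {a b c : F} (hb : b ∈ A) (h : Cop A a (b * c)) : Cop A a c := by
  obtain ⟨x, hx, y, hy, e⟩ := h
  exact ⟨x, hx, b * y, A.mul_mem hb hy, by rw [← e]; ring⟩

theorem Cop.add_mul {a b t : F} (ht : t ∈ A) (h : Cop A a b) : Cop A (a + b * t) b := by
  obtain ⟨x, hx, y, hy, e⟩ := h
  exact ⟨x, hx, y - t * x, A.sub_mem hy (A.mul_mem ht hx), by rw [← e]; ring⟩

/-- the composite `ℤ → A → A / c A` is onto -/
def Onto (A : Subring F) (c : F) : Prop := ∀ x ∈ A, ∃ z : ℤ, (x - z) / c ∈ A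

end BoomNF
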