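import Pool.Agent.H.MP_4c7af0_al.NF.Frob
import Pool.Agent.H.MP_4c7af0_al.NF.Rng3

/-! Torsion of `(A / q A)ˣ` (MP_4c7af0_al, number field case). -/

namespace BoomNF

open NumberField

variable {K : Type*} [Field K] [NumberField K] {A : Subring K}

/-- In a domain `X^k - 1` has at most `k` roots. -/
theorem tors_roots {R : Type*} [CommRing R] (P : Ideal R) (hP : P.IsPrime) {k : ℕ} (hk : 0 < k) :
    ∃ F : Finset (R ⧸ P), F.card ≤ k ∧ ∀ x : R ⧸ P, x ^ k = 1 → x ∈ F := by
  classical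
  refine ⟨(Polynomial.nthRoots k (1 : R ⧸ P)).toFinset,
    (Multiset.toFinset_card_le _).trans (Polynomial.card_nthRoots _ _), fun x hx => ?_⟩
  rw [Multiset.mem_toFinset, Polynomial.mem_nthRoots hk]
  exact hx

/-- `A / q A` has Jacobson radical `0` if `x^(q^h) = x` for all elements. -/
theorem tors_rad {F : Type*} [Field F] {A : Subring F} {q h : ℕ} (hq0 : (q : F) ≠ 0)
    (hfr : ∀ x ∈ A, (x ^ (q ^ h) - x) / (q : F) ∈ A) (hpos : 1 < q ^ h) (x : A)
    (hx : ∀ P : Ideal A, P.IsMaximal → ((q : ℕ) : A) ∈ P → x ∈ P) : (x : F) / (q : F) ∈ A := by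
  have hJ : Ideal.span {1 - x ^ (q ^ h - 1), ((q : ℕ) : A)} = ⊤ := by
    by_contra hcon
    obtain ⟨P, hP, hle⟩ := Ideal.exists_le_maximal _ hcon
    have h1 : ((q : ℕ) : A) ∈ P := hle (Ideal.subset_span (by simp))
    have h2 : 1 - x ^ (q ^ h - 1) ∈ P := hle (Ideal.subset_span (by simp))
    have h3 : x ^ (q ^ h - 1) ∈ P := P.pow_mem_of_mem (hx P hP h1) _ (by omega)
    have h4 := P.add_mem h2 h3
    rw [sub_add_cancel] at h4
    exact hP.ne_top ((Ideal.eq_top_iff_one P).2 h4)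
  have h1 : (1 : A) ∈ Ideal.span {1 - x ^ (q ^ h - 1), ((q : ℕ) : A)} := by
    rw [hJ]
    trivial
  obtain ⟨a, b, hab⟩ := Ideal.mem_span_pair.1 h1
  have h2 : (a : F) * (1 - (x : F) ^ (q ^ h - 1)) + (b : F) * (q : F) = 1 := by
    have := congrArg (fun y : A => (y : F)) hab
    simpa using this
  have h3 : (x : F) ^ (q ^ h) = (x : F) ^ (q ^ h - 1) * x := by
    rw [← pow_succ]
    congr 1
    omega
  have h4 : (x : F) / (q : F) = -(a : F) * (((x : F) ^ (q ^ h) - x) / (q : F)) + b * x := by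
    rw [h3]
    field_simp
    linear_combination (-(x : F)) * h2
  rw [h4]
  exact A.add_mem (A.mul_mem (A.neg_mem a.2) (hfr x x.2)) (A.mul_mem b.2 x.2)

/-- Torsion bound: for large primes `q` the group `(A / q A)ˣ` has at most `k ^ [K : ℚ]` elements with
`x ^ k = 1`. Proof: by `frob` the finite ring `R = A / q A` is reduced (`x^m = 0` implies
`x = x^(q^(h m)) = 0`), so it embeds into the product of its residue fields `R / P`; by `card_max`
there are at most `[K : ℚ]` maximal ideals, and `X^k - 1` has at most `k` roots in each field. -/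
theorem SRing.tors (hA : SRing A) : ∃ B : ℕ, ∀ q : ℕ, q.Prime → B < q → ∀ k : ℕ, 0 < k →
    ∀ T : Finset K, (∀ t ∈ T, t ∈ A ∧ (t ^ k - 1) / (q : K) ∈ A) →
      (∀ t ∈ T, ∀ t' ∈ T, (t - t') / (q : K) ∈ A → t = t') → T.card ≤ k ^ (Module.finrank ℚ K) := by
  classical
  obtain ⟨h, hF⟩ := hA.frob
  obtain ⟨B, hB⟩ := hF.fr
  refine ⟨B, fun q hq hBq k hk T hT hTq => ?_⟩
  have hq0 : (q : K) ≠ 0 := by exact_mod_cast hq.ne_zero
  have hpos : 1 < q ^ h := Nat.one_lt_pow hF.pos.ne' hq.one_lt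
  -- the maximal ideals
  set S : Set (Ideal A) := {P | P.IsMaximal ∧ ((q : ℕ) : A) ∈ P} with hS
  have hfin : S.Finite := by
    by_contra hcon
    obtain ⟨T', hT', hc⟩ := Set.Infinite.exists_subset_card_eq hcon (Module.finrank ℚ K + 1)
    have := hA.card_max hq T' (fun P hP => hT' hP)
    omega
  have hcard : hfin.toFinset.card ≤ Module.finrank ℚ K :=
    hA.card_max hq _ (fun P hP => hfin.mem_toFinset.1 hP)
  have hr : ∀ P : hfin.toFinset, ∃ F : Finset (A ⧸ (P : Ideal A)), F.card ≤ k ∧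
      ∀ x : A ⧸ (P : Ideal A), x ^ k = 1 → x ∈ F := fun P =>
    tors_roots P.1 (hfin.mem_toFinset.1 P.2).1.isPrime hk
  choose R hR1 hR2 using hr
  have h1 : T.attach.card ≤ (Fintype.piFinset R).card := by
    refine Finset.card_le_card_of_injOn
      (fun t P => Ideal.Quotient.mk (P : Ideal A) ⟨t.1, (hT t.1 t.2).1⟩) ?_ ?_
    · intro t _
      rw [Finset.mem_coe, Fintype.mem_piFinset]
      intro P
      apply hR2
      have h2 := (hT t.1 t.2).2
      have h3 : (⟨t.1, (hT t.1 t.2).1⟩ : A) ^ k - 1 =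
          ((q : ℕ) : A) * ⟨(t.1 ^ k - 1) / (q : K), h2⟩ := by
        apply Subtype.ext
        push_cast
        field_simp
      have h4 : (⟨t.1, (hT t.1 t.2).1⟩ : A) ^ k - 1 ∈ (P : Ideal A) := by
        rw [h3]
        exact Ideal.mul_mem_right _ _ (hfin.mem_toFinset.1 P.2).2
      rw [← map_pow, ← sub_eq_zero, ← map_one (Ideal.Quotient.mk (P : Ideal A)), ← map_sub]
      exact Ideal.Quotient.eq_zero_iff_mem.2 h4
    · intro t _ t' _ htt
      apply Subtype.ext
      apply hTq _ t.2 _ t'.2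
      have h2 := tors_rad (F := K) (A := A) hq0 (hB q hq hBq) hpos
        (⟨t.1, (hT t.1 t.2).1⟩ - ⟨t'.1, (hT t'.1 t'.2).1⟩) (fun P hP hPq => by
          have h3 := congrFun htt ⟨P, hfin.mem_toFinset.2 ⟨hP, hPq⟩⟩
          exact (Ideal.Quotient.mk_eq_mk_iff_sub_mem _ _).1 h3)
      exact h2
  rw [Finset.card_attach, Fintype.card_piFinset] at h1
  refine h1.trans ((Finset.prod_le_pow_card _ _ k (fun P _ => hR1 P)).trans ?_)
  rw [Finset.card_univ, Fintype.card_coe]
  exact Nat.pow_le_pow_right hk hcard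

end BoomNF
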