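import Pool.Agent.H.MP_4c7af0_al.NF.P2a
import Pool.Agent.H.MP_4c7af0_al.NF.P2b
import Pool.Agent.H.MP_4c7af0_al.NF.Tors

/-! Step 4, part e of the paper (MP_4c7af0_al, number field case): symbols over a large prime. -/

namespace BoomNF

open NumberField

section quot

variable {F : Type*} [Field F] {A : Subring F}

/-- the ring `A / q A` -/
abbrev p2_R (A : Subring F) (q : ℕ) : Type _ := A ⧸ Ideal.span {((q : ℕ) : A)}

/-- the quotient map -/
abbrev p2_mk (A : Subring F) (q : ℕ) : A →+* p2_R A q := Ideal.Quotient.mk _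

theorem p2_mk_eq {q : ℕ} (hq : (q : F) ≠ 0) (x y : A) :
    p2_mk A q x = p2_mk A q y ↔ ((x : F) - y) / q ∈ A := by
  rw [Ideal.Quotient.eq, Ideal.mem_span_singleton]
  constructor
  · rintro ⟨c, hc⟩
    have h1 : ((x : F) - y) = q * c := by
      have := congrArg (fun z : A => (z : F)) hc
      simpa using this
    rw [h1, mul_div_cancel_left₀ _ hq]
    exact c.2
  · intro h
    refine ⟨⟨_, h⟩, ?_⟩
    apply Subtype.ext
    simp [mul_div_cancel₀ _ hq]

theorem p2_rep {q : ℕ} (hq : (q : F) ≠ 0) (r : p2_R A q) :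
    ∃ l : A, (l : F) ≠ 0 ∧ p2_mk A q l = r := by
  obtain ⟨l, rfl⟩ := Ideal.Quotient.mk_surjective r
  by_cases h : (l : F) = 0
  · refine ⟨(q : A), by simpa using hq, ?_⟩
    rw [p2_mk_eq hq, h]
    simp [hq, A.one_mem]
  · exact ⟨l, h, rfl⟩

theorem p2_cop {q : ℕ} (hq : (q : F) ≠ 0) {l : A} (h : IsUnit (p2_mk A q l)) :
    Cop A (q : F) (l : F) := by
  obtain ⟨l', hl'⟩ := h.exists_right_inv
  obtain ⟨m, rfl⟩ := Ideal.Quotient.mk_surjective l'
  have h1 : p2_mk A q (l * m) = p2_mk A q 1 := by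
    rw [map_mul, map_one]; exact hl'
  rw [p2_mk_eq hq] at h1
  refine ⟨_, A.neg_mem h1, m, m.2, ?_⟩
  simp only [Subring.coe_mul, Subring.coe_one]
  field_simp
  ring

theorem p2_unit {q : ℕ} (hq : (q : F) ≠ 0) {b : F} (hb : b ∈ A) (h : Cop A (q : F) b) :
    IsUnit (p2_mk A q ⟨b, hb⟩) := by
  obtain ⟨x, hx, y, hy, e⟩ := h
  refine IsUnit.of_mul_eq_one (p2_mk A q ⟨y, hy⟩) ?_
  rw [← map_mul, ← map_one (p2_mk A q), p2_mk_eq hq]
  have : ((((⟨b, hb⟩ : A) * ⟨y, hy⟩ : A) : F) - ((1 : A) : F)) / q = - x := by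
    simp only [Subring.coe_mul, Subring.coe_one]
    rw [← e]
    field_simp
    ring
  rw [this]
  exact A.neg_mem hx

end quot

variable {K : Type*} [Field K] [NumberField K] {A : Subring K} {P : Type*} [CommGroup P]

theorem p2_finite (hA : SRing A) {q : ℕ} (hq : (q : K) ≠ 0) : Finite (p2_R A q) := by
  obtain ⟨T, hT, h⟩ := hA.finite_quot (α := (q : K)) (natCast_mem A q) hq
  refine Finite.of_surjective (fun t : T => p2_mk A q ⟨t.1, hT _ t.2⟩) ?_
  intro r
  obtain ⟨x, rfl⟩ := Ideal.Quotient.mk_surjective r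
  obtain ⟨t, ht, h'⟩ := h x.1 x.2
  refine ⟨⟨t, ht⟩, ?_⟩
  exact ((p2_mk_eq hq x ⟨t, hT _ ht⟩).2 h').symm

/-- The subgroup `S_q` of `P` for a large prime `q ≡ 1 mod N`, `n = [K : ℚ]`, `h` from `frob`.
Proof: `B = (A / q A)ˣ` (finite); `T` from `exists_T` for `a = q` gives a homomorphism `B → P`,
`S_q` its image. Exponent: `b^(q^h - 1) = 1` for `b ∈ B` by the Frobenius property. Torsion:
`card_tors_quot` and the bound `tors`. Classes: `X ∋ z = s(q, b_z)`; map `z` to the class of `b_z` in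
`B / B²`, which has at most `2^n` elements (`card_quot_sq`, `tors` for `k = 2`); by pigeonhole some
fibre `Y` has `|X| ≤ 2^n |Y|`, and for `y, y'` in it `b_y ≡ l² b_y' mod q`, so `y = y' T(l)` by `s2`
and `exists_T`. -/
theorem SRing.exists_S (hA : SRing A) {N : ℕ} (hN : 0 < N) {sy : K → K → P}
    (hs : Sym A (N : K) sy) {h : ℕ} (hF : FrobH A h) :
    ∃ B : ℕ, ∀ q : ℕ, q.Prime → B < q → (N : ℤ) ∣ (q : ℤ) - 1 →
      ∃ S : Subgroup P, (∀ z ∈ S, z ^ (q ^ h - 1) = 1) ∧
        (∀ k : ℕ, 0 < k → ∀ T : Finset P, (∀ z ∈ T, z ∈ S ∧ z ^ k = 1) →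
          T.card ≤ k ^ (Module.finrank ℚ K)) ∧
        (∀ X : Finset P, (∀ z ∈ X, ∃ b, Adm A (N : K) (q : K) b ∧ sy (q : K) b = z) →
          ∃ Y ⊆ X, X.card ≤ 2 ^ (Module.finrank ℚ K) * Y.card ∧ ∀ y ∈ Y, ∀ y' ∈ Y, y / y' ∈ S) := by
  classical
  obtain ⟨B₁, hB₁⟩ := hA.tors
  obtain ⟨B₂, hB₂⟩ := hF.fr
  refine ⟨max B₁ B₂, ?_⟩
  intro q hq hBq hNq
  have hq1 : B₁ < q := lt_of_le_of_lt (le_max_left _ _) hBq
  have hq2 : B₂ < q := lt_of_le_of_lt (le_max_right _ _) hBq
  have hqK : (q : K) ≠ 0 := by exact_mod_cast hq.ne_zero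
  have hNK : (N : K) ≠ 0 := by exact_mod_cast hN.ne'
  have hqA : (q : K) ∈ A := natCast_mem A q
  have hNA : (N : K) ∈ A := natCast_mem A N
  have hqN : ((q : K) - 1) / N ∈ A := by
    obtain ⟨c, hc⟩ := hNq
    have : ((q : K) - 1) = N * (c : K) := by exact_mod_cast congrArg (fun z : ℤ => (z : K)) hc
    rw [this, mul_div_cancel_left₀ _ hNK]
    exact intCast_mem A c
  have hfin : Finite (p2_R A q) := p2_finite hA hqK
  obtain ⟨T, hT1, hT2, hT3⟩ := hs.exists_T hNA hNK hqA hqK hqN
  -- representatives of the units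
  have hrep : ∀ b : (p2_R A q)ˣ, ∃ l : A, (l : K) ≠ 0 ∧ p2_mk A q l = b := fun b => p2_rep hqK _
  choose rep hrep0 hrepm using hrep
  have hrepc : ∀ b, Cop A (q : K) (rep b : K) := fun b => p2_cop hqK (by rw [hrepm]; exact b.isUnit)
  let φ : (p2_R A q)ˣ →* P := MonoidHom.mk' (fun b => T (rep b)) (by
    intro a b
    have h1 : T ((rep a : K) * (rep b : K)) = T (rep a) * T (rep b) :=
      hT3 _ (rep a).2 _ (rep b).2 (hrep0 a) (hrep0 b) (hrepc a) (hrepc b)
    rw [← h1]
    refine hT2 _ (rep (a * b)).2 _ (A.mul_mem (rep a).2 (rep b).2) (hrep0 _)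
      (mul_ne_zero (hrep0 a) (hrep0 b)) (hrepc _)
      (Cop.mul_right hqA (rep a).2 (rep b).2 (hrepc a) (hrepc b)) ?_
    have h2 : p2_mk A q (rep (a * b)) = p2_mk A q (rep a * rep b) := by
      rw [hrepm, map_mul, hrepm, hrepm]; rfl
    have h3 := (p2_mk_eq hqK _ _).1 h2
    simpa using h3)
  have hφ : ∀ b, φ b = T (rep b) := fun b => rfl
  -- torsion of the units
  have htors : ∀ k : ℕ, 0 < k →
      Nat.card {b : (p2_R A q)ˣ // b ^ k = 1} ≤ k ^ (Module.finrank ℚ K) := by
    intro k hk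
    have hft : Fintype {b : (p2_R A q)ˣ // b ^ k = 1} := Fintype.ofFinite _
    have hinj : Function.Injective (fun b : {b : (p2_R A q)ˣ // b ^ k = 1} => (rep b.1 : K)) := by
      intro b b' hbb
      have h1 : rep b.1 = rep b'.1 := Subtype.ext hbb
      have h2 : ((b.1 : (p2_R A q)ˣ) : p2_R A q) = b'.1 := by rw [← hrepm, ← hrepm, h1]
      exact Subtype.ext (Units.ext h2)
    have h1 := hB₁ q hq hq1 k hk (Finset.univ.image
      (fun b : {b : (p2_R A q)ˣ // b ^ k = 1} => (rep b.1 : K))) (by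
        intro t ht
        simp only [Finset.mem_image, Finset.mem_univ, true_and] at ht
        obtain ⟨b, rfl⟩ := ht
        refine ⟨(rep b.1).2, ?_⟩
        have h2 : p2_mk A q ((rep b.1) ^ k) = p2_mk A q 1 := by
          rw [map_pow, hrepm, map_one, ← Units.val_pow_eq_pow_val, b.2]; rfl
        have h3 := (p2_mk_eq hqK _ _).1 h2
        simpa using h3) (by
        intro t ht t' ht' h0
        simp only [Finset.mem_image, Finset.mem_univ, true_and] at ht ht'
        obtain ⟨b, rfl⟩ := ht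
        obtain ⟨b', rfl⟩ := ht'
        have h2 := (p2_mk_eq hqK _ _).2 h0
        rw [hrepm, hrepm] at h2
        have h3 : b.1 = b'.1 := Units.ext h2
        rw [h3])
    rw [Finset.card_image_of_injective _ hinj, Finset.card_univ] at h1
    rwa [Nat.card_eq_fintype_card]
  refine ⟨φ.range, ?_, ?_, ?_⟩
  · rintro z ⟨b, rfl⟩
    rw [← map_pow]
    have h1 : b ^ (q ^ h - 1) = 1 := by
      have h2 := hB₂ q hq hq2 (rep b) (rep b).2
      have h3 : p2_mk A q ((rep b) ^ (q ^ h)) = p2_mk A q (rep b) := by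
        rw [p2_mk_eq hqK]; simpa using h2
      rw [map_pow, hrepm] at h3
      have h4 : b ^ (q ^ h) = b := Units.ext (by rw [Units.val_pow_eq_pow_val]; exact h3)
      have h5 : b ^ (q ^ h - 1) * b = 1 * b := by
        rw [← pow_succ, Nat.sub_add_cancel (Nat.one_le_pow _ _ hq.pos), h4, one_mul]
      exact mul_right_cancel h5
    rw [h1, map_one]
  · intro k hk X hX
    have h1 := card_tors_quot (B := (p2_R A q)ˣ) (C := φ.range) φ.rangeRestrict
      φ.rangeRestrict_surjective k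
    have h2 : X.card ≤ Nat.card {c : φ.range // c ^ k = 1} := by
      have : Finite φ.range := Finite.of_surjective _ φ.rangeRestrict_surjective
      have hft : Fintype {c : φ.range // c ^ k = 1} := Fintype.ofFinite _
      rw [Nat.card_eq_fintype_card, ← Fintype.card_coe]
      refine Fintype.card_le_of_injective
        (fun z : X => (⟨⟨z.1, (hX _ z.2).1⟩, Subtype.ext (hX _ z.2).2⟩ : {c : φ.range // c ^ k = 1})) ?_
      intro z z' hzz
      have := congrArg (fun c : {c : φ.range // c ^ k = 1} => ((c.1 : φ.range) : P)) hzz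
      exact Subtype.ext this
    exact h2.trans (h1.trans (htors k hk))
  · intro X hX
    have hX' : ∀ z : X, ∃ b, Adm A (N : K) (q : K) b ∧ sy (q : K) b = z := fun z => hX _ z.2
    choose bz hbz1 hbz2 using hX'
    have hbA : ∀ z : X, bz z ∈ A := by
      intro z
      have h1 := (hbz1 z).2.2.1
      have h2 := A.mul_mem h1 hNA
      rwa [div_mul_cancel₀ _ hNK] at h2
    have hu : ∀ z : X, IsUnit (p2_mk A q ⟨bz z, hbA z⟩) := fun z =>
      p2_unit hqK (hbA z) (hbz1 z).2.2.2
    let D : Subgroup (p2_R A q)ˣ := MonoidHom.range (powMonoidHom (α := (p2_R A q)ˣ) 2)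
    let cl : X → (p2_R A q)ˣ ⧸ D := fun z => QuotientGroup.mk (hu z).unit
    have hfq : Fintype ((p2_R A q)ˣ ⧸ D) := Fintype.ofFinite _
    have hcardq : Fintype.card ((p2_R A q)ˣ ⧸ D) ≤ 2 ^ (Module.finrank ℚ K) := by
      rw [← Nat.card_eq_fintype_card]
      have h1 := card_quot_sq (B := (p2_R A q)ˣ)
      exact (le_of_eq h1).trans (htors 2 (by norm_num))
    -- pigeonhole
    obtain ⟨c, -, hc⟩ := Finset.exists_max_image (Finset.univ : Finset ((p2_R A q)ˣ ⧸ D))
      (fun c => (Finset.univ.filter fun z : X => cl z = c).card) ⟨QuotientGroup.mk 1, Finset.mem_univ _⟩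
    refine ⟨(Finset.univ.filter fun z : X => cl z = c).map (Function.Embedding.subtype _), ?_, ?_, ?_⟩
    · intro z hz
      simp only [Finset.mem_map, Finset.mem_filter, Finset.mem_univ, true_and,
        Function.Embedding.coe_subtype] at hz
      obtain ⟨a, -, rfl⟩ := hz
      exact a.2
    · rw [Finset.card_map]
      have h1 : X.card = ∑ c : (p2_R A q)ˣ ⧸ D, (Finset.univ.filter fun z : X => cl z = c).card := by
        rw [← Finset.card_eq_sum_card_fiberwise (f := cl) (s := (Finset.univ : Finset X))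
          (t := Finset.univ) (fun _ _ => Finset.mem_coe.2 (Finset.mem_univ _))]
        simp
      rw [h1]
      calc ∑ c : (p2_R A q)ˣ ⧸ D, (Finset.univ.filter fun z : X => cl z = c).card
          ≤ ∑ _c : (p2_R A q)ˣ ⧸ D, (Finset.univ.filter fun z : X => cl z = c).card :=
            Finset.sum_le_sum fun i _ => hc i (Finset.mem_univ _)
        _ = Fintype.card ((p2_R A q)ˣ ⧸ D) * (Finset.univ.filter fun z : X => cl z = c).card := by
            rw [Finset.sum_const, Finset.card_univ, smul_eq_mul]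
        _ ≤ _ := Nat.mul_le_mul_right _ hcardq
    · intro y hy y' hy'
      simp only [Finset.mem_map, Finset.mem_filter, Finset.mem_univ, true_and,
        Function.Embedding.coe_subtype] at hy hy'
      obtain ⟨a, ha, rfl⟩ := hy
      obtain ⟨a', ha', rfl⟩ := hy'
      have h1 : (QuotientGroup.mk (hu a').unit : (p2_R A q)ˣ ⧸ D) = QuotientGroup.mk (hu a).unit := by
        rw [← show cl a = QuotientGroup.mk (hu a).unit from rfl,
          ← show cl a' = QuotientGroup.mk (hu a').unit from rfl, ha, ha']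
      rw [QuotientGroup.eq] at h1
      obtain ⟨l, hl⟩ := h1
      have hl' : (hu a).unit = l ^ 2 * (hu a').unit := by
        have : l ^ 2 = (hu a').unit⁻¹ * (hu a).unit := hl
        rw [this, mul_comm (hu a').unit⁻¹, inv_mul_cancel_right]
      have h2 : p2_mk A q ⟨bz a, hbA a⟩ = p2_mk A q ((rep l) ^ 2 * ⟨bz a', hbA a'⟩) := by
        have := congrArg (fun u : (p2_R A q)ˣ => (u : p2_R A q)) hl'
        simp only [Units.val_mul, Units.val_pow_eq_pow_val, IsUnit.unit_spec] at this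
        rw [this, map_mul, map_pow, hrepm]
      have h3 := (p2_mk_eq hqK _ _).1 h2
      simp only [Subring.coe_mul, Subring.coe_pow] at h3
      -- the difference is divisible by q N
      have h4 : (bz a - (rep l : K) ^ 2 * bz a') / (q * N) ∈ A := by
        obtain ⟨m, hm⟩ : ∃ m ∈ A, ((q : K) - 1) / N = m := ⟨_, hqN, rfl⟩
        have hd1 : (bz a - (rep l : K) ^ 2 * bz a') / N ∈ A := by
          have h5 := (hbz1 a).2.2.1
          have h6 := A.mul_mem (A.pow_mem (rep l).2 2) (hbz1 a').2.2.1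
          have h7 := A.sub_mem h5 h6
          have h8 : bz a / N - (rep l : K) ^ 2 * (bz a' / N) = (bz a - (rep l : K) ^ 2 * bz a') / N := by
            ring
          rwa [h8] at h7
        have hmq : (q : K) = 1 + N * m := by
          rw [← hm.2]; field_simp; ring
        have h9 : (bz a - (rep l : K) ^ 2 * bz a') / (q * N)
            = (bz a - (rep l : K) ^ 2 * bz a') / N - (bz a - (rep l : K) ^ 2 * bz a') / q * m := by
          have hq0 : (1 + (N : K) * m) ≠ 0 := by rw [← hmq]; exact hqK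
          rw [hmq]
          field_simp
          ring
        rw [h9]
        exact A.sub_mem hd1 (A.mul_mem h3 hm.1)
      have hadm : Adm A (N : K) (q : K) ((rep l : K) ^ 2 * bz a') := by
        refine ⟨hqA, hqN, ?_, ?_⟩
        · rw [mul_div_assoc]
          exact A.mul_mem (A.pow_mem (rep l).2 2) (hbz1 a').2.2.1
        · refine Cop.mul_right hqA (A.pow_mem (rep l).2 2) (hbA a') ?_ (hbz1 a').2.2.2
          rw [pow_two]
          exact Cop.mul_right hqA (rep l).2 (rep l).2 (hrepc l) (hrepc l)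
      have h5 := hs.s2 (q : K) ((rep l : K) ^ 2 * bz a') _ hadm h4
      have h6 : (rep l : K) ^ 2 * bz a' + (q : K) * N * ((bz a - (rep l : K) ^ 2 * bz a') / (q * N))
          = bz a := by
        field_simp
        ring
      rw [h6, hT1 _ (rep l).2 (hrep0 l) (hrepc l) _ (hbz1 a'), hbz2 a, hbz2 a'] at h5
      refine ⟨l, ?_⟩
      rw [hφ, h5]
      simp

end BoomNF
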