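import Pool.Agent.H.MP_4c7af0_al.NF.P1a
import Pool.Agent.H.MP_4c7af0_al.NF.Good2
import Pool.Agent.H.MP_4c7af0_al.NF.Good3

/-! Step 4, part e of the paper (MP_4c7af0_al, number field case): representing elements of `P` by
symbols over primes. -/

namespace BoomNF

open NumberField

variable {K : Type*} [Field K] [NumberField K] {A : Subring K} {P : Type*} [CommGroup P]

/-- first normalisation: `b ≠ 0` -/
theorem p3_ne_b {N : ℕ} (hN : 0 < N) {sy : K → K → P}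
    (hs : Sym A (N : K) sy) (z : P) : ∃ a b, Adm A (N : K) a b ∧ b ≠ 0 ∧ sy a b = z := by
  obtain ⟨a, b, hab, hz⟩ := hs.surj z
  have hN0 : (N : K) ≠ 0 := Nat.cast_ne_zero.2 hN.ne'
  by_cases hb : b = 0
  · subst hb
    obtain ⟨x, hx, y, hy, e⟩ := hab.2.2.2
    rw [zero_mul, add_zero] at e
    have ha0 : a ≠ 0 := by
      rintro rfl
      rw [zero_mul] at e
      exact zero_ne_one e
    refine ⟨a, 0 + a * N * 1, ⟨hab.1, hab.2.1, ?_, ⟨x, hx, 0, A.zero_mem, ?_⟩⟩, ?_, ?_⟩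
    · rw [zero_add, mul_one, mul_div_cancel_right₀ _ hN0]
      exact hab.1
    · rw [mul_zero, add_zero]
      exact e
    · rw [zero_add, mul_one]
      exact mul_ne_zero ha0 hN0
    · rw [hs.s2 a 0 1 hab A.one_mem]
      exact hz
  · exact ⟨a, b, hab, hb, hz⟩

/-- second normalisation: `a ≠ 0` and `a ^ h ≠ 1` -/
theorem p3_norm {N : ℕ} (hN : 0 < N) {sy : K → K → P}
    (hs : Sym A (N : K) sy) {h : ℕ} (hh : 0 < h) (z : P) :
    ∃ a b, Adm A (N : K) a b ∧ b ≠ 0 ∧ a ≠ 0 ∧ a ^ h ≠ 1 ∧ sy a b = z := by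
  obtain ⟨a, b, hab, hb, hz⟩ := p3_ne_b hN hs z
  have hN0 : (N : K) ≠ 0 := Nat.cast_ne_zero.2 hN.ne'
  obtain ⟨x, hx⟩ : ∃ x : ℕ, a + b * x ≠ 0 ∧ (a + b * x) ^ h ≠ 1 := by
    by_contra hcon
    push Not at hcon
    have h1 : (Polynomial.X * (Polynomial.X ^ h - 1) : Polynomial K) = 0 := by
      apply Polynomial.eq_zero_of_infinite_isRoot
      have h2 : (Set.range fun x : ℕ => a + b * (x : K)).Infinite := by
        apply Set.infinite_range_of_injective
        intro x y hxy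
        have h3 : b * (x : K) = b * y := add_left_cancel hxy
        exact Nat.cast_injective (mul_left_cancel₀ hb h3)
      refine h2.mono ?_
      rintro _ ⟨x, rfl⟩
      simp only [Set.mem_ofPred_eq, Polynomial.IsRoot.def, Polynomial.eval_mul, Polynomial.eval_X,
        Polynomial.eval_sub, Polynomial.eval_pow, Polynomial.eval_one]
      by_cases h0 : a + b * (x : K) = 0
      · rw [h0, zero_mul]
      · rw [hcon x h0, sub_self, mul_zero]
    have h4 : (Polynomial.X ^ h - 1 : Polynomial K) ≠ 0 := by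
      have := Polynomial.X_pow_sub_C_ne_zero hh (1 : K)
      rwa [Polynomial.C_1] at this
    exact mul_ne_zero Polynomial.X_ne_zero h4 h1
  obtain ⟨ha, ha1, hb1, hc⟩ := hab
  have hbA : b ∈ A := by
    have : b = N * (b / N) := by field_simp
    rw [this]
    exact A.mul_mem (natCast_mem A N) hb1
  refine ⟨a + b * x, b, ⟨?_, ?_, hb1, ?_⟩, hb, hx.1, hx.2, ?_⟩
  · exact A.add_mem ha (A.mul_mem hbA (natCast_mem A x))
  · have : (a + b * x - 1) / (N : K) = (a - 1) / N + b / N * x := by ring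
    rw [this]
    exact A.add_mem ha1 (A.mul_mem hb1 (natCast_mem A x))
  · exact hc.add_mul (natCast_mem A x)
  · rw [hs.s1 a b x ⟨ha, ha1, hb1, hc⟩ (natCast_mem A x)]
    exact hz

/-- Every `z ∈ P` is `s(a, N c)` with a good `c`. Proof: `z = s(a, b)`. First make `b ≠ 0` (if `b = 0`
then `a` is a unit and we replace `b` by `a N`, `s2`). Then replace `a` by `a + b x` (`s1`), `x ∈ ℤ` such
that `a ≠ 0`, `a^h ≠ 1` (finitely many exceptions). Write `b = N b'`; `good'` for `(b', a)` and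
`M = N M₀ (a^h - 1)` gives `t` with `c = b' + a t` nonzero, `ℤ → A / c A` onto and `c` coprime to `M`;
`s(a, N c) = s(a, b)` by `s2`. `n` from `onto_gen`; `a ≡ r mod c` (`onto_rep`); as `c` is coprime to
`a^h - 1`, `n` is prime to `r^h - 1` (`onto_cop`: `r^h - 1 ≡ a^h - 1 mod c`). If `q ∈ ℤ`, `q ≡ r mod n`,
`q ≡ 1 mod N` then `q ≡ a mod c` and mod `N`, so `q = a + N c x` and `s(q, N c) = s(a, N c)`
by `s1`. -/
theorem SRing.repr (hA : SRing A) {N : ℕ} (hN : 0 < N) {sy : K → K → P}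
    (hs : Sym A (N : K) sy) {h : ℕ} (hh : 0 < h) {M₀ : ℕ} (hM₀ : 0 < M₀) (z : P) :
    ∃ (c : K) (n : ℕ) (r : ℤ), c ∈ A ∧ 0 < n ∧ Nat.Coprime n (N * M₀) ∧ IsCoprime r (n : ℤ) ∧
      IsCoprime (r ^ h - 1) (n : ℤ) ∧ ∀ q : ℤ, (n : ℤ) ∣ q - r → (N : ℤ) ∣ q - 1 →
        Adm A (N : K) (q : K) ((N : K) * c) ∧ sy (q : K) ((N : K) * c) = z := by
  have hN0 : (N : K) ≠ 0 := Nat.cast_ne_zero.2 hN.ne'
  have hM₀0 : (M₀ : K) ≠ 0 := Nat.cast_ne_zero.2 hM₀.ne'
  have hNA : (N : K) ∈ A := natCast_mem A N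
  have hM₀A : (M₀ : K) ∈ A := natCast_mem A M₀
  obtain ⟨a, b, hab, hb, ha0, hah, hz⟩ := p3_norm hN hs hh z
  have hab' := hab
  obtain ⟨ha, ha1, hb1, hc⟩ := hab'
  obtain ⟨b', hb'⟩ : ∃ b', b' = b / (N : K) := ⟨_, rfl⟩
  have hbb : b = N * b' := by rw [hb']; field_simp
  rw [← hb'] at hb1
  have hb'0 : b' ≠ 0 := by
    rintro rfl
    rw [mul_zero] at hbb
    exact hb hbb
  have hcop1 : Cop A b' a := by
    rw [hbb] at hc
    exact (Cop.of_mul_right_right hNA hc).symm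
  have hahA : a ^ h - 1 ∈ A := A.sub_mem (A.pow_mem ha h) A.one_mem
  obtain ⟨t, ht, hc0, hO, hcM⟩ := hA.good' hb1 ha ha0 hcop1
    (M := (N : K) * M₀ * (a ^ h - 1)) (A.mul_mem (A.mul_mem hNA hM₀A) hahA)
    (mul_ne_zero (mul_ne_zero hN0 hM₀0) (sub_ne_zero.2 hah))
  obtain ⟨c, hcdef⟩ : ∃ c, c = b' + a * t := ⟨_, rfl⟩
  rw [← hcdef] at hc0 hO hcM
  have hcA : c ∈ A := by rw [hcdef]; exact A.add_mem hb1 (A.mul_mem ha ht)
  have hNc : b + a * N * t = N * c := by rw [hcdef, hbb]; ring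
  have hNcd : (N : K) * c / N = c := by field_simp
  have hcopN : Cop A a (N * c) := by
    have h1 := hc.symm.add_mul (t := N * t) (A.mul_mem hNA ht)
    have h2 : b + a * ((N : K) * t) = N * c := by rw [← hNc]; ring
    rw [h2] at h1
    exact h1.symm
  have hadm : Adm A (N : K) a (N * c) := ⟨ha, ha1, by rw [hNcd]; exact hcA, hcopN⟩
  have hsy : sy a (N * c) = z := by
    rw [← hNc, hs.s2 a b t hab ht]
    exact hz
  have hcopc : Cop A a c := Cop.of_mul_right_right hNA hcopN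
  obtain ⟨n, hn, hn'⟩ := hA.onto_gen hc0
  obtain ⟨r, hr, hrn⟩ := onto_rep ha hc0 hO hn' hcopc
  have hcNM : Cop A c ((N : K) * M₀) := Cop.of_mul_right_left hahA hcM
  have hcN : Cop A c (N : K) := Cop.of_mul_right_left hM₀A hcNM
  have hcah : Cop A c (a ^ h - 1) := Cop.of_mul_right_right (A.mul_mem hNA hM₀A) hcM
  have hcop2 : Nat.Coprime n (N * M₀) := by
    have h1 : Cop A c (((N * M₀ : ℕ) : ℤ) : K) := by
      push_cast
      exact hcNM
    exact Nat.isCoprime_iff_coprime.1 (onto_cop hc0 hO hn' h1)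
  have hrA : (r : K) ∈ A := intCast_mem A r
  have hcop3 : IsCoprime (r ^ h - 1) (n : ℤ) := by
    have h1 : (a ^ h - (r : K) ^ h) / c ∈ A := by
      rw [← geom_sum₂_mul a (r : K) h, mul_div_assoc]
      refine A.mul_mem (A.sum_mem fun i _ => ?_) hr
      exact A.mul_mem (A.pow_mem ha _) (A.pow_mem hrA _)
    have h2 := hcah.symm.add_mul (A.neg_mem h1)
    have h3 : a ^ h - 1 + c * -((a ^ h - (r : K) ^ h) / c) = (((r ^ h - 1 : ℤ)) : K) := by
      push_cast
      field_simp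
      ring
    rw [h3] at h2
    exact (onto_cop hc0 hO hn' h2.symm).symm
  refine ⟨c, n, r, hcA, hn, hcop2, hrn, hcop3, fun q hq hq1 => ?_⟩
  have hqA : (q : K) ∈ A := intCast_mem A q
  have e1 : ((q : K) - a) / c ∈ A := by
    have h1 := (hn' (q - r)).2 hq
    have h2 : ((q : K) - a) / c = ((q - r : ℤ) : K) / c - (a - r) / c := by
      push_cast
      ring
    rw [h2]
    exact A.sub_mem h1 hr
  have e2 : ((q : K) - 1) / N ∈ A := by
    obtain ⟨m, hm⟩ := hq1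
    have h1 : (q : K) - 1 = N * m := by exact_mod_cast congrArg (Int.cast : ℤ → K) hm
    rw [h1, mul_div_cancel_left₀ _ hN0]
    exact intCast_mem A m
  have e3 : ((q : K) - a) / N ∈ A := by
    have h2 : ((q : K) - a) / N = ((q : K) - 1) / N - (a - 1) / N := by ring
    rw [h2]
    exact A.sub_mem e2 ha1
  obtain ⟨x, hx⟩ : ∃ x, x = ((q : K) - a) / (N * c) := ⟨_, rfl⟩
  have hxA : x ∈ A := by
    obtain ⟨u, hu, v, hv, huv⟩ := hcN
    have h1 : x = ((q : K) - a) / N * u + ((q : K) - a) / c * v := by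
      have h2 : x = ((q : K) - a) / (N * c) * (c * u + N * v) := by rw [huv, mul_one, hx]
      rw [h2]
      field_simp
    rw [h1]
    exact A.add_mem (A.mul_mem e3 hu) (A.mul_mem e1 hv)
  have hq2 : (q : K) = a + N * c * x := by
    rw [hx]
    field_simp
    ring
  refine ⟨⟨hqA, e2, by rw [hNcd]; exact hcA, ?_⟩, ?_⟩
  · rw [hq2]
    exact hcopN.add_mul hxA
  · rw [hq2, hs.s1 a (N * c) x hadm hxA]
    exact hsy

theorem p3_dvd_pow {n : ℤ} {r r' : ℤ} (h : n ∣ r - r') (k : ℕ) : n ∣ (r ^ k - 1) - (r' ^ k - 1) := by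
  have : (r ^ k - 1) - (r' ^ k - 1) = r ^ k - r' ^ k := by ring
  rw [this]
  exact h.trans (sub_dvd_pow_sub_pow r r' k)

theorem p3_coprime {n x y : ℤ} (h : n ∣ x - y) (hy : IsCoprime y n) : IsCoprime x n := by
  obtain ⟨k, hk⟩ := h
  have : x = y + n * k := by linarith
  rw [this]
  exact hy.add_mul_left_left k

/-- the same for a finite set (induction with `M₀` the product of the previous `n`, and the Chinese
remainder theorem for the `r`) -/
theorem SRing.repr_finset (hA : SRing A) {N : ℕ} (hN : 0 < N) {sy : K → K → P}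
    (hs : Sym A (N : K) sy) {h : ℕ} (hh : 0 < h) (X : Finset P) :
    ∃ (n : ℕ) (r : ℤ), 0 < n ∧ Nat.Coprime n N ∧ IsCoprime r (n : ℤ) ∧
      IsCoprime (r ^ h - 1) (n : ℤ) ∧ ∀ q : ℤ, (n : ℤ) ∣ q - r → (N : ℤ) ∣ q - 1 →
        ∀ z ∈ X, ∃ b, Adm A (N : K) (q : K) b ∧ sy (q : K) b = z := by
  classical
  induction X using Finset.induction_on with
  | empty =>
    refine ⟨1, 0, one_pos, Nat.coprime_one_left N, ?_, ?_, fun q _ _ z hz => ?_⟩
    · rw [Nat.cast_one]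
      exact isCoprime_one_right
    · rw [Nat.cast_one]
      exact isCoprime_one_right
    · exact absurd hz (Finset.notMem_empty z)
  | insert z X _ ih =>
    obtain ⟨n₁, r₁, hn₁, hc₁, hr₁, hr₁', hX⟩ := ih
    obtain ⟨c, n₂, r₂, hcA, hn₂, hc₂, hr₂, hr₂', hz⟩ := hA.repr hN hs hh hn₁ z
    have hc3 : IsCoprime (n₁ : ℤ) (n₂ : ℤ) :=
      Nat.isCoprime_iff_coprime.2 (Nat.Coprime.coprime_mul_left_right hc₂).symm
    obtain ⟨u, v, huv⟩ := hc3
    obtain ⟨r, hr⟩ : ∃ r : ℤ, r = r₂ * u * n₁ + r₁ * v * n₂ := ⟨_, rfl⟩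
    have d1 : (n₁ : ℤ) ∣ r - r₁ := ⟨u * (r₂ - r₁), by rw [hr]; linear_combination r₁ * huv⟩
    have d2 : (n₂ : ℤ) ∣ r - r₂ := ⟨v * (r₁ - r₂), by rw [hr]; linear_combination r₂ * huv⟩
    refine ⟨n₁ * n₂, r, Nat.mul_pos hn₁ hn₂, ?_, ?_, ?_, fun q hq hq1 => ?_⟩
    · exact Nat.Coprime.mul_left hc₁ (Nat.Coprime.coprime_mul_right_right hc₂)
    · rw [Nat.cast_mul]
      exact (p3_coprime d1 hr₁).mul_right (p3_coprime d2 hr₂)
    · rw [Nat.cast_mul]
      exact (p3_coprime (p3_dvd_pow d1 h) hr₁').mul_right (p3_coprime (p3_dvd_pow d2 h) hr₂')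
    · rw [Nat.cast_mul] at hq
      have q1 : (n₁ : ℤ) ∣ q - r₁ := by
        have : q - r₁ = (q - r) + (r - r₁) := by ring
        rw [this]
        exact dvd_add ((Dvd.intro _ rfl).trans hq) d1
      have q2 : (n₂ : ℤ) ∣ q - r₂ := by
        have : q - r₂ = (q - r) + (r - r₂) := by ring
        rw [this]
        exact dvd_add ((Dvd.intro_left _ rfl).trans hq) d2
      intro z' hz'
      rcases Finset.mem_insert.1 hz' with rfl | hz'
      · exact ⟨N * c, hz q q2 hq1⟩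
      · exact hX q q1 hq1 z' hz'

end BoomNF
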