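import Pool.Agent.H.MP_4c7af0_al.NF.P1
import Pool.Agent.H.MP_4c7af0_al.NF.P2
import Pool.Agent.H.MP_4c7af0_al.NF.P3
import Pool.Agent.H.MP_4c7af0_al.NF.NT2

/-! Step 4, end of part e of the paper (MP_4c7af0_al, number field case): `P(N)` is finite. -/

namespace BoomNF

open NumberField

variable {K : Type*} [Field K] [NumberField K] {A : Subring K} {P : Type*} [CommGroup P]

/-- `P` is finite: every finite `X ⊆ P` has at most `4^n (h N²)^n` elements. Proof: `repr_finset`,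
`two_primes` with `R = N`, `m = N³`, `z = 1 + N²` and `B` from `exists_S`, `S = S_q`, `S' = S_q'`. `exists_S` for `q` and `X` gives
`Y ⊆ X`, then for `q'` and `Y` it gives `Y' ⊆ Y` with `|X| ≤ 2^n 2^n |Y'|` and all quotients of elements
of `Y'` in `S ∩ S'`. They are killed by `q^h - 1` and `q'^h - 1`, so by `g = h N²`; fixing
`y₀ ∈ Y'`, `y ↦ y / y₀` embeds `Y'` into the `g`-torsion of `S`, so `|Y'| ≤ g^n`. -/
theorem SRing.sym_finite (hA : SRing A) {N h : ℕ} (hN : 0 < N) (hF : FrobH A h)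
    (hhN : (h + 1).factorial ∣ N) {sy : K → K → P} (hs : Sym A (N : K) sy) : Finite P := by
  classical
  have hN2 : 0 < h * N ^ 2 := Nat.mul_pos hF.pos (Nat.pow_pos hN)
  have key : ∀ X : Finset P, X.card ≤ 2 ^ (Module.finrank ℚ K) *
      (2 ^ (Module.finrank ℚ K) * (h * N ^ 2) ^ (Module.finrank ℚ K)) := by
    intro X
    obtain ⟨n, r, hn, hcop, hr, hrh, hrep⟩ := hA.repr_finset hN hs hF.pos X
    obtain ⟨B, hB⟩ := hA.exists_S hN hs hF
    obtain ⟨q, q', hq, hq', hBq, hBq', h1, h2, h3, h4, h5⟩ := two_primes (R := N) (h := h)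
      (m := N ^ 3) (n := n) hN hF.pos hhN (Nat.pow_pos hN) dvd_rfl hn (hcop.pow_right 3)
      (z := 1 + (N : ℤ) ^ 2) (by
        push_cast
        exact IsCoprime.pow_right ⟨1, -(N : ℤ), by ring⟩)
      (by ring_nf; exact dvd_zero _)
      (fun l hl h6 h7 => absurd (hl.dvd_of_dvd_pow h6) h7) hr hrh B
    have hN1 : ∀ p : ℕ, ((N ^ 3 : ℕ) : ℤ) ∣ (p : ℤ) - (1 + (N : ℤ) ^ 2) →
        (N : ℤ) ∣ (p : ℤ) - 1 := by
      rintro p ⟨k, hk⟩
      push_cast at hk
      exact ⟨(N : ℤ) ^ 2 * k + N, by linear_combination hk⟩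
    have g1 : ∀ z ∈ X, ∃ b, Adm A (N : K) (q : K) b ∧ sy (q : K) b = z := by
      have := hrep q h1 (hN1 q h2)
      simpa only [Int.cast_natCast] using this
    have g2 : ∀ z ∈ X, ∃ b, Adm A (N : K) (q' : K) b ∧ sy (q' : K) b = z := by
      have := hrep q' h3 (hN1 q' h4)
      simpa only [Int.cast_natCast] using this
    obtain ⟨S, hS1, hS2, hS3⟩ := hB q hq hBq (hN1 q h2)
    obtain ⟨S', hS1', hS2', hS3'⟩ := hB q' hq' hBq' (hN1 q' h4)
    obtain ⟨Y, hYX, hY1, hY2⟩ := hS3 X g1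
    obtain ⟨Y', hYY, hY1', hY2'⟩ := hS3' Y (fun z hz => g2 z (hYX hz))
    have hcard : Y'.card ≤ (h * N ^ 2) ^ (Module.finrank ℚ K) := by
      rcases Y'.eq_empty_or_nonempty with h6 | ⟨y0, hy0⟩
      · rw [h6]; exact Nat.zero_le _
      · have h7 : (Y'.image (fun y => y / y0)).card = Y'.card :=
          Finset.card_image_of_injective _ (fun y y' h => div_left_injective h)
        rw [← h7]
        refine hS2 _ hN2 _ (fun z hz => ?_)
        obtain ⟨y, hy, rfl⟩ := Finset.mem_image.1 hz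
        have h8 : y / y0 ∈ S := hY2 y (hYY hy) y0 (hYY hy0)
        have h9 : y / y0 ∈ S' := hY2' y hy y0 hy0
        refine ⟨h8, ?_⟩
        have h10 := orderOf_dvd_of_pow_eq_one (hS1 _ h8)
        have h11 := orderOf_dvd_of_pow_eq_one (hS1' _ h9)
        exact orderOf_dvd_iff_pow_eq_one.1 ((Nat.dvd_gcd h10 h11).trans h5)
    refine hY1.trans (Nat.mul_le_mul_left _ (hY1'.trans (Nat.mul_le_mul_left _ hcard)))
  by_contra hinf
  rw [not_finite_iff_infinite] at hinf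
  obtain ⟨X, hX⟩ := Infinite.exists_subset_card_eq P (2 ^ (Module.finrank ℚ K) *
      (2 ^ (Module.finrank ℚ K) * (h * N ^ 2) ^ (Module.finrank ℚ K)) + 1)
  have := key X
  omega

/-- Step 4: for `M = (h + 1)!`, `M ∣ N`, the subgroup `E*(N)` has finite index in `SL₂(A)`
(`frob`, `t_comm`, `exists_sym`, `sym_finite`, `GN_relIndex`). -/
theorem SRing.step4 (hA : SRing A) {e : K} (hE : InfUnit A e) :
    ∃ M : ℕ, 0 < M ∧ ∀ N : ℕ, 0 < N → M ∣ N → (Es A (N : K)).relIndex (G A) ≠ 0 := by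
  obtain ⟨h, hF⟩ := hA.frob
  obtain ⟨M₀, ε, hT⟩ := hA.t_comm hE
  refine ⟨(h + 1).factorial, Nat.factorial_pos _, fun N hN hMN => ?_⟩
  obtain ⟨P, _, sy, hs, hfin⟩ := hA.exists_sym hT hN
  have h1 : (Es A (N : K)).relIndex (GN A (N : K)) ≠ 0 := hfin (hA.sym_finite hN hF hMN hs)
  have h2 : (GN A (N : K)).relIndex (G A) ≠ 0 :=
    hA.GN_relIndex (natCast_mem A N) (Nat.cast_ne_zero.2 hN.ne')
  rw [← Subgroup.relIndex_mul_relIndex (Es A (N : K)) (GN A (N : K)) (G A) Es_le_GN GN_le]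
  exact mul_ne_zero h1 h2

end BoomNF
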