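import Pool.Agent.H.MP_4c7af0_al.NF.S3
import Pool.Agent.H.MP_4c7af0_al.NF.P4
import Pool.Agent.H.MP_4c7af0_al.Final

/-! Assembly (MP_4c7af0_al, number field case). -/

namespace BoomNF

open NumberField

variable {K : Type*} [Field K] [NumberField K] {A : Subring K}

/-- some positive power of every element of `Γ` lies in a finite index subgroup -/
theorem fin_exists_pow_mem {F : Type*} [Field F] {L Γ : Subgroup (SL2 F)} (h : L.relIndex Γ ≠ 0)
    {g : SL2 F} (hg : g ∈ Γ) : ∃ j : ℕ, 0 < j ∧ g ^ j ∈ L := by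
  obtain ⟨j, hj, -, hjK⟩ := Subgroup.exists_pow_mem_of_index_ne_zero h ⟨g, hg⟩
  refine ⟨j, hj, ?_⟩
  rw [Subgroup.mem_subgroupOf] at hjK
  simpa using hjK

theorem fin_eq_pm_one {F : Type*} [Field F] {δ : SL2 F} (h01 : δ 0 1 = 0) (h10 : δ 1 0 = 0)
    (h00 : δ 0 0 = δ 1 1) : δ = 1 ∨ δ = -1 := by
  have hd := det_eq δ
  rw [h01, ← h00] at hd
  have : (δ 0 0 - 1) * (δ 0 0 + 1) = 0 := by linear_combination hd
  rcases mul_eq_zero.1 this with h | h
  · left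
    have h' : δ 0 0 = 1 := sub_eq_zero.1 h
    apply ext4
    · rw [one_app, if_pos rfl]; exact h'
    · rw [one_app, if_neg (by decide)]; exact h01
    · rw [one_app, if_neg (by decide)]; exact h10
    · rw [one_app, if_pos rfl, ← h00]; exact h'
  · right
    have h' : δ 0 0 = -1 := eq_neg_of_add_eq_zero_left h
    have e : ∀ i j : Fin 2, (-1 : SL2 F) i j = - ((1 : SL2 F) i j) := by
      intro i j; simp
    apply ext4
    · rw [e, one_app, if_pos rfl]; exact h'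
    · rw [e, one_app, if_neg (by decide)]; simpa using h01
    · rw [e, one_app, if_neg (by decide)]; simpa using h10
    · rw [e, one_app, if_pos rfl, ← h00]; exact h'

/-- Main theorem for subgroups of `SL₂(A)`: `step3` and `step4`. -/
theorem SRing.main_G (hA : SRing A) {e : K} (hE : InfUnit A e) {D : Subgroup (SL2 K)}
    (hD : D ≤ G A) (hrec : Rec (G A) D) (hnc : NonCentral D) : D.relIndex (G A) ≠ 0 := by
  obtain ⟨M, hM, h4⟩ := hA.step4 hE
  obtain ⟨N, hN, hMN, hle⟩ := hA.step3 hE hD hrec hnc hM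
  have h5 := h4 N hN hMN
  intro h0
  exact h5 (Nat.eq_zero_of_zero_dvd (h0 ▸ Subgroup.relIndex_dvd_of_le_left _ hle))

/-- Every boomerang subgroup of a subgroup `Γ` of `SL₂(K)` commensurable with `SL₂(A)` is of finite
index or contained in `{1, -1}`. Template: `Boom4c.main` in `Pool/Agent/H/MP_4c7af0_al/Final.lean`;
`Boom4c.IsBoomerang` and `Boom4c.IsBoomerang.rec` are for arbitrary groups and are used from there. -/
theorem SRing.main (hA : SRing A) {e : K} (hE : InfUnit A e) (Γ : Subgroup (SL2 K))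
    (h₁ : (G A).relIndex Γ ≠ 0) (h₂ : Γ.relIndex (G A) ≠ 0) (D : Subgroup Γ)
    (hD : Boom4c.IsBoomerang D) :
    D.FiniteIndex ∨ ∀ δ ∈ D, (δ : SL2 K) = 1 ∨ (δ : SL2 K) = -1 := by
  classical
  set D₁ : Subgroup (SL2 K) := D.map Γ.subtype with hD₁
  have hD₁Γ : D₁ ≤ Γ := by
    rw [hD₁]; exact Subgroup.map_subtype_le D
  -- recurrence for elements of Γ
  have hrec₁ : ∀ γ ∈ Γ, ∀ δ ∈ D₁, ∀ n₀ : ℕ, ∃ n ≥ n₀, γ ^ n * δ * (γ ^ n)⁻¹ ∈ D₁ := by
    intro γ hγ δ hδ n₀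
    obtain ⟨δ', hδ', rfl⟩ := hδ
    obtain ⟨n, hn, h⟩ := hD.rec (⟨γ, hγ⟩ : Γ) hδ' n₀
    exact ⟨n, hn, _, h, by simp⟩
  have hrec₂ : Rec (G A) (D₁ ⊓ G A) := by
    intro γ hγ δ hδ n₀
    obtain ⟨j, hj, hjΓ⟩ := fin_exists_pow_mem h₂ hγ
    obtain ⟨n, hn, h⟩ := hrec₁ _ hjΓ δ hδ.1 n₀
    refine ⟨j * n, hn.le.trans (Nat.le_mul_of_pos_left n hj), ?_⟩
    rw [pow_mul]
    refine ⟨h, ?_⟩
    exact (G A).mul_mem ((G A).mul_mem ((G A).pow_mem ((G A).pow_mem hγ _) _) hδ.2)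
      ((G A).inv_mem ((G A).pow_mem ((G A).pow_mem hγ _) _))
  by_cases hnc : NonCentral (D₁ ⊓ G A)
  · left
    have h3 := hA.main_G hE inf_le_right hrec₂ hnc
    have h4 : (D₁ ⊓ G A).relIndex Γ ≠ 0 := Subgroup.relIndex_ne_zero_trans h3 h₁
    have h6 : D₁.relIndex Γ ≠ 0 := by
      intro h0
      exact h4 (Nat.eq_zero_of_zero_dvd (h0 ▸ Subgroup.relIndex_dvd_of_le_left _ inf_le_left))
    refine ⟨?_⟩
    have : D₁.subgroupOf Γ = D := by
      rw [hD₁]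
      exact Subgroup.comap_map_eq_self_of_injective Γ.subtype_injective D
    rw [Subgroup.relIndex, this] at h6
    exact h6
  · right
    -- every element of `D₁ ⊓ G A` is `±1`
    have hpm : ∀ δ ∈ D₁ ⊓ G A, δ = 1 ∨ δ = -1 := by
      intro δ hδ
      by_contra hcon
      apply hnc
      refine ⟨δ, hδ, ?_⟩
      rintro ⟨h01, h10, h00⟩
      exact hcon (fin_eq_pm_one h01 h10 h00)
    have hfinD : Finite D₁ := by
      have h7 : (G A).relIndex D₁ ≠ 0 := fun h => h₁ (Subgroup.relIndex_eq_zero_of_le_right hD₁Γ h)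
      have hfi : ((G A).subgroupOf D₁).FiniteIndex := ⟨h7⟩
      have hsub : Finite ((G A).subgroupOf D₁) := by
        have hfin2 : Set.Finite ({1, -1} : Set (SL2 K)) := by simp
        have := hfin2.to_subtype
        refine Finite.of_injective (fun x : (G A).subgroupOf D₁ =>
          (⟨((x : D₁) : SL2 K), ?_⟩ : ({1, -1} : Set (SL2 K)))) ?_
        · have := hpm ((x : D₁) : SL2 K) ⟨(x : D₁).2, x.2⟩
          simpa using this
        · intro x y hxy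
          apply Subtype.ext
          apply Subtype.ext
          exact congrArg (fun z : ({1, -1} : Set (SL2 K)) => (z : SL2 K)) hxy
      exact Finite.of_subgroup_quotient ((G A).subgroupOf D₁)
    have hcomm : ∀ γ ∈ Γ, ∀ δ ∈ D₁, ∃ k : ℕ, 0 < k ∧ γ ^ k * δ = δ * γ ^ k := by
      intro γ hγ δ hδ
      have hinf : Set.Infinite {n : ℕ | γ ^ n * δ * (γ ^ n)⁻¹ ∈ D₁} := by
        apply Set.infinite_of_forall_exists_gt
        intro n₀
        obtain ⟨n, hn, h⟩ := hrec₁ γ hγ δ hδ (n₀ + 1)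
        exact ⟨n, h, by omega⟩
      have := hinf.to_subtype
      obtain ⟨x, y, hxy, hf⟩ := Finite.exists_ne_map_eq_of_infinite
        (fun n : {n : ℕ | γ ^ n * δ * (γ ^ n)⁻¹ ∈ D₁} => (⟨γ ^ (n : ℕ) * δ * (γ ^ (n : ℕ))⁻¹, n.2⟩ : D₁))
      have hf' : γ ^ (x : ℕ) * δ * (γ ^ (x : ℕ))⁻¹ = γ ^ (y : ℕ) * δ * (γ ^ (y : ℕ))⁻¹ :=
        congrArg (fun z : D₁ => (z : SL2 K)) hf
      have aux : ∀ a b : ℕ, a < b → γ ^ a * δ * (γ ^ a)⁻¹ = γ ^ b * δ * (γ ^ b)⁻¹ →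
          ∃ k : ℕ, 0 < k ∧ γ ^ k * δ = δ * γ ^ k := by
        intro a b hab h
        refine ⟨b - a, by omega, ?_⟩
        have hb : γ ^ b = γ ^ a * γ ^ (b - a) := by rw [← pow_add]; congr 1; omega
        rw [hb] at h
        have h8 : (γ ^ a)⁻¹ * (γ ^ a * δ * (γ ^ a)⁻¹) * (γ ^ a * γ ^ (b - a))
            = (γ ^ a)⁻¹ * (γ ^ a * γ ^ (b - a) * δ * (γ ^ a * γ ^ (b - a))⁻¹) * (γ ^ a * γ ^ (b - a)) := by
          rw [h]
        have h9 : (γ ^ a)⁻¹ * (γ ^ a * δ * (γ ^ a)⁻¹) * (γ ^ a * γ ^ (b - a)) = δ * γ ^ (b - a) := by group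
        have h10 : (γ ^ a)⁻¹ * (γ ^ a * γ ^ (b - a) * δ * (γ ^ a * γ ^ (b - a))⁻¹) * (γ ^ a * γ ^ (b - a))
            = γ ^ (b - a) * δ := by group
        rw [h9, h10] at h8
        exact h8.symm
      rcases lt_or_gt_of_ne (fun h => hxy (Subtype.ext h) : (x : ℕ) ≠ y) with h | h
      · exact aux _ _ h hf'
      · exact aux _ _ h hf'.symm
    obtain ⟨j₁, hj₁, hu⟩ := fin_exists_pow_mem h₂ (u_mem_G (A := A) A.one_mem)
    obtain ⟨j₂, hj₂, hv⟩ := fin_exists_pow_mem h₂ (v_mem_G (A := A) A.one_mem)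
    intro δ hδ
    have hδ₁ : (δ : SL2 K) ∈ D₁ := ⟨δ, hδ, rfl⟩
    obtain ⟨k₁, hk₁, hc₁⟩ := hcomm _ hu _ hδ₁
    obtain ⟨k₂, hk₂, hc₂⟩ := hcomm _ hv _ hδ₁
    rw [← pow_mul, u_pow, mul_one] at hc₁
    rw [← pow_mul, v_pow, mul_one] at hc₂
    have hj : ((j₁ * k₁ : ℕ) : K) ≠ 0 := by
      have : 0 < j₁ * k₁ := Nat.mul_pos hj₁ hk₁
      exact_mod_cast this.ne'
    have hj' : ((j₂ * k₂ : ℕ) : K) ≠ 0 := by
      have : 0 < j₂ * k₂ := Nat.mul_pos hj₂ hk₂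
      exact_mod_cast this.ne'
    have e1 := congrArg (fun z : SL2 K => z 0 0) hc₁
    have e2 := congrArg (fun z : SL2 K => z 0 0) hc₂
    have e3 := congrArg (fun z : SL2 K => z 0 1) hc₁
    simp only [mul_app, u_00, u_01, u_10, u_11, v_00, v_01, v_10] at e1 e2 e3
    have h10 : (δ : SL2 K) 1 0 = 0 := by
      have : ((j₁ * k₁ : ℕ) : K) * (δ : SL2 K) 1 0 = 0 := by linear_combination e1
      exact (mul_eq_zero.1 this).resolve_left hj
    have h01 : (δ : SL2 K) 0 1 = 0 := by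
      have : ((j₂ * k₂ : ℕ) : K) * (δ : SL2 K) 0 1 = 0 := by linear_combination -e2
      exact (mul_eq_zero.1 this).resolve_left hj'
    have h00 : (δ : SL2 K) 0 0 = (δ : SL2 K) 1 1 := by
      have : ((j₁ * k₁ : ℕ) : K) * ((δ : SL2 K) 0 0 - (δ : SL2 K) 1 1) = 0 := by
        linear_combination -e3
      exact sub_eq_zero.1 ((mul_eq_zero.1 this).resolve_left hj)
    exact fin_eq_pm_one h01 h10 h00

end BoomNF
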