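import Pool.Agent.H.MP_4c7af0_al.NF.Rng1

/-! Good elements, part 1 (MP_4c7af0_al, number field case). -/

namespace BoomNF

open NumberField

variable {K : Type*} [Field K] [NumberField K] {A : Subring K}

theorem good1_coe (s : ℤ) (z : 𝓞 K) : (((s : 𝓞 K) * z : 𝓞 K) : K) = (s : K) * (z : K) := by
  have h1 : (((s : 𝓞 K) * z : 𝓞 K) : K) = ((s : 𝓞 K) : K) * (z : K) := rfl
  have h2 : ((s : 𝓞 K) : K) = (s : K) := map_intCast (algebraMap (𝓞 K) K) s
  rw [h1, h2]

theorem good1_integral_iff (α : K) (n : ℤ) :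
    IsIntegral ℤ (n • α) ↔ ∃ z : 𝓞 K, (z : K) = (n : K) * α := by
  constructor
  · intro h
    have h2 := (IsIntegralClosure.isIntegral_iff (A := 𝓞 K) (R := ℤ) (B := K)).1 h
    obtain ⟨z, hz⟩ := h2
    exact ⟨z, by rw [← zsmul_eq_mul]; exact hz⟩
  · rintro ⟨z, hz⟩
    rw [zsmul_eq_mul, ← hz]
    exact (IsIntegralClosure.isIntegral_iff (A := 𝓞 K) (R := ℤ) (B := K)).2 ⟨z, rfl⟩

/-- a primitive element and a multiple in `O_K`. -/
theorem good1_prim (K : Type*) [Field K] [NumberField K] : ∃ (α : K) (n : ℤ) (z : 𝓞 K), n ≠ 0 ∧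
    IntermediateField.adjoin ℚ {α} = ⊤ ∧ (n : K) * α = (z : K) := by
  obtain ⟨α, hα⟩ := Field.exists_primitive_element ℚ K
  have halg : IsAlgebraic ℤ α :=
    (IsFractionRing.isAlgebraic_iff ℤ ℚ K).2 (Algebra.IsAlgebraic.isAlgebraic α)
  obtain ⟨n, hn, hint⟩ := halg.exists_integral_multiple
  obtain ⟨z, hz⟩ := (good1_integral_iff α n).1 hint
  exact ⟨α, n, z, hn, hα, hz.symm⟩

/-- Proof: let `θ₀ ∈ O_K` be a primitive element of `K / ℚ` (an integer multiple of a primitive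
element). There are only finitely many intermediate fields of `K / ℚ`, so two of the elements
`x + M s θ₀` (`s ∈ ℤ`) generate the same field `L`, say for `s ≠ s'`. Then `(s - s') M θ₀ ∈ L`, so
`θ₀ ∈ L` and `L = K`. Take `θ = s θ₀`. -/
theorem exists_prim (x : K) {M : ℕ} (hM : 0 < M) : ∃ θ : 𝓞 K,
    IntermediateField.adjoin ℚ {x + (M : K) * (θ : K)} = ⊤ := by
  obtain ⟨α, n, z, hn, hα, hz⟩ := good1_prim K
  haveI : Finite (IntermediateField ℚ K) :=
    (Field.exists_primitive_element_iff_finite_intermediateField ℚ K).1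
      ⟨inferInstance, α, hα⟩
  obtain ⟨s, s', hne, heq⟩ := Finite.exists_ne_map_eq_of_infinite
    (fun s : ℤ => IntermediateField.adjoin ℚ {x + (M : K) * (((s : 𝓞 K) * z : 𝓞 K) : K)})
  refine ⟨(s : 𝓞 K) * z, ?_⟩
  rw [eq_top_iff, ← hα, IntermediateField.adjoin_simple_le_iff]
  obtain ⟨L, hL⟩ : ∃ L, L = IntermediateField.adjoin ℚ {x + (M : K) * (((s : 𝓞 K) * z : 𝓞 K) : K)} :=
    ⟨_, rfl⟩
  have h1 : x + (M : K) * (((s : 𝓞 K) * z : 𝓞 K) : K) ∈ L := by
    rw [hL]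
    exact IntermediateField.mem_adjoin_simple_self ℚ _
  have h2 : x + (M : K) * (((s' : 𝓞 K) * z : 𝓞 K) : K) ∈ L := by
    rw [hL, heq]
    exact IntermediateField.mem_adjoin_simple_self ℚ _
  rw [← hL]
  have h3 := L.sub_mem h1 h2
  have e : (x + (M : K) * (((s : 𝓞 K) * z : 𝓞 K) : K)) - (x + (M : K) * (((s' : 𝓞 K) * z : 𝓞 K) : K)) =
      (((s - s') * M * n : ℤ) : K) * α := by
    rw [good1_coe, good1_coe, ← hz]
    push_cast
    ring
  rw [e] at h3
  have hne0 : (((s - s') * M * n : ℤ) : K) ≠ 0 := by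
    have : ((s - s') * M * n : ℤ) ≠ 0 := by
      have h4 : s - s' ≠ 0 := sub_ne_zero.2 hne
      have h5 : (M : ℤ) ≠ 0 := by exact_mod_cast hM.ne'
      exact mul_ne_zero (mul_ne_zero h4 h5) hn
    exact_mod_cast this
  have h6 : (((s - s') * M * n : ℤ) : K)⁻¹ * ((((s - s') * M * n : ℤ) : K) * α) ∈ L :=
    L.mul_mem (L.inv_mem (intCast_mem L _)) h3
  rwa [← mul_assoc, inv_mul_cancel₀ hne0, one_mul] at h6

/-- rational combinations of powers. -/
theorem good1_rat {a b : K} (hb0 : b ≠ 0)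
    (hgen : IntermediateField.adjoin ℚ {a / b} = ⊤) (x : K) :
    ∃ p : ℕ → ℚ, x = ∑ i ∈ Finset.range (Module.finrank ℚ K),
      (p i : K) * (a ^ i * b ^ (Module.finrank ℚ K - 1 - i)) := by
  have hn := (Field.primitive_element_iff_minpoly_natDegree_eq ℚ (a / b)).1 hgen
  have hmem : x / b ^ (Module.finrank ℚ K - 1) ∈ Algebra.adjoin ℚ {a / b} := by
    rw [← IntermediateField.adjoin_toSubalgebra, hgen]
    exact Algebra.mem_top
  rw [Algebra.adjoin_singleton_eq_range_aeval] at hmem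
  obtain ⟨q, hq⟩ := hmem
  have hint : IsIntegral ℚ (a / b) := Algebra.IsIntegral.isIntegral _
  obtain ⟨r, hr⟩ : ∃ r, r = q %ₘ minpoly ℚ (a / b) := ⟨_, rfl⟩
  have hr1 : Polynomial.aeval (a / b) r = x / b ^ (Module.finrank ℚ K - 1) := by
    rw [hr, minpoly.aeval_modByMonic_minpoly]
    exact hq
  have hr2 : r.natDegree < Module.finrank ℚ K := by
    rw [hr, ← hn]
    exact Polynomial.natDegree_modByMonic_lt _ (minpoly.monic hint) (minpoly.ne_one ℚ (a / b))
  refine ⟨fun i => r.coeff i, ?_⟩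
  have hx : x = b ^ (Module.finrank ℚ K - 1) * Polynomial.aeval (a / b) r := by
    rw [hr1, mul_div_cancel₀ _ (pow_ne_zero _ hb0)]
  rw [hx, Polynomial.aeval_eq_sum_range' hr2, Finset.mul_sum]
  refine Finset.sum_congr rfl ?_
  intro i hi
  have hi' := Finset.mem_range.1 hi
  have e : b ^ (Module.finrank ℚ K - 1) = b ^ i * b ^ (Module.finrank ℚ K - 1 - i) := by
    rw [← pow_add]
    congr 1
    omega
  rw [e, Algebra.smul_def, div_pow]
  have hbi : b ^ i ≠ 0 := pow_ne_zero _ hb0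
  rw [eq_ratCast]
  field_simp

/-- some multiple is an integer combination. -/
theorem good1_int {a b : K} (hb0 : b ≠ 0)
    (hgen : IntermediateField.adjoin ℚ {a / b} = ⊤) (x : K) :
    ∃ D : ℕ, 0 < D ∧ (D : K) * x ∈ AddSubgroup.closure
      {w : K | ∃ i < Module.finrank ℚ K, w = a ^ i * b ^ (Module.finrank ℚ K - 1 - i)} := by
  obtain ⟨p, hp⟩ := good1_rat hb0 hgen x
  refine ⟨∏ i ∈ Finset.range (Module.finrank ℚ K), (p i).den,
    Finset.prod_pos (fun i _ => (p i).den_pos), ?_⟩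
  rw [hp, Finset.mul_sum]
  refine AddSubgroup.sum_mem _ ?_
  intro i hi
  obtain ⟨c, hc⟩ := Finset.dvd_prod_of_mem (fun i => (p i).den) hi
  have e : ((∏ i ∈ Finset.range (Module.finrank ℚ K), (p i).den : ℕ) : K) *
      ((p i : K) * (a ^ i * b ^ (Module.finrank ℚ K - 1 - i))) =
      ((c : ℤ) * (p i).num) • (a ^ i * b ^ (Module.finrank ℚ K - 1 - i)) := by
    have h1 : ((p i).den : K) * (p i : K) = ((p i).num : K) := by
      have h := Rat.den_mul_eq_num (p i)
      have h' : (((p i).den * (p i) : ℚ) : K) = (((p i).num : ℚ) : K) := by rw [h]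
      push_cast at h'
      exact h'
    rw [hc, zsmul_eq_mul]
    push_cast
    rw [← h1]
    ring
  rw [e]
  refine AddSubgroup.zsmul_mem _ (AddSubgroup.subset_closure ?_) _
  exact ⟨i, Finset.mem_range.1 hi, rfl⟩

/-- one multiple for all integers. -/
theorem good1_all {a b : K} (hb0 : b ≠ 0)
    (hgen : IntermediateField.adjoin ℚ {a / b} = ⊤) :
    ∃ D : ℕ, 0 < D ∧ ∀ x : 𝓞 K, (D : K) * (x : K) ∈ AddSubgroup.closure
      {w : K | ∃ i < Module.finrank ℚ K, w = a ^ i * b ^ (Module.finrank ℚ K - 1 - i)} := by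
  obtain ⟨S, hS⟩ := (Module.Finite.fg_top : (⊤ : Submodule ℤ (𝓞 K)).FG)
  choose D hD0 hD using fun x : 𝓞 K => good1_int hb0 hgen (x : K)
  refine ⟨∏ s ∈ S, D s, Finset.prod_pos (fun s _ => hD0 s), ?_⟩
  intro x
  have hx : x ∈ Submodule.span ℤ (S : Set (𝓞 K)) := by rw [hS]; exact Submodule.mem_top
  induction hx using Submodule.span_induction with
  | mem s hs =>
    obtain ⟨c, hc⟩ := Finset.dvd_prod_of_mem D (Finset.mem_coe.1 hs)
    have e : ((∏ s ∈ S, D s : ℕ) : K) * (s : K) = (c : ℕ) • ((D s : K) * (s : K)) := by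
      rw [hc, nsmul_eq_mul]
      push_cast
      ring
    rw [e]
    exact AddSubgroup.nsmul_mem _ (hD s) _
  | zero => simp [AddSubgroup.zero_mem]
  | add u v _ _ hu hv =>
    have e : ((∏ s ∈ S, D s : ℕ) : K) * ((u + v : 𝓞 K) : K) =
        ((∏ s ∈ S, D s : ℕ) : K) * (u : K) + ((∏ s ∈ S, D s : ℕ) : K) * (v : K) := by
      push_cast
      ring
    rw [e]
    exact AddSubgroup.add_mem _ hu hv
  | smul r u _ hu =>
    have e : ((∏ s ∈ S, D s : ℕ) : K) * ((r • u : 𝓞 K) : K) =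
        r • (((∏ s ∈ S, D s : ℕ) : K) * (u : K)) := by
      rw [zsmul_eq_mul, zsmul_eq_mul, good1_coe]
      ring
    rw [e]
    exact AddSubgroup.zsmul_mem _ hu _

/-- the residue of a monomial. -/
theorem good1_mono {a b : K} (ha : a ∈ A) (hb : b ∈ A) (t : ℤ) {n i : ℕ} (hi : i < n) :
    (a ^ i * b ^ (n - 1 - i) - b ^ (n - 1) * ((-t) ^ i : ℤ)) / (a + b * (t : K)) ∈ A := by
  have h1 : (⟨a, ha⟩ : A) - (-(⟨b, hb⟩ * (t : A))) ∣ (⟨a, ha⟩ : A) ^ i - (-(⟨b, hb⟩ * (t : A))) ^ i :=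
    sub_dvd_pow_sub_pow _ _ i
  obtain ⟨c, hc⟩ := h1
  have h2 : a ^ i - (-(b * (t : K))) ^ i = (a + b * (t : K)) * (c : K) := by
    have h3 := congrArg A.subtype hc
    rw [map_sub, map_mul, map_sub, map_pow, map_pow, map_neg, map_mul, map_intCast,
      sub_neg_eq_add] at h3
    exact h3
  have e : a ^ i * b ^ (n - 1 - i) - b ^ (n - 1) * (((-t) ^ i : ℤ) : K) =
      b ^ (n - 1 - i) * ((a + b * (t : K)) * (c : K)) := by
    have e1 : b ^ (n - 1) = b ^ (n - 1 - i) * b ^ i := by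
      rw [← pow_add]
      congr 1
      omega
    rw [← h2, e1]
    push_cast
    have e2 : (-(b * (t : K))) ^ i = b ^ i * (-(t : K)) ^ i := by
      rw [← mul_pow]
      congr 1
      ring
    rw [e2]
    ring
  rw [e]
  rcases eq_or_ne (a + b * (t : K)) 0 with h0 | h0
  · rw [h0, div_zero]
    exact A.zero_mem
  · have e3 : b ^ (n - 1 - i) * ((a + b * (t : K)) * (c : K)) / (a + b * (t : K)) =
        b ^ (n - 1 - i) * (c : K) := by
      field_simp
    rw [e3]
    exact A.mul_mem (A.pow_mem hb _) c.2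

/-- Let `n = [K : ℚ]` and `a / b` a primitive element. The elements `a^i b^(n-1-i)` (`i < n`) form a
`ℚ`-basis of `K`, so there is `D ≥ 1` with `D O_K ⊆ ∑_i ℤ a^i b^(n-1-i)` (`O_K` is a finitely
generated `ℤ`-module). Modulo `c = a + b t` we have `a ≡ - b t`, so
`D x = ∑ z_i a^i b^(n-1-i) ≡ b^(n-1) ∑ z_i (-t)^i`. (If `a + b t = 0` the claim is trivial, as
`x / 0 = 0`.) -/
theorem SRing.lattice (hA : SRing A) {a b : K} (ha : a ∈ A) (hb : b ∈ A) (hb0 : b ≠ 0)
    (hgen : IntermediateField.adjoin ℚ {a / b} = ⊤) :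
    ∃ D : ℕ, 0 < D ∧ ∀ t : ℤ, ∀ x : 𝓞 K, ∃ z : ℤ,
      ((D : K) * (x : K) - b ^ (Module.finrank ℚ K - 1) * (z : K)) / (a + b * (t : K)) ∈ A := by
  obtain ⟨D, hD0, hD⟩ := good1_all hb0 hgen
  refine ⟨D, hD0, ?_⟩
  intro t x
  have key : ∀ w ∈ AddSubgroup.closure
      {w : K | ∃ i < Module.finrank ℚ K, w = a ^ i * b ^ (Module.finrank ℚ K - 1 - i)},
      ∃ z : ℤ, (w - b ^ (Module.finrank ℚ K - 1) * (z : K)) / (a + b * (t : K)) ∈ A := by
    intro w hw
    induction hw using AddSubgroup.closure_induction with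
    | mem w hw =>
      obtain ⟨i, hi, rfl⟩ := hw
      exact ⟨(-t) ^ i, good1_mono ha hb t hi⟩
    | zero => exact ⟨0, by simp [A.zero_mem]⟩
    | add u v _ _ hu hv =>
      obtain ⟨z1, h1⟩ := hu
      obtain ⟨z2, h2⟩ := hv
      refine ⟨z1 + z2, ?_⟩
      have e : (u + v - b ^ (Module.finrank ℚ K - 1) * ((z1 + z2 : ℤ) : K)) / (a + b * (t : K)) =
          (u - b ^ (Module.finrank ℚ K - 1) * (z1 : K)) / (a + b * (t : K)) +
          (v - b ^ (Module.finrank ℚ K - 1) * (z2 : K)) / (a + b * (t : K)) := by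
        rw [← add_div]
        push_cast
        congr 1
        ring
      rw [e]
      exact A.add_mem h1 h2
    | neg u _ hu =>
      obtain ⟨z1, h1⟩ := hu
      refine ⟨-z1, ?_⟩
      have e : (-u - b ^ (Module.finrank ℚ K - 1) * ((-z1 : ℤ) : K)) / (a + b * (t : K)) =
          -((u - b ^ (Module.finrank ℚ K - 1) * (z1 : K)) / (a + b * (t : K))) := by
        rw [← neg_div]
        push_cast
        congr 1
        ring
      rw [e]
      exact A.neg_mem h1
  exact key _ (hD x)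

end BoomNF
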