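import Pool.Agent.H.MP_4c7af0_al.NF.Sint
import Pool.Agent.H.MP_4c7af0_al.NF.S1a

/-! Existence of units of infinite order (MP_4c7af0_al, number field case). -/

namespace BoomNF

open NumberField IsDedekindDomain

variable {K : Type*} [Field K] [NumberField K]

/-- if `K` has at least two infinite places then `O_K` has a unit of infinite order (Dirichlet's unit
theorem, `NumberField.Units.rank`) -/
theorem exists_unit (hK : 2 ≤ Fintype.card (InfinitePlace K)) :
    ∃ ε : (𝓞 K)ˣ, ∀ k : ℕ, 0 < k → ε ^ k ≠ 1 := by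
  have hr : 0 < NumberField.Units.rank K := by
    unfold NumberField.Units.rank
    omega
  refine ⟨NumberField.Units.fundSystem K ⟨0, hr⟩, fun k hk h => ?_⟩
  have h1 := NumberField.Units.logEmbedding_fundSystem (K := K) ⟨0, hr⟩
  have h2 : k • NumberField.Units.logEmbedding K
      (Additive.ofMul (NumberField.Units.fundSystem K ⟨0, hr⟩)) = 0 := by
    rw [← map_nsmul, ← ofMul_pow, h, ofMul_one, map_zero]
  have h3 : NumberField.Units.logEmbedding K
      (Additive.ofMul (NumberField.Units.fundSystem K ⟨0, hr⟩)) = 0 :=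
    (smul_eq_zero.1 h2).resolve_left hk.ne'
  rw [h1] at h3
  exact (NumberField.Units.basisUnitLattice K).ne_zero ⟨0, hr⟩ (Subtype.ext h3)

/-- if `v ∈ S` then a generator of `v^h` (`h` the class number) is an `S`-unit of infinite order -/
theorem exists_sunit (S : Set (HeightOneSpectrum (𝓞 K))) {v : HeightOneSpectrum (𝓞 K)}
    (hv : v ∈ S) : ∃ e : K, InfUnit (S.integer K).toSubring e := by
  have hvne : v.asIdeal ∈ nonZeroDivisors (Ideal (𝓞 K)) :=
    mem_nonZeroDivisors_of_ne_zero v.ne_bot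
  obtain ⟨h, hh0, hh⟩ : ∃ h : ℕ, 0 < h ∧ (v.asIdeal ^ h).IsPrincipal := by
    refine ⟨Fintype.card (ClassGroup (𝓞 K)), Fintype.card_pos, ?_⟩
    have h1 : ClassGroup.mk0 (⟨v.asIdeal, hvne⟩ ^ Fintype.card (ClassGroup (𝓞 K))) = 1 := by
      rw [map_pow, pow_card_eq_one]
    exact (ClassGroup.mk0_eq_one_iff (pow_mem hvne _)).1 h1
  obtain ⟨y, hy⟩ := hh.principal
  rw [← Ideal.span] at hy
  have hy0 : y ≠ 0 := by
    rintro rfl
    rw [Ideal.span_singleton_zero] at hy
    exact v.ne_bot (eq_bot_iff.2 (fun z hz => by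
      have h2 : z ^ h ∈ v.asIdeal ^ h := Ideal.pow_mem_pow hz h
      rw [hy, Ideal.mem_bot] at h2
      rw [Ideal.mem_bot]
      exact pow_eq_zero_iff hh0.ne' |>.1 h2))
  have hyu : ¬ IsUnit y := by
    intro hu
    rw [Ideal.span_singleton_eq_top.2 hu] at hy
    exact v.isPrime.ne_top (Ideal.eq_top_iff_one _ |>.2 (by
      have h3 : (1 : 𝓞 K) ∈ v.asIdeal ^ h := by rw [hy]; trivial
      exact Ideal.pow_le_self hh0.ne' h3))
  have hyK : (y : K) ≠ 0 := by
    exact_mod_cast hy0
  refine ⟨(y : K), hyK, ?_, ?_, ?_⟩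
  · exact (S.integer K).algebraMap_mem y
  · intro w hw
    have hyw : y ∉ w.asIdeal := by
      intro hyw
      have h4 : v.asIdeal ^ h ≤ w.asIdeal := by
        rw [hy, Ideal.span_singleton_le_iff_mem]
        exact hyw
      have h5 : v.asIdeal ≤ w.asIdeal := w.isPrime.le_of_pow_le h4
      have h6 : v = w := HeightOneSpectrum.ext
        ((v.isMaximal.eq_of_le w.isPrime.ne_top h5))
      rw [h6] at hv
      exact hw hv
    have h7 : w.valuation K (y : K) = 1 := (w.valuation_eq_one_iff_notMem (K := K)).2 hyw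
    rw [map_inv₀, h7, inv_one]
  · intro k hk hyk
    apply hyu
    have h8 : y ^ k = 1 := by
      exact_mod_cast hyk
    exact IsUnit.of_pow_eq_one h8 hk.ne'

/-- a unit of infinite order in the ring of `S`-integers if `|S| + #{infinite places} ≥ 2` -/
theorem exists_infUnit (S : Set (HeightOneSpectrum (𝓞 K))) (hS : S.Finite)
    (h : 2 ≤ Fintype.card (InfinitePlace K) + S.ncard) :
    ∃ e : K, InfUnit (S.integer K).toSubring e := by
  by_cases hK : 2 ≤ Fintype.card (InfinitePlace K)
  · obtain ⟨ε, hε⟩ := exists_unit hK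
    refine ⟨((ε : 𝓞 K) : K), ?_, (S.integer K).algebraMap_mem _, ?_, ?_⟩
    · exact_mod_cast ε.ne_zero
    · have h1 : (((ε : 𝓞 K) : K))⁻¹ = (((ε⁻¹ : (𝓞 K)ˣ) : 𝓞 K) : K) := by
        refine inv_eq_of_mul_eq_one_right ?_
        rw [← map_mul, ← Units.val_mul, mul_inv_cancel, Units.val_one, map_one]
      rw [h1]
      exact (S.integer K).algebraMap_mem _
    · intro k hk h2
      apply hε k hk
      apply Units.ext
      rw [Units.val_pow_eq_pow_val, Units.val_one]
      exact_mod_cast h2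
  · have h1 : S.ncard ≠ 0 := by omega
    obtain ⟨v, hv⟩ := Set.nonempty_of_ncard_ne_zero h1
    exact exists_sunit S hv

end BoomNF
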