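import Mathlib

/-! Elementary number theory (MP_4c7af0_al, number field case): choice of primes `q, q'` with a small
`gcd(q^h - 1, q'^h - 1)`. -/

namespace BoomNF

theorem nt_coprime_one_add (R a : ℤ) : IsCoprime (1 + R * a) R := ⟨1, -a, by ring⟩

/-- `x ≡ 1 + R² mod R³` and `h ∣ R`, `h ≥ 1`: then `x^h - 1 = h R² w` with `w` prime to `R`.
(`x^h - 1 = (x - 1) (1 + x + ⋯ + x^(h-1))`, `x - 1 = R² (1 + R *)`,
`1 + ⋯ + x^(h-1) ≡ h mod R²`, so it is `h (1 + R *)` as `R² / h ∈ R ℤ`.) -/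
theorem pow_sub_one_eq {R h : ℕ} (hR : 0 < R) (hh : 0 < h) (hhR : h ∣ R) {x : ℤ}
    (hx : (R : ℤ) ^ 3 ∣ x - 1 - (R : ℤ) ^ 2) :
    ∃ w : ℤ, x ^ h - 1 = h * (R : ℤ) ^ 2 * w ∧ IsCoprime w (R : ℤ) := by
  obtain ⟨k, hk⟩ := hx
  obtain ⟨R', hR'⟩ := hhR
  have h1 : x - 1 = (R : ℤ) ^ 2 * (1 + R * k) := by linear_combination hk
  have h2 : ((R : ℤ) ^ 2) ∣ (∑ i ∈ Finset.range h, x ^ i) - h := by
    have h3 : (∑ i ∈ Finset.range h, x ^ i) - (h : ℤ) = ∑ i ∈ Finset.range h, (x ^ i - 1) := by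
      rw [Finset.sum_sub_distrib]
      simp
    rw [h3]
    refine Finset.dvd_sum fun i _ => ?_
    have h4 : x - 1 ∣ x ^ i - 1 := by simpa using sub_dvd_pow_sub_pow x 1 i
    exact (Dvd.intro _ h1.symm).trans h4
  obtain ⟨s, hs⟩ := h2
  refine ⟨(1 + R * k) * (1 + R * (R' * s)), ?_, ?_⟩
  · have h5 : (R : ℤ) = h * R' := by exact_mod_cast hR'
    have h6 : x ^ h - 1 = (∑ i ∈ Finset.range h, x ^ i) * (x - 1) := (geom_sum_mul x h).symm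
    have h7 : (∑ i ∈ Finset.range h, x ^ i) = h + (R : ℤ) ^ 2 * s := by linear_combination hs
    have h8 : (R : ℤ) ^ 2 * s = h * (R * (R' * s)) := by
      linear_combination (R : ℤ) * s * h5
    rw [h6, h7, h8, h1]
    ring
  · exact (nt_coprime_one_add _ _).mul_left (nt_coprime_one_add _ _)

/-- for a prime `l > h + 1` there is a residue class `ρ` mod `l` prime to `l` with `ρ^h ≢ 1`
(a primitive root mod `l`) -/
theorem exists_rho {l h : ℕ} (hl : l.Prime) (hh : 0 < h) (hlh : h + 1 < l) :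
    ∃ ρ : ℤ, IsCoprime ρ (l : ℤ) ∧ ¬ (l : ℤ) ∣ ρ ^ h - 1 := by
  have : Fact l.Prime := ⟨hl⟩
  obtain ⟨g, hg⟩ := IsCyclic.exists_generator (α := (ZMod l)ˣ)
  have h1 : orderOf g = l - 1 := by
    rw [orderOf_eq_card_of_forall_mem_zpowers hg, Nat.card_eq_fintype_card, ZMod.card_units_eq_totient,
      Nat.totient_prime hl]
  refine ⟨((g : ZMod l).val : ℤ), ?_, ?_⟩
  · exact (ZMod.val_coe_unit_coprime g).isCoprime
  · intro hd
    rw [← ZMod.intCast_zmod_eq_zero_iff_dvd] at hd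
    push_cast at hd
    rw [ZMod.natCast_val, ZMod.cast_id', id, sub_eq_zero] at hd
    have h2 : g ^ h = 1 := Units.ext (by rw [Units.val_pow_eq_pow_val, hd, Units.val_one])
    have h3 := orderOf_dvd_of_pow_eq_one h2
    have h4 := Nat.le_of_dvd hh h3
    omega

/-- Let `(h + 1)! ∣ R`. For every `W ≥ 1` there is `z ≥ 1` with `z ≡ 1 + R² mod R³` and, for every
prime `l ∣ W` with `l ∤ R` (so `l > h + 1`), `l ∤ z` and `l ∤ z^h - 1`. (Chinese remainder theorem.) -/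
theorem exists_z {R h W : ℕ} (hR : 0 < R) (hh : 0 < h) (hhR : (h + 1).factorial ∣ R) (hW : 0 < W) :
    ∃ z : ℕ, 0 < z ∧ (R : ℤ) ^ 3 ∣ (z : ℤ) - 1 - (R : ℤ) ^ 2 ∧
      ∀ l : ℕ, l.Prime → l ∣ W → ¬ l ∣ R → ¬ l ∣ z ∧ ¬ (l : ℤ) ∣ (z : ℤ) ^ h - 1 := by
  classical
  have hbig : ∀ l : ℕ, l.Prime → ¬ l ∣ R → h + 1 < l := by
    intro l hl hlR
    by_contra hcon
    exact hlR ((hl.dvd_factorial.2 (not_lt.1 hcon)).trans hhR)
  have hρ : ∀ l : ℕ, ∃ ρ : ℕ, l.Prime → ¬ l ∣ R → ¬ l ∣ ρ ∧ ¬ (l : ℤ) ∣ (ρ : ℤ) ^ h - 1 := by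
    intro l
    by_cases hl : l.Prime ∧ ¬ l ∣ R
    · obtain ⟨ρ, h1, h2⟩ := exists_rho hl.1 hh (hbig l hl.1 hl.2)
      have hl0 : (0 : ℤ) < l := by exact_mod_cast hl.1.pos
      have h3 : ((ρ % l).toNat : ℤ) = ρ % l := Int.toNat_of_nonneg (Int.emod_nonneg _ hl0.ne')
      have h4 : (l : ℤ) ∣ ρ - ((ρ % l).toNat : ℤ) := by
        rw [h3]
        exact Int.dvd_self_sub_emod
      refine ⟨(ρ % l).toNat, fun _ _ => ⟨fun h5 => ?_, fun h5 => ?_⟩⟩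
      · have h6 : (l : ℤ) ∣ ((ρ % l).toNat : ℤ) := by exact_mod_cast h5
        have h7 : (l : ℤ) ∣ ρ := by
          have := dvd_add h4 h6
          rwa [sub_add_cancel] at this
        have h8 := h1.isUnit_of_dvd' h7 dvd_rfl
        exact (Nat.prime_iff_prime_int.1 hl.1).not_isUnit h8
      · apply h2
        have h6 : ρ - ((ρ % l).toNat : ℤ) ∣ ρ ^ h - ((ρ % l).toNat : ℤ) ^ h :=
          sub_dvd_pow_sub_pow _ _ h
        have h7 := dvd_add (h4.trans h6) h5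
        have h8 : ρ ^ h - ((ρ % l).toNat : ℤ) ^ h + (((ρ % l).toNat : ℤ) ^ h - 1) = ρ ^ h - 1 := by
          ring
        rwa [h8] at h7
    · exact ⟨0, fun h1 h2 => absurd ⟨h1, h2⟩ hl⟩
  choose ρ hρ using hρ
  set P := W.primeFactors.filter fun l => ¬ l ∣ R with hP
  have hPp : ∀ l ∈ P, l.Prime := fun l hl => Nat.prime_of_mem_primeFactors (Finset.mem_filter.1 hl).1
  obtain ⟨z1, hz1⟩ := Nat.chineseRemainderOfFinset ρ id P (fun l hl => (hPp l hl).ne_zero)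
    (by
      intro a ha b hb hab
      exact (Nat.coprime_primes (hPp a ha) (hPp b hb)).2 hab)
  have hco : Nat.Coprime (R ^ 3) (∏ l ∈ P, l) := by
    refine Nat.Coprime.prod_right fun l hl => ?_
    refine Nat.Coprime.pow_left _ ?_
    exact ((hPp l hl).coprime_iff_not_dvd.2 (Finset.mem_filter.1 hl).2).symm
  obtain ⟨z2, hz2, hz2'⟩ := Nat.chineseRemainder hco (1 + R ^ 2) z1
  have hPpos : 0 < ∏ l ∈ P, l := Finset.prod_pos fun l hl => (hPp l hl).pos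
  refine ⟨z2 + R ^ 3 * ∏ l ∈ P, l, by positivity, ?_, ?_⟩
  · have h1 : z2 + R ^ 3 * ∏ l ∈ P, l ≡ 1 + R ^ 2 [MOD R ^ 3] := by
      have h2 : R ^ 3 * ∏ l ∈ P, l ≡ 0 [MOD R ^ 3] :=
        (Nat.modEq_zero_iff_dvd).2 (dvd_mul_right _ _)
      simpa using hz2.add h2
    have h2 := (Nat.modEq_iff_dvd).1 h1.symm
    push_cast at h2 ⊢
    have h3 : ((z2 : ℤ) + (R : ℤ) ^ 3 * ∏ l ∈ P, (l : ℤ)) - 1 - (R : ℤ) ^ 2 =
        (z2 : ℤ) + (R : ℤ) ^ 3 * ∏ l ∈ P, (l : ℤ) - (1 + (R : ℤ) ^ 2) := by ring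
    rw [h3]
    exact h2
  · intro l hl hlW hlR
    have hlP : l ∈ P := Finset.mem_filter.2 ⟨Nat.mem_primeFactors.2 ⟨hl, hlW, hW.ne'⟩, hlR⟩
    have hmod : z2 + R ^ 3 * ∏ l ∈ P, l ≡ ρ l [MOD l] := by
      have h1 : z2 ≡ z1 [MOD l] := hz2'.of_dvd (Finset.dvd_prod_of_mem _ hlP)
      have h2 : z1 ≡ ρ l [MOD l] := hz1 l hlP
      have h3 : R ^ 3 * ∏ l ∈ P, l ≡ 0 [MOD l] :=
        (Nat.modEq_zero_iff_dvd).2 ((Finset.dvd_prod_of_mem _ hlP).mul_left _)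
      simpa using (h1.trans h2).add h3
    set z := z2 + R ^ 3 * ∏ l ∈ P, l with hz
    obtain ⟨g1, g2⟩ := hρ l hl hlR
    constructor
    · intro h1
      exact g1 ((hmod.dvd_iff dvd_rfl).1 h1)
    · intro h1
      apply g2
      have h4 : (l : ℤ) ∣ (ρ l : ℤ) - (z : ℤ) := (Nat.modEq_iff_dvd).1 hmod
      have h6 : (ρ l : ℤ) - (z : ℤ) ∣ (ρ l : ℤ) ^ h - (z : ℤ) ^ h := sub_dvd_pow_sub_pow _ _ h
      have h7 := dvd_add (h4.trans h6) h1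
      have h8 : (ρ l : ℤ) ^ h - (z : ℤ) ^ h + ((z : ℤ) ^ h - 1) = (ρ l : ℤ) ^ h - 1 := by ring
      rwa [h8] at h7

/-- consequences of the properties of `z` (`z^h - 1 = h R² w`, `w` prime to `R` and to `W`) -/
theorem z_props {R h W z : ℕ} (hR : 0 < R) (hh : 0 < h) (hhR : (h + 1).factorial ∣ R) (hW : 0 < W)
    (hz : 0 < z) (h1 : (R : ℤ) ^ 3 ∣ (z : ℤ) - 1 - (R : ℤ) ^ 2)
    (h2 : ∀ l : ℕ, l.Prime → l ∣ W → ¬ l ∣ R → ¬ l ∣ z ∧ ¬ (l : ℤ) ∣ (z : ℤ) ^ h - 1) :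
    Nat.Coprime z (W * R) ∧ Nat.gcd (z ^ h - 1) W ∣ h * R ^ 2 := by
  have hhR' : h ∣ R := (Nat.dvd_factorial hh (Nat.le_succ h)).trans hhR
  obtain ⟨w, hw, hwR⟩ := pow_sub_one_eq hR hh hhR' h1
  have hzR : ∀ l : ℕ, l.Prime → l ∣ z → l ∣ R → False := by
    intro l hl g1 g2
    have g3 : (l : ℤ) ∣ (R : ℤ) := by exact_mod_cast g2
    have g4 : (l : ℤ) ∣ (z : ℤ) := by exact_mod_cast g1
    have g5 : (l : ℤ) ∣ (z : ℤ) - 1 - (R : ℤ) ^ 2 := (dvd_pow g3 three_ne_zero).trans h1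
    have g6 : (l : ℤ) ∣ 1 := by
      have g7 := dvd_sub (dvd_sub g4 (dvd_pow g3 two_ne_zero)) g5
      have g8 : (z : ℤ) - (R : ℤ) ^ 2 - ((z : ℤ) - 1 - (R : ℤ) ^ 2) = 1 := by ring
      rwa [g8] at g7
    exact (Nat.prime_iff_prime_int.1 hl).not_dvd_one g6
  constructor
  · refine Nat.Coprime.mul_right ?_ ?_
    · refine Nat.Coprime.symm (Nat.coprime_of_dvd ?_)
      intro l hl g1 g2
      by_cases hlR : l ∣ R
      · exact hzR l hl g2 hlR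
      · exact (h2 l hl g1 hlR).1 g2
    · refine Nat.coprime_of_dvd ?_
      intro l hl g1 g2
      exact hzR l hl g1 g2
  · have hzh : ((z ^ h - 1 : ℕ) : ℤ) = h * (R : ℤ) ^ 2 * w := by
      rw [Nat.cast_sub (Nat.one_le_pow _ _ hz)]
      push_cast
      exact hw
    have hwW : IsCoprime w (W : ℤ) := by
      rw [Int.isCoprime_iff_gcd_eq_one]
      by_contra hcon
      obtain ⟨l, hl, hlg⟩ := Nat.exists_prime_and_dvd hcon
      have g1 : (l : ℤ) ∣ w := (Int.natCast_dvd_natCast.2 hlg).trans (Int.gcd_dvd_left _ _)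
      have g2 : (l : ℤ) ∣ (W : ℤ) := (Int.natCast_dvd_natCast.2 hlg).trans (Int.gcd_dvd_right _ _)
      have g2' : l ∣ W := by exact_mod_cast g2
      by_cases hlR : l ∣ R
      · have g3 : (l : ℤ) ∣ (R : ℤ) := by exact_mod_cast hlR
        exact (Nat.prime_iff_prime_int.1 hl).not_isUnit (hwR.isUnit_of_dvd' g1 g3)
      · apply (h2 l hl g2' hlR).2
        rw [hw]
        exact g1.mul_left _
    have g3 : ((Nat.gcd (z ^ h - 1) W : ℕ) : ℤ) ∣ h * (R : ℤ) ^ 2 := by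
      have g4 : ((Nat.gcd (z ^ h - 1) W : ℕ) : ℤ) ∣ h * (R : ℤ) ^ 2 * w := by
        rw [← hzh]
        exact_mod_cast Nat.gcd_dvd_left _ _
      have g5 : ((Nat.gcd (z ^ h - 1) W : ℕ) : ℤ) ∣ (W : ℤ) := by
        exact_mod_cast Nat.gcd_dvd_right _ _
      have g6 : IsCoprime ((Nat.gcd (z ^ h - 1) W : ℕ) : ℤ) w :=
        (hwW.of_isCoprime_of_dvd_right g5).symm
      exact g6.dvd_of_dvd_mul_right g4
    exact_mod_cast g3

end BoomNF
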