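import Pool.Agent.H.MP_4c7af0_al.NF.P1a

/-! Step 4, part e: symbols over `a` (MP_4c7af0_al, number field case). -/

namespace BoomNF

open NumberField

variable {K : Type*} [Field K] [NumberField K] {A : Subring K} {P : Type*} [CommGroup P]

/-- `(s4)`. `s(a, b) = 1` if `b ≡ -1 mod a`: `s(a, a - 1) = s(1, a - 1) = 1` by `s1`, `s0` and then
`s2`. -/
theorem Sym.neg_one {N : K} (hN : N ∈ A) (hN0 : N ≠ 0) {sy : K → K → P} (hs : Sym A N sy)
    {a b : K} (ha0 : a ≠ 0) (h : Adm A N a b) (hb : (b + 1) / a ∈ A) : sy a b = 1 := by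
  obtain ⟨haA, haN, hbN, hab⟩ := h
  have h1 : Adm A N 1 (a - 1) :=
    ⟨A.one_mem, by simp [A.zero_mem], haN, ⟨1, A.one_mem, 0, A.zero_mem, by ring⟩⟩
  have h2 : Adm A N a (a - 1) :=
    ⟨haA, haN, haN, ⟨1, A.one_mem, -1, A.neg_mem A.one_mem, by ring⟩⟩
  have h3 : sy a (a - 1) = 1 := by
    have h4 := hs.s1 1 (a - 1) 1 h1 A.one_mem
    rw [mul_one, add_sub_cancel, hs.s0 (a - 1) haN] at h4
    exact h4
  obtain ⟨y, hy⟩ : ∃ y, y = (b + 1) / a - 1 := ⟨_, rfl⟩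
  have hyA : y ∈ A := by rw [hy]; exact A.sub_mem hb A.one_mem
  have hyN : y / N ∈ A := by
    have e : y / N = (b / N - (a - 1) / N) - (a - 1) / N * y := by
      rw [hy]
      field_simp
      ring
    rw [e]
    exact A.sub_mem (A.sub_mem hbN haN) (A.mul_mem haN hyA)
  have h5 := hs.s2 a (a - 1) (y / N) h2 hyN
  have e : a - 1 + a * N * (y / N) = b := by
    rw [hy]
    field_simp
    ring
  rw [e, h3] at h5
  exact h5

/-- for fixed `a`: `T(l) = θ_l(a)` depends only on `l mod a` and is multiplicative. Let `a ≠ 0`,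
`(a - 1) / N ∈ A`. There is `T : K → P` such that for all `l ∈ A` coprime to `a`, `l ≠ 0`:
`s(a, l² b) = s(a, b) T(l)` for all admissible `(a, b)`; `T(l) = T(l')` if `l ≡ l' mod a`;
`T(l l') = T(l) T(l')`. (`T(l) = s(a, l² (a - 1))`, by `neg_one`; and `s(a, l² (a - 1)) =
s(a, l'² (a - 1))` by `s2`, as the difference is in `a N A`.) -/
theorem Sym.exists_T {N : K} (hN : N ∈ A) (hN0 : N ≠ 0) {sy : K → K → P} (hs : Sym A N sy)
    {a : K} (ha : a ∈ A) (ha0 : a ≠ 0) (haN : (a - 1) / N ∈ A) :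
    ∃ T : K → P, (∀ l ∈ A, l ≠ 0 → Cop A a l → ∀ b, Adm A N a b → sy a (l ^ 2 * b) = sy a b * T l) ∧
      (∀ l ∈ A, ∀ l' ∈ A, l ≠ 0 → l' ≠ 0 → Cop A a l → Cop A a l' → (l - l') / a ∈ A → T l = T l') ∧
      (∀ l ∈ A, ∀ l' ∈ A, l ≠ 0 → l' ≠ 0 → Cop A a l → Cop A a l' → T (l * l') = T l * T l') := by
  have ha1 : a - 1 ∈ A := A.sub_mem ha A.one_mem
  have hc1 : Cop A a (a - 1) := ⟨1, A.one_mem, -1, A.neg_mem A.one_mem, by ring⟩
  have h2 : Adm A N a (a - 1) := ⟨ha, haN, haN, hc1⟩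
  have h3 : sy a (a - 1) = 1 := Sym.neg_one hN hN0 hs ha0 h2 (by
    rw [sub_add_cancel, div_self ha0]
    exact A.one_mem)
  have hadm : ∀ l ∈ A, Cop A a l → Adm A N a (l ^ 2 * (a - 1)) := by
    intro l hl hc
    refine ⟨ha, haN, ?_, ?_⟩
    · rw [mul_div_assoc]
      exact A.mul_mem (A.pow_mem hl 2) haN
    · rw [pow_two]
      exact Cop.mul_right ha (A.mul_mem hl hl) ha1 (Cop.mul_right ha hl hl hc hc) hc1
  have key : ∀ l ∈ A, l ≠ 0 → Cop A a l → ∀ b, Adm A N a b →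
      sy a (l ^ 2 * b) = sy a b * sy a (l ^ 2 * (a - 1)) := by
    intro l hl hl0 hc b hb
    obtain ⟨θ, hθ⟩ := hs.s3 l hl hl0
    rw [hθ a b hb hc, hθ a (a - 1) h2 hc, h3, one_mul]
  refine ⟨fun l => sy a (l ^ 2 * (a - 1)), key, ?_, ?_⟩
  · intro l hl l' hl' hl0 hl0' hc hc' hll
    have hx : (l - l') / a * (l + l') * ((a - 1) / N) ∈ A :=
      A.mul_mem (A.mul_mem hll (A.add_mem hl hl')) haN
    have h5 := hs.s2 a (l' ^ 2 * (a - 1)) _ (hadm l' hl' hc') hx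
    have e : l' ^ 2 * (a - 1) + a * N * ((l - l') / a * (l + l') * ((a - 1) / N)) =
        l ^ 2 * (a - 1) := by
      field_simp
      ring
    rw [e] at h5
    exact h5
  · intro l hl l' hl' hl0 hl0' hc hc'
    have h5 := key l hl hl0 hc _ (hadm l' hl' hc')
    have e : (l * l') ^ 2 * (a - 1) = l ^ 2 * (l' ^ 2 * (a - 1)) := by ring
    change sy a ((l * l') ^ 2 * (a - 1)) = sy a (l ^ 2 * (a - 1)) * sy a (l' ^ 2 * (a - 1))
    rw [e, h5, mul_comm]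

end BoomNF
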