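import Pool.Agent.H.MP_4c7af0_al.NF.Bas

/-! Rings `A = O_K[1/y]` (MP_4c7af0_al, number field case): denominators, finite quotients. -/

namespace BoomNF

open NumberField

variable {K : Type*} [Field K] [NumberField K]

/-- `A = O_K[1/y]` for some nonzero `y ∈ O_K`. -/
structure SRing (A : Subring K) : Prop where
  ex : ∃ y : 𝓞 K, y ≠ 0 ∧ ∀ x : K, x ∈ A ↔ ∃ k : ℕ, ∃ z : 𝓞 K, x * (y : K) ^ k = z

variable {A : Subring K}

/-- `O_K ⊆ A` -/
theorem SRing.int_mem (hA : SRing A) (z : 𝓞 K) : (z : K) ∈ A := by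
  obtain ⟨y, -, h⟩ := hA.ex
  exact (h _).2 ⟨0, z, by simp⟩

/-- denominators in `O_K` -/
theorem rng1_den (x : K) : ∃ n : ℕ, 0 < n ∧ ∃ z : 𝓞 K, (n : K) * x = z := by
  have halg : IsAlgebraic ℤ x := (IsFractionRing.isAlgebraic_iff ℤ ℚ K).mpr
    (Algebra.IsAlgebraic.isAlgebraic (R := ℚ) x)
  obtain ⟨m, hm, hi⟩ := halg.exists_integral_multiple
  refine ⟨m.natAbs, Int.natAbs_pos.mpr hm, ?_⟩
  have h2 : IsIntegral ℤ ((m.natAbs : K) * x) := by
    rcases Int.natAbs_eq m with h | h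
    · have e : ((m.natAbs : K) * x) = m • x := by
        rw [zsmul_eq_mul]
        congr 1
        rw [h]
        simp
      rw [e]
      exact hi
    · have e : ((m.natAbs : K) * x) = -(m • x) := by
        rw [zsmul_eq_mul, ← neg_mul]
        congr 1
        rw [h]
        simp
      rw [e]
      exact hi.neg
  exact ⟨⟨_, h2⟩, rfl⟩

/-- denominators -/
theorem SRing.den (hA : SRing A) (x : K) : ∃ n : ℕ, 0 < n ∧ (n : K) * x ∈ A := by
  obtain ⟨n, hn, z, hz⟩ := rng1_den x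
  exact ⟨n, hn, by rw [hz]; exact hA.int_mem z⟩

/-- every nonzero `α` divides a positive integer -/
theorem SRing.dvd_nat (hA : SRing A) {α : K} (h0 : α ≠ 0) : ∃ n : ℕ, 0 < n ∧ (n : K) / α ∈ A := by
  obtain ⟨n, hn, h⟩ := hA.den α⁻¹
  exact ⟨n, hn, by rwa [div_eq_mul_inv]⟩

theorem rng1_fin {n : ℕ} (hn : 0 < n) : Finite (𝓞 K ⧸ Ideal.span {(n : 𝓞 K)}) := by
  apply Ideal.finiteQuotientOfFreeOfNeBot
  rw [Ne, Ideal.span_singleton_eq_bot]
  exact_mod_cast hn.ne'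

/-- `O_K → A / n A` is onto. Proof: pigeonhole in the finite ring `O_K / n` for the powers of `y`
gives `i`, `l ≥ 1` with `y^i (1 - y^l) ∈ n O_K`, so `(1 - y^l) ∈ n A` as `y` is a unit of `A`; hence
`x ≡ x y^(l k) mod n A` for all `k`, and `x y^(l k) ∈ O_K` for large `k`. -/
theorem SRing.exists_int_rep (hA : SRing A) {n : ℕ} (hn : 0 < n) {x : K} (hx : x ∈ A) :
    ∃ z : 𝓞 K, (x - z) / n ∈ A := by
  obtain ⟨y, hy0, h⟩ := hA.ex
  have hfin := rng1_fin (K := K) hn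
  have hyK : (y : K) ≠ 0 := by
    intro h0
    exact hy0 (RingOfIntegers.ext h0)
  have hnK : (n : K) ≠ 0 := by exact_mod_cast hn.ne'
  obtain ⟨i, j, hij, he⟩ := Finite.exists_ne_map_eq_of_infinite
    (fun k : ℕ => Ideal.Quotient.mk (Ideal.span {(n : 𝓞 K)}) (y ^ k))
  wlog hlt : i < j generalizing i j
  · exact this j i hij.symm he.symm (lt_of_le_of_ne (not_lt.mp hlt) hij.symm)
  obtain ⟨l, hl, rfl⟩ : ∃ l, 0 < l ∧ j = i + l := ⟨j - i, by omega, by omega⟩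
  have he' : y ^ (i + l) - y ^ i ∈ Ideal.span {(n : 𝓞 K)} := Ideal.Quotient.eq.mp he.symm
  obtain ⟨w, hw⟩ := Ideal.mem_span_singleton'.mp he'
  -- `(y^l - 1)/n ∈ A`
  have h1 : ((y : K) ^ l - 1) / n ∈ A := by
    refine (h _).2 ⟨i, w, ?_⟩
    have hw' : (w : K) * n = (y : K) ^ (i + l) - (y : K) ^ i := by
      have := congrArg (fun t : 𝓞 K => (t : K)) hw
      simpa using this
    rw [div_mul_eq_mul_div, div_eq_iff hnK, hw']
    ring
  obtain ⟨k, z, hz⟩ := (h x).1 hx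
  refine ⟨z * y ^ (l * k - k), ?_⟩
  have hk : k ≤ l * k := Nat.le_mul_of_pos_left k hl
  have e1 : ((z * y ^ (l * k - k) : 𝓞 K) : K) = x * ((y : K) ^ l) ^ k := by
    have e0 : ((z * y ^ (l * k - k) : 𝓞 K) : K) = (z : K) * (y : K) ^ (l * k - k) := by
      simp [RingOfIntegers.coe_eq_algebraMap]
    rw [e0, ← hz, mul_assoc, ← pow_add, Nat.add_sub_cancel' hk, pow_mul]
  have e2 : (x - ((z * y ^ (l * k - k) : 𝓞 K) : K)) / n =
      -(x * (((y : K) ^ l - 1) / n * ∑ i ∈ Finset.range k, ((y : K) ^ l) ^ i)) := by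
    rw [e1, div_mul_eq_mul_div, mul_geom_sum]
    ring
  have e2' : (x - ((z * y ^ (l * k - k) : 𝓞 K) : K)) / n ∈ A := by
    rw [e2]
    refine A.neg_mem (A.mul_mem hx (A.mul_mem h1 (A.sum_mem fun i _ => ?_)))
    exact A.pow_mem (A.pow_mem (hA.int_mem y) l) i
  exact e2'

/-- `A / α A` is finite for `α ≠ 0` (`α` divides a positive integer `n`; use the previous lemma and
finiteness of `O_K / n`). -/
theorem SRing.finite_quot (hA : SRing A) {α : K} (hα : α ∈ A) (h0 : α ≠ 0) :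
    ∃ T : Finset K, (∀ t ∈ T, t ∈ A) ∧ ∀ x ∈ A, ∃ t ∈ T, (x - t) / α ∈ A := by
  classical
  obtain ⟨n, hn, hnα⟩ := hA.dvd_nat h0
  have hfin := rng1_fin (K := K) hn
  have hnK : (n : K) ≠ 0 := by exact_mod_cast hn.ne'
  let _ := Fintype.ofFinite (𝓞 K ⧸ Ideal.span {(n : 𝓞 K)})
  refine ⟨Finset.univ.image (fun q : 𝓞 K ⧸ Ideal.span {(n : 𝓞 K)} =>
    ((Quotient.out q : 𝓞 K) : K)), ?_, ?_⟩
  · intro t ht
    obtain ⟨q, -, rfl⟩ := Finset.mem_image.mp ht
    exact hA.int_mem _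
  · intro x hx
    obtain ⟨z, hz⟩ := hA.exists_int_rep hn hx
    refine ⟨_, Finset.mem_image_of_mem _ (Finset.mem_univ (Ideal.Quotient.mk _ z)), ?_⟩
    have h1 : z - Quotient.out (Ideal.Quotient.mk (Ideal.span {(n : 𝓞 K)}) z) ∈
        Ideal.span {(n : 𝓞 K)} := by
      apply Ideal.Quotient.eq.mp
      exact (Quotient.out_eq _).symm
    obtain ⟨w, hw⟩ := Ideal.mem_span_singleton'.mp h1
    have hw' : (w : K) * n = (z : K) -
        ((Quotient.out (Ideal.Quotient.mk (Ideal.span {(n : 𝓞 K)}) z) : 𝓞 K) : K) := by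
      have := congrArg (fun t : 𝓞 K => (t : K)) hw
      simpa using this
    have e : (x - ((Quotient.out (Ideal.Quotient.mk (Ideal.span {(n : 𝓞 K)}) z) : 𝓞 K) : K)) / α =
        ((x - z) / n + w) * (n / α) := by
      have : ((Quotient.out (Ideal.Quotient.mk (Ideal.span {(n : 𝓞 K)}) z) : 𝓞 K) : K) =
          z - w * n := by rw [hw']; ring
      rw [this]
      field_simp
      ring
    rw [e]
    exact A.mul_mem (A.add_mem hz (hA.int_mem w)) hnα

/-- some power of a unit is `1` mod `α` (pigeonhole in `A / α`). -/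
theorem SRing.unit_pow (hA : SRing A) {ε α : K} (hε0 : ε ≠ 0) (hε : ε ∈ A) (hεi : ε⁻¹ ∈ A)
    (hα : α ∈ A) (h0 : α ≠ 0) : ∃ k : ℕ, 0 < k ∧ (ε ^ k - 1) / α ∈ A := by
  obtain ⟨T, -, hT⟩ := hA.finite_quot hα h0
  choose f hf using fun k : ℕ => hT (ε ^ k) (A.pow_mem hε k)
  obtain ⟨i, j, hij, he⟩ := Finite.exists_ne_map_eq_of_infinite
    (fun k : ℕ => (⟨f k, (hf k).1⟩ : T))
  have he' : f i = f j := congrArg Subtype.val he
  wlog hlt : i < j generalizing i j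
  · exact this j i hij.symm he.symm he'.symm (lt_of_le_of_ne (not_lt.mp hlt) hij.symm)
  obtain ⟨l, hl, rfl⟩ : ∃ l, 0 < l ∧ j = i + l := ⟨j - i, by omega, by omega⟩
  refine ⟨l, hl, ?_⟩
  have h1 : (ε ^ (i + l) - f (i + l)) / α - (ε ^ i - f i) / α ∈ A :=
    A.sub_mem (hf _).2 (hf _).2
  have e : (ε ^ l - 1) / α = ε⁻¹ ^ i * ((ε ^ (i + l) - f (i + l)) / α - (ε ^ i - f i) / α) := by
    rw [he', pow_add, inv_pow]
    field_simp
    ring
  rw [e]
  exact A.mul_mem (A.pow_mem hεi i) h1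

/-- for large primes `p` (prime to `y`): `p A ∩ O_K = p O_K`. -/
theorem SRing.int_dvd (hA : SRing A) : ∃ B : ℕ, ∀ p : ℕ, p.Prime → B < p → ∀ z : 𝓞 K,
    (z : K) / p ∈ A → ∃ z' : 𝓞 K, z = p * z' := by
  obtain ⟨y, hy0, h⟩ := hA.ex
  have hyK : (y : K) ≠ 0 := by
    intro h0
    exact hy0 (RingOfIntegers.ext h0)
  obtain ⟨N, hN, t, ht⟩ := rng1_den ((y : K)⁻¹)
  have hNt : (N : 𝓞 K) = t * y := by
    apply RingOfIntegers.ext
    have e0 : ((t * y : 𝓞 K) : K) = (t : K) * (y : K) := by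
      simp [RingOfIntegers.coe_eq_algebraMap]
    rw [e0, ← ht]
    simp [hyK]
  refine ⟨N, fun p hp hNp z hz => ?_⟩
  have hpK : (p : K) ≠ 0 := by exact_mod_cast hp.ne_zero
  obtain ⟨k, w, hw⟩ := (h _).1 hz
  have h1 : z * y ^ k = p * w := by
    apply RingOfIntegers.ext
    have e0 : ((z * y ^ k : 𝓞 K) : K) = (z : K) * (y : K) ^ k := by
      simp [RingOfIntegers.coe_eq_algebraMap]
    have e1 : ((p * w : 𝓞 K) : K) = (p : K) * (w : K) := by
      simp [RingOfIntegers.coe_eq_algebraMap]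
    rw [e0, e1, ← hw]
    field_simp
  have hcop : Nat.Coprime p N := by
    rw [Nat.Prime.coprime_iff_not_dvd hp]
    intro hd
    exact absurd (Nat.le_of_dvd hN hd) (not_le.mpr hNp)
  have hcop' : IsCoprime (p : 𝓞 K) (N : 𝓞 K) := hcop.cast
  have hcop2 : IsCoprime (p : 𝓞 K) y := by
    rw [hNt] at hcop'
    exact hcop'.of_mul_right_right
  have hcop3 : IsCoprime (p : 𝓞 K) (y ^ k) := hcop2.pow_right
  obtain ⟨z', hz'⟩ := hcop3.dvd_of_dvd_mul_right (Dvd.intro _ h1.symm)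
  exact ⟨z', hz'⟩

end BoomNF
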