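import Pool.Agent.H.MP_4c7af0_al.NF.Rng1

/-! `Γ(N)` has finite index in `SL₂(A)` (MP_4c7af0_al, number field case). -/

namespace BoomNF

open NumberField

variable {K : Type*} [Field K] [NumberField K] {A : Subring K}

/-- `Γ(N)` has finite index in `SL₂(A)`. Template: `Boom4c.GN_relIndex` in
`Pool/Agent/H/MP_4c7af0_al/Index.lean` (use `SRing.finite_quot` instead of `exists_residue`, and
`inv_mul_mem_GN`). -/
theorem SRing.GN_relIndex (hA : SRing A) {N : K} (hN : N ∈ A) (hN0 : N ≠ 0) :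
    (GN A N).relIndex (G A) ≠ 0 := by
  classical
  obtain ⟨T, -, hT⟩ := hA.finite_quot hN hN0
  have hres : ∀ g : G A, ∃ r : Fin 2 → Fin 2 → T, ∀ i j,
      (((g : SL2 K) i j) - ((r i j : T) : K)) / N ∈ A := by
    intro g
    have h1 : ∀ i j, ∃ t : T, (((g : SL2 K) i j) - (t : K)) / N ∈ A := by
      intro i j
      obtain ⟨t, ht, h⟩ := hT _ (g.2 i j)
      exact ⟨⟨t, ht⟩, h⟩
    choose r hr using h1
    exact ⟨r, hr⟩
  choose φ hφ using hres
  have hfin : Finite ((G A) ⧸ (GN A N).subgroupOf (G A)) := by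
    refine Finite.of_injective (fun q : (G A) ⧸ (GN A N).subgroupOf (G A) => φ q.out) ?_
    intro q q' h
    simp only at h
    rw [← q.out_eq', ← q'.out_eq']
    apply QuotientGroup.eq.2
    rw [Subgroup.mem_subgroupOf]
    change ((q.out : G A) : SL2 K)⁻¹ * ((q'.out : G A) : SL2 K) ∈ GN A N
    apply inv_mul_mem_GN (q.out : G A).2 (q'.out : G A).2
    intro i j
    have h1 := hφ q.out i j
    have h2 := hφ q'.out i j
    rw [← h] at h2
    have : ((((q'.out : G A) : SL2 K) i j) - (((q.out : G A) : SL2 K) i j)) / N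
        = ((((q'.out : G A) : SL2 K) i j) - ((φ q.out i j : T) : K)) / N
          - ((((q.out : G A) : SL2 K) i j) - ((φ q.out i j : T) : K)) / N := by ring
    rw [this]
    exact A.sub_mem h2 h1
  rw [Subgroup.relIndex]
  exact Subgroup.index_ne_zero_of_finite

/-- a power of every element of `Γ` lies in a finite index subgroup -/
theorem exists_pow_mem {H Γ : Subgroup (SL2 K)} (h : H.relIndex Γ ≠ 0) {g : SL2 K} (hg : g ∈ Γ) :
    ∃ j : ℕ, 0 < j ∧ g ^ j ∈ H := by
  have hfi : (H.subgroupOf Γ).FiniteIndex := ⟨h⟩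
  obtain ⟨j, hj, -, hjK⟩ := Subgroup.exists_pow_mem_of_index_ne_zero h ⟨g, hg⟩
  refine ⟨j, hj, ?_⟩
  rw [Subgroup.mem_subgroupOf] at hjK
  simpa using hjK

end BoomNF
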