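import Pool.Agent.H.MP_4c7af0_al.NF.S1a

/-! Step 1, part b (MP_4c7af0_al, number field case): no cusp is fixed by `D`. -/

namespace BoomNF

open NumberField

variable {K : Type*} [Field K] [NumberField K] {A : Subring K}

/-- coordinates in which the cusp `z` is at infinity. -/
def s1b_t (s : SL2 K) (z : K) : SL2 K := s * (u z * wy)

theorem s1b_conj_app (s g : SL2 K) (z : K) : ((s1b_t s z)⁻¹ * g * (s1b_t s z)) 0 1 =
    -((s⁻¹ * g * s) 1 0) := by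
  have e : (s1b_t s z)⁻¹ * g * (s1b_t s z) = wy⁻¹ * (u (-z) * (s⁻¹ * g * s) * u z) * wy := by
    unfold s1b_t
    rw [← u_inv]; group
  rw [e]
  generalize s⁻¹ * g * s = N
  simp only [mul_app, inv00, inv01, inv10, inv11, wy_00, wy_01, wy_10, wy_11, u_00, u_01, u_10, u_11]
  ring

theorem s1b_conj_app' (s g : SL2 K) (z : K) : ((s1b_t s z)⁻¹ * g * (s1b_t s z)) 1 0 =
    -((s⁻¹ * g * s) 0 1 + ((s⁻¹ * g * s) 0 0 - (s⁻¹ * g * s) 1 1) * z -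
      z ^ 2 * (s⁻¹ * g * s) 1 0) := by
  have e : (s1b_t s z)⁻¹ * g * (s1b_t s z) = wy⁻¹ * (u (-z) * (s⁻¹ * g * s) * u z) * wy := by
    unfold s1b_t
    rw [← u_inv]; group
  rw [e]
  generalize s⁻¹ * g * s = N
  simp only [mul_app, inv00, inv01, inv10, inv11, wy_00, wy_01, wy_10, wy_11, u_00, u_01, u_10, u_11]
  ring

/-- some unipotent element in given coordinates is in `SL₂(A)`. -/
theorem SRing.s1b_unip (hA : SRing A) (s : SL2 K) : ∃ r : K, r ≠ 0 ∧ s * u r * s⁻¹ ∈ G A := by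
  obtain ⟨n1, h1, m1⟩ := hA.den (s 0 0 * s 1 0)
  obtain ⟨n2, h2, m2⟩ := hA.den (s 0 0 ^ 2)
  obtain ⟨n3, h3, m3⟩ := hA.den (s 1 0 ^ 2)
  have q1 : (n1 : K) ≠ 0 := Nat.cast_ne_zero.2 h1.ne'
  have q2 : (n2 : K) ≠ 0 := Nat.cast_ne_zero.2 h2.ne'
  have q3 : (n3 : K) ≠ 0 := Nat.cast_ne_zero.2 h3.ne'
  refine ⟨n1 * n2 * n3, mul_ne_zero (mul_ne_zero q1 q2) q3, ?_⟩
  rw [conj_u]
  have k1 : (n1 : K) ∈ A := natCast_mem A n1
  have k2 : (n2 : K) ∈ A := natCast_mem A n2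
  have k3 : (n3 : K) ∈ A := natCast_mem A n3
  have t1 : s 0 0 * s 1 0 * ((n1 : K) * n2 * n3) ∈ A := by
    have e : s 0 0 * s 1 0 * ((n1 : K) * n2 * n3) = (n1 * (s 0 0 * s 1 0)) * (n2 * n3) := by ring
    rw [e]
    exact A.mul_mem m1 (A.mul_mem k2 k3)
  have t2 : s 0 0 ^ 2 * ((n1 : K) * n2 * n3) ∈ A := by
    have e : s 0 0 ^ 2 * ((n1 : K) * n2 * n3) = (n2 * (s 0 0 ^ 2)) * (n1 * n3) := by ring
    rw [e]
    exact A.mul_mem m2 (A.mul_mem k1 k3)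
  have t3 : s 1 0 ^ 2 * ((n1 : K) * n2 * n3) ∈ A := by
    have e : s 1 0 ^ 2 * ((n1 : K) * n2 * n3) = (n3 * (s 1 0 ^ 2)) * (n1 * n2) := by ring
    rw [e]
    exact A.mul_mem m3 (A.mul_mem k1 k2)
  apply mem_G4
  · rw [U_00]; exact A.sub_mem A.one_mem t1
  · rw [U_01]; exact t2
  · rw [U_10]; exact A.neg_mem t3
  · rw [U_11]; exact A.add_mem A.one_mem t1

/-- Step 1 (b). Suppose all elements of `D₀ = s⁻¹ D s` are upper triangular. Let `δ₀ ∈ D₀` be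
non-scalar (`NonCentral`). It moves some `z' ∈ K` (for some `z' ∈ {0, 1, -1}`,
`(u(z') w)⁻¹ δ₀ (u(z') w)` has nonzero lower left entry, `w` the Weyl element). By `exists_hyp` for
`s u(z') w`: there is `f ∈ D₀` fixing `z'` (i.e. `(u(z') w)⁻¹ f (u(z') w)` upper triangular) with
eigenvalue `e^l ≠ ±1`; being in `D₀`, `f` is also upper triangular. Take a unipotent `W = u(z') w u(r) w⁻¹ u(-z')`
with `r ≠ 0` such that `s W s⁻¹ ∈ SL₂(A)` (`r` a multiple of a large integer). Recurrence for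
`s W s⁻¹` and `f`: `W^i f W^(-i) ∈ D₀` for some `i ≥ 1`, so it is upper triangular, i.e. `f` fixes
`W^(-i) ∞ ≠ ∞`. So `f` fixes `∞`, `z'` and `W^(-i) ∞`, three different points, hence is scalar:
contradiction to `e^(2l) ≠ 1`. (By matrices: WLOG conjugate by `u(z')`, so that `f = diag(E, 1/E)`,
`E² ≠ 1`, `W = v(r')`, and `(v(i r') f v(-i r'))` has lower left entry `i r' (E - 1/E) ≠ 0`.) -/
theorem SRing.no_fixed (hA : SRing A) {e : K} (hE : InfUnit A e) {D : Subgroup (SL2 K)}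
    (hD : D ≤ G A) (hrec : Rec (G A) D) (hnc : NonCentral D) (s : SL2 K) :
    ∃ δ ∈ D, (s⁻¹ * δ * s) 1 0 ≠ 0 := by
  by_contra hcon
  push Not at hcon
  obtain ⟨δ₀, hδ₀, hns⟩ := hnc
  have hN10 : (s⁻¹ * δ₀ * s) 1 0 = 0 := hcon δ₀ hδ₀
  -- choice of the second fixed point
  obtain ⟨z, hz⟩ : ∃ z : K, ((s1b_t s z)⁻¹ * δ₀ * (s1b_t s z)) 1 0 ≠ 0 := by
    by_contra hc
    push Not at hc
    have h0 := hc 0
    have h1 := hc 1
    rw [s1b_conj_app'] at h0 h1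
    rw [hN10] at h0 h1
    have e0 : (s⁻¹ * δ₀ * s) 0 1 = 0 := by linear_combination -h0
    have e1 : (s⁻¹ * δ₀ * s) 0 0 = (s⁻¹ * δ₀ * s) 1 1 := by linear_combination -h1 + h0
    have hcom := central_comm ⟨e0, hN10, e1⟩ s
    have hδ : δ₀ = s⁻¹ * δ₀ * s := by
      calc δ₀ = s * (s⁻¹ * δ₀ * s) * s⁻¹ := by group
        _ = (s⁻¹ * δ₀ * s) * s * s⁻¹ := by rw [hcom]
        _ = _ := by group
    apply hns
    rw [hδ]
    exact ⟨e0, hN10, e1⟩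
  set s₁ := s1b_t s z with hs₁
  obtain ⟨l, hl, f₀, hf, f10, f00⟩ := hA.exists_hyp hE hD hrec s₁ hδ₀ hz
  have hE0 : e ^ l ≠ 0 := pow_ne_zero _ hE.ne
  have low : ∀ δ ∈ D, (s₁⁻¹ * δ * s₁) 0 1 = 0 := by
    intro δ hδ
    rw [hs₁, s1b_conj_app, hcon δ hδ, neg_zero]
  have f01 : f₀ 0 1 = 0 := by
    have h := low _ hf
    have e2 : s₁⁻¹ * (s₁ * f₀ * s₁⁻¹) * s₁ = f₀ := by group
    rwa [e2] at h
  have f11 : f₀ 1 1 = (e ^ l)⁻¹ := by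
    have hd := det_eq f₀
    rw [f01, f00] at hd
    exact eq_inv_of_mul_eq_one_right (by linear_combination hd)
  obtain ⟨r, hr, hW⟩ := hA.s1b_unip s₁
  obtain ⟨n, hn, hmem⟩ := hrec _ hW _ hf 1
  have h := low _ hmem
  have e3 : s₁⁻¹ * ((s₁ * u r * s₁⁻¹) ^ n * (s₁ * f₀ * s₁⁻¹) * ((s₁ * u r * s₁⁻¹) ^ n)⁻¹) * s₁ =
      u (n * r) * f₀ * (u (n * r))⁻¹ := by
    rw [conj_pow, u_pow]
    group
  rw [e3] at h
  simp only [mul_app, inv01, inv11, u_00, u_01, u_11, f00, f01, f10, f11] at h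
  have hnr : (n : K) * r ≠ 0 := mul_ne_zero (Nat.cast_ne_zero.2 (by omega)) hr
  have h2 : (n : K) * r * ((e ^ l)⁻¹ - e ^ l) = 0 := by linear_combination h
  have h3 : (e ^ l)⁻¹ - e ^ l = 0 := by
    rcases mul_eq_zero.1 h2 with h | h
    · exact absurd h hnr
    · exact h
  apply hE.pow_ne (l * 2) (by omega)
  rw [pow_mul]
  have h4 : (e ^ l)⁻¹ = e ^ l := sub_eq_zero.1 h3
  calc (e ^ l) ^ 2 = e ^ l * e ^ l := by ring
    _ = (e ^ l)⁻¹ * e ^ l := by rw [h4]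
    _ = 1 := inv_mul_cancel₀ hE0

/-- If `s f₀ s⁻¹ ∈ D`, `f₀` upper triangular with upper left entry `ρ`, then
`{x | s u(x) s⁻¹ ∈ D}` is stable under multiplication by `ρ²` and `ρ⁻²`
(`f₀ u(x) f₀⁻¹ = u(ρ² x)`). -/
theorem upper_stable {D : Subgroup (SL2 K)} {s f₀ : SL2 K} {ρ : K} (hρ : ρ ≠ 0)
    (hf : s * f₀ * s⁻¹ ∈ D) (h10 : f₀ 1 0 = 0) (h00 : f₀ 0 0 = ρ) {x : K}
    (hx : s * u x * s⁻¹ ∈ D) :
    s * u (ρ ^ 2 * x) * s⁻¹ ∈ D ∧ s * u ((ρ ^ 2)⁻¹ * x) * s⁻¹ ∈ D := by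
  have h11 : f₀ 1 1 = ρ⁻¹ := by
    have hd := det_eq f₀
    rw [h10, h00] at hd
    exact eq_inv_of_mul_eq_one_right (by linear_combination hd)
  constructor
  · have e1 : s * u (ρ ^ 2 * x) * s⁻¹ = (s * f₀ * s⁻¹) * (s * u x * s⁻¹) * (s * f₀ * s⁻¹)⁻¹ := by
      have e2 : (s * f₀ * s⁻¹) * (s * u x * s⁻¹) * (s * f₀ * s⁻¹)⁻¹ =
        s * (f₀ * u x * f₀⁻¹) * s⁻¹ := by group
      rw [e2, conj_u f₀ x, h00, h10]
      congr 2
      apply ext4 <;> simp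
    rw [e1]
    exact D.mul_mem (D.mul_mem hf hx) (D.inv_mem hf)
  · have e1 : s * u ((ρ ^ 2)⁻¹ * x) * s⁻¹ =
        (s * f₀ * s⁻¹)⁻¹ * (s * u x * s⁻¹) * (s * f₀ * s⁻¹) := by
      have e2 : (s * f₀ * s⁻¹)⁻¹ * (s * u x * s⁻¹) * (s * f₀ * s⁻¹) =
        s * (f₀⁻¹ * u x * (f₀⁻¹)⁻¹) * s⁻¹ := by group
      rw [e2, conj_u f₀⁻¹ x, inv00, inv10, h11, h10]
      congr 2
      apply ext4 <;> simp
    rw [e1]
    exact D.mul_mem (D.mul_mem (D.inv_mem hf) hx) hf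

/-- Step 1 (c): stability of `{x | s u(x) s⁻¹ ∈ D}` under a power of every unit `ε` of `A` (if
`ε` has infinite order use `no_fixed`, `exists_hyp` for `e = ε` and `upper_stable`; if `ε^l = 1` it is
trivial). -/
theorem SRing.unit_stable (hA : SRing A) {e : K} (hE : InfUnit A e) {D : Subgroup (SL2 K)}
    (hD : D ≤ G A) (hrec : Rec (G A) D) (hnc : NonCentral D) (s : SL2 K) {ε : K} (hε0 : ε ≠ 0)
    (hε : ε ∈ A) (hεi : ε⁻¹ ∈ A) : ∃ l : ℕ, 0 < l ∧ ∀ x : K, s * u x * s⁻¹ ∈ D →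
      s * u (ε ^ l * x) * s⁻¹ ∈ D ∧ s * u ((ε ^ l)⁻¹ * x) * s⁻¹ ∈ D := by
  by_cases hfin : ∃ k : ℕ, 0 < k ∧ ε ^ k = 1
  · obtain ⟨k, hk, h1⟩ := hfin
    refine ⟨k, hk, fun x hx => ?_⟩
    rw [h1, inv_one, one_mul]
    exact ⟨hx, hx⟩
  · push Not at hfin
    have hI : InfUnit A ε := ⟨hε0, hε, hεi, hfin⟩
    obtain ⟨δ, hδ, hmove⟩ := hA.no_fixed hE hD hrec hnc s
    obtain ⟨l, hl, f₀, hf, f10, f00⟩ := hA.exists_hyp hI hD hrec s hδ hmove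
    refine ⟨l * 2, by omega, fun x hx => ?_⟩
    have h := upper_stable (pow_ne_zero l hε0) hf f10 f00 hx
    rw [pow_mul]
    exact h

end BoomNF
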