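import Pool.Agent.H.MP_4c7af0_al.NF.S1c1

/-! Step 1, part c (MP_4c7af0_al, number field case): the unipotents of `D` at a cusp. -/

namespace BoomNF

open NumberField

variable {K : Type*} [Field K] [NumberField K] {A : Subring K}

/-- the additive group `{x | s u(x) s⁻¹ ∈ D}` -/
def s1c_I (D : Subgroup (SL2 K)) (s : SL2 K) : AddSubgroup K where
  carrier := {x | s * u x * s⁻¹ ∈ D}
  add_mem' := by
    intro x y hx hy
    change s * u (x + y) * s⁻¹ ∈ D
    have e : s * u (x + y) * s⁻¹ = (s * u x * s⁻¹) * (s * u y * s⁻¹) := by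
      rw [← u_mul]
      group
    rw [e]
    exact D.mul_mem hx hy
  zero_mem' := by
    change s * u 0 * s⁻¹ ∈ D
    rw [u_zero, mul_one, mul_inv_cancel]
    exact D.one_mem
  neg_mem' := by
    intro x hx
    change s * u (-x) * s⁻¹ ∈ D
    have e : s * u (-x) * s⁻¹ = (s * u x * s⁻¹)⁻¹ := by
      rw [← u_inv]
      group
    rw [e]
    exact D.inv_mem hx

omit [NumberField K] in
theorem s1c_mem {D : Subgroup (SL2 K)} {s : SL2 K} {x : K} :
    x ∈ s1c_I D s ↔ s * u x * s⁻¹ ∈ D := Iff.rfl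

/-- elements of the `ℚ`-span of an additive subgroup have multiples in it -/
theorem s1c_span (I : AddSubgroup K) {x : K} (hx : x ∈ Submodule.span ℚ (I : Set K)) :
    ∃ N : ℕ, 0 < N ∧ (N : K) * x ∈ I := by
  induction hx using Submodule.span_induction with
  | mem x h => exact ⟨1, one_pos, by simpa using h⟩
  | zero => exact ⟨1, one_pos, by simp [I.zero_mem]⟩
  | add x y _ _ hx hy =>
    obtain ⟨N, hN, h1⟩ := hx
    obtain ⟨M, hM, h2⟩ := hy
    refine ⟨N * M, Nat.mul_pos hN hM, ?_⟩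
    have e : ((N * M : ℕ) : K) * (x + y) = M • ((N : K) * x) + N • ((M : K) * y) := by
      rw [nsmul_eq_mul, nsmul_eq_mul]
      push_cast
      ring
    rw [e]
    exact I.add_mem (I.nsmul_mem h1 _) (I.nsmul_mem h2 _)
  | smul q x _ hx =>
    obtain ⟨N, hN, h1⟩ := hx
    refine ⟨N * q.den, Nat.mul_pos hN q.den_pos, ?_⟩
    have e : ((N * q.den : ℕ) : K) * (q • x) = q.num • ((N : K) * x) := by
      rw [zsmul_eq_mul, Rat.smul_def]
      have hq : (q.den : K) * (q : K) = (q.num : K) := by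
        have := Rat.den_mul_eq_num q
        exact_mod_cast this
      push_cast
      linear_combination (N : K) * x * hq
    rw [e]
    exact I.zsmul_mem h1 _

/-- Step 1 (d): `s u(N O_K) s⁻¹ ⊆ D` for some `N ≥ 1`. Proof: `I = {x | s u(x) s⁻¹ ∈ D}` is an
additive subgroup stable under `e^m` for some `m ≥ 1` (`unit_stable`), so its `ℚ`-span `V` is stable
under `e^m`. Apply `many_u` with `e^m` in place of `e` (`e^m` is again a unit of infinite order) and
`span_top`: `V = K`. As `O_K` is a finitely generated `ℤ`-module, `N O_K ⊆ I` for some `N ≥ 1`. -/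
theorem SRing.full_int (hA : SRing A) {e : K} (hE : InfUnit A e) {D : Subgroup (SL2 K)}
    (hD : D ≤ G A) (hrec : Rec (G A) D) (hnc : NonCentral D) (s : SL2 K) :
    ∃ N : ℕ, 0 < N ∧ ∀ x : 𝓞 K, s * u ((N : K) * (x : K)) * s⁻¹ ∈ D := by
  obtain ⟨m, hm, hst⟩ := hA.unit_stable hE hD hrec hnc s hE.ne hE.mem hE.inv_mem
  have hE' : InfUnit A (e ^ m) :=
    { ne := pow_ne_zero _ hE.ne
      mem := A.pow_mem hE.mem m
      inv_mem := by
        rw [← inv_pow]
        exact A.pow_mem hE.inv_mem m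
      pow_ne := fun k hk => by
        rw [← pow_mul]
        exact hE.pow_ne _ (Nat.mul_pos hm hk) }
  obtain ⟨l, hl, y₀, hy⟩ := hA.many_u hE' hD hrec hnc s
  set V : Submodule ℚ K := Submodule.span ℚ (s1c_I D s : Set K) with hVdef
  have hV : ∀ x ∈ V, e ^ m * x ∈ V := by
    intro x hx
    induction hx using Submodule.span_induction with
    | mem x h => exact Submodule.subset_span ((hst x h).1)
    | zero => rw [mul_zero]; exact V.zero_mem
    | add x y _ _ hx hy => rw [mul_add]; exact V.add_mem hx hy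
    | smul q x _ hx =>
      rw [mul_smul_comm]
      exact V.smul_mem q hx
  have htop : V = ⊤ := by
    refine span_top (y₀ := y₀) hE.pow_ne hE.ne hm hl V hV (fun y' => ?_)
    obtain ⟨k, hk, h⟩ := hy y'
    refine ⟨k, hk, Submodule.subset_span ?_⟩
    have e1 : e ^ (2 * l * m) = (e ^ m) ^ (2 * l) := by
      rw [← pow_mul]
      congr 1
      ring
    have e2 : e ^ (2 * k * m) = (e ^ m) ^ (2 * k) := by
      rw [← pow_mul]
      congr 1
      ring
    rw [e1, e2]
    exact h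
  have hmul : ∀ x : K, ∃ N : ℕ, 0 < N ∧ (N : K) * x ∈ s1c_I D s := by
    intro x
    refine s1c_span _ ?_
    rw [← hVdef, htop]
    trivial
  choose f hf0 hf using fun x : 𝓞 K => hmul (x : K)
  obtain ⟨S, hS⟩ := (Module.Finite.fg_top : (⊤ : Submodule ℤ (𝓞 K)).FG)
  refine ⟨∏ x ∈ S, f x, Finset.prod_pos fun x _ => hf0 x, fun x => ?_⟩
  have hx : x ∈ Submodule.span ℤ (S : Set (𝓞 K)) := by
    rw [hS]
    trivial
  rw [← s1c_mem]
  induction hx using Submodule.span_induction with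
  | mem x h =>
    obtain ⟨c, hc⟩ := Finset.dvd_prod_of_mem f h
    rw [hc]
    have e1 : ((f x * c : ℕ) : K) * (x : K) = c • ((f x : K) * (x : K)) := by
      rw [nsmul_eq_mul]
      push_cast
      ring
    rw [e1]
    exact AddSubgroup.nsmul_mem _ (hf x) _
  | zero =>
    have e1 : ((0 : 𝓞 K) : K) = 0 := map_zero (algebraMap (𝓞 K) K)
    rw [e1, mul_zero]
    exact AddSubgroup.zero_mem _
  | add x y _ _ hx hy =>
    have e1 : ((x + y : 𝓞 K) : K) = (x : K) + (y : K) := map_add (algebraMap (𝓞 K) K) x y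
    rw [e1, mul_add]
    exact AddSubgroup.add_mem _ hx hy
  | smul q x _ hx =>
    have e1 : ((∏ x ∈ S, f x : ℕ) : K) * ((q • x : 𝓞 K) : K) =
        q • (((∏ x ∈ S, f x : ℕ) : K) * (x : K)) := by
      have e2 : ((q • x : 𝓞 K) : K) = q • (x : K) := map_zsmul (algebraMap (𝓞 K) K) q x
      rw [e2, zsmul_eq_mul, zsmul_eq_mul]
      ring
    rw [e1]
    exact AddSubgroup.zsmul_mem _ hx _

/-- Step 1. Proof: with `y` from `SRing.ex` (a unit of `A`) `unit_stable` gives `l ≥ 1`; for `x ∈ A`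
we have `y^(l k) x ∈ O_K` for large `k`, so `s u(N₁ y^(l k) x) s⁻¹ ∈ D` (`full_int`) and, dividing by
`y^l` repeatedly, `s u(N₁ x) s⁻¹ ∈ D`. If `s u(x) s⁻¹ ∈ SL₂(A)` then `a² x, c² x ∈ A` for the first
column `(a, c) ≠ 0` of `s` (`conj_u`), so `r x ∈ A` for a fixed integer `r ≥ 1`; `N = r N₁`. -/
theorem SRing.step1 (hA : SRing A) {e : K} (hE : InfUnit A e) {D : Subgroup (SL2 K)}
    (hD : D ≤ G A) (hrec : Rec (G A) D) (hnc : NonCentral D) (s : SL2 K) :
    ∃ N : ℕ, 0 < N ∧ ∀ x : K, s * u x * s⁻¹ ∈ G A → s * u ((N : K) * x) * s⁻¹ ∈ D := by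
  obtain ⟨N₁, hN₁, hint⟩ := hA.full_int hE hD hrec hnc s
  obtain ⟨y, hy0, hy⟩ := hA.ex
  have hyK : (y : K) ≠ 0 := by
    intro h
    exact hy0 (NumberField.RingOfIntegers.coe_eq_zero_iff.1 h)
  have hyi : (y : K)⁻¹ ∈ A := by
    rw [hy]
    refine ⟨1, 1, ?_⟩
    rw [pow_one, inv_mul_cancel₀ hyK]
    exact (map_one (algebraMap (𝓞 K) K)).symm
  obtain ⟨l, hl, hst⟩ := hA.unit_stable hE hD hrec hnc s hyK (hA.int_mem y) hyi
  have hdiv : ∀ (j : ℕ) (w : K), s * u (((y : K) ^ l) ^ j * w) * s⁻¹ ∈ D → s * u w * s⁻¹ ∈ D := by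
    intro j
    induction j with
    | zero =>
      intro w h
      rwa [pow_zero, one_mul] at h
    | succ j ih =>
      intro w h
      apply ih
      have h1 := (hst _ h).2
      have e1 : ((y : K) ^ l)⁻¹ * (((y : K) ^ l) ^ (j + 1) * w) = ((y : K) ^ l) ^ j * w := by
        rw [pow_succ]
        field_simp
      rwa [e1] at h1
  have hAD : ∀ x ∈ A, s * u ((N₁ : K) * x) * s⁻¹ ∈ D := by
    intro x hx
    obtain ⟨k, z, hz⟩ := (hy x).1 hx
    apply hdiv k
    have h1 := hint (y ^ (l * k - k) * z)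
    have hlk : k ≤ l * k := Nat.le_mul_of_pos_left k hl
    have e1 : ((y : K) ^ l) ^ k * ((N₁ : K) * x) = (N₁ : K) * ((y ^ (l * k - k) * z : 𝓞 K) : K) := by
      have e3 : ((y ^ (l * k - k) * z : 𝓞 K) : K) = (y : K) ^ (l * k - k) * (z : K) := by
        have h2 := map_mul (algebraMap (𝓞 K) K) (y ^ (l * k - k)) z
        rw [map_pow] at h2
        exact h2
      rw [e3, ← hz, ← pow_mul]
      have e2 : (y : K) ^ (l * k) = (y : K) ^ (l * k - k) * (y : K) ^ k := by
        rw [← pow_add, Nat.sub_add_cancel hlk]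
      rw [e2]
      ring
    rw [e1]
    exact h1
  -- a bound for the denominators
  obtain ⟨r, hr, hrx⟩ : ∃ r : ℕ, 0 < r ∧ ∀ x : K, s * u x * s⁻¹ ∈ G A → (r : K) * x ∈ A := by
    by_cases ha : s 0 0 = 0
    · have hc : s 1 0 ≠ 0 := by
        intro hc
        have hd := det_eq s
        rw [ha, hc, zero_mul, mul_zero, sub_zero] at hd
        exact zero_ne_one hd
      obtain ⟨n, hn, h⟩ := hA.dvd_nat (pow_ne_zero 2 hc)
      refine ⟨n, hn, fun x hx => ?_⟩
      rw [conj_u] at hx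
      have h1 : -(s 1 0 ^ 2 * x) ∈ A := hx 1 0
      have e1 : (n : K) * x = -((n : K) / s 1 0 ^ 2 * -(s 1 0 ^ 2 * x)) := by
        field_simp
      rw [e1]
      exact A.neg_mem (A.mul_mem h h1)
    · obtain ⟨n, hn, h⟩ := hA.dvd_nat (pow_ne_zero 2 ha)
      refine ⟨n, hn, fun x hx => ?_⟩
      rw [conj_u] at hx
      have h1 : s 0 0 ^ 2 * x ∈ A := hx 0 1
      have e1 : (n : K) * x = (n : K) / s 0 0 ^ 2 * (s 0 0 ^ 2 * x) := by
        field_simp
      rw [e1]
      exact A.mul_mem h h1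
  refine ⟨r * N₁, Nat.mul_pos hr hN₁, fun x hx => ?_⟩
  have h1 := hAD _ (hrx x hx)
  have e1 : ((r * N₁ : ℕ) : K) * x = (N₁ : K) * ((r : K) * x) := by
    push_cast
    ring
  rw [e1]
  exact h1

end BoomNF
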