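import Pool.Agent.H.MP_4c7af0_al.NF.S1b

/-! Step 1, part c1 (MP_4c7af0_al, number field case). -/

namespace BoomNF

open NumberField

variable {K : Type*} [Field K] [NumberField K] {A : Subring K}

/-- the commutator computation -/
theorem s1c1_comm {f : SL2 K} {a g y' y₀ : K} (ha : a ≠ 0) (hg : g ≠ 0) (h10 : f 1 0 = 0)
    (h00 : f 0 0 = a) (hy : (1 - (a ^ 2)⁻¹) * y₀ = -(a⁻¹ * f 0 1)) :
    f⁻¹ * ((u y' * dg g * (u y')⁻¹)⁻¹ * f * (u y' * dg g * (u y')⁻¹)) =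
      u ((1 - (a ^ 2)⁻¹) * (1 - (g ^ 2)⁻¹) * (y₀ - y')) := by
  have h11 : f 1 1 = a⁻¹ := by
    have h := det_eq f
    rw [h10, h00, mul_zero, sub_zero] at h
    exact eq_inv_of_mul_eq_one_right h
  have hw : u y' * dg g * (u y')⁻¹ =
      mk4 g (y' * (g⁻¹ - g)) 0 g⁻¹ (by rw [mul_inv_cancel₀ hg]; ring) := by
    apply ext4 <;> simp only [mul_app, inv00, inv01, inv10, inv11, u_00, u_01, u_10, u_11,
      dg_00 hg, dg_01 hg, dg_10 hg, dg_11 hg, mk4_00, mk4_01, mk4_10, mk4_11] <;> ring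
  rw [hw]
  have hb : f 0 1 = -(a * ((1 - (a ^ 2)⁻¹) * y₀)) := by
    rw [hy]
    field_simp
  apply ext4
  · simp only [mul_app, inv00, inv01, inv10, inv11, u_00, h00, h10, h11, mk4_00, mk4_01, mk4_10,
      mk4_11]
    field_simp
    ring
  · simp only [mul_app, inv00, inv01, inv10, inv11, u_01, h00, h10, h11, mk4_00, mk4_01, mk4_10,
      mk4_11, hb]
    field_simp
    ring
  · simp only [mul_app, inv00, inv01, inv10, inv11, u_10, h00, h10, h11, mk4_00, mk4_01, mk4_10,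
      mk4_11]
    ring
  · simp only [mul_app, inv00, inv01, inv10, inv11, u_11, h00, h10, h11, mk4_00, mk4_01, mk4_10,
      mk4_11]
    field_simp
    ring

/-- Step 1 (d), first half. By `no_fixed` and `exists_hyp` there are `l ≥ 1` and `f₀` upper
triangular with `s f₀ s⁻¹ ∈ D`, `f₀ 0 0 = e^l`. Put `μ = e^(2l)` and `y₀` with
`f₀ = u(y₀) dg(e^l) u(-y₀)` (possible as `μ ≠ 1`). For `y' ∈ K` let `j ≥ 1` be such that
`s u(y') dg(e^j) u(-y') s⁻¹ ∈ SL₂(A)` (`tor`), `γ₀ = u(y') dg(e^j) u(-y')`. Recurrence (for the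
inverse of the element `s γ₀ s⁻¹`): some `i ≥ 1` with `γ₀^(-i) f₀ γ₀^i ∈ s⁻¹ D s`; and
`f₀⁻¹ γ₀^(-i) f₀ γ₀^i = u((1 - μ⁻¹) (1 - e^(-2 j i)) (y₀ - y'))`. -/
theorem SRing.many_u (hA : SRing A) {e : K} (hE : InfUnit A e) {D : Subgroup (SL2 K)}
    (hD : D ≤ G A) (hrec : Rec (G A) D) (hnc : NonCentral D) (s : SL2 K) :
    ∃ l : ℕ, 0 < l ∧ ∃ y₀ : K, ∀ y' : K, ∃ k : ℕ, 0 < k ∧
      s * u ((1 - (e ^ (2 * l))⁻¹) * (1 - (e ^ (2 * k))⁻¹) * (y₀ - y')) * s⁻¹ ∈ D := by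
  obtain ⟨δ, hδ, hmove⟩ := hA.no_fixed hE hD hrec hnc s
  obtain ⟨l, hl, f, hf, h10, h00⟩ := hA.exists_hyp hE hD hrec s hδ hmove
  have ha : e ^ l ≠ 0 := pow_ne_zero _ hE.ne
  have hne : 1 - ((e ^ l) ^ 2)⁻¹ ≠ 0 := by
    intro h
    have h1 : ((e ^ l) ^ 2)⁻¹ = 1 := (sub_eq_zero.1 h).symm
    rw [inv_eq_one, ← pow_mul] at h1
    exact hE.pow_ne (l * 2) (by omega) h1
  refine ⟨l, hl, -((e ^ l)⁻¹ * f 0 1) / (1 - ((e ^ l) ^ 2)⁻¹), fun y' => ?_⟩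
  obtain ⟨j, hj, hγ⟩ := hA.tor hE.ne hE.mem hE.inv_mem (s * u y')
  obtain ⟨n, hn, hn'⟩ := hrec _ ((G A).inv_mem hγ) _ hf 1
  have hg : (e ^ j) ^ n ≠ 0 := pow_ne_zero _ (pow_ne_zero _ hE.ne)
  refine ⟨j * n, by positivity, ?_⟩
  have h1 := s1c1_comm (y' := y') (y₀ := -((e ^ l)⁻¹ * f 0 1) / (1 - ((e ^ l) ^ 2)⁻¹)) ha hg h10
    h00 (mul_div_cancel₀ _ hne)
  have e1 : (e ^ l) ^ 2 = e ^ (2 * l) := by rw [← pow_mul, mul_comm]
  have e2 : ((e ^ j) ^ n) ^ 2 = e ^ (2 * (j * n)) := by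
    rw [← pow_mul, ← pow_mul]
    congr 1
    ring
  rw [e1, e2] at h1
  rw [e1, ← h1]
  have h2 := D.mul_mem (D.inv_mem hf) hn'
  rw [inv_pow, conj_pow, dg_pow (pow_ne_zero _ hE.ne)] at h2
  have h3 : s * (f⁻¹ * ((u y' * dg ((e ^ j) ^ n) * (u y')⁻¹)⁻¹ * f *
      (u y' * dg ((e ^ j) ^ n) * (u y')⁻¹))) * s⁻¹ = (s * f * s⁻¹)⁻¹ *
      ((s * u y' * dg ((e ^ j) ^ n) * (s * u y')⁻¹)⁻¹ * (s * f * s⁻¹) *
        ((s * u y' * dg ((e ^ j) ^ n) * (s * u y')⁻¹)⁻¹)⁻¹) := by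
    group
  rw [h3]
  exact h2

theorem s1c1_adjoin {θ : K} (V : Submodule ℚ K) (hV : ∀ x ∈ V, θ * x ∈ V) {c : K}
    (hc : c ∈ IntermediateField.adjoin ℚ {θ}) : ∀ x ∈ V, c * x ∈ V := by
  have hint : IsIntegral ℚ θ := Algebra.IsIntegral.isIntegral θ
  have h1 : c ∈ Algebra.adjoin ℚ {θ} := by
    rw [← IntermediateField.adjoin_simple_toSubalgebra_of_isAlgebraic hint.isAlgebraic]
    exact hc
  clear hc
  induction h1 using Algebra.adjoin_induction with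
  | mem y hy =>
    rw [Set.mem_singleton_iff] at hy
    rw [hy]
    exact hV
  | algebraMap r =>
    intro x hx
    rw [← Algebra.smul_def]
    exact V.smul_mem r hx
  | add y z _ _ hy hz =>
    intro x hx
    rw [add_mul]
    exact V.add_mem (hy x hx) (hz x hx)
  | mul y z _ _ hy hz =>
    intro x hx
    rw [mul_assoc]
    exact hy _ (hz x hx)

/-- linear algebra: let `V` be a `ℚ`-subspace of `K` stable under multiplication by `e ^ m` for some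
`m ≥ 1`, and suppose that for every `y'` there is `k ≥ 1` with
`(1 - e^(-2 l m)) (1 - e^(-2 k m)) (y₀ - y') ∈ V`. Then `V = K`. Proof: `V` is stable under the
subfield `L = ℚ(e^m)` (a finite extension of `ℚ`, so `ℚ(e^m) = ℚ[e^m]`), and the factor
`(1 - e^(-2 l m)) (1 - e^(-2 k m))` is a nonzero element of `L`; so `y₀ - y' ∈ V` for all `y'`. -/
theorem span_top {e y₀ : K} (he : ∀ k : ℕ, 0 < k → e ^ k ≠ 1) (he0 : e ≠ 0) {m l : ℕ} (hm : 0 < m)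
    (hl : 0 < l) (V : Submodule ℚ K) (hV : ∀ x ∈ V, e ^ m * x ∈ V)
    (h : ∀ y' : K, ∃ k : ℕ, 0 < k ∧
      (1 - (e ^ (2 * l * m))⁻¹) * (1 - (e ^ (2 * k * m))⁻¹) * (y₀ - y') ∈ V) : V = ⊤ := by
  rw [Submodule.eq_top_iff']
  intro x
  obtain ⟨k, hk, hx⟩ := h (y₀ - x)
  rw [sub_sub_cancel] at hx
  have hmem : ∀ n : ℕ, 1 - (e ^ (2 * n * m))⁻¹ ∈ IntermediateField.adjoin ℚ {e ^ m} := by
    intro n
    have h1 : e ^ (2 * n * m) = (e ^ m) ^ (2 * n) := by rw [← pow_mul]; congr 1; ring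
    rw [h1]
    refine sub_mem (one_mem _) (inv_mem (pow_mem ?_ _))
    exact IntermediateField.mem_adjoin_simple_self ℚ (e ^ m)
  have hne : ∀ n : ℕ, 0 < n → 1 - (e ^ (2 * n * m))⁻¹ ≠ 0 := by
    intro n hn h1
    have h2 : (e ^ (2 * n * m))⁻¹ = 1 := (sub_eq_zero.1 h1).symm
    rw [inv_eq_one] at h2
    exact he (2 * n * m) (by positivity) h2
  have h3 := s1c1_adjoin V hV (inv_mem (mul_mem (hmem l) (hmem k))) _ hx
  rwa [← mul_assoc, inv_mul_cancel₀ (mul_ne_zero (hne l hl) (hne k hk)), one_mul] at h3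

end BoomNF
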