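import Pool.Agent.H.MP_4c7af0_al.NF.S2b1
import Pool.Agent.H.MP_4c7af0_al.NF.Frob
import Pool.Agent.H.MP_4c7af0_al.NF.NT2

/-! Step 2, part b (MP_4c7af0_al, number field case): the lemma STAR. -/

namespace BoomNF

open NumberField

section field

variable {F : Type*} [Field F] {A : Subring F}

theorem s2b_nat (n : ℕ) : (n : F) ∈ A := natCast_mem A n

theorem s2b_int (z : ℤ) : (z : F) ∈ A := intCast_mem A z

/-- divisibility of integers gives divisibility in `A` -/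
theorem s2b_dvd {a b : ℤ} (h : a ∣ b) : (b : F) / (a : F) ∈ A := by
  obtain ⟨c, rfl⟩ := h
  by_cases ha : (a : F) = 0
  · rw [ha, div_zero]; exact A.zero_mem
  · have : ((a * c : ℤ) : F) / a = c := by
      push_cast
      field_simp
    rw [this]
    exact s2b_int c

theorem s2b_pow_mul {e : F} (he : e ∈ A) (x m : ℕ) :
    ∃ s ∈ A, e ^ (x * m) - 1 = (e ^ x - 1) * s := by
  refine ⟨∑ i ∈ Finset.range m, (e ^ x) ^ i, ?_, ?_⟩
  · exact A.sum_mem fun i _ => A.pow_mem (A.pow_mem he _) _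
  · rw [mul_geom_sum, ← pow_mul]

theorem s2b_pow_div {e : F} (he : e ∈ A) {x y : ℕ} {D : F} (hx : (e ^ x - 1) / D ∈ A)
    (h : x ∣ y) : (e ^ y - 1) / D ∈ A := by
  obtain ⟨m, rfl⟩ := h
  obtain ⟨s, hs, e1⟩ := s2b_pow_mul he x m
  rw [e1, mul_div_right_comm]
  exact A.mul_mem hx hs

theorem s2b_pow_sub {e : F} (he : e ∈ A) {x y o : ℕ} {D : F} (ho : (e ^ o - 1) / D ∈ A)
    (h : (o : ℤ) ∣ (x : ℤ) - y) : (e ^ x - e ^ y) / D ∈ A := by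
  rcases le_total y x with hxy | hxy
  · obtain ⟨m, rfl⟩ := Nat.exists_eq_add_of_le hxy
    have h1 : o ∣ m := by
      have : (o : ℤ) ∣ (m : ℤ) := by
        have e1 : ((y + m : ℕ) : ℤ) - y = m := by push_cast; ring
        rwa [e1] at h
      exact_mod_cast this
    have e2 : (e ^ (y + m) - e ^ y) / D = e ^ y * ((e ^ m - 1) / D) := by
      rw [pow_add]; ring
    rw [e2]
    exact A.mul_mem (A.pow_mem he _) (s2b_pow_div he ho h1)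
  · obtain ⟨m, rfl⟩ := Nat.exists_eq_add_of_le hxy
    have h1 : o ∣ m := by
      have : (o : ℤ) ∣ (m : ℤ) := by
        have e1 : (x : ℤ) - ((x + m : ℕ) : ℤ) = -m := by push_cast; ring
        rw [e1] at h
        exact (dvd_neg.1 h)
      exact_mod_cast this
    have e2 : (e ^ x - e ^ (x + m)) / D = -(e ^ x * ((e ^ m - 1) / D)) := by
      rw [pow_add]; ring
    rw [e2]
    exact A.neg_mem (A.mul_mem (A.pow_mem he _) (s2b_pow_div he ho h1))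

/-- cancel an integer prime to `D` -/
theorem s2b_cancel {q D : ℤ} (hD : (D : F) ≠ 0) (h : IsCoprime q D) {Z : F} (hZ : Z ∈ A)
    (hq : ((q : F) * Z) / (D : F) ∈ A) : Z / (D : F) ∈ A := by
  obtain ⟨x, y, hxy⟩ := h
  have hxy' : (x : F) * q + y * D = 1 := by
    have h1 := congrArg (Int.cast : ℤ → F) hxy
    push_cast at h1
    exact h1
  have : Z / (D : F) = x * (((q : F) * Z) / (D : F)) + y * Z := by
    field_simp
    linear_combination (-Z) * hxy'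
  rw [this]
  exact A.add_mem (A.mul_mem (s2b_int x) hq) (A.mul_mem (s2b_int y) hZ)

end field

variable {K : Type*} [Field K] [NumberField K] {A : Subring K}

/-- the data for one prime `q` -/
theorem s2b_key {e : K} (hE : InfUnit A e) {h : ℕ} {N : ℕ}
    (hN : 0 < N) {K₀ : ℕ} (hK : (e ^ K₀ - 1) / (N : K) ^ 2 ∈ A) {p : ℕ}
    {r : ℕ} {o w : ℕ} (how : o ∣ w)
    (hNw : N ^ 2 ∣ w) (heo : (e ^ o - 1) / (p : K) ^ r ∈ A) {u' : ℕ} (hu0 : 0 < u')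
    (huN : (N : ℤ) ^ 2 ∣ (u' : ℤ) - 1) {a c : K} (ha1 : (a - 1) / (N : K) ^ 2 ∈ A)
    (hc0 : c ≠ 0) (hcM : Cop A c ((w : K) * p)) {n : ℕ}
    (hn : ∀ z : ℤ, (z : K) / c ∈ A ↔ (n : ℤ) ∣ z) {r₀ : ℤ} (hr₀ : (a - r₀) / c ∈ A)
    {q : ℕ} (hq : q.Prime) (hqe : (e ^ (q ^ h - 1) - 1) / (q : K) ∈ A)
    (hqn : (n : ℤ) ∣ (q : ℤ) - r₀) (hqw : (w : ℤ) ∣ (q : ℤ) - u') :
    ∃ y ∈ A, a + (N : K) * y * ((N : K) * c) = q ∧
      ((e ^ (K₀ * (q ^ h - 1))) ^ 2 - 1) / (q : K) ∈ A ∧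
      (e ^ (K₀ * (q ^ h - 1)) - 1) / (N : K) ^ 2 ∈ A ∧
      ((e ^ (K₀ * (q ^ h - 1))) ^ 2 - e ^ (2 * K₀ * (u' ^ h - 1))) / (p : K) ^ r ∈ A := by
  have hNK : (N : K) ≠ 0 := Nat.cast_ne_zero.2 hN.ne'
  obtain ⟨m, hm⟩ := hNw
  refine ⟨((q : K) - a) / ((N : K) ^ 2 * c), ?_, ?_, ?_, ?_, ?_⟩
  · have h1 : ((q : K) - a) / (N : K) ^ 2 ∈ A := by
      have h2 : (N : ℤ) ^ 2 ∣ (q : ℤ) - 1 := by
        have h3 : (N : ℤ) ^ 2 ∣ (q : ℤ) - u' := by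
          refine dvd_trans ?_ hqw
          exact ⟨m, by rw [hm]; push_cast; ring⟩
        have := dvd_add h3 huN
        have e1 : (q : ℤ) - u' + ((u' : ℤ) - 1) = q - 1 := by ring
        rwa [e1] at this
      have h4 := s2b_dvd (F := K) (A := A) h2
      push_cast at h4
      have e2 : ((q : K) - a) / (N : K) ^ 2 = ((q : K) - 1) / (N : K) ^ 2 - (a - 1) / (N : K) ^ 2 := by
        ring
      rw [e2]
      exact A.sub_mem h4 ha1
    have h5 : ((q : K) - a) / c ∈ A := by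
      have h6 := (hn ((q : ℤ) - r₀)).2 hqn
      push_cast at h6
      have e2 : ((q : K) - a) / c = ((q : K) - r₀) / c - (a - r₀) / c := by ring
      rw [e2]
      exact A.sub_mem h6 hr₀
    obtain ⟨x, hx, y, hy, hxy⟩ := hcM
    have hm' : (w : K) = (N : K) ^ 2 * m := by rw [hm]; push_cast; ring
    rw [hm'] at hxy
    have e3 : ((q : K) - a) / ((N : K) ^ 2 * c) =
        ((q : K) - a) / (N : K) ^ 2 * x + ((q : K) - a) / c * (m * p * y) := by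
      field_simp
      linear_combination (-((q : K) - a)) * hxy
    rw [e3]
    exact A.add_mem (A.mul_mem h1 hx)
      (A.mul_mem h5 (A.mul_mem (A.mul_mem (s2b_nat m) (s2b_nat p)) hy))
  · field_simp
    ring
  · rw [← pow_mul]
    exact s2b_pow_div hE.mem hqe ⟨K₀ * 2, by ring⟩
  · exact s2b_pow_div hE.mem hK ⟨_, rfl⟩
  · rw [← pow_mul]
    refine s2b_pow_sub hE.mem heo ?_
    have hq1 : 1 ≤ q ^ h := Nat.one_le_pow _ _ hq.pos
    have hu1 : 1 ≤ u' ^ h := Nat.one_le_pow _ _ hu0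
    have e1 : ((K₀ * (q ^ h - 1) * 2 : ℕ) : ℤ) - ((2 * K₀ * (u' ^ h - 1) : ℕ) : ℤ) =
        (2 * K₀) * ((q : ℤ) ^ h - (u' : ℤ) ^ h) := by
      push_cast [Nat.cast_sub hq1, Nat.cast_sub hu1]
      ring
    rw [e1]
    refine Dvd.dvd.mul_left ?_ _
    refine dvd_trans ?_ (sub_dvd_pow_sub_pow _ _ h)
    refine dvd_trans ?_ hqw
    exact_mod_cast how

/-- STAR (general form). `b = v_p(w) - v_p(N)`, `κ = e^(2 K₀ (u^h - 1)) - 1`. Proof: `normal_form` with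
residue `ν` mod `p^(b+r)` and `M = w p`: we may assume that `g` has first column `(a, N c)`,
`a ≡ 1 mod N²`, `c ≡ ν mod p^(b+r)`, `c` coprime to `w p`, `ℤ → A / c A` onto; `n` from `onto_gen` is
prime to `w p` (`onto_cop`), `a ≡ r₀ mod c` with `r₀` prime to `n` (`onto_rep`). Take `q₁, q₂` from
`star_primes` (larger than the bound of `FrobH.unit`). As `u ≡ 1 mod N²`, `N² ∣ w` and `c` is coprime
to `N`: `q_i ∈ a + N² c A`, so `α_i := q_i = g 0 0 + N y_i (g 1 0)` for some `y_i ∈ A`. By `FrobH.unit`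
`q_i ∣ e^(q_i^h - 1) - 1 ∣ e^(2 k_i) - 1` with `k_i = K₀ (q_i^h - 1)`. By `comm_mem` with
`ε_i = e^(k_i)`: `Y = (e^(2k₁) - 1)(e^(2k₂) - 1)(α₁ - α₂)/(N c α₁ α₂) ∈ I_g`. Now `q_i ≡ u mod o`, so
`q_i^h - 1 ≡ u^h - 1 mod o` and `e^(2 k_i) ≡ e^(2 K₀ (u^h - 1)) = 1 + κ mod p^r`;
`α₁ - α₂ = w ω` with `ω ≡ -j mod p` prime to `p`. So `N c q₁ q₂ Y = w ω (κ² + p^r *)`; divide by the
power of `p` in `N` and multiply `Y` by a suitable integer: `c Y' ≡ p^b κ² mod p^(b+r)`, and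
`c ≡ ν mod p^(b+r)`. (`v_p(N) ≤ v_p(w)` as `N² ∣ w`; the `q_i` are prime to `p`.) -/
theorem SRing.star_gen (hA : SRing A) {e : K} (hE : InfUnit A e) {h : ℕ} (hF : FrobH A h) {N : ℕ}
    (hN : 0 < N) {K₀ : ℕ} (hK₀ : 0 < K₀) (hK : (e ^ K₀ - 1) / (N : K) ^ 2 ∈ A) {p : ℕ}
    (hp : p.Prime) {r : ℕ} (hr : 0 < r) {o w : ℕ} (ho : 0 < o) (hw : 0 < w) (how : o ∣ w)
    (hNw : N ^ 2 ∣ w) (heo : (e ^ o - 1) / (p : K) ^ r ∈ A) {u' : ℕ} (hu0 : 0 < u')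
    (huN : (N : ℤ) ^ 2 ∣ (u' : ℤ) - 1) (huw : Nat.Coprime u' (w * p)) {j : ℕ}
    (hj : Nat.Coprime j p) (hj' : Nat.Coprime (u' + j * w) p) {g : SL2 K}
    (hg : g ∈ GN A ((N : K) ^ 2)) {ν : K} (hν : ν ∈ A) (hνp : Cop A ν (p : K)) :
    ∃ Y ∈ A, g * u Y * g⁻¹ ∈ E A (N : K) ∧
      (ν * Y - (p : K) ^ (padicValNat p w - padicValNat p N) *
        (e ^ (2 * K₀ * (u' ^ h - 1)) - 1) ^ 2) /
          (p : K) ^ (padicValNat p w - padicValNat p N + r) ∈ A := by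
  have := Fact.mk hp
  have hNK : (N : K) ≠ 0 := Nat.cast_ne_zero.2 hN.ne'
  have hNA : (N : K) ∈ A := s2b_nat N
  have hwK : (w : K) ≠ 0 := Nat.cast_ne_zero.2 hw.ne'
  have hpK : (p : K) ≠ 0 := Nat.cast_ne_zero.2 hp.ne_zero
  -- the valuation
  obtain ⟨m, hm⟩ : ∃ m, w = N * m := by
    obtain ⟨m, hm⟩ := hNw
    exact ⟨N * m, by rw [hm]; ring⟩
  have hm0 : m ≠ 0 := by
    rintro rfl
    rw [mul_zero] at hm
    omega
  obtain ⟨b, m', hpm', hm'⟩ := Nat.exists_eq_pow_mul_and_not_dvd hm0 p hp.ne_one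
  have hm'0 : m' ≠ 0 := by
    rintro rfl
    exact hpm' (dvd_zero _)
  have hb : padicValNat p w - padicValNat p N = b := by
    have h1 : padicValNat p w = padicValNat p N + padicValNat p m := by
      rw [hm, padicValNat.mul hN.ne' hm0]
    have h2 : padicValNat p m = b := by
      rw [hm', padicValNat.mul (pow_ne_zero _ hp.ne_zero) hm'0, padicValNat.prime_pow,
        padicValNat.eq_zero_of_not_dvd hpm', add_zero]
    omega
  rw [hb]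
  -- normal form
  have hM : ((w : K) * p) ∈ A := A.mul_mem (s2b_nat w) (s2b_nat p)
  obtain ⟨g', hg', ha1, ha0, c, hc, hc0, hgc, hO, hcM, hcν, hac, himp⟩ :=
    hA.normal_form hN hg hp (b + r) hν hνp hM (mul_ne_zero hwK hpK)
  obtain ⟨n, hn0, hn⟩ := hA.onto_gen hc0
  have hcop := onto_cop hc0 hO hn (M := ((w * p : ℕ) : ℤ)) (by push_cast; exact hcM)
  obtain ⟨r₀, hr₀, hr₀n⟩ := onto_rep (hg'.1 0 0) hc0 hO hn hac
  obtain ⟨B, hB⟩ := hF.unit hE.ne hE.mem hE.inv_mem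
  obtain ⟨q₁, q₂, hq₁, hq₂, hB₁, hB₂, h1n, h1w, h2n, h2w⟩ :=
    star_primes hn0 hw hp (Nat.isCoprime_iff_coprime.1 hcop) hr₀n huw hj' B
  obtain ⟨t₁, ht₁⟩ := h1w
  obtain ⟨t₂, ht₂⟩ := h2w
  push_cast at ht₁ ht₂
  obtain ⟨y₁, hy₁, ey₁, ed₁, eN₁, eκ₁⟩ := s2b_key hE (h := h) hN hK how hNw heo hu0 huN ha1 hc0 hcM
    hn hr₀ hq₁ (hB q₁ hq₁ hB₁) h1n ⟨p * t₁, by rw [ht₁]; ring⟩
  obtain ⟨y₂, hy₂, ey₂, ed₂, eN₂, eκ₂⟩ := s2b_key hE (h := h) hN hK how hNw heo hu0 huN ha1 hc0 hcM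
    hn hr₀ hq₂ (hB q₂ hq₂ hB₂) h2n ⟨p * t₂ + j, by linear_combination ht₂⟩
  rw [← hgc] at ey₁ ey₂
  have hq₁K : (q₁ : K) ≠ 0 := Nat.cast_ne_zero.2 hq₁.ne_zero
  have hq₂K : (q₂ : K) ≠ 0 := Nat.cast_ne_zero.2 hq₂.ne_zero
  have hγ : g' 1 0 ≠ 0 := by rw [hgc]; exact mul_ne_zero hNK hc0
  obtain ⟨ε₁, hε₁⟩ : ∃ ε₁, ε₁ = e ^ (K₀ * (q₁ ^ h - 1)) := ⟨_, rfl⟩
  obtain ⟨ε₂, hε₂⟩ : ∃ ε₂, ε₂ = e ^ (K₀ * (q₂ ^ h - 1)) := ⟨_, rfl⟩
  rw [← hε₁] at ed₁ eN₁ eκ₁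
  rw [← hε₂] at ed₂ eN₂ eκ₂
  have h1 : ε₁ ≠ 0 ∧ ε₁ ∈ A ∧ ε₁⁻¹ ∈ A := by
    rw [hε₁]
    refine ⟨pow_ne_zero _ hE.ne, A.pow_mem hE.mem _, ?_⟩
    rw [← inv_pow]; exact A.pow_mem hE.inv_mem _
  have h2 : ε₂ ≠ 0 ∧ ε₂ ∈ A ∧ ε₂⁻¹ ∈ A := by
    rw [hε₂]
    refine ⟨pow_ne_zero _ hE.ne, A.pow_mem hE.mem _, ?_⟩
    rw [← inv_pow]; exact A.pow_mem hE.inv_mem _
  have hmem := comm_mem hNA hNK hy₁ hy₂ h1.1 h1.2.1 h1.2.2 eN₁ h2.1 h2.2.1 h2.2.2 eN₂ hg' hγ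
    (by rw [ey₁]; exact hq₁K) (by rw [ey₁]; exact ed₁) (by rw [ey₂]; exact hq₂K)
    (by rw [ey₂]; exact ed₂)
  rw [ey₁, ey₂] at hmem
  obtain ⟨Y₀, hY₀⟩ : ∃ Y₀, Y₀ = (ε₁ ^ 2 - 1) * (ε₂ ^ 2 - 1) * ((q₁ : K) - q₂) /
    (g' 1 0 * q₁ * q₂) := ⟨_, rfl⟩
  rw [← hY₀] at hmem
  have hEG : ∀ x ∈ E A (N : K), x ∈ G A := fun x hx =>
    GN_le (Es_le_GN (E_le_Es hNA hNK hx))
  have hY₀A : Y₀ ∈ A := by
    have h3 : u Y₀ ∈ G A := by
      have e1 : u Y₀ = g'⁻¹ * (g' * u Y₀ * g'⁻¹) * g' := by group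
      rw [e1]
      exact (G A).mul_mem ((G A).mul_mem ((G A).inv_mem hg'.1) (hEG _ hmem)) hg'.1
    exact h3 0 1
  -- the difference of the primes
  obtain ⟨ω, hω⟩ : ∃ ω : ℤ, ω = p * (t₁ - t₂) - j := ⟨_, rfl⟩
  have hqq : (q₁ : ℤ) - q₂ = w * ω := by
    rw [hω]; linear_combination ht₁ - ht₂
  have hqqK : (q₁ : K) - q₂ = w * ω := by exact_mod_cast hqq
  have hωp : IsCoprime ω (p : ℤ) := by
    have h3 : IsCoprime (-(j : ℤ)) (p : ℤ) := (Nat.isCoprime_iff_coprime.2 hj).neg_left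
    have h4 := h3.add_mul_left_left (t₁ - t₂)
    have e1 : -(j : ℤ) + p * (t₁ - t₂) = ω := by rw [hω]; ring
    rwa [e1] at h4
  have hm'p : IsCoprime (m' : ℤ) (p : ℤ) :=
    Nat.isCoprime_iff_coprime.2 ((Nat.Prime.coprime_iff_not_dvd hp).2 hpm').symm
  have hcopr : IsCoprime ((m' : ℤ) * ω) ((p : ℤ) ^ r) := (hm'p.mul_left hωp).pow_right
  obtain ⟨x, y, hxy⟩ := hcopr
  -- the main identity
  obtain ⟨s₁, hs₁⟩ : ∃ s₁, s₁ = (ε₁ ^ 2 - e ^ (2 * K₀ * (u' ^ h - 1))) / (p : K) ^ r := ⟨_, rfl⟩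
  obtain ⟨s₂, hs₂⟩ : ∃ s₂, s₂ = (ε₂ ^ 2 - e ^ (2 * K₀ * (u' ^ h - 1))) / (p : K) ^ r := ⟨_, rfl⟩
  rw [← hs₁] at eκ₁
  rw [← hs₂] at eκ₂
  obtain ⟨κ, hκ⟩ : ∃ κ, κ = e ^ (2 * K₀ * (u' ^ h - 1)) - 1 := ⟨_, rfl⟩
  have hκA : κ ∈ A := by rw [hκ]; exact A.sub_mem (A.pow_mem hE.mem _) A.one_mem
  rw [← hκ]
  have hprK : (p : K) ^ r ≠ 0 := pow_ne_zero _ hpK
  have e1 : ε₁ ^ 2 - 1 = κ + (p : K) ^ r * s₁ := by
    rw [hs₁, hκ]; field_simp; ring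
  have e2 : ε₂ ^ 2 - 1 = κ + (p : K) ^ r * s₂ := by
    rw [hs₂, hκ]; field_simp; ring
  have hmain : c * ((q₁ : K) * q₂) * Y₀ =
      (p : K) ^ b * (m' * ω) * (ε₁ ^ 2 - 1) * (ε₂ ^ 2 - 1) := by
    have e3 : (w : K) = N * ((p : K) ^ b * m') := by
      rw [hm, hm']; push_cast; ring
    rw [hY₀, hqqK, e3, hgc]
    field_simp
  have hxy' : (x : K) * (m' * ω) + y * (p : K) ^ r = 1 := by exact_mod_cast hxy
  -- the multiple
  obtain ⟨t, ht⟩ : ∃ t : ℤ, t = x * (q₁ * q₂) := ⟨_, rfl⟩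
  have htK : (t : K) = x * ((q₁ : K) * q₂) := by rw [ht]; push_cast; ring
  have hYA : (t : K) * Y₀ ∈ A := A.mul_mem (s2b_int t) hY₀A
  refine ⟨(t : K) * Y₀, hYA, ?_, ?_⟩
  · apply himp
    have e3 : g' * u ((t : K) * Y₀) * g'⁻¹ = (g' * u Y₀ * g'⁻¹) ^ t := by
      rw [← u_zpow, conj_zpow]
    rw [e3]
    exact (E A (N : K)).zpow_mem hmem t
  · have hpbK : (p : K) ^ (b + r) ≠ 0 := pow_ne_zero _ hpK
    have hgoal : (c * ((t : K) * Y₀) - (p : K) ^ b * κ ^ 2) / (p : K) ^ (b + r) ∈ A := by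
      have h5 : (c * ((t : K) * Y₀) - (p : K) ^ b * κ ^ 2) / (((p : ℤ) ^ (b + r) : ℤ) : K) ∈ A := by
        refine s2b_cancel (q := (q₁ : ℤ) * q₂) (by push_cast; exact hpbK) ?_ ?_ ?_
        · -- the primes are prime to `p`
          have h6 : IsCoprime (q₁ : ℤ) (p : ℤ) := by
            have h7 : IsCoprime (u' : ℤ) (p : ℤ) :=
              Nat.isCoprime_iff_coprime.2 (Nat.Coprime.coprime_mul_left_right huw)
            have h8 := h7.add_mul_left_left (w * t₁)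
            have e3 : (u' : ℤ) + p * (w * t₁) = q₁ := by linear_combination -ht₁
            rwa [e3] at h8
          have h9 : IsCoprime (q₂ : ℤ) (p : ℤ) := by
            have h7 : IsCoprime ((u' + j * w : ℕ) : ℤ) (p : ℤ) :=
              Nat.isCoprime_iff_coprime.2 hj'
            have h8 := h7.add_mul_left_left (w * t₂)
            have e3 : ((u' + j * w : ℕ) : ℤ) + p * (w * t₂) = q₂ := by
              push_cast; linear_combination -ht₂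
            rwa [e3] at h8
          exact (h6.mul_left h9).pow_right
        · exact A.sub_mem (A.mul_mem hc hYA) (A.mul_mem (A.pow_mem (s2b_nat p) _)
            (A.pow_mem hκA 2))
        · have e4 : ((((q₁ : ℤ) * q₂ : ℤ) : K) * (c * ((t : K) * Y₀) - (p : K) ^ b * κ ^ 2)) /
              (((p : ℤ) ^ (b + r) : ℤ) : K) =
              ((q₁ : K) * q₂) * ((1 - y * (p : K) ^ r) *
                (κ * s₁ + κ * s₂ + (p : K) ^ r * s₁ * s₂) - y * κ ^ 2) := by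
            rw [div_eq_iff (by push_cast; exact hpbK)]
            push_cast
            rw [pow_add]
            have e5 : (x : K) * (m' * ω) = 1 - y * (p : K) ^ r := by linear_combination hxy'
            have e6 : (q₁ : K) * q₂ * (c * ((t : K) * Y₀)) =
                (p : K) ^ b * ((q₁ : K) * q₂) * (1 - y * (p : K) ^ r) *
                  ((κ + (p : K) ^ r * s₁) * (κ + (p : K) ^ r * s₂)) := by
              rw [← e5, ← e1, ← e2, htK]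
              linear_combination (x * ((q₁ : K) * q₂)) * hmain
            rw [mul_sub, e6]
            ring
          rw [e4]
          refine A.mul_mem (A.mul_mem (s2b_nat _) (s2b_nat _)) (A.sub_mem (A.mul_mem ?_ ?_) ?_)
          · exact A.sub_mem A.one_mem (A.mul_mem (s2b_int y) (A.pow_mem (s2b_nat p) _))
          · exact A.add_mem (A.add_mem (A.mul_mem hκA eκ₁) (A.mul_mem hκA eκ₂))
              (A.mul_mem (A.mul_mem (A.pow_mem (s2b_nat p) _) eκ₁) eκ₂)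
          · exact A.mul_mem (s2b_int y) (A.pow_mem hκA 2)
      push_cast at h5
      exact h5
    have e7 : (ν * ((t : K) * Y₀) - (p : K) ^ b * κ ^ 2) / (p : K) ^ (b + r) =
        (c * ((t : K) * Y₀) - (p : K) ^ b * κ ^ 2) / (p : K) ^ (b + r) -
          (c - ν) / (p : K) ^ (b + r) * ((t : K) * Y₀) := by
      ring
    rw [e7]
    exact A.sub_mem hgoal (A.mul_mem hcν hYA)

end BoomNF
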