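import Pool.Agent.H.MP_4c7af0_al.NF.S2a
import Pool.Agent.H.MP_4c7af0_al.NF.Good2
import Pool.Agent.H.MP_4c7af0_al.NF.Good3

/-! Step 2, part b1: normal form of the first column (MP_4c7af0_al, number field case). -/

namespace BoomNF

open NumberField

variable {K : Type*} [Field K] [NumberField K] {A : Subring K}

/-- normalisation of the first column of `g` by left multiplication by `u(N x)`, `v(N x)` (this does
not change `I_g`). Proof: by `coprime_lift` for `(g 0 0, N (g 1 0))` make `g 0 0` nonzero and coprime to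
`p` (multiply by `u(N x)`: the new upper left entry is `g 0 0 + N (g 1 0) x`). Write `g 1 0 = N c₀` with
`c₀ ∈ A`; multiplication by `v(N x)` replaces `c₀` by `c₀ + (g 0 0) x`; apply `good_res` to
`(c₀, g 0 0)` with residue `r` mod `p^j` and `M`. Note that `g 0 0 ≡ 1 mod N²` stays true. -/
theorem SRing.normal_form (hA : SRing A) {N : ℕ} (hN : 0 < N) {g : SL2 K}
    (hg : g ∈ GN A ((N : K) ^ 2)) {p : ℕ} (hp : p.Prime) (j : ℕ) {r : K} (hr : r ∈ A)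
    (hrp : Cop A r (p : K)) {M : K} (hM : M ∈ A) (hM0 : M ≠ 0) :
    ∃ g' : SL2 K, g' ∈ GN A (N : K) ∧ (g' 0 0 - 1) / (N : K) ^ 2 ∈ A ∧ g' 0 0 ≠ 0 ∧
      ∃ c ∈ A, c ≠ 0 ∧ g' 1 0 = (N : K) * c ∧ Onto A c ∧ Cop A c M ∧ (c - r) / (p : K) ^ j ∈ A ∧
      Cop A (g' 0 0) c ∧
      ∀ x : K, g' * u x * g'⁻¹ ∈ E A (N : K) → g * u x * g⁻¹ ∈ E A (N : K) := by
  have hNK : (N : K) ≠ 0 := Nat.cast_ne_zero.2 hN.ne'
  have hNA : (N : K) ∈ A := natCast_mem A N
  have hpK : (p : K) ≠ 0 := Nat.cast_ne_zero.2 hp.ne_zero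
  have hpA : (p : K) ∈ A := natCast_mem A p
  obtain ⟨hgG, h00, h01, h10, h11⟩ := hg
  have hdet := det_eq g
  -- `g` is in `Γ(N)`
  have hgN : g ∈ GN A (N : K) := by
    refine GN_mono hNK (pow_ne_zero 2 hNK) ?_ ⟨hgG, h00, h01, h10, h11⟩
    have h1 : (N : K) ^ 2 / (N : K) = N := by field_simp
    rw [h1]
    exact hNA
  -- coprimality of `g 0 0` and `N (g 1 0)`
  have hc1 : Cop A (g 0 0) (g 1 0) :=
    ⟨g 1 1, hgG 1 1, -(g 0 1), A.neg_mem (hgG 0 1), by linear_combination hdet⟩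
  have hc2 : Cop A (g 0 0) (N : K) := by
    refine ⟨1, A.one_mem, -((N : K) * ((g 0 0 - 1) / (N : K) ^ 2)),
      A.neg_mem (A.mul_mem hNA h00), ?_⟩
    field_simp
    ring
  have hc3 : Cop A (g 0 0) ((N : K) * g 1 0) :=
    Cop.mul_right (hgG 0 0) hNA (hgG 1 0) hc2 hc1
  obtain ⟨t, ht, ha0, hap⟩ := hA.coprime_lift (hgG 0 0) (A.mul_mem hNA (hgG 1 0)) hpA hpK hc3
  obtain ⟨a1, ha1⟩ : ∃ a1 : K, a1 = g 0 0 + (N : K) * g 1 0 * t := ⟨_, rfl⟩
  rw [← ha1] at ha0 hap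
  have ha1A : a1 ∈ A := by
    rw [ha1]
    exact A.add_mem (hgG 0 0) (A.mul_mem (A.mul_mem hNA (hgG 1 0)) ht)
  obtain ⟨c0, hc0⟩ : ∃ c0 : K, c0 = (N : K) * (g 1 0 / (N : K) ^ 2) := ⟨_, rfl⟩
  have hc0A : c0 ∈ A := by
    rw [hc0]
    exact A.mul_mem hNA h10
  have hc0' : g 1 0 = (N : K) * c0 := by
    rw [hc0]
    field_simp
  have hcop : Cop A c0 a1 := by
    refine ⟨-((N : K) * (g 0 1 + (N : K) * t * g 1 1)), ?_, g 1 1, hgG 1 1, ?_⟩
    · exact A.neg_mem (A.mul_mem hNA (A.add_mem (hgG 0 1) (A.mul_mem (A.mul_mem hNA ht)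
        (hgG 1 1))))
    · rw [ha1]
      linear_combination hdet + (g 0 1 + (N : K) * t * g 1 1) * hc0'
  obtain ⟨x, hx, hne, hO, hM', hres⟩ := hA.good_res hc0A ha1A ha0 hcop hM hM0 hp j hr hrp hap
  have huE : u ((N : K) * t) ∈ E A (N : K) :=
    u_mem_E hNK (by rw [mul_div_cancel_left₀ _ hNK]; exact ht)
  have hvE : v ((N : K) * x) ∈ E A (N : K) :=
    v_mem_E hNK (by rw [mul_div_cancel_left₀ _ hNK]; exact hx)
  have hg00 : (v ((N : K) * x) * (u ((N : K) * t) * g)) 0 0 = a1 := by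
    rw [mul_app, mul_app, mul_app, v_00, v_01, u_00, u_01, ha1]
    ring
  have hg10 : (v ((N : K) * x) * (u ((N : K) * t) * g)) 1 0 = (N : K) * (c0 + a1 * x) := by
    rw [mul_app, mul_app, mul_app, v_10, v_11, u_00, u_01, u_10, u_11, ha1]
    linear_combination hc0'
  refine ⟨v ((N : K) * x) * (u ((N : K) * t) * g), ?_, ?_, ?_, c0 + a1 * x,
    A.add_mem hc0A (A.mul_mem ha1A hx), hne, hg10, hO, hM', hres, ?_, ?_⟩
  · refine (GN A (N : K)).mul_mem (v_mem_GN hNA hNK ?_) ((GN A (N : K)).mul_mem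
      (u_mem_GN hNA hNK ?_) hgN)
    · rw [mul_div_cancel_left₀ _ hNK]; exact hx
    · rw [mul_div_cancel_left₀ _ hNK]; exact ht
  · rw [hg00, ha1]
    have h1 : (g 0 0 + (N : K) * g 1 0 * t - 1) / (N : K) ^ 2 =
        (g 0 0 - 1) / (N : K) ^ 2 + (N : K) * (g 1 0 / (N : K) ^ 2) * t := by
      field_simp
      ring
    rw [h1]
    exact A.add_mem h00 (A.mul_mem (A.mul_mem hNA h10) ht)
  · rw [hg00]
    exact ha0
  · rw [hg00]
    exact (Cop.add_mul hx hcop).symm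
  · intro y hy
    have h1 : g * u y * g⁻¹ = (v ((N : K) * x) * u ((N : K) * t))⁻¹ *
        (v ((N : K) * x) * (u ((N : K) * t) * g) * u y *
          (v ((N : K) * x) * (u ((N : K) * t) * g))⁻¹) *
        (v ((N : K) * x) * u ((N : K) * t)) := by group
    rw [h1]
    exact (E A (N : K)).mul_mem ((E A (N : K)).mul_mem ((E A (N : K)).inv_mem
      ((E A (N : K)).mul_mem hvE huE)) hy) ((E A (N : K)).mul_mem hvE huE)

/-- if `gcd(a, b) ∣ B` then `e^B - 1` is in the ideal generated by `e^a - 1` and `e^b - 1` -/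
theorem tau_mem {F : Type*} [Field F] {A : Subring F} {e : F} (he0 : e ≠ 0) (he : e ∈ A)
    (hei : e⁻¹ ∈ A) {a b B : ℕ} (h : Nat.gcd a b ∣ B) :
    ∃ x ∈ A, ∃ y ∈ A, e ^ B - 1 = (e ^ a - 1) * x + (e ^ b - 1) * y := by
  have hz : ∀ k : ℤ, e ^ k ∈ A := by
    intro k
    rcases k with k | k
    · rw [Int.ofNat_eq_natCast, zpow_natCast]
      exact A.pow_mem he k
    · rw [zpow_negSucc, ← inv_pow]
      exact A.pow_mem hei _
  let J : AddSubgroup ℤ :=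
    { carrier := {k | ∃ x ∈ A, ∃ y ∈ A, e ^ k - 1 = (e ^ a - 1) * x + (e ^ b - 1) * y}
      zero_mem' := ⟨0, A.zero_mem, 0, A.zero_mem, by simp⟩
      add_mem' := by
        rintro k l ⟨x, hx, y, hy, h1⟩ ⟨x', hx', y', hy', h2⟩
        refine ⟨x + e ^ k * x', A.add_mem hx (A.mul_mem (hz k) hx'), y + e ^ k * y',
          A.add_mem hy (A.mul_mem (hz k) hy'), ?_⟩
        rw [zpow_add₀ he0]
        linear_combination h1 + e ^ k * h2
      neg_mem' := by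
        rintro k ⟨x, hx, y, hy, h1⟩
        refine ⟨-(e ^ (-k) * x), A.neg_mem (A.mul_mem (hz _) hx), -(e ^ (-k) * y),
          A.neg_mem (A.mul_mem (hz _) hy), ?_⟩
        have h2 : e ^ (-k) * e ^ k = 1 := by rw [← zpow_add₀ he0, neg_add_cancel, zpow_zero]
        linear_combination -e ^ (-k) * h1 + h2 }
  have ha : (a : ℤ) ∈ J := ⟨1, A.one_mem, 0, A.zero_mem, by rw [zpow_natCast]; ring⟩
  have hb : (b : ℤ) ∈ J := ⟨0, A.zero_mem, 1, A.one_mem, by rw [zpow_natCast]; ring⟩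
  obtain ⟨c, hc⟩ := h
  have hB : (B : ℤ) ∈ J := by
    have h1 : (B : ℤ) = ((c : ℤ) * Nat.gcdA a b) • (a : ℤ) + ((c : ℤ) * Nat.gcdB a b) • (b : ℤ) := by
      rw [hc, Nat.cast_mul, Nat.gcd_eq_gcd_ab, smul_eq_mul, smul_eq_mul]
      ring
    rw [h1]
    exact J.add_mem (J.zsmul_mem ha _) (J.zsmul_mem hb _)
  obtain ⟨x, hx, y, hy, h1⟩ := hB
  exact ⟨x, hx, y, hy, by rwa [zpow_natCast] at h1⟩

end BoomNF
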