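import Pool.Agent.H.MP_4c7af0_al.NF.S2c1

/-! Step 2, part c (MP_4c7af0_al, number field case): `p`-adic statements for all `p`. -/

namespace BoomNF

open NumberField

variable {K : Type*} [Field K] [NumberField K] {A : Subring K}

theorem s2c_sub {g : SL2 K} {N Y Y' : K} (h : g * u Y * g⁻¹ ∈ E A N)
    (h' : g * u Y' * g⁻¹ ∈ E A N) (t : ℕ) : g * u (Y - t * Y') * g⁻¹ ∈ E A N := by
  have e : g * u (Y - t * Y') * g⁻¹ = (g * u Y * g⁻¹) * ((g * u Y' * g⁻¹) ^ t)⁻¹ := by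
    rw [conj_pow, u_pow, sub_eq_add_neg, ← u_mul, ← u_inv]
    group
  rw [e]
  exact (E A N).mul_mem h ((E A N).inv_mem ((E A N).pow_mem h' t))

theorem s2c_setup (hA : SRing A) {e : K} (hE : InfUnit A e) {h : ℕ} (hF : FrobH A h) {N : ℕ}
    (hN : 0 < N) : ∃ K₀ : ℕ, 0 < K₀ ∧ (e ^ K₀ - 1) / (N : K) ^ 2 ∈ A ∧ ∃ T : ℕ, 0 < T ∧
      ∃ κ' ∈ A, (T : K) = (e ^ (2 * K₀ * h * N ^ 2) - 1) ^ 2 * κ' := by
  have hN0 : (N : K) ≠ 0 := by exact_mod_cast hN.ne'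
  obtain ⟨K₀, hK₀, hK⟩ := hA.unit_pow hE.ne hE.mem hE.inv_mem
    (α := (N : K) ^ 2) (A.pow_mem (natCast_mem A N) 2) (pow_ne_zero 2 hN0)
  refine ⟨K₀, hK₀, hK, ?_⟩
  have hτ : e ^ (2 * K₀ * h * N ^ 2) - 1 ≠ 0 := by
    rw [sub_ne_zero]
    apply hE.pow_ne
    have := hF.pos
    positivity
  obtain ⟨T, hT, hT'⟩ := hA.dvd_nat (pow_ne_zero 2 hτ)
  refine ⟨T, hT, _, hT', ?_⟩
  field_simp

/-- `(2d)` for a fixed prime `p`. `τ = e^(2 K₀ h N²) - 1 ≠ 0`, `K₀` from `unit_pow`. Let `T ≥ 1` be an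
integer, `T = τ² κ'`, `κ' ∈ A` (`dvd_nat`), `V = v_p(T)`, `T = p^V T'`; `r = V + 2`, `b, κ` from
`star`, `vp = b + V + 1`. STAR with `ν` an inverse of `1 + z` mod `p^(b+r)`, `z ∈ p A`, and with `ν = 1`:
`Y₁ - Y₂ ≡ p^b κ² z mod p^(b+r)`. `τ² ≡ κ² s mod p^r` for some `s ∈ A`. For `x ∈ A` take
`z = p s κ' t' x` with `t' T' ≡ 1 mod p`, `t' ∈ ℤ`: `p^b κ² z ≡ p^(b+1) τ² κ' t' x = p^(b+1+V) T' t' x
≡ p^vp x mod p^(vp+1)` (note `b + r = vp + 1`). -/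
theorem SRing.loc_p (hA : SRing A) {e : K} (hE : InfUnit A e) {h : ℕ} (hF : FrobH A h) {N : ℕ}
    (hN : 0 < N) (hhN : (h + 1).factorial ∣ N) {p : ℕ} (hp : p.Prime) :
    ∃ vp : ℕ, ∀ g ∈ GN A ((N : K) ^ 2), ∀ x ∈ A, ∃ i ∈ A, g * u i * g⁻¹ ∈ E A (N : K) ∧
      ((p : K) ^ vp * x - i) / (p : K) ^ (vp + 1) ∈ A := by
  obtain ⟨K₀, hK₀, hK, T, hT, κ', hκ', hTκ⟩ := s2c_setup hA hE hF hN
  obtain ⟨V, T', hT', hTV⟩ := Nat.exists_eq_pow_mul_and_not_dvd hT.ne' p hp.ne_one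
  obtain ⟨b, κ, hκ, ⟨x1, hx1, y1, hy1, eτ⟩, hst⟩ :=
    hA.star hE hF hN hhN hK₀ hK hp (r := V + 2) (by omega)
  set τ : K := e ^ (2 * K₀ * h * N ^ 2) - 1 with hτ
  have hp0 : (p : K) ≠ 0 := by exact_mod_cast hp.ne_zero
  have hpA : (p : K) ∈ A := natCast_mem A p
  obtain ⟨t', m, htm⟩ : ∃ t' m : ℤ, t' * (T' : ℤ) + m * (p : ℤ) = 1 := by
    have hc : IsCoprime (T' : ℤ) (p : ℤ) := by
      rw [Nat.isCoprime_iff_coprime]
      exact ((Nat.Prime.coprime_iff_not_dvd hp).2 hT').symm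
    obtain ⟨a, b, hab⟩ := hc
    exact ⟨a, b, hab⟩
  have htmK : (t' : K) * (T' : K) + (m : K) * (p : K) = 1 := by exact_mod_cast htm
  have htA : (t' : K) ∈ A := intCast_mem A t'
  have hmA : (m : K) ∈ A := intCast_mem A m
  have hTK : (T : K) = (p : K) ^ V * (T' : K) := by exact_mod_cast hTV
  refine ⟨b + V + 1, ?_⟩
  intro g hg x hx
  -- `s`, `y2`
  set s : K := x1 ^ 2 with hs
  set y2 : K := 2 * κ * x1 * y1 + (p : K) ^ (V + 2) * y1 ^ 2 with hy2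
  have hsA : s ∈ A := A.pow_mem hx1 2
  have h2A : (2 : K) ∈ A := by exact_mod_cast natCast_mem A 2
  have hy2A : y2 ∈ A := A.add_mem (A.mul_mem (A.mul_mem (A.mul_mem h2A hκ) hx1) hy1)
    (A.mul_mem (A.pow_mem hpA _) (A.pow_mem hy1 2))
  have eτ2 : τ ^ 2 = κ ^ 2 * s + (p : K) ^ (V + 2) * y2 := by
    rw [eτ, hs, hy2]; ring
  set z' : K := s * κ' * t' * x with hz'
  have hz'A : z' ∈ A := A.mul_mem (A.mul_mem (A.mul_mem hsA hκ') htA) hx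
  set n : ℕ := b + (V + 2) with hn
  -- the inverse of `1 + z`
  set ν : K := ∑ i ∈ Finset.range n, (-((p : K) * z')) ^ i with hν
  have hνA : ν ∈ A := A.sum_mem fun i _ => A.pow_mem (A.neg_mem (A.mul_mem hpA hz'A)) i
  have hνe : (1 + (p : K) * z') * ν = 1 - (p : K) ^ n * (-z') ^ n := by
    have := mul_neg_geom_sum (-((p : K) * z')) n
    rw [← hν] at this
    have e2 : (-((p : K) * z')) ^ n = (p : K) ^ n * (-z') ^ n := by
      rw [← mul_pow]; congr 1; ring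
    rw [e2] at this
    rw [← this]; ring
  have hνp : Cop A ν (p : K) := by
    refine ⟨1 + (p : K) * z', A.add_mem A.one_mem (A.mul_mem hpA hz'A),
      (p : K) ^ (n - 1) * (-z') ^ n,
      A.mul_mem (A.pow_mem hpA _) (A.pow_mem (A.neg_mem hz'A) _), ?_⟩
    have e3 : (p : K) ^ n = (p : K) * (p : K) ^ (n - 1) := by
      rw [← pow_succ']
      congr 1
    rw [mul_comm ν, hνe, e3]; ring
  obtain ⟨Y1, hY1, hgY1, hw1⟩ := hst g hg ν hνA hνp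
  obtain ⟨Y2, hY2, hgY2, hw2⟩ := hst g hg 1 A.one_mem ⟨1, A.one_mem, 0, A.zero_mem, by ring⟩
  set w1 : K := (ν * Y1 - (p : K) ^ b * κ ^ 2) / (p : K) ^ (b + (V + 2)) with hw1'
  set w2 : K := (1 * Y2 - (p : K) ^ b * κ ^ 2) / (p : K) ^ (b + (V + 2)) with hw2'
  have ew1 : ν * Y1 = (p : K) ^ b * κ ^ 2 + (p : K) ^ n * w1 := by
    rw [hw1', ← hn]; field_simp; ring
  have ew2 : Y2 = (p : K) ^ b * κ ^ 2 + (p : K) ^ n * w2 := by
    rw [hw2', ← hn]; field_simp; ring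
  refine ⟨Y1 - Y2, A.sub_mem hY1 hY2, ?_, ?_⟩
  · have := s2c_sub hgY1 hgY2 1
    rwa [Nat.cast_one, one_mul] at this
  have key : ((p : K) ^ (b + V + 1) * x - (Y1 - Y2)) / (p : K) ^ (b + V + 1 + 1) =
      m * x + (p : K) * κ' * t' * x * y2 -
        ((1 + (p : K) * z') * w1 + (-z') ^ n * Y1 - w2) := by
    have en : (p : K) ^ (b + V + 1 + 1) = (p : K) ^ n := by
      congr 1
    rw [en, div_eq_iff (pow_ne_zero n hp0)]
    have eY1 : Y1 = (1 + (p : K) * z') * ((p : K) ^ b * κ ^ 2 + (p : K) ^ n * w1) +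
        (p : K) ^ n * (-z') ^ n * Y1 := by
      rw [← ew1]
      linear_combination (-Y1) * hνe
    have e5 : (p : K) * z' * ((p : K) ^ b * κ ^ 2) =
        (p : K) ^ (b + V + 1) * (1 - m * (p : K)) * x -
          (p : K) ^ n * ((p : K) * κ' * t' * x * y2) := by
      have e6 : κ ^ 2 * s = τ ^ 2 - (p : K) ^ (V + 2) * y2 := by rw [eτ2]; ring
      have e7 : (p : K) * z' * ((p : K) ^ b * κ ^ 2) =
          (p : K) ^ (b + 1) * κ' * t' * x * (κ ^ 2 * s) := by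
        rw [hz']; ring
      rw [e7, e6]
      have e8 : τ ^ 2 * κ' = (p : K) ^ V * (T' : K) := by rw [← hTκ, hTK]
      have e9 : (t' : K) * (T' : K) = 1 - m * (p : K) := by rw [← htmK]; ring
      rw [← e9, hn]
      have e10 : (p : K) ^ (b + 1) * κ' * t' * x * (τ ^ 2 - (p : K) ^ (V + 2) * y2) =
          (p : K) ^ (b + 1) * t' * x * (τ ^ 2 * κ') -
            (p : K) ^ (b + 1) * κ' * t' * x * (p : K) ^ (V + 2) * y2 := by ring
      rw [e10, e8]; ring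
    have e11 : (p : K) ^ (b + V + 1) * (p : K) = (p : K) ^ n := by
      rw [← pow_succ, en]
    linear_combination (-1 : K) * eY1 + ew2 - e5 + m * x * e11
  rw [key]
  refine A.sub_mem (A.add_mem (A.mul_mem hmA hx) (A.mul_mem (A.mul_mem (A.mul_mem
    (A.mul_mem hpA hκ') htA) hx) hy2A)) (A.sub_mem (A.add_mem (A.mul_mem (A.add_mem A.one_mem
    (A.mul_mem hpA hz'A)) hw1) (A.mul_mem (A.pow_mem (A.neg_mem hz'A) _) hY1)) hw2)

/-- `(2d)` for large `p`: `vp = 0`. `τ² κ' = T` is a unit mod `p` for large `p` and `τ² ≡ κ² s mod p`,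
so `x ≡ κ² x' mod p` for some `x' ∈ A`; by `pigeon` (with `a = x'`, `b = 1`) `x' + j` is a unit mod `p`
for some integer `j`; STAR₀ with `ν` an inverse of `x' + j` mod `p` and with `ν = 1`:
`Y₁ - j Y₂ ≡ x mod p`. -/
theorem SRing.loc_large (hA : SRing A) {e : K} (hE : InfUnit A e) {h : ℕ} (hF : FrobH A h) {N : ℕ}
    (hN : 0 < N) (hhN : (h + 1).factorial ∣ N) :
    ∃ B : ℕ, ∀ p : ℕ, p.Prime → B < p → ∀ g ∈ GN A ((N : K) ^ 2), ∀ x ∈ A,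
      ∃ i ∈ A, g * u i * g⁻¹ ∈ E A (N : K) ∧ (x - i) / (p : K) ∈ A := by
  obtain ⟨K₀, hK₀, hK, T, hT, κ', hκ', hTκ⟩ := s2c_setup hA hE hF hN
  obtain ⟨B₁, hB₁⟩ := hA.star₀ hE hF hN hhN hK₀ hK
  obtain ⟨ν₀, hν₀⟩ := hA.pigeon
  refine ⟨B₁ + ν₀ + T, ?_⟩
  intro p hp hBp g hg x hx
  obtain ⟨κ, hκ, ⟨x1, hx1, y1, hy1, eτ⟩, hst⟩ := hB₁ p hp (by omega)
  set τ : K := e ^ (2 * K₀ * h * N ^ 2) - 1 with hτ
  have hp0 : (p : K) ≠ 0 := by exact_mod_cast hp.ne_zero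
  have hpA : (p : K) ∈ A := natCast_mem A p
  obtain ⟨t', m, htm⟩ : ∃ t' m : ℤ, t' * (T : ℤ) + m * (p : ℤ) = 1 := by
    have hc : IsCoprime (T : ℤ) (p : ℤ) := by
      rw [Nat.isCoprime_iff_coprime]
      exact ((Nat.Prime.coprime_iff_not_dvd hp).2
        (Nat.not_dvd_of_pos_of_lt hT (by omega))).symm
    obtain ⟨a, b, hab⟩ := hc
    exact ⟨a, b, hab⟩
  have htmK : (t' : K) * (T : K) + (m : K) * (p : K) = 1 := by exact_mod_cast htm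
  have htA : (t' : K) ∈ A := intCast_mem A t'
  have hmA : (m : K) ∈ A := intCast_mem A m
  set s : K := x1 ^ 2 with hs
  set y2 : K := 2 * κ * x1 * y1 + (p : K) * y1 ^ 2 with hy2
  have hsA : s ∈ A := A.pow_mem hx1 2
  have h2A : (2 : K) ∈ A := by exact_mod_cast natCast_mem A 2
  have hy2A : y2 ∈ A := A.add_mem (A.mul_mem (A.mul_mem (A.mul_mem h2A hκ) hx1) hy1)
    (A.mul_mem hpA (A.pow_mem hy1 2))
  have eτ2 : τ ^ 2 = κ ^ 2 * s + (p : K) * y2 := by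
    rw [eτ, hs, hy2]; ring
  set x' : K := x * t' * κ' * s with hx'
  have hx'A : x' ∈ A := A.mul_mem (A.mul_mem (A.mul_mem hx htA) hκ') hsA
  obtain ⟨t, -, c, hc, d, hd, hcd⟩ := hν₀ p hp (by omega) x' hx'A 1 A.one_mem
    ⟨0, A.zero_mem, 1, A.one_mem, 0, A.zero_mem, by ring⟩
  have htN : (t : K) ∈ A := natCast_mem A t
  have hxt : x' + 1 * (t : K) ∈ A := A.add_mem hx'A (A.mul_mem A.one_mem htN)
  obtain ⟨Y1, hY1, hgY1, hw1⟩ := hst g hg c hc ⟨x' + 1 * (t : K), hxt, d, hd, by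
    rw [mul_comm c]; exact hcd⟩
  obtain ⟨Y2, hY2, hgY2, hw2⟩ := hst g hg 1 A.one_mem ⟨1, A.one_mem, 0, A.zero_mem, by ring⟩
  set w1 : K := (c * Y1 - κ ^ 2) / (p : K) with hw1'
  set w2 : K := (1 * Y2 - κ ^ 2) / (p : K) with hw2'
  have ew1 : c * Y1 = κ ^ 2 + (p : K) * w1 := by
    rw [hw1']; field_simp; ring
  have ew2 : Y2 = κ ^ 2 + (p : K) * w2 := by
    rw [hw2']; field_simp; ring
  refine ⟨Y1 - t * Y2, A.sub_mem hY1 (A.mul_mem htN hY2), s2c_sub hgY1 hgY2 t, ?_⟩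
  have key : (x - (Y1 - t * Y2)) / (p : K) = x * t' * κ' * y2 + m * x -
      ((x' + 1 * t) * w1 + d * Y1 - t * w2) := by
    rw [div_eq_iff hp0]
    have ex : x = κ ^ 2 * x' + (p : K) * (x * t' * κ' * y2 + m * x) := by
      have e1 : x = x * t' * T + (p : K) * (m * x) := by linear_combination (-x) * htmK
      have e2 : x * t' * (T : K) = x * t' * κ' * τ ^ 2 := by rw [hTκ]; ring
      rw [e2, eτ2] at e1
      rw [hx']
      linear_combination e1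
    linear_combination ex - (x' + 1 * (t : K)) * ew1 + Y1 * hcd + t * ew2
  rw [key]
  refine A.sub_mem (A.add_mem (A.mul_mem (A.mul_mem (A.mul_mem hx htA) hκ') hy2A)
    (A.mul_mem hmA hx)) (A.sub_mem (A.add_mem (A.mul_mem hxt hw1) (A.mul_mem hd hY1))
    (A.mul_mem htN hw2))

end BoomNF

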