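import Pool.Agent.H.MP_4c7af0_al.NF.S4b
import Pool.Agent.H.MP_4c7af0_al.NF.S4c1

/-! Step 4, parts c and d of the paper (MP_4c7af0_al, number field case): centrality. -/

namespace BoomNF

open NumberField

variable {K : Type*} [Field K] [NumberField K] {A : Subring K}

theorem s4c_level {A : Subring K} {N L : ℕ} (hN : 0 < N) (hL : 0 < L) (h : N ∣ L) :
    (N : K) ≠ 0 ∧ (L : K) ≠ 0 ∧ (L : K) / (N : K) ∈ A := by
  have hN0 : (N : K) ≠ 0 := by exact_mod_cast hN.ne'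
  have hL0 : (L : K) ≠ 0 := by exact_mod_cast hL.ne'
  refine ⟨hN0, hL0, ?_⟩
  obtain ⟨m, rfl⟩ := h
  push_cast
  rw [mul_div_cancel_left₀ _ hN0]
  exact natCast_mem A m

theorem s4c_one : InH A (1 : SL2 K) := by
  intro N hN
  refine ⟨N, hN, dvd_rfl, fun x hx => ⟨?_, ?_⟩⟩
  · rw [one_mul, inv_one, mul_one]
    exact hx
  · rw [one_mul, inv_one, mul_one, mul_inv_cancel]
    exact (Es A (N : K)).one_mem

theorem s4c_dg {M₀ : ℕ} {ε : K} (hT : TComm A M₀ ε) : InH A (dg ε) := by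
  intro N hN
  have hL : 0 < N * M₀ := Nat.mul_pos hN hT.pos
  obtain ⟨hN0, hL0, hNL⟩ := s4c_level (K := K) (A := A) hN hL (Dvd.intro _ rfl)
  refine ⟨N * M₀, hL, Dvd.intro _ rfl, fun x hx => ?_⟩
  have h1 := hT.comm (N * M₀) hL (Dvd.intro_left _ rfl) x hx
  have h2 : dg ε * x * (dg ε)⁻¹ * x⁻¹ ∈ Es A (N : K) := Es_mono hN0 hL0 hNL h1
  refine ⟨?_, h2⟩
  have h3 : dg ε * x * (dg ε)⁻¹ = dg ε * x * (dg ε)⁻¹ * x⁻¹ * x := by group
  rw [h3]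
  exact (GN A (N : K)).mul_mem (Es_le_GN h2) (GN_mono hN0 hL0 hNL hx)

theorem s4c_u (hA : SRing A) {M₀ : ℕ} {ε : K} (hT : TComm A M₀ ε) (z : K) : InH A (u z) := by
  have hε : ε ≠ 0 := hT.ne
  have h1 : (1 : K) - ε ^ 2 ≠ 0 := by
    intro h
    exact hT.pow_ne 2 (by norm_num) (sub_eq_zero.mp h).symm
  obtain ⟨z1, hz1⟩ : ∃ z1, z1 = z / (1 - ε ^ 2) := ⟨_, rfl⟩
  have h2 : InH A (u z1 * dg ε * (u z1)⁻¹ * (dg ε)⁻¹) :=
    hA.InH_mul (hA.InH_conj (s4c_dg hT) (u z1)) (hA.InH_inv (s4c_dg hT))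
  have h3 : u z1 * dg ε * (u z1)⁻¹ * (dg ε)⁻¹ = u z := by
    have e1 : u z1 * dg ε * (u z1)⁻¹ * (dg ε)⁻¹ = u z1 * (dg ε * u (-z1) * (dg ε)⁻¹) := by
      rw [u_inv]
      group
    rw [e1, dg_conj_u hε, u_mul]
    congr 1
    rw [hz1]
    field_simp
    ring
  rwa [h3] at h2

/-- `(4c)`, `(4d)`: every `g ∈ SL₂(K)` is in `InH`. Proof: `dg ε` is in `InH` (`TComm` with
`L = N M₀`: `Es_mono`), so `[u(z₁), dg ε] = u(z₁ (1 - ε²))` is in `InH` by `InH_conj`, `InH_mul`,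
`InH_inv`, for all `z₁ ∈ K`, so all `u(z)`; conjugating by the Weyl element all `v(z)`; `sl2_closure`. -/
theorem SRing.InH_all (hA : SRing A) {M₀ : ℕ} {ε : K} (hT : TComm A M₀ ε) (g : SL2 K) :
    InH A g := by
  have hg := sl2_closure g
  induction hg using Subgroup.closure_induction with
  | mem x hx =>
    rcases hx with ⟨z, rfl⟩ | ⟨z, rfl⟩
    · exact s4c_u hA hT z
    · have h1 := hA.InH_conj (s4c_u hA hT (-z)) wy
      rwa [wy_conj_u, neg_neg] at h1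
  | one => exact s4c_one
  | mul x y _ _ hx hy => exact hA.InH_mul hx hy
  | inv x _ hx => exact hA.InH_inv hx

/-- `(4d)`, second part: `Γ(N)` is central modulo `E*(N)` in `SL₂(A)`, for every `N ≥ 1`. (`deep` with
`L` from `InH_all`; `Es_conj`.) -/
theorem SRing.central (hA : SRing A) {M₀ : ℕ} {ε : K} (hT : TComm A M₀ ε) {N : ℕ} (hN : 0 < N)
    {g : SL2 K} (hg : g ∈ G A) {x : SL2 K} (hx : x ∈ GN A (N : K)) :
    g * x * g⁻¹ * x⁻¹ ∈ Es A (N : K) := by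
  obtain ⟨L, hL, hNL, h⟩ := hA.InH_all hT g N hN
  obtain ⟨hN0, hL0, hdiv⟩ := s4c_level (K := K) (A := A) hN hL hNL
  obtain ⟨x1, hx1, e, he, rfl⟩ := hA.deep (natCast_mem A N) hN0 (natCast_mem A L) hL0 hdiv hx
  have h1 := (h x1 hx1).2
  have h2 : g * e * g⁻¹ * e⁻¹ ∈ Es A (N : K) :=
    (Es A (N : K)).mul_mem (Es_conj hg he) ((Es A (N : K)).inv_mem he)
  have h3 : x1 * (g * e * g⁻¹ * e⁻¹) * x1⁻¹ ∈ Es A (N : K) := Es_conj (GN_le hx1) h2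
  have e1 : g * (x1 * e) * g⁻¹ * (x1 * e)⁻¹ =
      g * x1 * g⁻¹ * x1⁻¹ * (x1 * (g * e * g⁻¹ * e⁻¹) * x1⁻¹) := by group
  rw [e1]
  exact (Es A (N : K)).mul_mem h1 h3

end BoomNF
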