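import Pool.Agent.H.MP_4c7af0_al.NF.Rng1

/-! Rings of `S`-integers (MP_4c7af0_al, number field case). -/

namespace BoomNF

open NumberField IsDedekindDomain

variable {K : Type*} [Field K] [NumberField K]

/-- an element which lies exactly in the primes of `S` -/
theorem sint_exists (S : Set (HeightOneSpectrum (𝓞 K))) (hS : S.Finite) :
    ∃ y : 𝓞 K, y ≠ 0 ∧ ∀ w : HeightOneSpectrum (𝓞 K), y ∈ w.asIdeal ↔ w ∈ S := by
  classical
  set I : Ideal (𝓞 K) := ∏ v ∈ hS.toFinset, v.asIdeal with hI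
  have hI0 : I ≠ 0 := by
    rw [hI, Finset.prod_ne_zero_iff]
    intro v _
    exact v.ne_bot
  have hIm : I ∈ nonZeroDivisors (Ideal (𝓞 K)) := mem_nonZeroDivisors_of_ne_zero hI0
  set h : ℕ := Fintype.card (ClassGroup (𝓞 K)) with hh
  have hh0 : h ≠ 0 := Fintype.card_ne_zero
  have h1 : ClassGroup.mk0 (⟨I, hIm⟩ ^ h) = (1 : ClassGroup (𝓞 K)) := by
    rw [map_pow, hh, pow_card_eq_one]
  have h2 : (I ^ h).IsPrincipal := by
    rw [← ClassGroup.mk0_eq_one_iff (pow_mem hIm h)]
    exact h1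
  obtain ⟨y, hy⟩ := h2.principal
  have hy' : I ^ h = Ideal.span {y} := hy
  refine ⟨y, ?_, fun w => ?_⟩
  · rintro rfl
    rw [Ideal.span_singleton_zero] at hy'
    exact hI0 (pow_eq_zero_iff hh0 |>.1 hy')
  · haveI := w.isPrime
    rw [← Ideal.span_singleton_le_iff_mem, ← hy', Ideal.IsPrime.pow_le_iff hh0, hI,
      Ideal.IsPrime.prod_le w.isPrime]
    constructor
    · rintro ⟨v, hv, hvw⟩
      have h3 : v.asIdeal = w.asIdeal := v.isMaximal.eq_of_le w.isPrime.ne_top hvw
      have h4 : v = w := HeightOneSpectrum.ext h3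
      rw [← h4]
      exact hS.mem_toFinset.1 hv
    · intro hw
      exact ⟨w, hS.mem_toFinset.2 hw, le_rfl⟩

/-- A ring of `S`-integers, `S` finite, is `O_K[1/y]`: let `h` be the class number, `v^h = (y_v)` for
`v ∈ S`, `y = ∏_{v ∈ S} y_v` (`y = 1` if `S = ∅`). An element of `O_K[1/y]` has valuation `≤ 1` outside
`S`, as `y` is a unit there; conversely if `x` has valuation `≤ 1` outside `S` then `x y^k` is integral
at all places for large `k`. -/
theorem sring_integer (S : Set (HeightOneSpectrum (𝓞 K))) (hS : S.Finite) :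
    SRing (S.integer K).toSubring := by
  classical
  obtain ⟨y, hy0, hy⟩ := sint_exists S hS
  refine ⟨⟨y, hy0, fun x => ⟨fun hx => ?_, ?_⟩⟩⟩
  · have hx' : ∀ v : HeightOneSpectrum (𝓞 K), v ∉ S → v.valuation K x ≤ 1 := hx
    by_cases hx0 : x = 0
    · exact ⟨0, 0, by simp [hx0]⟩
    have h1 : ∀ v : HeightOneSpectrum (𝓞 K), v ∈ S →
        ∃ k : ℕ, v.valuation K (algebraMap (𝓞 K) K y) ^ k < (v.valuation K x)⁻¹ := by
      intro v hv
      have h2 : v.valuation K (algebraMap (𝓞 K) K y) < 1 :=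
        (v.valuation_lt_one_iff_mem y).2 ((hy v).2 hv)
      have h3 : (v.valuation K x)⁻¹ ≠ 0 := inv_ne_zero ((Valuation.ne_zero_iff _).2 hx0)
      exact exists_pow_lt₀ h2 (Units.mk0 _ h3)
    choose! k hk using h1
    set m : ℕ := hS.toFinset.sup k with hm
    have h4 : ∀ v : HeightOneSpectrum (𝓞 K),
        v.valuation K (x * (algebraMap (𝓞 K) K y) ^ m) ≤ 1 := by
      intro v
      rw [map_mul, map_pow]
      by_cases hv : v ∈ S
      · have h5 : k v ≤ m := Finset.le_sup (f := k) (hS.mem_toFinset.2 hv)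
        have h6 : v.valuation K (algebraMap (𝓞 K) K y) ^ m ≤
            v.valuation K (algebraMap (𝓞 K) K y) ^ k v :=
          pow_le_pow_right_of_le_one' (v.valuation_le_one y) h5
        have h7 : v.valuation K x ≠ 0 := (Valuation.ne_zero_iff _).2 hx0
        calc v.valuation K x * v.valuation K (algebraMap (𝓞 K) K y) ^ m
            ≤ v.valuation K x * (v.valuation K x)⁻¹ :=
              mul_le_mul_right (h6.trans (hk v hv).le) _
          _ = 1 := mul_inv_cancel₀ h7
      · have h5 : v.valuation K (algebraMap (𝓞 K) K y) = 1 :=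
          v.valuation_eq_one_iff_notMem.2 (fun h => hv ((hy v).1 h))
        rw [h5, one_pow, mul_one]
        exact hx' v hv
    obtain ⟨z, hz⟩ := HeightOneSpectrum.mem_integers_of_valuation_le_one K _ h4
    exact ⟨m, z, hz.symm⟩
  · rintro ⟨k, z, hz⟩
    change ∀ v : HeightOneSpectrum (𝓞 K), v ∉ S → v.valuation K x ≤ 1
    intro v hv
    have h5 : v.valuation K (algebraMap (𝓞 K) K y) = 1 :=
      v.valuation_eq_one_iff_notMem.2 (fun h => hv ((hy v).1 h))
    have h6 : v.valuation K (x * (algebraMap (𝓞 K) K y) ^ k) ≤ 1 := by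
      have : x * (algebraMap (𝓞 K) K y) ^ k = algebraMap (𝓞 K) K z := hz
      rw [this]
      exact v.valuation_le_one z
    rwa [map_mul, map_pow, h5, one_pow, mul_one] at h6

/-- if `S` contains all places above `p` then `1 / p` is an `S`-integer -/
theorem inv_mem_integer (S : Set (HeightOneSpectrum (𝓞 K))) {p : ℕ} (hp : p.Prime)
    (h : ∀ v : HeightOneSpectrum (𝓞 K), ((p : ℕ) : 𝓞 K) ∈ v.asIdeal → v ∈ S) :
    ((p : ℕ) : K)⁻¹ ∈ (S.integer K).toSubring := by
  change ∀ v : HeightOneSpectrum (𝓞 K), v ∉ S → v.valuation K ((p : ℕ) : K)⁻¹ ≤ 1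
  intro v hv
  have h1 : v.valuation K (algebraMap (𝓞 K) K ((p : ℕ) : 𝓞 K)) = 1 :=
    v.valuation_eq_one_iff_notMem.2 (fun h' => hv (h v h'))
  rw [map_natCast] at h1
  rw [map_inv₀, h1, inv_one]

end BoomNF
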